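import Mathlib
import Pool.Agent.W262.RK.AT4
import Pool.Agent.W655.RK.Ep

/-!
# Project RP: sums of products of Jacobi symbols with multiplicative weights, preparations

Adapted from `Pool.Agent.W262.RK.AT1` and `AT2`.
-/

set_option autoImplicit false

namespace Pool.Agent.L7h19.RP

open Finset Pool.Agent.W262.RK

namespace AT

/-- `∏_{p ∣ d} f p` -/
noncomputable def gm (f : ℕ → ℝ) (d : ℕ) : ℝ := ∏ p ∈ d.primeFactors, f p

/-- `∏_{p ∣ d} (1 + B / p)` -/
noncomputable def hq (B d : ℕ) : ℝ := ∏ p ∈ d.primeFactors, (1 + (B : ℝ) / (p : ℝ))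

lemma gm_one (f : ℕ → ℝ) : gm f 1 = 1 := by simp [gm]

lemma one_le_hq (B d : ℕ) : 1 ≤ hq B d := by
  unfold hq
  have : ∀ p ∈ d.primeFactors, (1 : ℝ) ≤ 1 + (B : ℝ) / (p : ℝ) := by
    intro p _
    have : (0 : ℝ) ≤ (B : ℝ) / (p : ℝ) := by positivity
    linarith
  calc (1 : ℝ) = ∏ p ∈ d.primeFactors, (1 : ℝ) := by simp
    _ ≤ _ := prod_le_prod (fun _ _ => zero_le_one) this

lemma hq_nonneg (B d : ℕ) : 0 ≤ hq B d := zero_le_one.trans (one_le_hq B d)

lemma hq_mul_le (B : ℕ) {a b : ℕ} (ha : a ≠ 0) (hb : b ≠ 0) : hq B (a * b) ≤ hq B a * hq B b := by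
  unfold hq
  rw [Nat.primeFactors_mul ha hb]
  have h1 : ∀ p : ℕ, (1 : ℝ) ≤ 1 + (B : ℝ) / (p : ℝ) := by
    intro p
    have : (0 : ℝ) ≤ (B : ℝ) / (p : ℝ) := by positivity
    linarith
  have h2 : (1 : ℝ) ≤ ∏ p ∈ a.primeFactors ∩ b.primeFactors, (1 + (B : ℝ) / (p : ℝ)) := by
    calc (1 : ℝ) = ∏ p ∈ a.primeFactors ∩ b.primeFactors, (1 : ℝ) := by simp
      _ ≤ _ := prod_le_prod (fun _ _ => zero_le_one) fun p _ => h1 p
  have h3 : 0 ≤ ∏ p ∈ a.primeFactors ∪ b.primeFactors, (1 + (B : ℝ) / (p : ℝ)) :=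
    prod_nonneg fun p _ => zero_le_one.trans (h1 p)
  rw [← prod_union_inter]
  exact le_mul_of_one_le_right h3 h2

lemma hq_prod_le (B : ℕ) {α : Type*} (s : Finset α) (f : α → ℕ) (hf : ∀ a ∈ s, f a ≠ 0) :
    hq B (∏ a ∈ s, f a) ≤ ∏ a ∈ s, hq B (f a) := by
  classical
  induction s using Finset.induction_on with
  | empty => simp [hq]
  | insert a s ha ih =>
    rw [prod_insert ha, prod_insert ha]
    have h1 : ∀ b ∈ s, f b ≠ 0 := fun b hb => hf b (mem_insert_of_mem hb)
    refine (hq_mul_le B (hf a (mem_insert_self a s)) (prod_ne_zero_iff.2 h1)).trans ?_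
    exact mul_le_mul_of_nonneg_left (ih h1) (hq_nonneg _ _)

variable {ι : Type} [Fintype ι] [DecidableEq ι]

/-- the bounds used (for fixed `z`) -/
structure Bd (b γ : ι → ℕ → ℝ) (w : ι → ℝ) (z B : ℕ) (C : ℝ) : Prop where
  w0 : ∀ i, 0 < w i
  w1 : ∀ i, w i ≤ 1
  z2 : 2 ≤ z
  C1 : 1 ≤ C
  bγ : ∀ i (p : ℕ), p.Prime → z < p → |b i p| ≤ γ i p
  F1 : ∀ i y, z < y → ∑ d ∈ (PP z y).divisors, gm (γ i) d * hq B d ≤ C * (Real.log y) ^ (w i)
  F2 : ∀ i (y V : ℕ), z < y → 2 ≤ V →
    ∑ d ∈ (PP z y).divisors.filter (fun d => d ≤ V), gm (γ i) d * hq B d ≤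
      C * (Real.log V) ^ (w i)
  F3 : ∀ i (y Y : ℕ), z < y → 1 ≤ Y →
    ∑ d ∈ (PP z y).divisors.filter (fun d => Y < d), gm (γ i) d * hq B d ≤
      C * Real.exp (-(Real.log Y / Real.log y)) * (Real.log y) ^ 2

variable {b γ : ι → ℕ → ℝ} {w : ι → ℝ} {L : ι → ι → Bool} {κ : ι → ℤ} {z B : ℕ} {C : ℝ}

lemma gγ_nonneg (hB : Bd b γ w z B C) (i : ι) {y d : ℕ} (hd : d ∈ (PP z y).divisors) :
    0 ≤ gm (γ i) d := by
  unfold gm
  apply prod_nonneg
  intro p hp
  have hpp := Nat.prime_of_mem_primeFactors hp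
  have h1 := (dv_prime hd hpp (Nat.dvd_of_mem_primeFactors hp)).1
  exact (abs_nonneg _).trans (hB.bγ i p hpp h1)

lemma abs_gb_le (hB : Bd b γ w z B C) (i : ι) {y d : ℕ} (hd : d ∈ (PP z y).divisors) :
    |gm (b i) d| ≤ gm (γ i) d := by
  unfold gm
  rw [abs_prod]
  apply prod_le_prod (fun _ _ => abs_nonneg _)
  intro p hp
  have hpp := Nat.prime_of_mem_primeFactors hp
  have h1 := (dv_prime hd hpp (Nat.dvd_of_mem_primeFactors hp)).1
  exact hB.bγ i p hpp h1

open Classical in
/-- the summand -/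
noncomputable def HH (b : ι → ℕ → ℝ) (L : ι → ι → Bool) (κ : ι → ℤ) (d : ι → ℕ) : ℝ :=
  if (∀ i j, i ≠ j → (d i).Coprime (d j)) then (∏ i, gm (b i) (d i)) * Sym L κ d else 0

lemma total_eq (b : ι → ℕ → ℝ) (L : ι → ι → Bool) (κ : ι → ℤ) (z y : ℕ) :
    ∑ d ∈ Tup ι z y, (∏ i, gm (b i) (d i)) * Sym L κ d =
      ∑ d ∈ Fintype.piFinset (fun _ : ι => (PP z y).divisors), HH b L κ d := by
  unfold Tup HH
  rw [sum_filter]

lemma abs_HH_le (hB : Bd b γ w z B C) {y : ℕ} {d : ι → ℕ} (hd : ∀ i, d i ∈ (PP z y).divisors) :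
    |HH b L κ d| ≤ ∏ i, gm (γ i) (d i) := by
  have h0 : 0 ≤ ∏ i, gm (γ i) (d i) := prod_nonneg fun i _ => gγ_nonneg hB i (hd i)
  unfold HH
  split_ifs
  · rw [abs_mul, abs_prod]
    calc (∏ i, |gm (b i) (d i)|) * |Sym L κ d| ≤ (∏ i, gm (γ i) (d i)) * 1 := by
          apply mul_le_mul (prod_le_prod (fun _ _ => abs_nonneg _) fun i _ => abs_gb_le hB i (hd i))
            (abs_Sym_le _ _ _) (abs_nonneg _) h0
      _ = _ := mul_one _
  · simpa using h0

/-- trivial bound -/
lemma triv (hB : Bd b γ w z B C) {y : ℕ} {t : ι → Finset ℕ} (ht : ∀ i, t i ⊆ (PP z y).divisors) :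
    |∑ d ∈ Fintype.piFinset t, HH b L κ d| ≤ ∏ i, ∑ m ∈ t i, gm (γ i) m := by
  rw [prod_univ_sum]
  refine (abs_sum_le_sum_abs _ _).trans (sum_le_sum fun d hd => ?_)
  rw [Fintype.mem_piFinset] at hd
  exact abs_HH_le hB fun i => ht i (hd i)

/-- the summand as a function of one variable -/
lemma HH_update (i : ι) (hL : L i i = false) (hz : 2 ≤ z) {y : ℕ} {e : ι → ℕ}
    (he : ∀ b, e b ∈ (PP z y).divisors) :
    (∀ m, HH b L κ (Function.update e i m) = 0) ∨
      (∀ a b, a ≠ i → b ≠ i → a ≠ b → (e a).Coprime (e b)) ∧ ∃ t : Bool, ∀ m ∈ (PP z y).divisors,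
      HH b L κ (Function.update e i m) =
        if m.Coprime (∏ b ∈ univ.erase i, e b) then
          ((∏ k ∈ univ.erase i, gm (b k) (e k)) * RR L κ i e) *
            (gm (b i) m * (Jr m (lk L i e) * Jr (κ i) m * x4 t m)) else 0 := by
  classical
  by_cases hcop : ∀ a b, a ≠ i → b ≠ i → a ≠ b → (e a).Coprime (e b)
  · right
    refine ⟨hcop, ?_⟩
    obtain ⟨t, ht⟩ := XX_char L i e (fun b => dv_odd hz (he b))
    refine ⟨t, fun m hm => ?_⟩
    have hiff : m.Coprime (∏ b ∈ univ.erase i, e b) ↔ ∀ b, b ≠ i → m.Coprime (e b) := by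
      rw [Nat.coprime_prod_right_iff]
      simp
    have hiff2 : (∀ a b, a ≠ b → (Function.update e i m a).Coprime (Function.update e i m b)) ↔
        ∀ b, b ≠ i → m.Coprime (e b) := by
      constructor
      · intro h b hb
        have := h i b (Ne.symm hb)
        rwa [Function.update_self, Function.update_of_ne hb] at this
      · intro h a b hab
        by_cases ha : a = i
        · subst ha
          rw [Function.update_self, Function.update_of_ne (Ne.symm hab)]
          exact h b (Ne.symm hab)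
        · by_cases hb : b = i
          · subst hb
            rw [Function.update_self, Function.update_of_ne ha]
            exact (h a ha).symm
          · rw [Function.update_of_ne ha, Function.update_of_ne hb]
            exact hcop a b ha hb hab
    unfold HH
    by_cases h : ∀ b, b ≠ i → m.Coprime (e b)
    · rw [if_pos (hiff2.2 h), if_pos (hiff.2 h), sym_update L κ i hL, ht m (dv_odd hz hm) h,
        ← mul_prod_erase univ _ (mem_univ i), Function.update_self]
      have : ∏ k ∈ univ.erase i, gm (b k) (Function.update e i m k) =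
          ∏ k ∈ univ.erase i, gm (b k) (e k) := by
        apply prod_congr rfl
        intro b hb
        rw [Function.update_of_ne (mem_erase.1 hb).1]
      rw [this]
      ring
    · rw [if_neg (fun h' => h (hiff2.1 h')), if_neg (fun h' => h (hiff.1 h'))]
  · left
    intro m
    unfold HH
    rw [if_neg]
    intro h
    apply hcop
    intro a b ha hb hab
    have := h a b hab
    rwa [Function.update_of_ne ha, Function.update_of_ne hb] at this

lemma gm_le_hq (hB : Bd b γ w z B C) (i : ι) {y m : ℕ} (hm : m ∈ (PP z y).divisors) :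
    gm (γ i) m ≤ gm (γ i) m * hq B m :=
  le_mul_of_one_le_right (gγ_nonneg hB i hm) (one_le_hq B m)

/-- the sum over one large variable with a nonprincipal character -/
lemma inner (hB : Bd b γ w z B C) (i : ι) (hL : L i i = false) {y V Y : ℕ} (hy : z < y) (hV : 2 ≤ V)
    (hVY : V ≤ Y) {e : ι → ℕ} (he : ∀ b, e b ∈ (PP z y).divisors) {Eb : ℝ} (hEb : 0 ≤ Eb)
    (hE : Squarefree (lk L i e) → ∀ (t : Bool) (R : ℕ), R ≠ 0 →
      |∑ d ∈ (PP z y).divisors.filter (fun d => d.Coprime R),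
        gm (b i) d * (Jr d (lk L i e) * Jr (κ i) d * x4 t d)| ≤ Eb * hq B R) :
    |∑ m ∈ (PP z y).divisors.filter (fun m => V < m ∧ m ≤ Y), HH b L κ (Function.update e i m)| ≤
      (∏ k ∈ univ.erase i, gm (γ k) (e k) * hq B (e k)) *
        (Eb + C * (Real.log V) ^ (w i) +
          C * Real.exp (-(Real.log Y / Real.log y)) * (Real.log y) ^ 2) := by
  have hC0 : 0 ≤ C := zero_le_one.trans hB.C1
  have hV' : 0 ≤ Real.log V := Real.log_natCast_nonneg V
  have hP0 : 0 ≤ ∏ k ∈ univ.erase i, gm (γ k) (e k) * hq B (e k) :=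
    prod_nonneg fun b _ => mul_nonneg (gγ_nonneg hB b (he b)) (hq_nonneg _ _)
  have hB0 : 0 ≤ Eb + C * (Real.log V) ^ (w i) +
      C * Real.exp (-(Real.log Y / Real.log y)) * (Real.log y) ^ 2 := by positivity
  rcases HH_update (b := b) (κ := κ) i hL hB.z2 he with h | ⟨hcop, t, ht⟩
  · rw [sum_eq_zero fun m _ => h m, abs_zero]
    exact mul_nonneg hP0 hB0
  · set R := ∏ b ∈ univ.erase i, e b with hR
    set P := ∏ k ∈ univ.erase i, gm (b k) (e k) with hP
    set P' := ∏ k ∈ univ.erase i, gm (γ k) (e k) with hP'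
    set f : ℕ → ℝ := fun m => gm (b i) m * (Jr m (lk L i e) * Jr (κ i) m * x4 t m) with hf
    have hPn : |P| ≤ P' := by
      rw [hP, hP', abs_prod]
      exact prod_le_prod (fun _ _ => abs_nonneg _) fun k _ => abs_gb_le hB k (he k)
    have hRne : R ≠ 0 := prod_ne_zero_iff.2 fun b _ => dv_ne_zero (he b)
    have h1 : ∑ m ∈ (PP z y).divisors.filter (fun m => V < m ∧ m ≤ Y),
        HH b L κ (Function.update e i m) =
        P * RR L κ i e * ∑ m ∈ ((PP z y).divisors.filter (fun m => m.Coprime R)).filter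
          (fun m => V < m ∧ m ≤ Y), f m := by
      rw [filter_filter, mul_sum]
      have h2 : (PP z y).divisors.filter (fun m => m.Coprime R ∧ V < m ∧ m ≤ Y) =
          ((PP z y).divisors.filter (fun m => V < m ∧ m ≤ Y)).filter (fun m => m.Coprime R) := by
        rw [filter_filter]
        apply filter_congr
        intro m _
        tauto
      rw [h2]
      symm
      rw [sum_filter]
      apply sum_congr rfl
      intro m hm
      rw [ht m (mem_filter.1 hm).1]
    set D := (PP z y).divisors.filter (fun m => m.Coprime R) with hD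
    have hDs : D ⊆ (PP z y).divisors := filter_subset _ _
    have h3 : ∑ m ∈ D.filter (fun m => V < m ∧ m ≤ Y), f m =
        ∑ m ∈ D, f m - ∑ m ∈ D.filter (fun m => m ≤ V), f m - ∑ m ∈ D.filter (fun m => Y < m), f m := by
      have e1 : ∑ m ∈ D.filter (fun m => V < m ∧ m ≤ Y), f m + ∑ m ∈ D.filter (fun m => Y < m), f m =
          ∑ m ∈ D.filter (fun m => ¬ m ≤ V), f m := by
        rw [← sum_union]
        · apply sum_congr _ (fun _ _ => rfl)
          ext m
          simp only [mem_union, mem_filter]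
          constructor
          · rintro (⟨h1, h2, h3⟩ | ⟨h1, h2⟩)
            · exact ⟨h1, by omega⟩
            · exact ⟨h1, by omega⟩
          · rintro ⟨h1, h2⟩
            by_cases h3 : m ≤ Y
            · exact Or.inl ⟨h1, by omega, h3⟩
            · exact Or.inr ⟨h1, by omega⟩
        · rw [disjoint_filter]
          intro m _ h1 h2
          omega
      have e2 := sum_filter_add_sum_filter_not D (fun m => m ≤ V) f
      linarith
    have hfa : ∀ m ∈ (PP z y).divisors, |f m| ≤ gm (γ i) m * hq B m := by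
      intro m hm
      have g0 := gγ_nonneg hB i hm
      rw [hf]
      simp only
      rw [abs_mul]
      have : |Jr m (lk L i e) * Jr (κ i) m * x4 t m| ≤ 1 := by
        rw [abs_mul, abs_mul]
        exact mul_le_one₀ (mul_le_one₀ (abs_Jr_le _ _) (abs_nonneg _) (abs_Jr_le _ _)) (abs_nonneg _)
          (abs_x4_le _ _)
      calc |gm (b i) m| * |Jr m (lk L i e) * Jr (κ i) m * x4 t m| ≤ gm (γ i) m * 1 :=
            mul_le_mul (abs_gb_le hB i hm) this (abs_nonneg _) g0
        _ ≤ gm (γ i) m * hq B m := mul_le_mul_of_nonneg_left (one_le_hq B m) g0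
    have hnn : ∀ m ∈ (PP z y).divisors, 0 ≤ gm (γ i) m * hq B m := fun m hm =>
      mul_nonneg (gγ_nonneg hB i hm) (hq_nonneg _ _)
    have h4 : |∑ m ∈ D.filter (fun m => m ≤ V), f m| ≤ C * (Real.log V) ^ (w i) := by
      refine (abs_sum_le_sum_abs _ _).trans ?_
      refine le_trans ?_ (hB.F2 i y V hy hV)
      calc ∑ m ∈ D.filter (fun m => m ≤ V), |f m| ≤ ∑ m ∈ D.filter (fun m => m ≤ V),
            gm (γ i) m * hq B m := sum_le_sum fun m hm => hfa m (hDs (mem_filter.1 hm).1)
        _ ≤ _ := sum_le_sum_of_subset_of_nonneg (filter_subset_filter _ hDs)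
          fun m hm _ => hnn m (mem_filter.1 hm).1
    have h5 : |∑ m ∈ D.filter (fun m => Y < m), f m| ≤
        C * Real.exp (-(Real.log Y / Real.log y)) * (Real.log y) ^ 2 := by
      refine (abs_sum_le_sum_abs _ _).trans ?_
      refine le_trans ?_ (hB.F3 i y Y hy (by omega))
      calc ∑ m ∈ D.filter (fun m => Y < m), |f m| ≤ ∑ m ∈ D.filter (fun m => Y < m),
            gm (γ i) m * hq B m := sum_le_sum fun m hm => hfa m (hDs (mem_filter.1 hm).1)
        _ ≤ _ := sum_le_sum_of_subset_of_nonneg (filter_subset_filter _ hDs)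
          fun m hm _ => hnn m (mem_filter.1 hm).1
    have hsq : Squarefree (lk L i e) := by
      unfold lk
      apply Pool.Agent.W262.RK.AT.squarefree_prod
      · intro b _
        exact dv_squarefree (he b)
      · intro a ha b hb hab
        exact hcop a b (mem_erase.1 (mem_filter.1 ha).1).1 (mem_erase.1 (mem_filter.1 hb).1).1 hab
    have h6 : |∑ m ∈ D, f m| ≤ Eb * hq B R := hE hsq t R hRne
    have h7 : hq B R ≤ ∏ b ∈ univ.erase i, hq B (e b) :=
      hq_prod_le _ _ _ fun b _ => dv_ne_zero (he b)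
    have h8 : (1 : ℝ) ≤ ∏ b ∈ univ.erase i, hq B (e b) := by
      calc (1 : ℝ) = ∏ b ∈ univ.erase i, (1 : ℝ) := by simp
        _ ≤ _ := prod_le_prod (fun _ _ => zero_le_one) fun b _ => one_le_hq _ _
    have hRR := abs_RR_le L κ i e
    rw [h1, abs_mul, abs_mul, prod_mul_distrib]
    set H := ∏ b ∈ univ.erase i, hq B (e b) with hH
    have h9 : |∑ m ∈ D.filter (fun m => V < m ∧ m ≤ Y), f m| ≤
        H * (Eb + C * (Real.log V) ^ (w i) +
          C * Real.exp (-(Real.log Y / Real.log y)) * (Real.log y) ^ 2) := by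
      rw [h3]
      have a1 : |∑ m ∈ D, f m - ∑ m ∈ D.filter (fun m => m ≤ V), f m -
          ∑ m ∈ D.filter (fun m => Y < m), f m| ≤ |∑ m ∈ D, f m| +
          |∑ m ∈ D.filter (fun m => m ≤ V), f m| + |∑ m ∈ D.filter (fun m => Y < m), f m| := by
        refine (abs_sub _ _).trans ?_
        have := abs_sub (∑ m ∈ D, f m) (∑ m ∈ D.filter (fun m => m ≤ V), f m)
        linarith
      have b2 : 0 ≤ C * (Real.log V) ^ (w i) := by positivity
      have b3 : 0 ≤ C * Real.exp (-(Real.log Y / Real.log y)) * (Real.log y) ^ 2 := by positivity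
      have a2 : |∑ m ∈ D, f m| ≤ H * Eb := by
        refine h6.trans ?_
        rw [mul_comm]
        exact mul_le_mul_of_nonneg_right h7 hEb
      have a3 := le_mul_of_one_le_left b2 h8
      have a4 := le_mul_of_one_le_left b3 h8
      calc _ ≤ _ := a1
        _ ≤ H * Eb + H * (C * (Real.log V) ^ (w i)) +
            H * (C * Real.exp (-(Real.log Y / Real.log y)) * (Real.log y) ^ 2) := by linarith
        _ = _ := by ring
    have hP'0 : 0 ≤ P' := (abs_nonneg _).trans hPn
    calc |P| * |RR L κ i e| * |∑ m ∈ D.filter (fun m => V < m ∧ m ≤ Y), f m|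
        ≤ P' * 1 * (H * (Eb + C * (Real.log V) ^ (w i) +
          C * Real.exp (-(Real.log Y / Real.log y)) * (Real.log y) ^ 2)) := by
          apply mul_le_mul (mul_le_mul hPn hRR (abs_nonneg _) hP'0) h9 (abs_nonneg _)
          positivity
      _ = _ := by ring

end AT

end Pool.Agent.L7h19.RP
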