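import Mathlib
import Pool.Agent.L7h19.RP.A3

/-!
# Project RP: sums of products of Jacobi symbols with multiplicative weights, exceptional moduli
-/

set_option autoImplicit false

namespace Pool.Agent.L7h19.RP

open Finset Pool.Agent.W262.RK

namespace AT

variable {ι : Type} [Fintype ι] [DecidableEq ι]

variable {b γ : ι → ℕ → ℝ} {w : ι → ℝ} {L : ι → ι → Bool} {κ : ι → ℤ} {z B : ℕ} {C : ℝ}

open Pool.Agent.W262.RK.AT (lg VV YY cl cell cell_sub cell_zero cell_one cell_two cell_three
  three_le_VV VV_le_YY one_le_log_VV VV_ge log_YY_ge log_YY_le log_VV_pow_le exp_neg_pow patterns)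

lemma sum_bU_le {α β : Type*} [DecidableEq α] [DecidableEq β] (s : Finset α) (t : α → Finset β)
    (f : β → ℝ) (hf : ∀ a ∈ s, ∀ x ∈ t a, 0 ≤ f x) :
    ∑ x ∈ s.biUnion t, f x ≤ ∑ a ∈ s, ∑ x ∈ t a, f x := by
  induction s using Finset.induction_on with
  | empty => simp
  | insert a s ha ih =>
    rw [biUnion_insert, sum_insert ha]
    have h1 := ih (fun a' ha' => hf a' (mem_insert_of_mem ha'))
    have h2 : ∑ x ∈ t a ∪ s.biUnion t, f x ≤ ∑ x ∈ t a, f x + ∑ x ∈ s.biUnion t, f x := by
      rw [← sum_union_inter]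
      refine le_add_of_nonneg_right (sum_nonneg fun x hx => ?_)
      exact hf a (mem_insert_self a s) x (mem_inter.1 hx).1
    linarith

lemma mem_Tup' {z y : ℕ} {d : ι → ℕ} : d ∈ Tup ι z y ↔
    (∀ k, d k ∈ (PP z y).divisors) ∧ ∀ i j, i ≠ j → (d i).Coprime (d j) := by
  unfold Tup
  rw [mem_filter, Fintype.mem_piFinset]

lemma primeFactors_prod_tup {z y : ℕ} {e : ι → ℕ} (he : e ∈ Tup ι z y) :
    (∏ k, e k).primeFactors = univ.biUnion (fun k => (e k).primeFactors) := by
  have h0 : ∀ k, e k ≠ 0 := fun k => dv_ne_zero ((mem_Tup'.1 he).1 k)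
  ext p
  rw [mem_biUnion, Nat.mem_primeFactors]
  constructor
  · rintro ⟨hp, hd, _⟩
    obtain ⟨j, _, hj⟩ := (Prime.dvd_finsetProd_iff hp.prime _).1 hd
    exact ⟨j, mem_univ _, Nat.mem_primeFactors.2 ⟨hp, hj, h0 j⟩⟩
  · rintro ⟨j, _, hj⟩
    exact ⟨Nat.prime_of_mem_primeFactors hj,
      (Nat.dvd_of_mem_primeFactors hj).trans (dvd_prod_of_mem e (mem_univ j)),
      prod_ne_zero_iff.2 fun j _ => h0 j⟩

open Classical in
/-- the number of the factorisations -/
lemma card_fact (z y m : ℕ) :
    ((Tup ι z y).filter (fun e => ∏ k, e k = m)).card ≤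
      (Fintype.card ι) ^ (m.primeFactors.card) := by
  rcases isEmpty_or_nonempty ι with hι | hι
  · -- no index
    have h1 : ((Tup ι z y).filter (fun e => ∏ k, e k = m)).card ≤ 1 := by
      rw [card_le_one]
      intro a _ b _
      exact Subsingleton.elim a b
    rcases Nat.eq_zero_or_pos m.primeFactors.card with h | h
    · rw [h, pow_zero]; exact h1
    · have h2 : (Tup ι z y).filter (fun e => ∏ k, e k = m) = ∅ := by
        rw [filter_eq_empty_iff]
        intro e _ he
        rw [Fintype.prod_empty] at he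
        rw [← he] at h
        simp at h
      rw [h2, card_empty]
      exact Nat.zero_le _
  have hcard : Fintype.card ({p // p ∈ m.primeFactors} → ι) =
      (Fintype.card ι) ^ (m.primeFactors.card) := by
    rw [Fintype.card_fun, Fintype.card_coe]
  rw [← hcard, ← card_univ]
  have hex : ∀ e ∈ (Tup ι z y).filter (fun e => ∏ k, e k = m), ∀ p : {p // p ∈ m.primeFactors},
      ∃ k, (p : ℕ) ∣ e k := by
    intro e he p
    rw [mem_filter] at he
    have h1 : (p : ℕ) ∣ ∏ k, e k := by rw [he.2]; exact Nat.dvd_of_mem_primeFactors p.2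
    obtain ⟨k, _, hk⟩ := (Prime.dvd_finsetProd_iff
      (Nat.prime_of_mem_primeFactors p.2).prime _).1 h1
    exact ⟨k, hk⟩
  refine card_le_card_of_injOn (fun e p => if h : ∃ k, (p : ℕ) ∣ e k then h.choose
    else Classical.arbitrary ι) (fun _ _ => mem_coe.2 (mem_univ _)) ?_
  have hkey : ∀ e ∈ (Tup ι z y).filter (fun e => ∏ k, e k = m), ∀ k,
      (e k).primeFactors = (m.primeFactors).filter (fun p => ∃ hp : p ∈ m.primeFactors,
        (fun p : {p // p ∈ m.primeFactors} => if h : ∃ k, (p : ℕ) ∣ e k then h.choose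
          else Classical.arbitrary ι) ⟨p, hp⟩ = k) := by
    intro e he k
    have he1 := mem_filter.1 he
    have hT := mem_Tup'.1 he1.1
    ext p
    rw [mem_filter]
    constructor
    · intro hp
      have hpm : p ∈ m.primeFactors := by
        rw [← he1.2, primeFactors_prod_tup he1.1]
        exact mem_biUnion.2 ⟨k, mem_univ k, hp⟩
      refine ⟨hpm, hpm, ?_⟩
      have hex' : ∃ k, p ∣ e k := ⟨k, Nat.dvd_of_mem_primeFactors hp⟩
      simp only [dif_pos hex']
      by_contra hne
      have h3 := hT.2 _ _ hne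
      have h4 : p ∣ Nat.gcd (e hex'.choose) (e k) :=
        Nat.dvd_gcd hex'.choose_spec (Nat.dvd_of_mem_primeFactors hp)
      rw [h3] at h4
      exact (Nat.prime_of_mem_primeFactors hp).one_lt.ne' (Nat.dvd_one.1 h4)
    · rintro ⟨hpm, _, hk⟩
      have hex' := hex e he ⟨p, hpm⟩
      simp only at hk hex'
      rw [dif_pos hex'] at hk
      have h5 := hex'.choose_spec
      rw [hk] at h5
      exact Nat.mem_primeFactors.2 ⟨Nat.prime_of_mem_primeFactors hpm, h5, dv_ne_zero (hT.1 k)⟩
  intro e he e' he' heq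
  have he0 := mem_coe.1 he
  have he0' := mem_coe.1 he'
  funext k
  have h1 := hkey e he0 k
  have h2 := hkey e' he0' k
  have h3 : (e k).primeFactors = (e' k).primeFactors := by
    rw [h1, h2]
    apply filter_congr
    intro p _
    constructor
    · rintro ⟨hp, h⟩
      exact ⟨hp, by rw [← h]; exact (congrFun heq ⟨p, hp⟩).symm⟩
    · rintro ⟨hp, h⟩
      exact ⟨hp, by rw [← h]; exact congrFun heq ⟨p, hp⟩⟩
  have hs := dv_squarefree ((mem_Tup'.1 (mem_filter.1 he0).1).1 k)
  have hs' := dv_squarefree ((mem_Tup'.1 (mem_filter.1 he0').1).1 k)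
  rw [← Nat.prod_primeFactors_of_squarefree hs, h3, Nat.prod_primeFactors_of_squarefree hs']

open Classical in
/-- the total weight of the factorisations of `m` -/
lemma fact_le (hB : Bd b γ w z B C) {g : ℝ} (hg : 0 ≤ g)
    (hγg : ∀ i (p : ℕ), p.Prime → z < p → γ i p ≤ g / p) (hz : Fintype.card ι * g ≤ z)
    (y m : ℕ) :
    ∑ e ∈ (Tup ι z y).filter (fun e => ∏ k, e k = m), ∏ k, gm (γ k) (e k) ≤ 1 := by
  by_cases hne : ((Tup ι z y).filter (fun e => ∏ k, e k = m)).Nonempty
  swap
  · rw [not_nonempty_iff_eq_empty.1 hne, sum_empty]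
    exact zero_le_one
  obtain ⟨e0, he0⟩ := hne
  have hprime : ∀ p ∈ m.primeFactors, z < p := by
    intro p hp
    have h1 := mem_filter.1 he0
    rw [← h1.2, primeFactors_prod_tup h1.1] at hp
    obtain ⟨k, _, hk⟩ := mem_biUnion.1 hp
    exact (dv_prime ((mem_Tup'.1 h1.1).1 k) (Nat.prime_of_mem_primeFactors hk)
      (Nat.dvd_of_mem_primeFactors hk)).1
  have hterm : ∀ e ∈ (Tup ι z y).filter (fun e => ∏ k, e k = m),
      ∏ k, gm (γ k) (e k) ≤ ∏ p ∈ m.primeFactors, g / (p : ℝ) := by
    intro e he
    have h1 := mem_filter.1 he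
    have hT := mem_Tup'.1 h1.1
    have h2 : ∏ p ∈ m.primeFactors, g / (p : ℝ) = ∏ k, ∏ p ∈ (e k).primeFactors, g / (p : ℝ) := by
      rw [← h1.2, primeFactors_prod_tup h1.1, prod_biUnion]
      intro i _ j _ hij
      exact Nat.Coprime.disjoint_primeFactors (hT.2 i j hij)
    rw [h2]
    refine prod_le_prod (fun k _ => gγ_nonneg hB k (hT.1 k)) fun k _ => ?_
    unfold gm
    apply prod_le_prod
    · intro p hp
      have hpp := Nat.prime_of_mem_primeFactors hp
      have h5 := (dv_prime (hT.1 k) hpp (Nat.dvd_of_mem_primeFactors hp)).1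
      exact (abs_nonneg _).trans (hB.bγ k p hpp h5)
    · intro p hp
      have hpp := Nat.prime_of_mem_primeFactors hp
      have h5 := (dv_prime (hT.1 k) hpp (Nat.dvd_of_mem_primeFactors hp)).1
      exact hγg k p hpp h5
  have hP0 : 0 ≤ ∏ p ∈ m.primeFactors, g / (p : ℝ) := prod_nonneg fun p _ => by positivity
  calc ∑ e ∈ (Tup ι z y).filter (fun e => ∏ k, e k = m), ∏ k, gm (γ k) (e k)
      ≤ ∑ e ∈ (Tup ι z y).filter (fun e => ∏ k, e k = m), ∏ p ∈ m.primeFactors, g / (p : ℝ) :=
        sum_le_sum hterm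
    _ = ((Tup ι z y).filter (fun e => ∏ k, e k = m)).card * ∏ p ∈ m.primeFactors, g / (p : ℝ) := by
        rw [sum_const, nsmul_eq_mul]
    _ ≤ ((Fintype.card ι) ^ (m.primeFactors.card) : ℕ) * ∏ p ∈ m.primeFactors, g / (p : ℝ) := by
        apply mul_le_mul_of_nonneg_right _ hP0
        exact_mod_cast card_fact z y m
    _ = ∏ p ∈ m.primeFactors, ((Fintype.card ι : ℝ) * (g / (p : ℝ))) := by
        rw [prod_mul_distrib, prod_const]
        push_cast
        ring
    _ ≤ 1 := by
        apply prod_le_one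
        · intro p _
          positivity
        · intro p hp
          have h1 := hprime p hp
          have h2 : (z : ℝ) < p := by exact_mod_cast h1
          have h3 : (0 : ℝ) < p := lt_of_le_of_lt (Nat.cast_nonneg z) h2
          rw [← mul_div_assoc, div_le_one h3]
          linarith

open Classical in
/-- the exceptional small variables -/
lemma bad_case (hB : Bd b γ w z B C) {g : ℝ} (hg : 0 ≤ g)
    (hγg : ∀ i (p : ℕ), p.Prime → z < p → γ i p ≤ g / p) (hz : Fintype.card ι * g ≤ z)
    (rx : ι → Bool → ℕ → ℕ) (A : ℕ) {K : ℝ} (π : ι → Fin 4) (h3 : ∀ k, π k ≠ 3)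
    (hun : ∀ i k, π i = 2 → π k = 2 → L i k = L k i)
    (hlk : ∀ j, π j = 1 → ∃ i, π i = 2 ∧ L i j ≠ L j i)
    (hK : ∑ k ∈ univ.filter (fun k => π k = 2), w k ≤ K) :
    ∃ C' : ℝ, 0 ≤ C' ∧ ∀ y, z < y →
      |∑ d ∈ (Fintype.piFinset
        (fun b => cell z y (VV A (Real.log y)) (YY A (Real.log y)) (π b))).filter
        (fun d => ∀ i, π i = 2 → ¬ (1 < lk L i d ∧ ∀ t, lk L i d ≠ rx i t y)),
        HH b L κ d| ≤ C' * (Real.log y) ^ K := by
  have hC0 : 0 ≤ C := zero_le_one.trans hB.C1
  set M := Fintype.card ι with hM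
  refine ⟨C ^ M * (2 ^ (Fintype.card (ι × Bool)) : ℕ), by positivity, fun y hy => ?_⟩
  have hly := one_le_log hB.z2 hy
  have hly0 : 0 < Real.log y := by linarith
  set l := Real.log y with hl
  set V := VV A l with hV
  set Y := YY A l with hY
  set S := ∑ k ∈ univ.filter (fun k => π k = 2), w k with hS
  set P := Fintype.piFinset (fun b => cell z y V Y (π b)) with hP
  set Bad : (ι → ℕ) → Prop :=
    fun d => ∀ i, π i = 2 → ¬ (1 < lk L i d ∧ ∀ t, lk L i d ≠ rx i t y) with hBad
  set Q := P.filter (fun d => Bad d ∧ ∀ i j, i ≠ j → (d i).Coprime (d j)) with hQ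
  have hPd : ∀ d ∈ P, ∀ k, d k ∈ (PP z y).divisors := fun d hd k =>
    cell_sub _ _ _ _ _ (Fintype.mem_piFinset.1 hd k)
  -- reduction to the coprime tuples
  have e1 : |∑ d ∈ P.filter Bad, HH b L κ d| ≤ ∑ d ∈ Q, ∏ k, gm (γ k) (d k) := by
    have h1 : ∑ d ∈ P.filter Bad, HH b L κ d = ∑ d ∈ Q, HH b L κ d := by
      symm
      apply sum_subset
      · intro d hd
        rw [hQ, mem_filter] at hd
        exact mem_filter.2 ⟨hd.1, hd.2.1⟩
      · intro d hd hn
        unfold HH
        rw [if_neg]
        intro h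
        exact hn (mem_filter.2 ⟨(mem_filter.1 hd).1, (mem_filter.1 hd).2, h⟩)
    rw [h1]
    refine (abs_sum_le_sum_abs _ _).trans (sum_le_sum fun d hd => ?_)
    exact abs_HH_le hB (hPd d (mem_filter.1 hd).1)
  refine e1.trans ?_
  -- the projection
  set pj : (ι → ℕ) → (ι → ℕ) := fun d k => if π k = 2 then 1 else d k with hpj
  rw [← sum_fiberwise_of_maps_to (s := Q) (t := Q.image pj) (g := pj)
    (fun d hd => mem_image_of_mem pj hd)]
  have e2 : ∀ e ∈ Q.image pj, ∑ d ∈ Q.filter (fun d => pj d = e), ∏ k, gm (γ k) (d k) ≤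
      C ^ M * l ^ S * ∏ k, gm (γ k) (e k) := by
    intro e he
    obtain ⟨d0, hd0, rfl⟩ := mem_image.1 he
    have hd0P := (mem_filter.1 hd0).1
    have hsub : Q.filter (fun d => pj d = pj d0) ⊆
        Fintype.piFinset (fun k => if π k = 2 then cell z y V Y (π k) else {pj d0 k}) := by
      intro d hd
      rw [mem_filter] at hd
      rw [Fintype.mem_piFinset]
      intro k
      by_cases hk : π k = 2
      · rw [if_pos hk]
        exact Fintype.mem_piFinset.1 (mem_filter.1 hd.1).1 k
      · rw [if_neg hk, mem_singleton, ← hd.2, hpj]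
        simp only
        rw [if_neg hk]
    have hmemd : ∀ d ∈ Fintype.piFinset
        (fun k => if π k = 2 then cell z y V Y (π k) else {pj d0 k}), ∀ k,
        d k ∈ (PP z y).divisors := by
      intro d hd k
      have h1 := Fintype.mem_piFinset.1 hd k
      by_cases hk : π k = 2
      · rw [if_pos hk] at h1
        exact cell_sub _ _ _ _ _ h1
      · rw [if_neg hk, mem_singleton] at h1
        rw [h1, hpj]
        simp only
        rw [if_neg hk]
        exact hPd d0 hd0P k
    calc ∑ d ∈ Q.filter (fun d => pj d = pj d0), ∏ k, gm (γ k) (d k)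
        ≤ ∑ d ∈ Fintype.piFinset
            (fun k => if π k = 2 then cell z y V Y (π k) else {pj d0 k}), ∏ k, gm (γ k) (d k) :=
          sum_le_sum_of_subset_of_nonneg hsub fun d hd _ =>
            prod_nonneg fun k _ => gγ_nonneg hB k (hmemd d hd k)
      _ = ∏ k, ∑ m ∈ (if π k = 2 then cell z y V Y (π k) else {pj d0 k}), gm (γ k) m := by
          rw [prod_univ_sum]
      _ ≤ ∏ k, ((if π k = 2 then C * l ^ (w k) else 1) * gm (γ k) (pj d0 k)) := by
          apply prod_le_prod
          · intro k _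
            apply sum_nonneg
            intro m hm
            by_cases hk : π k = 2
            · rw [if_pos hk] at hm
              exact gγ_nonneg hB k (cell_sub _ _ _ _ _ hm)
            · rw [if_neg hk, mem_singleton] at hm
              rw [hm, hpj]
              simp only
              rw [if_neg hk]
              exact gγ_nonneg hB k (hPd d0 hd0P k)
          · intro k _
            by_cases hk : π k = 2
            · simp only [if_pos hk]
              have h6 : pj d0 k = 1 := by rw [hpj]; simp only; rw [if_pos hk]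
              rw [h6, gm_one, mul_one]
              calc ∑ m ∈ cell z y V Y (π k), gm (γ k) m ≤
                    ∑ m ∈ cell z y V Y (π k), gm (γ k) m * hq B m :=
                    sum_le_sum fun m hm => gm_le_hq hB k (cell_sub _ _ _ _ _ hm)
                _ ≤ ∑ m ∈ (PP z y).divisors, gm (γ k) m * hq B m :=
                    sum_le_sum_of_subset_of_nonneg (cell_sub _ _ _ _ _)
                      fun m hm _ => gh_nonneg hB k hm
                _ ≤ _ := hB.F1 k y hy
            · simp only [if_neg hk, sum_singleton, one_mul]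
              exact le_rfl
      _ = (∏ k ∈ univ.filter (fun k => π k = 2), C * l ^ (w k)) *
            ∏ k, gm (γ k) (pj d0 k) := by
          rw [prod_mul_distrib, prod_ite, prod_const_one, mul_one]
      _ ≤ C ^ M * l ^ S * ∏ k, gm (γ k) (pj d0 k) := by
          apply mul_le_mul_of_nonneg_right
          · rw [prod_mul_distrib, prod_const, ← Real.rpow_sum_of_pos hly0]
            apply mul_le_mul_of_nonneg_right _ (by positivity)
            exact pow_le_pow_right₀ hB.C1 ((card_le_card (subset_univ _)).trans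
              (le_of_eq card_univ))
          · refine prod_nonneg fun k _ => ?_
            by_cases hk : π k = 2
            · have h6 : pj d0 k = 1 := by rw [hpj]; simp only; rw [if_pos hk]
              rw [h6, gm_one]
              exact zero_le_one
            · have h6 : pj d0 k = d0 k := by rw [hpj]; simp only; rw [if_neg hk]
              rw [h6]
              exact gγ_nonneg hB k (hPd d0 hd0P k)
  refine (sum_le_sum e2).trans ?_
  rw [← mul_sum]
  -- the possible products
  set mF : Finset (ι × Bool) → ℕ := fun F =>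
    ∏ p ∈ (F.biUnion (fun x => (rx x.1 x.2 y).primeFactors)).filter (fun p => p ∈ PS z y), p with hmF
  have hTup : ∀ e ∈ Q.image pj, e ∈ Tup ι z y := by
    intro e he
    obtain ⟨d, hd, rfl⟩ := mem_image.1 he
    obtain ⟨hdP, -, hcop⟩ := mem_filter.1 hd
    refine mem_Tup'.2 ⟨fun k => ?_, fun i j hij => ?_⟩
    · rw [hpj]
      simp only
      split_ifs
      · exact one_mem_dv z y
      · exact hPd d hdP k
    · rw [hpj]
      simp only
      split_ifs
      · exact Nat.coprime_one_left _
      · exact Nat.coprime_one_left _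
      · exact Nat.coprime_one_right _
      · exact hcop i j hij
  have hprod : ∀ e ∈ Q.image pj, ∃ F : Finset (ι × Bool), ∏ k, e k = mF F := by
    intro e he
    have heT := hTup e he
    obtain ⟨d, hd, hde⟩ := mem_image.1 he
    obtain ⟨hdP, hbad, hcop⟩ := mem_filter.1 hd
    have hek : ∀ k, π k ≠ 2 → e k = d k := fun k hk => by
      rw [← hde, hpj]; simp only; rw [if_neg hk]
    have hek2 : ∀ k, π k = 2 → e k = 1 := fun k hk => by
      rw [← hde, hpj]; simp only; rw [if_pos hk]
    have hlkd : ∀ i, π i = 2 → lk L i d = lk L i e := by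
      intro i hi
      unfold lk
      refine prod_congr rfl fun k hk => ?_
      rw [mem_filter] at hk
      exact (hek k (fun h => hk.2 (hun i k hi h))).symm
    set F : Finset (ι × Bool) := univ.filter
      (fun x => π x.1 = 2 ∧ 1 < lk L x.1 d ∧ lk L x.1 d = rx x.1 x.2 y) with hF
    refine ⟨F, ?_⟩
    have hsqe : Squarefree (∏ k, e k) := by
      apply Pool.Agent.W262.RK.AT.squarefree_prod
      · intro k _
        exact dv_squarefree ((mem_Tup'.1 heT).1 k)
      · intro i _ j _ hij
        exact (mem_Tup'.1 heT).2 i j hij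
    rw [← Nat.prod_primeFactors_of_squarefree hsqe, hmF]
    simp only
    apply prod_congr _ (fun _ _ => rfl)
    ext p
    rw [mem_filter, mem_biUnion]
    constructor
    · intro hp
      rw [primeFactors_prod_tup heT, mem_biUnion] at hp
      obtain ⟨j, _, hj⟩ := hp
      have hpp := Nat.prime_of_mem_primeFactors hj
      have hpj' := Nat.dvd_of_mem_primeFactors hj
      have hjne : π j ≠ 2 := by
        intro h
        rw [hek2 j h] at hj
        simp at hj
      have hj1 : π j = 1 := by
        have h3j := h3 j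
        have h0 : π j ≠ 0 := by
          intro h
          have h5 := Fintype.mem_piFinset.1 hdP j
          rw [h] at h5
          have h6 := cell_zero h5
          rw [hek j hjne, h6] at hj
          simp at hj
        revert h3j hjne h0
        generalize π j = r
        revert r
        decide
      obtain ⟨i, hi, hij⟩ := hlk j hj1
      have hji : j ≠ i := by rintro rfl; exact hij rfl
      have hplk : p ∣ lk L i d := by
        rw [hlkd i hi]
        unfold lk
        exact hpj'.trans (dvd_prod_of_mem e (mem_filter.2 ⟨mem_erase.2 ⟨hji, mem_univ j⟩, hij⟩))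
      have hlk0 : lk L i d ≠ 0 := by
        unfold lk
        exact prod_ne_zero_iff.2 fun k _ => dv_ne_zero (hPd d hdP k)
      have hlk1 : 1 < lk L i d := by
        have h5 := Nat.le_of_dvd (Nat.pos_of_ne_zero hlk0) hplk
        have h6 := hpp.two_le
        omega
      have hb2 := hbad i hi
      push Not at hb2
      obtain ⟨t, ht⟩ := hb2 hlk1
      refine ⟨⟨(i, t), ?_, ?_⟩, ?_⟩
      · rw [hF, mem_filter]
        exact ⟨mem_univ _, hi, hlk1, ht⟩
      · simp only
        rw [← ht]
        exact Nat.mem_primeFactors.2 ⟨hpp, hplk, hlk0⟩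
      · have h5 := dv_prime ((mem_Tup'.1 heT).1 j) hpp hpj'
        exact mem_PS.2 ⟨h5, hpp⟩
    · rintro ⟨⟨x, hx, hpx⟩, hps⟩
      rw [hF, mem_filter] at hx
      obtain ⟨_, hx2, hx1, hxe⟩ := hx
      rw [← hxe, hlkd x.1 hx2] at hpx
      have hpp := Nat.prime_of_mem_primeFactors hpx
      have hpd := Nat.dvd_of_mem_primeFactors hpx
      unfold lk at hpd
      obtain ⟨k, _, hk⟩ := (Prime.dvd_finsetProd_iff hpp.prime _).1 hpd
      rw [primeFactors_prod_tup heT, mem_biUnion]
      exact ⟨k, mem_univ k, Nat.mem_primeFactors.2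
        ⟨hpp, hk, dv_ne_zero ((mem_Tup'.1 heT).1 k)⟩⟩
  have hnn : ∀ e ∈ Tup ι z y, 0 ≤ ∏ k, gm (γ k) (e k) := fun e he =>
    prod_nonneg fun k _ => gγ_nonneg hB k ((mem_Tup'.1 he).1 k)
  have e3 : ∑ e ∈ Q.image pj, ∏ k, gm (γ k) (e k) ≤ ((2 ^ (Fintype.card (ι × Bool)) : ℕ) : ℝ) := by
    have hcov : Q.image pj ⊆ (univ : Finset (Finset (ι × Bool))).biUnion
        (fun F => (Tup ι z y).filter (fun e => ∏ k, e k = mF F)) := by
      intro e he
      obtain ⟨F, hF⟩ := hprod e he
      exact mem_biUnion.2 ⟨F, mem_univ F, mem_filter.2 ⟨hTup e he, hF⟩⟩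
    calc ∑ e ∈ Q.image pj, ∏ k, gm (γ k) (e k)
        ≤ ∑ e ∈ (univ : Finset (Finset (ι × Bool))).biUnion
            (fun F => (Tup ι z y).filter (fun e => ∏ k, e k = mF F)), ∏ k, gm (γ k) (e k) := by
          apply sum_le_sum_of_subset_of_nonneg hcov
          intro e he _
          obtain ⟨F, _, hF⟩ := mem_biUnion.1 he
          exact hnn e (mem_filter.1 hF).1
      _ ≤ ∑ F : Finset (ι × Bool), ∑ e ∈ (Tup ι z y).filter (fun e => ∏ k, e k = mF F),
            ∏ k, gm (γ k) (e k) := by
          apply sum_bU_le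
          intro F _ e he
          exact hnn e (mem_filter.1 he).1
      _ ≤ ∑ F : Finset (ι × Bool), (1 : ℝ) :=
          sum_le_sum fun F _ => fact_le hB hg hγg hz y (mF F)
      _ = _ := by
          rw [sum_const, card_univ, Fintype.card_finset, nsmul_eq_mul, mul_one]
  calc C ^ M * l ^ S * ∑ e ∈ Q.image pj, ∏ k, gm (γ k) (e k)
      ≤ C ^ M * l ^ S * ((2 ^ (Fintype.card (ι × Bool)) : ℕ) : ℝ) :=
        mul_le_mul_of_nonneg_left e3 (by positivity)
    _ = C ^ M * ((2 ^ (Fintype.card (ι × Bool)) : ℕ) : ℝ) * l ^ S := by ring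
    _ ≤ _ := by
        apply mul_le_mul_of_nonneg_left _ (by positivity)
        exact Real.rpow_le_rpow_of_exponent_le hly hK

end AT

end Pool.Agent.L7h19.RP
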