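import Mathlib
import Pool.Agent.L7h19.RP.A4

/-!
# Project RP: sums of products of Jacobi symbols with multiplicative weights, the bound
-/

set_option autoImplicit false

namespace Pool.Agent.L7h19.RP

open Finset Pool.Agent.W262.RK

namespace AT

variable {ι : Type} [Fintype ι] [DecidableEq ι]

variable {b γ : ι → ℕ → ℝ} {w : ι → ℝ} {L : ι → ι → Bool} {κ : ι → ℤ} {z B : ℕ} {C : ℝ}

open Pool.Agent.W262.RK.AT (lg VV YY cl cell cell_sub cell_zero cell_one cell_two cell_three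
  three_le_VV VV_le_YY one_le_log_VV VV_ge log_YY_ge log_YY_le log_VV_pow_le exp_neg_pow patterns)

open Classical in
/-- splitting according to the first index with a property -/
lemma split_first (U : Finset ι) (P : Finset (ι → ℕ)) (G : ι → (ι → ℕ) → Prop)
    (H : (ι → ℕ) → ℝ) :
    ∑ d ∈ P, H d = ∑ d ∈ P.filter (fun d => ∀ i ∈ U, ¬ G i d), H d +
      ∑ i ∈ U, ∑ d ∈ P.filter (fun d => G i d ∧ ∀ k ∈ U, Fintype.equivFin ι k < Fintype.equivFin ι i →
        ¬ G k d), H d := by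
  simp_rw [sum_filter]
  rw [sum_comm, ← sum_add_distrib]
  refine sum_congr rfl fun d _ => ?_
  by_cases hbad : ∀ i ∈ U, ¬ G i d
  · rw [if_pos hbad, sum_eq_zero, add_zero]
    intro i hi
    rw [if_neg (fun h => hbad i hi h.1)]
  · rw [if_neg hbad, zero_add]
    push Not at hbad
    obtain ⟨i1, hi1, hG1⟩ := hbad
    obtain ⟨i0, hi0, hmin⟩ := exists_min_image (U.filter (fun i => G i d))
      (fun i => Fintype.equivFin ι i) ⟨i1, mem_filter.2 ⟨hi1, hG1⟩⟩
    rw [mem_filter] at hi0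
    rw [sum_eq_single_of_mem i0 hi0.1, if_pos]
    · refine ⟨hi0.2, fun k hk hlt hGk => ?_⟩
      have := hmin k (mem_filter.2 ⟨hk, hGk⟩)
      exact absurd hlt (not_lt.2 this)
    · intro i hi hne
      rw [if_neg]
      rintro ⟨h1, h2⟩
      have h3 := hmin i (mem_filter.2 ⟨hi, h1⟩)
      have h4 : Fintype.equivFin ι i0 ≠ Fintype.equivFin ι i := fun h =>
        hne ((Fintype.equivFin ι).injective h).symm
      exact h2 i0 hi0.1 (lt_of_le_of_ne h3 h4) hi0.2

open Classical in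
/-- maximal unlinked large variables, every small variable is linked with one of them -/
lemma max_case (hB : Bd b γ w z B C) {g : ℝ} (hg : 0 ≤ g)
    (hγg : ∀ i (p : ℕ), p.Prime → z < p → γ i p ≤ g / p) (hz : Fintype.card ι * g ≤ z)
    {δ : ι → ℝ} {A0 : ℕ} {rx : ι → Bool → ℕ → ℕ}
    (hE : EBd b κ w δ z B A0 rx C) (hδ : ∀ i, 0 < δ i) (hδw : ∀ i, δ i ≤ w i)
    (hL : ∀ i, L i i = false) (A : ℕ) {K : ℝ} (π : ι → Fin 4)
    (h3 : ∀ k, π k ≠ 3)
    (hun : ∀ i k, π i = 2 → π k = 2 → L i k = L k i)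
    (hlk : ∀ j, π j = 1 → ∃ i, π i = 2 ∧ L i j ≠ L j i)
    (hK : ∑ k ∈ univ.filter (fun k => π k = 2), w k ≤ K) :
    ∃ C' : ℝ, ∀ y, z < y →
      |∑ d ∈ Fintype.piFinset (fun b => cell z y (VV A (Real.log y)) (YY A (Real.log y)) (π b)),
        HH b L κ d| ≤ C' * (Real.log y) ^ K := by
  obtain ⟨Cb, hCb0, hCb⟩ := bad_case (κ := κ) hB hg hγg hz rx A π h3 hun hlk hK
  have hgood : ∀ i, ∃ C' : ℝ, 0 ≤ C' ∧ (π i = 2 → ∀ y, z < y →
      |∑ d ∈ (Fintype.piFinset
        (fun b => cell z y (VV A (Real.log y)) (YY A (Real.log y)) (π b))).filter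
        (fun d => (1 < lk L i d ∧ ∀ t, lk L i d ≠ rx i t y) ∧
          ∀ k ∈ univ.filter (fun k => π k = 2), Fintype.equivFin ι k < Fintype.equivFin ι i →
          ¬ (1 < lk L k d ∧ ∀ t, lk L k d ≠ rx k t y)),
        HH b L κ d| ≤ C' * (Real.log y) ^ K) := by
    intro i
    by_cases hi : π i = 2
    · obtain ⟨C', hC'0, hC'⟩ := max_good (κ := κ) hB hE hδ hδw hL A π h3 hi (fun k hk => hun i k hi hk) hK
      refine ⟨C', hC'0, fun _ y hy => hC' y hy _ ?_ fun e he => he.1⟩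
      intro e m
      have hinv : ∀ k, π k = 2 → lk L k (Function.update e i m) = lk L k e := by
        intro k hk
        unfold lk
        refine prod_congr rfl fun a ha => ?_
        rw [mem_filter] at ha
        rw [Function.update_of_ne]
        rintro rfl
        exact ha.2 (hun k a hk hi)
      rw [hinv i hi]
      apply and_congr_right
      intro _
      constructor
      · intro h k hk hlt
        have := h k hk hlt
        rwa [hinv k (mem_filter.1 hk).2] at this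
      · intro h k hk hlt
        rw [hinv k (mem_filter.1 hk).2]
        exact h k hk hlt
    · exact ⟨0, le_rfl, fun h => absurd h hi⟩
  choose Cg hCg0 hCg using hgood
  refine ⟨Cb + ∑ i, Cg i, fun y hy => ?_⟩
  have hly := one_le_log hB.z2 hy
  have hlyK : 0 ≤ (Real.log y) ^ K := Real.rpow_nonneg (by linarith) _
  rw [split_first (univ.filter (fun k => π k = 2)) _
    (fun i d => 1 < lk L i d ∧ ∀ t, lk L i d ≠ rx i t y)]
  refine (abs_add_le _ _).trans ?_
  rw [add_mul, sum_mul]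
  refine add_le_add ?_ ?_
  · refine le_trans (le_of_eq ?_) (hCb y hy)
    congr 2
    ext d
    simp only [mem_filter, mem_univ, true_and]
  · refine (abs_sum_le_sum_abs _ _).trans ?_
    have h5 : ∀ i ∈ univ.filter (fun k => π k = 2), _ := fun i hi =>
      hCg i (mem_filter.1 hi).2 y hy
    refine le_trans (sum_le_sum (g := fun i => Cg i * (Real.log y) ^ K) fun i hi => ?_)
      (sum_le_sum_of_subset_of_nonneg (filter_subset _ _)
        fun i _ _ => mul_nonneg (hCg0 i) hlyK)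
    refine le_trans (le_of_eq ?_) (h5 i hi)
    congr 2
    ext d
    simp only [mem_filter]

/-- all patterns -/
lemma pat (hB : Bd b γ w z B C) {g F C2 : ℝ} {E2 : ℕ} (hC2 : 0 ≤ C2) (h2 : BWg g F C2 E2)
    (hg : 0 ≤ g) (hγg : ∀ i (p : ℕ), p.Prime → z < p → γ i p ≤ g / p)
    (hz : Fintype.card ι * g ≤ z) (hF : (Fintype.card ι : ℝ) ≤ F)
    {δ : ι → ℝ} {A0 : ℕ} {rx : ι → Bool → ℕ → ℕ}
    (hE : EBd b κ w δ z B A0 rx C) (hδ : ∀ i, 0 < δ i) (hδw : ∀ i, δ i ≤ w i)
    (hL : ∀ i, L i i = false) {K : ℝ}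
    (hK : ∀ U : Finset ι, (∀ i ∈ U, ∀ j ∈ U, L i j = L j i) → ∑ i ∈ U, w i ≤ K)
    (π : ι → Fin 4) : ∃ C' : ℝ, ∀ y, z < y →
      |∑ d ∈ Fintype.piFinset (fun b => cell z y (VV (6 * (Fintype.card ι + 2 * E2)) (Real.log y))
        (YY (6 * (Fintype.card ι + 2 * E2)) (Real.log y)) (π b)), HH b L κ d| ≤
        C' * (Real.log y) ^ K := by
  have hK0 : 0 ≤ K := by simpa using hK ∅ (by simp)
  by_cases h3 : ∃ k, π k = 3
  · obtain ⟨k, hk⟩ := h3
    exact tail_case hB _ hK0 π hk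
  push Not at h3
  by_cases hl : ∃ i j, π i = 2 ∧ π j = 2 ∧ L i j ≠ L j i
  · obtain ⟨i, j, hi, hj, hij⟩ := hl
    exact link_case hB hC2 h2 hg hγg hF hL le_rfl hK0 π hi hj hij
  push Not at hl
  have hS : ∑ k ∈ univ.filter (fun k => π k = 2), w k ≤ K := by
    apply hK
    intro i hi j hj
    exact hl i j (mem_filter.1 hi).2 (mem_filter.1 hj).2
  rcases hS.lt_or_eq with hlt | heq
  · exact triv_case hB _ π h3 hlt
  refine max_case hB hg hγg hz hE hδ hδw hL _ π h3 hl ?_ hS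
  intro j hj
  by_contra hcon
  push Not at hcon
  have hjn : j ∉ univ.filter (fun k => π k = 2) := by
    rw [mem_filter, hj]
    rintro ⟨-, h⟩
    exact absurd h (by decide)
  have := hK (insert j (univ.filter (fun k => π k = 2))) (by
    intro a ha b hb
    rw [mem_insert] at ha hb
    rcases ha with rfl | ha
    · rcases hb with rfl | hb
      · rfl
      · exact (hcon b (mem_filter.1 hb).2).symm
    · rcases hb with rfl | hb
      · exact hcon a (mem_filter.1 ha).2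
      · exact hl a b (mem_filter.1 ha).2 (mem_filter.1 hb).2)
  rw [sum_insert hjn, heq] at this
  have := hB.w0 j
  linarith

/-- **the bound** -/
theorem at_g (hB : Bd b γ w z B C) {g F C2 : ℝ} {E2 : ℕ} (hC2 : 0 ≤ C2) (h2 : BWg g F C2 E2)
    (hg : 0 ≤ g) (hγg : ∀ i (p : ℕ), p.Prime → z < p → γ i p ≤ g / p)
    (hz : Fintype.card ι * g ≤ z) (hF : (Fintype.card ι : ℝ) ≤ F)
    {δ : ι → ℝ} {A0 : ℕ} {rx : ι → Bool → ℕ → ℕ}
    (hE : EBd b κ w δ z B A0 rx C) (hδ : ∀ i, 0 < δ i) (hδw : ∀ i, δ i ≤ w i)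
    (hL : ∀ i, L i i = false) {K : ℝ}
    (hK : ∀ U : Finset ι, (∀ i ∈ U, ∀ j ∈ U, L i j = L j i) → ∑ i ∈ U, w i ≤ K) :
    ∃ C' : ℝ, ∀ y, z < y →
      |∑ d ∈ Tup ι z y, (∏ i, gm (b i) (d i)) * Sym L κ d| ≤ C' * (Real.log y) ^ K := by
  choose C' hC' using fun π : ι → Fin 4 =>
    pat (κ := κ) hB hC2 h2 hg hγg hz hF hE hδ hδw hL hK π
  refine ⟨∑ π, C' π, fun y hy => ?_⟩
  rw [total_eq, patterns z y (VV (6 * (Fintype.card ι + 2 * E2)) (Real.log y))
    (YY (6 * (Fintype.card ι + 2 * E2)) (Real.log y)), sum_mul]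
  exact (abs_sum_le_sum_abs _ _).trans (sum_le_sum fun π _ => hC' π y hy)

end AT

end Pool.Agent.L7h19.RP
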