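import Mathlib
import Pool.Agent.L7h19.RJ.Rank
import Pool.Agent.W307.RT.Stm

/-!
# Project RP: the families at the values of a tuple of integers, and the statement of the rank bound
-/

set_option autoImplicit false

namespace Pool.Agent.L7h19.RP

open Finset Pool.Agent.W262.RK Pool.Agent.W307.RT Pool.Agent.L7h19.RJ

variable {J : Type} [Fintype J] [DecidableEq J]

/-- `F_k` at the tuple `x` -/
def FV (c : J → Option (Fin 4)) (a : Fin 3 → ℤ) (x : J → ℤ) (k : Fin 3) : ℤ :=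
  a k * ∏ l ∈ fsJ c k, x l

/-- the constants at the tuple `x`: `F_k / x_j` if `j` is a common factor, otherwise `F_l` up to
sign for another class `l` -/
def kapV (c : J → Option (Fin 4)) (a : Fin 3 → ℤ) (x : J → ℤ) (j : J) (k : Fin 3) : ℤ :=
  match c j with
  | none => 1
  | some e => if e = 3 then a k * ∏ l ∈ (fsJ c k).erase j, x l
      else sg4 e * (a (cp4 e) * ∏ l ∈ fsJ c (cp4 e), x l)

/-- **StRank**: the rank of `y² = x (x - F 0) (x - F 1)` is bounded by the local count. Analogue of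
`Pool.Agent.W262.RK.rank4` (`Pool/Agent/W262/RK/F4a.lean`, `F4b.lean`, lemmas `locH4`, `bad4`) and
`Pool.Agent.L7h19.RJ.rankj` (`Pool/Agent/L7h19/RJ/Rank.lean`), for arbitrary values `x j` instead of
the values of linear forms. -/
def StRank : Prop := ∀ (J : Type) [Fintype J] [DecidableEq J] (c : J → Option (Fin 4))
  (a : Fin 3 → ℤ) (x : J → ℤ) (z y X k D : ℕ), 2 ≤ z → Gd z x → (∀ k, a k ≠ 0) →
  (∀ p : ℕ, p.Prime → z < p → ∀ k, ¬ (p : ℤ) ∣ a k) →
  FV c a x 0 - FV c a x 1 = FV c a x 2 → (∀ j, (x j).natAbs ≤ X ^ D) → 1 ≤ X → 1 ≤ y →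
  X < (y + 1) ^ k → ∀ E : Finset ℕ, (∀ j p, c j = some 3 → p.Prime → p ∣ S1 z y x j →
    (p ∈ E ↔ jacobiSym (x j / p) p = -1)) →
  2 ^ Module.finrank ℤ (EAB (FV c a x 0) (FV c a x 1)).toAffine.Point ≤
    4 ^ (z + 2) * (4 ^ (D * Fintype.card J)) ^ k * 4 ^ (∑ j, (S2 z y x j).primeFactors.card) *
      NL (∏ j, S1 z y x j) (LLso c (kapV c a x) (S1 z y x) E)

end Pool.Agent.L7h19.RP
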