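import Mathlib
import Pool.Agent.H474R2.PG.Defs
import Pool.Agent.W262.RK.Stm2
import Pool.Agent.W307.RT.Stm

/-!
# Project RP (helper19, MP_157626_nt): statements of two independent parts

Twists by the values of arbitrary polynomials.
-/

set_option autoImplicit false

namespace Pool.Agent.L7h19.RP

open Finset Polynomial NumberField Pool.Agent.W262.RK Pool.Agent.W307.RT
open Pool.Agent.H474R2.PG (rho)

/-- **StH**: upper bound for `∑ R_K(p) ψ(p) (p/r) / p`, where `R_K(p)` is the number of homomorphisms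
`𝓞 K → 𝔽_p` (the primes of `K` of norm `p`), `ψ` a real character of bounded modulus, uniformly in
the squarefree number `r > 1` without small prime factors. -/
def StH : Prop := ∀ (K : Type) [Field K] [NumberField K] (q₀ : ℕ), 0 < q₀ →
  ∃ (A C : ℝ) (z₀ : ℕ), ∀ (ψ : DirichletCharacter ℤ q₀) (r : ℕ), 1 < r → Squarefree r →
    (∀ p : ℕ, p.Prime → p ∣ r → z₀ < p) → ∀ y : ℝ, 3 ≤ y →
    ∑ p ∈ Pool.Agent.H474R2.PG.PR y, (Nat.card (𝓞 K →+* ZMod p) : ℝ) *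
      (((ψ (p : ZMod q₀) : ℤ) : ℝ) * Jr (p : ℤ) r) / (p : ℝ) ≤
      A * Real.log (Real.log r) + C

variable {J : Type} [Fintype J] [DecidableEq J]

/-- the conditions on the polynomials at the primes `> z` -/
structure BgP (f h : J → ℤ[X]) (c z : ℕ) : Prop where
  le_z : 2 * c + 2 ≤ z
  irr : ∀ j, Irreducible (f j)
  pos : ∀ j, 0 < (f j).natDegree
  rho_le : ∀ p : ℕ, p.Prime → z < p → ∑ j, rho (f j) p ≤ c
  simple : ∀ p : ℕ, p.Prime → z < p → ∀ j (t : ℤ), (p : ℤ) ∣ (f j).eval t →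
    ¬ (p : ℤ) ∣ (derivative (f j)).eval t
  cop : ∀ p : ℕ, p.Prime → z < p → ∀ j l, j ≠ l → ∀ t : ℤ, (p : ℤ) ∣ (f j).eval t →
    ¬ (p : ℤ) ∣ (f l).eval t
  hcop : ∀ p : ℕ, p.Prime → z < p → ∀ j (t : ℤ), (p : ℤ) ∣ (f j).eval t →
    ¬ (p : ℤ) ∣ (h j).eval t

/-- the primes of the twist classes at which `h_j(t) (f_j(t) / p)` is not a square -/
noncomputable def negP (T : J → Fin 4) (f h : J → ℤ[X]) (t : ℤ) (s : J → ℕ) : Finset ℕ := by
  classical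
  exact (P3 T s).filter (fun p => ∃ j, T j = 3 ∧ p ∣ s j ∧
    jacobiSym ((h j).eval t * ((f j).eval t / p)) p = -1)

/-- `∏_{p ∣ n} ρ(p) / (p - c)` -/
noncomputable def gr (f : ℤ[X]) (c n : ℕ) : ℝ := ∏ p ∈ n.primeFactors, (rho f p : ℝ) / ((p : ℝ) - c)

/-- `∏_{p ∣ n} ρ(p) / p` -/
noncomputable def ru (f : ℤ[X]) (n : ℕ) : ℝ := ∏ p ∈ n.primeFactors, (rho f p : ℝ) / (p : ℝ)

/-- **StCnt**: the number of `t ≤ X` in a class modulo `∏ s_j` such that the values `f_j(t)` have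
given small prime factors (`s_j`: exactly once, `v_j`: at least twice, `u_j`: some larger primes) and
given signs. The analogue of `Pool.Agent.W262.RK.CNT4` (linear forms, proved in
`Pool/Agent/W372/RK2/CNT4.lean` from the sieve `Pool/Agent/W358/RK2/SVR.lean`). -/
def StCnt : Prop := ∀ (J : Type) [Fintype J] [DecidableEq J] (T : J → Fin 4) (f h : J → ℤ[X])
  (c z : ℕ), BgP f h c z → ∃ (C : ℝ) (K y0 : ℕ), 0 ≤ C ∧ 1 ≤ K ∧
  ∀ X y Y : ℕ, y0 ≤ y → z < y → y ^ K ≤ X →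
  ∀ s ∈ Tup J z y, ∀ v ∈ Tup J z y, ∀ u ∈ Tup J y Y, (∏ j, s j * v j * u j) ^ 8 ≤ X →
  ∀ (r : ℤ) (E : Finset ℕ), (∀ j, (s j : ℤ) ∣ (f j).eval r) →
    (((Icc 1 X).filter (fun t : ℕ => (t : ℤ) ≡ r [ZMOD ((∏ j, s j : ℕ) : ℤ)] ∧
      S1 z y (fun j => (f j).eval (t : ℤ)) = s ∧ S2 z y (fun j => (f j).eval (t : ℤ)) = v ∧
      (∀ j, (u j : ℤ) ∣ (f j).eval (t : ℤ)) ∧ negP T f h t s = E)).card : ℝ) ≤
      C * X * (1 / 2) ^ (P3 T s).card * (∏ j, gw 1 c (s j)) *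
        (∏ j, gr (f j) c (v j) / v j) * (∏ j, ru (f j) (u j)) /
        (Real.log y) ^ (Fintype.card J)

end Pool.Agent.L7h19.RP
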