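import Mathlib
import Pool.Agent.H474R2.PG.Defs

/-!
# Project RP (helper19, MP_157626_nt): statement of a further independent part
-/

set_option autoImplicit false

namespace Pool.Agent.L7h19.RP

open Finset Polynomial NumberField
open Pool.Agent.H474R2.PG (rho)

/-- **StQuad**: for an irreducible integer polynomial `f` and an integer polynomial `κ` prime to it,
the number field `K = ℚ(θ)`, `f(θ) = 0`, has `ρ_f(p)` homomorphisms `𝓞 K → 𝔽_p` for all large `p`, and
either `κ(ν)` is a square modulo `p` for all large `p` and all roots `ν` of `f` modulo `p` (if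
`κ(θ)` is a square in `K`), or the field `K' = K(√κ(θ))` has `∑_ν (1 + (κ(ν)/p))` homomorphisms. -/
def StQuad : Prop := ∀ f κ : ℤ[X], Irreducible f → 0 < f.natDegree → ¬ f ∣ κ →
  ∃ (K : Type) (_ : Field K) (_ : NumberField K) (z₀ : ℕ),
    (∀ p : ℕ, p.Prime → z₀ < p → Nat.card (𝓞 K →+* ZMod p) = rho f p) ∧
    ((∀ p : ℕ, p.Prime → z₀ < p → ∀ ν : ℤ, (p : ℤ) ∣ f.eval ν → jacobiSym (κ.eval ν) p = 1) ∨
      ∃ (K' : Type) (_ : Field K') (_ : NumberField K'), ∀ p : ℕ, p.Prime → z₀ < p →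
        (Nat.card (𝓞 K' →+* ZMod p) : ℤ) =
          ∑ ν ∈ (range p).filter (fun ν : ℕ => (p : ℤ) ∣ f.eval (ν : ℤ)),
            (1 + jacobiSym (κ.eval (ν : ℤ)) p))

end Pool.Agent.L7h19.RP
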