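import Mathlib
import Pool.Agent.H474R2.PG.Defs
import Pool.Agent.L7h19.RP.A5
import Pool.Agent.L7h19.RP.Stm
import Pool.Agent.L7h19.RP.Stm2
import Pool.Agent.L7h19.RP.Defs

/-!
# Project RP (helper19, MP_157626_nt): statements of further independent parts

`gm f d = ∏_{p ∣ d} f p`, `hq B d = ∏_{p ∣ d} (1 + B / p)` are defined in `A1.lean`, `BWg` in
`A2.lean`.
-/

set_option autoImplicit false

namespace Pool.Agent.L7h19.RP

open Finset Polynomial NumberField Pool.Agent.W262.RK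
open Pool.Agent.H474R2.PG (rho)
open AT (gm hq BWg)

/-- `w / (p - c) * ∑ (κ(ν) / p)`, the sum over the roots `ν` of `f` modulo `p` -/
noncomputable def bw (f κ : ℤ[X]) (w : ℝ) (c p : ℕ) : ℝ :=
  w / ((p : ℝ) - c) * ∑ ν ∈ (range p).filter (fun ν : ℕ => (p : ℤ) ∣ f.eval (ν : ℤ)),
    Jr (κ.eval (ν : ℤ)) p

/-- `w ρ(p) / (p - c)` -/
noncomputable def gaw (f : ℤ[X]) (w : ℝ) (c p : ℕ) : ℝ := w / ((p : ℝ) - c) * (rho f p : ℝ)

/-- **StFull**: the sums of the weights over all, the small and the large divisors. Analogue of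
`Pool.Agent.W655.RK.full`. -/
def StFull : Prop := ∀ (f : ℤ[X]) (w : ℝ) (c B : ℕ), Irreducible f → 0 < f.natDegree → 0 < w →
  w ≤ 1 / 2 → ∃ z0 : ℕ, ∀ z, z0 ≤ z → ∃ C : ℝ,
  (∀ y, z < y → ∑ d ∈ (PP z y).divisors, gm (gaw f w c) d * hq B d ≤ C * (Real.log y) ^ w) ∧
  (∀ y V : ℕ, z < y → 2 ≤ V →
    ∑ d ∈ (PP z y).divisors.filter (fun d => d ≤ V), gm (gaw f w c) d * hq B d ≤
      C * (Real.log V) ^ w) ∧
  (∀ y Y : ℕ, z < y → 1 ≤ Y →
    ∑ d ∈ (PP z y).divisors.filter (fun d => Y < d), gm (gaw f w c) d * hq B d ≤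
      C * Real.exp (-(Real.log Y / Real.log y)) * (Real.log y) ^ 2)

/-- **StEp**: the twisted sums; for each `y` and each of the two characters `x4 t` there is at most
one exceptional modulus `r`. From `StH` (proved by helper78) and `StQuad` (helper80, in progress):
`∑_ν (κ(ν)/p)` is `R_K(p)` or `R_{K'}(p) - R_K(p)`; in the second case use
`0 ≤ ∑ R_K(p) (1 + χ₁(p)) (1 + χ₂(p)) / p` for two moduli `r₁ ≠ r₂`, and `StH` for the product
`χ₁ χ₂`, so that `∑ R_K(p) χ_i(p) / p ≥ -(1/2) log log y - ...` for at least one `i`. Analogue of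
`Pool.Agent.W655.RK.ep_of`. -/
def StEp : Prop := ∀ (f κ : ℤ[X]) (w : ℝ) (c : ℕ), Irreducible f → 0 < f.natDegree → ¬ f ∣ κ →
  0 < w → w ≤ 1 / 2 → ∃ z0 B0 A : ℕ, ∀ z B : ℕ, z0 ≤ z → B0 ≤ B →
  ∃ (C : ℝ) (rx : Bool → ℕ → ℕ), ∀ (y R r : ℕ) (t : Bool), z < y → R ≠ 0 → 1 < r → Squarefree r →
    (∀ p : ℕ, p.Prime → p ∣ r → z < p) → r ≠ rx t y →
    |∑ d ∈ (PP z y).divisors.filter (fun d => d.Coprime R),
        gm (bw f κ w c) d * (Jr d r * x4 t d)| ≤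
      C * (Real.log r) ^ A * (Real.log y) ^ (w / 2) * hq B R

/-- **StBW**: bilinear sums with weights `∏_{p ∣ m} g / p`. From
`Pool.Agent.W655.RK.blw_of (_root_.W37.RK.bl_of Pool.Agent.W505.RK.ls) : Pool.Agent.W262.RK.BLW`
(weights `1/m`), splitting according to the number of the prime factors. -/
def StBW : Prop := ∀ g F : ℝ, 0 ≤ g → ∃ (C2 : ℝ) (E2 : ℕ), 0 ≤ C2 ∧ BWg g F C2 E2

end Pool.Agent.L7h19.RP
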