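import Mathlib
import Pool.Agent.L7h19.RP.Stm3
import Pool.Agent.L7h19.RJ.Maj

/-!
# Project RP: the average of the local counts over the residue classes
-/

set_option autoImplicit false

namespace Pool.Agent.L7h19.RP

open Finset Polynomial Pool.Agent.W262.RK Pool.Agent.W307.RT Pool.Agent.L7h19.RJ
open Pool.Agent.H474R2.PG (rho)

variable {ι : Type} [Fintype ι] [DecidableEq ι] {J : Type} [Fintype J] [DecidableEq J]

/-- the values of the constants at `t` -/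
def κev (κ : ι → J → Fin 3 → ℤ[X]) (t : ℤ) (i : ι) (j : J) (k : Fin 3) : ℤ := (κ i j k).eval t

/-- the classes modulo `∏ s_j` with `s_j ∣ f_j(r)` -/
noncomputable def Rs (f : J → ℤ[X]) (s : J → ℕ) : Finset ℕ := by
  classical
  exact (range (∏ j, s j)).filter (fun r : ℕ => ∀ j, (s j : ℤ) ∣ (f j).eval (r : ℤ))

/-- the sum of the local counts over the residue classes -/
noncomputable def NBr (cls : ι → J → Option (Fin 4)) (κ : ι → J → Fin 3 → ℤ[X]) (f : J → ℤ[X])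
    (s : J → ℕ) : ℝ :=
  ∑ r ∈ Rs f s, NBj cls (κev κ (r : ℤ)) s

/-- **StSub**: growth of `NBr`. Analogue of `Pool.Agent.L7h19.RJ.subj` (`RJ/Sub.lean`), which gives
the bound for each residue class; then `∑_{r mod m m'}` is at most `∏_{p ∣ m'} ρ(p)` times
`∑_{r mod m}`, since `NBj cls (κev κ r) s` depends only on `r` modulo `∏ s_j`. -/
def StSub : Prop := ∀ (ι : Type) [Fintype ι] [DecidableEq ι] (J : Type) [Fintype J] [DecidableEq J]
  (cls : ι → J → Option (Fin 4)) (κ : ι → J → Fin 3 → ℤ[X]) (f : J → ℤ[X]) (z c : ℕ), 2 ≤ z →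
  (∀ p : ℕ, p.Prime → z < p → ∀ j, rho (f j) p ≤ c) →
  (∀ p : ℕ, p.Prime → z < p → ∀ j (t : ℤ), (p : ℤ) ∣ (f j).eval t →
    ∀ i k, ¬ (p : ℤ) ∣ (κ i j k).eval t) →
  ∀ y, z < y → ∀ s e : J → ℕ, (fun j => s j * e j) ∈ Tup J z y →
    NBr cls κ f (fun j => s j * e j) ≤
      ((4 : ℝ) ^ Fintype.card ι * c) ^ (∑ j, (e j).primeFactors.card) * NBr cls κ f s

/-- **StMod**: `NBj` depends only on the constants modulo the primes that divide `s`. -/
def StMod : Prop := ∀ (ι : Type) [Fintype ι] [DecidableEq ι] (J : Type) [Fintype J] [DecidableEq J]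
  (cls : ι → J → Option (Fin 4)) (κ κ' : ι → J → Fin 3 → ℤ) (s : J → ℕ), (∀ j, s j ≠ 0) →
  (∀ j (p : ℕ), p.Prime → p ∣ s j → ∀ i k, κ i j k ≡ κ' i j k [ZMOD p]) →
  NBj cls κ s = NBj cls κ' s ∧ ∀ i (E : Finset ℕ), NL (∏ j, s j) (LLso (cls i) (κ i) s E) =
    NL (∏ j, s j) (LLso (cls i) (κ' i) s E)

end Pool.Agent.L7h19.RP
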