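import Mathlib
import Pool.Agent.L7h19.RP.A5
import Pool.Agent.L7h19.RJ.Comb

/-!
# Project RP (helper19, MP_157626_nt): statements for the unbalanced families, second part

`StFree`: the sum over unlinked variables without any restriction. `StComb`: the largest unlinked set
that avoids the inactive types.
-/

set_option autoImplicit false

namespace Pool.Agent.L7h19.RP

open Finset Pool.Agent.W262.RK Pool.Agent.L7h19.RJ
open Pool.Agent.L7h19.RP.AT (gm hq Bd HH)

/-- **StFree**: the variables in the unlinked set `F` are free, the others are fixed (`e`).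

Proof: for fixed classes modulo `4` of the free variables, `Sym L 1 d` is a constant of modulus
`≤ 1` times `∏_{i ∈ F} Jr (d i) (lk L i e)` (induction on `F` with `sym_update` and the formula
for `XX L i e m`: signs depend only on the classes modulo `4`); the condition on the classes is
`∏_{i ∈ F} (1 ± χ₄(d i)) / 2`, expand. Each of the sums is `∏_p (1 + ∑_{i ∈ F} b i p χ_i(p))` over the
primes `p ∈ PS z y` which do not divide `∏ e` (`Pool.Agent.W762.RK2.sum_Tup` and `prod_gm` in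
`Pool/Agent/L7h19/RP/Exp.lean`, with `b i p` replaced by `0` if `i ∉ F` or `p ∣ ∏ e`); use
`1 + x ≤ exp x`, and `exp x ≤ 1 + 2 x` for the primes `p ∣ ∏ e`. -/
def StFree : Prop := ∀ (ι : Type) [Fintype ι] [DecidableEq ι] (b γ : ι → ℕ → ℝ) (w : ι → ℝ)
  (L : ι → ι → Bool) (z B : ℕ) (C g : ℝ), Bd b γ w z B C → 0 ≤ g →
  (∀ i (p : ℕ), p.Prime → z < p → γ i p ≤ g / p) → 2 * (Fintype.card ι * g) ≤ z →
  2 * (Fintype.card ι * g) ≤ B → (∀ i, L i i = false) →
  ∀ F : Finset ι, (∀ i ∈ F, ∀ j ∈ F, L i j = L j i) →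
  ∀ (y : ℕ) (e : ι → ℕ), z < y → (∀ k, e k ∈ (PP z y).divisors) → (∀ k ∈ F, e k = 1) →
  ∀ E : ι → ℝ, (Squarefree (∏ k, e k) → ∀ i ∈ F, ∀ s : Bool,
    ∑ p ∈ PS z y, b i p * (Jr p (Pool.Agent.W262.RK.lk L i e) * x4 s p) ≤ E i) →
  |∑ d ∈ Fintype.piFinset (fun k => if k ∈ F then (PP z y).divisors else {e k}),
      HH b L (fun _ => 1) d| ≤
    2 ^ (Fintype.card ι) * Real.exp (∑ i ∈ F, E i) * ∏ k, (gm (γ k) (e k) * hq B (e k))

/-- the inactive types: `(e_c, χ_c)` for a form of class `c` of one of the curves, not in `Q` -/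
def NIJ {ι : Type} [Fintype ι] [DecidableEq ι] {J : Type} [Fintype J] [DecidableEq J]
    (cls : ι → J → Option (Fin 4)) (Q : Finset J) (a : IJ cls) : Prop :=
  a.1.1 ∉ Q ∧ ∃ i, cls i a.1.1 ≠ none ∧ cls i a.1.1 ≠ some 3 ∧ a.1.2.1 i ≠ (false, false) ∧
    a.1.2.2 i ≠ (false, false)

/-- **StComb**: the largest unlinked set without inactive types. Analogue of
`Pool.Agent.L7h19.RJ.combj` (`RJ/Comb.lean`). For each curve `i` the set `Si cls U i` without the
type `z0` is contained in a line of the grid of the `9` nonzero singular types, that is in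
`{x = 0}`, `{v = 0}`, `{(e_c, χ_c) : c}` or `W_c = {(e_c, 0), (0, χ_c), (e_c, χ_c)}`. -/
def StComb : Prop := ∀ (ι : Type) [Fintype ι] [DecidableEq ι] (J : Type) [Fintype J] [DecidableEq J]
  (cls : ι → J → Option (Fin 4)) (Q : Finset J),
  (∀ i j, cls i j ≠ none → cls i j ≠ some 3 → ∀ i', i' ≠ i → cls i' j = none) →
  (∀ i (c : Fin 4), c ≠ 3 →
    (univ.filter (fun j => cls i j = some c)).card + (Q.filter (fun j => cls i j = some c)).card ≤
      (univ.filter (fun j => ∃ c' : Fin 4, c' ≠ 3 ∧ c' ≠ c ∧ cls i j = some c')).card) →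
  (∀ a a' : IJ cls, NIJ cls Q a → NIJ cls Q a' → LJ cls a a' = LJ cls a' a) ∧
  ∀ U : Finset (IJ cls), (∀ a ∈ U, ¬ NIJ cls Q a) →
    (∀ a ∈ U, ∀ a' ∈ U, LJ cls a a' = LJ cls a' a) → ∑ a ∈ U, wJ cls a ≤ Fintype.card J

end Pool.Agent.L7h19.RP
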