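import Mathlib
import Pool.Agent.L7h19.RP.A5
import Pool.Agent.L7h19.RP.Stm6

/-!
# Project RP: sums of products of Jacobi symbols with multiplicative weights, inactive variables
-/

set_option autoImplicit false

namespace Pool.Agent.L7h19.RP

open Finset Pool.Agent.W262.RK

namespace AT

variable {ι : Type} [Fintype ι] [DecidableEq ι]

variable {b γ : ι → ℕ → ℝ} {w : ι → ℝ} {L : ι → ι → Bool} {κ : ι → ℤ} {z B : ℕ} {C : ℝ}

open Pool.Agent.W262.RK.AT (lg VV YY cl cell cell_sub cell_zero cell_one cell_two cell_three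
  three_le_VV VV_le_YY one_le_log_VV VV_ge VV_le log_YY_ge log_YY_le log_VV_pow_le exp_neg_pow
  patterns)

lemma hq_one (B : ℕ) : hq B 1 = 1 := by simp [hq]

/-- sums with free variables -/
lemma free_sum (hFr : StFree) (hB : Bd b γ w z B C) {g : ℝ} (hg : 0 ≤ g)
    (hγg : ∀ i (p : ℕ), p.Prime → z < p → γ i p ≤ g / p) (hz : 2 * (Fintype.card ι * g) ≤ z)
    (hBg : 2 * (Fintype.card ι * g) ≤ B) (hL : ∀ i, L i i = false) {F : Finset ι}
    (hF : ∀ i ∈ F, ∀ j ∈ F, L i j = L j i) {y : ℕ} (hy : z < y) {t : ι → Finset ℕ}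
    (ht : ∀ k, t k ⊆ (PP z y).divisors) (htF : ∀ k ∈ F, t k = (PP z y).divisors) (E : ι → ℝ)
    (hE : ∀ e : ι → ℕ, (∀ k, e k ∈ (PP z y).divisors) → (∀ k ∈ F, e k = 1) →
      (∀ k ∉ F, e k ∈ t k) → Squarefree (∏ k, e k) → ∀ i ∈ F, ∀ s : Bool,
      ∑ p ∈ PS z y, b i p * (Jr p (lk L i e) * x4 s p) ≤ E i) :
    |∑ d ∈ Fintype.piFinset t, HH b L (fun _ => 1) d| ≤
      2 ^ (Fintype.card ι) * Real.exp (∑ i ∈ F, E i) *
        ∏ k ∈ univ \ F, ∑ m ∈ t k, gm (γ k) m * hq B m := by
  classical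
  set pj : (ι → ℕ) → (ι → ℕ) := fun d k => if k ∈ F then 1 else d k with hpj
  set P' : Finset (ι → ℕ) := Fintype.piFinset (fun k => if k ∈ F then {1} else t k) with hP'
  have hmaps : ∀ d ∈ Fintype.piFinset t, pj d ∈ P' := by
    intro d hd
    rw [hP', Fintype.mem_piFinset]
    intro k
    simp only [hpj]
    by_cases hk : k ∈ F
    · rw [if_pos hk, if_pos hk, mem_singleton]
    · rw [if_neg hk, if_neg hk]
      exact Fintype.mem_piFinset.1 hd k
  rw [← sum_fiberwise_of_maps_to hmaps]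
  have hmem : ∀ e ∈ P', (∀ k, e k ∈ (PP z y).divisors) ∧ (∀ k ∈ F, e k = 1) ∧
      (∀ k ∉ F, e k ∈ t k) := by
    intro e he
    rw [hP', Fintype.mem_piFinset] at he
    have h1 : ∀ k ∈ F, e k = 1 := fun k hk => by
      have := he k
      rwa [if_pos hk, mem_singleton] at this
    have h2 : ∀ k ∉ F, e k ∈ t k := fun k hk => by
      have := he k
      rwa [if_neg hk] at this
    refine ⟨fun k => ?_, h1, h2⟩
    by_cases hk : k ∈ F
    · rw [h1 k hk]
      exact one_mem_dv z y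
    · exact ht k (h2 k hk)
  have hfib : ∀ e ∈ P', (Fintype.piFinset t).filter (fun d => pj d = e) =
      Fintype.piFinset (fun k => if k ∈ F then (PP z y).divisors else {e k}) := by
    intro e he
    obtain ⟨h0, h1, h2⟩ := hmem e he
    ext d
    rw [mem_filter, Fintype.mem_piFinset, Fintype.mem_piFinset]
    constructor
    · rintro ⟨hd, hde⟩ k
      by_cases hk : k ∈ F
      · rw [if_pos hk, ← htF k hk]
        exact hd k
      · rw [if_neg hk, mem_singleton, ← hde]
        simp only [hpj]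
        rw [if_neg hk]
    · intro hd
      have hd' : ∀ k ∉ F, d k = e k := fun k hk => by
        have := hd k
        rwa [if_neg hk, mem_singleton] at this
      refine ⟨fun k => ?_, ?_⟩
      · by_cases hk : k ∈ F
        · have := hd k
          rw [if_pos hk] at this
          rw [htF k hk]
          exact this
        · rw [hd' k hk]
          exact h2 k hk
      · funext k
        simp only [hpj]
        by_cases hk : k ∈ F
        · rw [if_pos hk, h1 k hk]
        · rw [if_neg hk, hd' k hk]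
  refine (abs_sum_le_sum_abs _ _).trans ?_
  have hstep : ∀ e ∈ P', |∑ d ∈ (Fintype.piFinset t).filter (fun d => pj d = e),
      HH b L (fun _ => 1) d| ≤ 2 ^ (Fintype.card ι) * Real.exp (∑ i ∈ F, E i) *
        ∏ k, (gm (γ k) (e k) * hq B (e k)) := by
    intro e he
    obtain ⟨h0, h1, h2⟩ := hmem e he
    rw [hfib e he]
    exact hFr ι b γ w L z B C g hB hg hγg hz hBg hL F hF y e hy h0 h1 E
      (fun hsq i hi s => hE e h0 h1 h2 hsq i hi s)
  refine (sum_le_sum hstep).trans ?_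
  rw [← mul_sum, hP', ← prod_univ_sum (fun k => if k ∈ F then {1} else t k)
    (fun k m => gm (γ k) m * hq B m)]
  refine mul_le_mul_of_nonneg_left (le_of_eq ?_) (by positivity)
  rw [← prod_sdiff (subset_univ F)]
  have e1 : ∏ k ∈ F, ∑ m ∈ (if k ∈ F then {1} else t k), gm (γ k) m * hq B m = 1 := by
    refine prod_eq_one fun k hk => ?_
    rw [if_pos hk, sum_singleton, gm_one, hq_one, mul_one]
  rw [e1, mul_one]
  refine prod_congr rfl fun k hk => ?_
  rw [if_neg (mem_sdiff.1 hk).2]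

/-- the numerical estimate -/
lemma num_le (A M : ℕ) {ε δ C1 : ℝ} (hε : 0 ≤ ε) (hδ : 0 < δ) (h : (A : ℝ) * (ε * M ^ 2) ≤ δ / 2) :
    ∃ C' : ℝ, 0 ≤ C' ∧ ∀ l : ℝ, 1 ≤ l →
      Real.exp (M * (ε * (M * Real.log (VV A l)) + C1)) * Real.log (VV A l) ^ (M + 1) ≤
        C' * l ^ δ := by
  obtain ⟨C2, hC2, h2⟩ := log_VV_pow_le A (M + 1) (half_pos hδ)
  refine ⟨Real.exp (M * C1) * (5 : ℝ) ^ (ε * M ^ 2) * C2, by positivity, fun l hl => ?_⟩
  have hl0 : 0 < l := by linarith
  have hV0 : (0 : ℝ) < VV A l := by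
    have := three_le_VV A l
    exact_mod_cast (by omega : 0 < VV A l)
  have e1 : Real.exp (M * (ε * (M * Real.log (VV A l)) + C1)) =
      Real.exp (M * C1) * (VV A l : ℝ) ^ (ε * M ^ 2) := by
    rw [Real.rpow_def_of_pos hV0, ← Real.exp_add]
    congr 1
    ring
  have hεM : 0 ≤ ε * (M : ℝ) ^ 2 := by positivity
  have e2 : (VV A l : ℝ) ^ (ε * M ^ 2) ≤ (5 : ℝ) ^ (ε * M ^ 2) * l ^ (δ / 2) := by
    calc (VV A l : ℝ) ^ (ε * M ^ 2) ≤ (5 * l ^ A) ^ (ε * (M : ℝ) ^ 2) :=
          Real.rpow_le_rpow hV0.le (VV_le hl) hεM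
      _ = (5 : ℝ) ^ (ε * M ^ 2) * l ^ ((A : ℝ) * (ε * M ^ 2)) := by
          rw [Real.mul_rpow (by norm_num) (by positivity), ← Real.rpow_natCast l A,
            ← Real.rpow_mul hl0.le]
      _ ≤ _ := by
          refine mul_le_mul_of_nonneg_left ?_ (by positivity)
          exact Real.rpow_le_rpow_of_exponent_le hl h
  rw [e1]
  have h3 := h2 l hl
  have hlV : 0 ≤ Real.log (VV A l) ^ (M + 1) := by
    have := one_le_log_VV A l
    positivity
  calc Real.exp (M * C1) * (VV A l : ℝ) ^ (ε * M ^ 2) * Real.log (VV A l) ^ (M + 1)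
      ≤ Real.exp (M * C1) * ((5 : ℝ) ^ (ε * M ^ 2) * l ^ (δ / 2)) * (C2 * l ^ (δ / 2)) := by
        gcongr
    _ = Real.exp (M * C1) * (5 : ℝ) ^ (ε * M ^ 2) * C2 * (l ^ (δ / 2) * l ^ (δ / 2)) := by ring
    _ = _ := by rw [← Real.rpow_add hl0, add_halves]

/-- a huge variable, general form -/
lemma tail_gen (hB : Bd b γ w z B C) (A : ℕ) {K : ℝ} (hK : 0 ≤ K) (k : ι) :
    ∃ C' : ℝ, 0 ≤ C' ∧ ∀ y, z < y → ∀ t : ι → Finset ℕ, (∀ k, t k ⊆ (PP z y).divisors) →
      (∀ m ∈ t k, YY A (Real.log y) < m) →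
      |∑ d ∈ Fintype.piFinset t, HH b L κ d| ≤ C' * (Real.log y) ^ K := by
  have hC0 : 0 ≤ C := zero_le_one.trans hB.C1
  refine ⟨C ^ (Fintype.card ι + 1) * (Fintype.card ι + 2).factorial, by positivity,
    fun y hy t ht htk => ?_⟩
  have hly := one_le_log hB.z2 hy
  have hly0 : 0 < Real.log y := by linarith
  set l := Real.log y with hl
  set V := VV A l with hV
  set Y := YY A l with hY
  refine (triv hB ht).trans ?_
  have h1 : ∏ i, ∑ m ∈ t i, gm (γ i) m ≤ ∏ i, ∑ m ∈ t i, gm (γ i) m * hq B m := by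
    apply prod_le_prod
    · intro i _
      exact sum_nonneg fun m hm => gγ_nonneg hB i (ht i hm)
    · intro i _
      exact sum_le_sum fun m hm => gm_le_hq hB i (ht i hm)
  refine h1.trans ?_
  rw [← mul_prod_erase univ _ (mem_univ k)]
  have h2 : ∑ m ∈ t k, gm (γ k) m * hq B m ≤ C * Real.exp (-l) * l ^ 2 := by
    have hV3 := three_le_VV A l
    have hVY := VV_le_YY A l
    calc ∑ m ∈ t k, gm (γ k) m * hq B m
        ≤ ∑ m ∈ (PP z y).divisors.filter (fun d => Y < d), gm (γ k) m * hq B m := by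
          apply sum_le_sum_of_subset_of_nonneg
          · intro m hm
            rw [mem_filter]
            exact ⟨ht k hm, htk m hm⟩
          · intro m hm _
            exact gh_nonneg hB k (mem_filter.1 hm).1
      _ ≤ C * Real.exp (-(Real.log Y / Real.log y)) * (Real.log y) ^ 2 :=
          hB.F3 k y Y hy (by omega)
      _ ≤ C * Real.exp (-l) * l ^ 2 := by
          apply mul_le_mul_of_nonneg_right _ (by positivity)
          apply mul_le_mul_of_nonneg_left _ hC0
          apply Real.exp_le_exp.2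
          rw [neg_le_neg_iff, le_div_iff₀ hly0]
          have := log_YY_ge A l
          nlinarith
  have h3 : ∏ b ∈ univ.erase k, ∑ m ∈ t b, gm (γ b) m * hq B m ≤ (C * l) ^ (Fintype.card ι) := by
    have hCl : 1 ≤ C * l := by nlinarith [hB.C1]
    calc _ ≤ ∏ b ∈ univ.erase k, (C * l) := by
          apply prod_le_prod
          · intro b _
            exact sum_nonneg fun m hm => gh_nonneg hB b (ht b hm)
          · intro b _
            calc ∑ m ∈ t b, gm (γ b) m * hq B m ≤ ∑ m ∈ (PP z y).divisors, gm (γ b) m * hq B m :=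
                  sum_le_sum_of_subset_of_nonneg (ht b) fun m hm _ => gh_nonneg hB b hm
              _ ≤ C * (Real.log y) ^ (w b) := hB.F1 b y hy
              _ ≤ C * Real.log y := by
                apply mul_le_mul_of_nonneg_left _ hC0
                calc (Real.log y) ^ (w b) ≤ (Real.log y) ^ (1 : ℝ) :=
                      Real.rpow_le_rpow_of_exponent_le hly (hB.w1 b)
                  _ = Real.log y := Real.rpow_one _
      _ = (C * l) ^ (univ.erase k).card := by rw [prod_const]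
      _ ≤ _ := by
          apply pow_le_pow_right₀ hCl
          exact (card_le_card (erase_subset _ _)).trans (le_of_eq card_univ)
  have h4 : 1 ≤ l ^ K := Real.one_le_rpow hly hK
  have h5 := exp_neg_pow (Fintype.card ι + 2) hly
  calc _ ≤ C * Real.exp (-l) * l ^ 2 * (C * l) ^ (Fintype.card ι) := by
        apply mul_le_mul h2 h3 _ (by positivity)
        exact prod_nonneg fun b _ => sum_nonneg fun m hm => gh_nonneg hB b (ht b hm)
    _ = C ^ (Fintype.card ι + 1) * (Real.exp (-l) * l ^ (Fintype.card ι + 2)) := by ring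
    _ ≤ C ^ (Fintype.card ι + 1) * (Fintype.card ι + 2).factorial :=
        mul_le_mul_of_nonneg_left h5 (by positivity)
    _ ≤ _ := le_mul_of_one_le_right (by positivity) h4

/-- two linked large variables, general form -/
lemma link_gen (hB : Bd b γ w z B C) {g F C2 : ℝ} {E2 : ℕ} (hC2 : 0 ≤ C2) (h2 : BWg g F C2 E2)
    (hg : 0 ≤ g) (hγg : ∀ i (p : ℕ), p.Prime → z < p → γ i p ≤ g / p)
    (hF : (Fintype.card ι : ℝ) ≤ F)
    (hL : ∀ i, L i i = false) {A : ℕ} (hA : 6 * (Fintype.card ι + 2 * E2) ≤ A) {K : ℝ} (hK : 0 ≤ K)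
    {i j : ι} (hij : L i j ≠ L j i) :
    ∃ C' : ℝ, ∀ y, z < y → ∀ t : ι → Finset ℕ, (∀ k, t k ⊆ (PP z y).divisors) →
      t i = lg z y (VV A (Real.log y)) (YY A (Real.log y)) →
      t j = lg z y (VV A (Real.log y)) (YY A (Real.log y)) →
      |∑ d ∈ Fintype.piFinset t, HH b L κ d| ≤ C' * (Real.log y) ^ K := by
  have hC0 : 0 ≤ C := zero_le_one.trans hB.C1
  refine ⟨C ^ (Fintype.card ι) * C2 * ((A + 3) ^ E2 + 1), fun y hy t ht hti htj => ?_⟩
  have hly := one_le_log hB.z2 hy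
  have hly0 : 0 < Real.log y := by linarith
  set l := Real.log y with hl
  set V := VV A l with hV
  set Y := YY A l with hY
  have hV3 : 3 ≤ V := three_le_VV A l
  have hVY : V ≤ Y := VV_le_YY A l
  have hne : i ≠ j := by rintro rfl; exact hij rfl
  have hmain : |∑ d ∈ Fintype.piFinset t, HH b L κ d| ≤
      (C * l) ^ (Fintype.card ι) *
        (C2 * ((Real.log Y) ^ E2 * (V : ℝ) ^ (-(1 / 6 : ℝ)) + (Real.log Y) ^ (-F))) := by
    rcases h1 : L i j with _ | _
    · rcases h1' : L j i with _ | _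
      · rw [h1, h1'] at hij; exact absurd rfl hij
      · exact pair_case hB hC2 h2 hg hγg hne.symm (hL j) h1' h1 hy hV3 hVY ht htj hti
    · rcases h1' : L j i with _ | _
      · exact pair_case hB hC2 h2 hg hγg hne (hL i) h1 h1' hy hV3 hVY ht hti htj
      · rw [h1, h1'] at hij; exact absurd rfl hij
  refine hmain.trans ?_
  have h3 : Real.log Y ≤ (A + 3) * l ^ 2 := log_YY_le hly
  have h3' : 0 ≤ Real.log Y := Real.log_natCast_nonneg Y
  have h3'' : l ≤ Real.log Y := by
    have := log_YY_ge A l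
    nlinarith
  have h4 : (V : ℝ) ^ (-(1 / 6 : ℝ)) ≤ (l ^ (Fintype.card ι + 2 * E2))⁻¹ := by
    have h5 : l ^ (6 * (Fintype.card ι + 2 * E2)) ≤ V :=
      (pow_le_pow_right₀ hly hA).trans (VV_ge A l)
    have h6 : (0 : ℝ) < l ^ (6 * (Fintype.card ι + 2 * E2)) := by positivity
    have h7 : (V : ℝ) ^ (-(1 / 6 : ℝ)) ≤ (l ^ (6 * (Fintype.card ι + 2 * E2))) ^ (-(1 / 6 : ℝ)) :=
      Real.rpow_le_rpow_of_nonpos h6 h5 (by norm_num)
    refine h7.trans (le_of_eq ?_)
    rw [← Real.rpow_natCast l, ← Real.rpow_mul hly0.le, ← Real.rpow_natCast l,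
      ← Real.rpow_neg hly0.le]
    congr 1
    push_cast
    ring
  have h4' : (Real.log Y) ^ (-F) ≤ (l ^ (Fintype.card ι))⁻¹ := by
    calc (Real.log Y) ^ (-F) ≤ l ^ (-F) :=
          Real.rpow_le_rpow_of_nonpos hly0 h3'' (by
            have : (0 : ℝ) ≤ Fintype.card ι := Nat.cast_nonneg _
            linarith)
      _ ≤ l ^ (-(Fintype.card ι : ℝ)) := Real.rpow_le_rpow_of_exponent_le hly (by linarith)
      _ = _ := by rw [Real.rpow_neg hly0.le, Real.rpow_natCast]
  have h8 : (1 : ℝ) ≤ l ^ K := Real.one_le_rpow hly hK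
  calc (C * l) ^ (Fintype.card ι) *
        (C2 * ((Real.log Y) ^ E2 * (V : ℝ) ^ (-(1 / 6 : ℝ)) + (Real.log Y) ^ (-F)))
      ≤ (C * l) ^ (Fintype.card ι) * (C2 * (((A + 3) * l ^ 2) ^ E2 *
          (l ^ (Fintype.card ι + 2 * E2))⁻¹ + (l ^ (Fintype.card ι))⁻¹)) := by
        apply mul_le_mul_of_nonneg_left _ (by positivity)
        apply mul_le_mul_of_nonneg_left _ hC2
        apply add_le_add _ h4'
        exact mul_le_mul (pow_le_pow_left₀ h3' h3 _) h4 (by positivity) (by positivity)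
    _ = C ^ (Fintype.card ι) * C2 * ((A + 3) ^ E2 + 1) := by
        rw [mul_pow, mul_pow, ← pow_mul, pow_add]
        field_simp
    _ ≤ _ := le_mul_of_one_le_right (by positivity) h8

end AT

end Pool.Agent.L7h19.RP
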