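import Mathlib
import Pool.Agent.L7h19.RP.A6

/-!
# Project RP: sums of products of Jacobi symbols with inactive variables, the bound
-/

set_option autoImplicit false

namespace Pool.Agent.L7h19.RP

open Finset Pool.Agent.W262.RK

namespace AT

variable {ι : Type} [Fintype ι] [DecidableEq ι]

variable {b γ : ι → ℕ → ℝ} {w : ι → ℝ} {L : ι → ι → Bool} {κ : ι → ℤ} {z B : ℕ} {C : ℝ}

open Pool.Agent.W262.RK.AT (lg VV YY cl cell cell_sub cell_zero cell_one cell_two cell_three
  three_le_VV VV_le_YY one_le_log_VV VV_ge VV_le log_YY_ge log_YY_le log_VV_pow_le exp_neg_pow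
  patterns)

/-- the free inactive variables of a pattern: unlinked with all large active variables -/
def NF (L : ι → ι → Bool) (N : Finset ι) (π : ι → Fin 4) : Finset ι :=
  N.filter (fun n => ∀ k, k ∉ N → π k = 2 → L n k = L k n)

/-- the ranges of the variables of a pattern -/
def tt (L : ι → ι → Bool) (N : Finset ι) (z y V Y : ℕ) (π : ι → Fin 4) (k : ι) : Finset ℕ :=
  if k ∈ NF L N π then (PP z y).divisors else cell z y V Y (π k)

lemma NF_congr (L : ι → ι → Bool) (N : Finset ι) {π π' : ι → Fin 4} (h : ∀ k ∉ N, π k = π' k) :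
    NF L N π = NF L N π' := by
  unfold NF
  refine filter_congr fun n _ => forall_congr' fun k => ?_
  constructor
  · intro h1 hk h2
    exact h1 hk (by rw [h k hk]; exact h2)
  · intro h1 hk h2
    exact h1 hk (by rw [← h k hk]; exact h2)

lemma NF_sub {L : ι → ι → Bool} {N : Finset ι} {π : ι → Fin 4} {k : ι} (h : k ∈ NF L N π) :
    k ∈ N := (mem_filter.1 h).1

lemma mem_cell_iff {z y V Y m : ℕ} {r : Fin 4} :
    m ∈ cell z y V Y r ↔ m ∈ (PP z y).divisors ∧ cl V Y m = r := by
  unfold cell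
  rw [mem_filter]

/-- the decomposition into patterns, with free variables -/
lemma core_patterns (L : ι → ι → Bool) (N : Finset ι) (z y V Y : ℕ) (F : (ι → ℕ) → ℝ) :
    ∑ d ∈ Fintype.piFinset (fun _ : ι => (PP z y).divisors), F d =
      ∑ π : ι → Fin 4, (if (∀ k ∈ NF L N π, π k = 0) then
        ∑ d ∈ Fintype.piFinset (tt L N z y V Y π), F d else 0) := by
  classical
  rw [← sum_fiberwise (Fintype.piFinset (fun _ : ι => (PP z y).divisors))
    (fun d k => if k ∈ NF L N (fun k => cl V Y (d k)) then 0 else cl V Y (d k)) F]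
  apply sum_congr rfl
  intro π _
  have hiff : ∀ d : ι → ℕ, (fun k => if k ∈ NF L N (fun k => cl V Y (d k)) then 0 else
      cl V Y (d k)) = π ↔ (∀ k ∈ NF L N π, π k = 0) ∧ ∀ k ∉ NF L N π, cl V Y (d k) = π k := by
    intro d
    constructor
    · intro h
      have h0 : ∀ k ∉ N, cl V Y (d k) = π k := by
        intro k hk
        have := congrFun h k
        rwa [if_neg (fun h' => hk (NF_sub h'))] at this
      have h1 : NF L N (fun k => cl V Y (d k)) = NF L N π := NF_congr L N h0
      constructor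
      · intro k hk
        have := congrFun h k
        rw [h1, if_pos hk] at this
        exact this.symm
      · intro k hk
        have := congrFun h k
        rwa [h1, if_neg hk] at this
    · rintro ⟨h1, h2⟩
      have h3 : NF L N (fun k => cl V Y (d k)) = NF L N π :=
        NF_congr L N fun k hk => h2 k (fun h' => hk (NF_sub h'))
      funext k
      rw [h3]
      by_cases hk : k ∈ NF L N π
      · rw [if_pos hk, h1 k hk]
      · rw [if_neg hk, h2 k hk]
  split_ifs with hc
  · apply sum_congr _ (fun _ _ => rfl)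
    ext d
    rw [mem_filter, Fintype.mem_piFinset, Fintype.mem_piFinset, hiff]
    constructor
    · rintro ⟨h1, -, h2⟩ k
      unfold tt
      split_ifs with hk
      · exact h1 k
      · exact mem_cell_iff.2 ⟨h1 k, h2 k hk⟩
    · intro h
      refine ⟨fun k => ?_, hc, fun k hk => ?_⟩
      · have := h k
        unfold tt at this
        split_ifs at this
        · exact this
        · exact (mem_cell_iff.1 this).1
      · have := h k
        unfold tt at this
        rw [if_neg hk] at this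
        exact (mem_cell_iff.1 this).2
  · apply sum_eq_zero
    intro d hd
    rw [mem_filter, hiff] at hd
    exact absurd hd.2.1 hc

/-- the bound for the sums over the primes -/
lemma E_le {N : Finset ι} {ε C1 : ℝ} (hε : 0 ≤ ε)
    (H1 : ∀ (i : ι) (y r : ℕ) (s : Bool), z < y → 1 < r → Squarefree r →
      (∀ p : ℕ, p.Prime → p ∣ r → z < p) →
      ∑ p ∈ PS z y, b i p * (Jr p r * x4 s p) ≤ ε * Real.log r + C1)
    (H0 : ∀ i ∈ N, ∀ (y : ℕ) (s : Bool), z < y → ∑ p ∈ PS z y, b i p * (Jr p 1 * x4 s p) ≤ C1)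
    {y V : ℕ} (hy : z < y) (hV : 3 ≤ V) {e : ι → ℕ} (he : ∀ k, e k ∈ (PP z y).divisors)
    (hsq : Squarefree (∏ k, e k)) {i : ι} (hlk : ∀ k, L i k ≠ L k i → e k ≤ V)
    (hone : i ∉ N → 1 < lk L i e) (s : Bool) :
    ∑ p ∈ PS z y, b i p * (Jr p (lk L i e) * x4 s p) ≤
      ε * (Fintype.card ι * Real.log V) + C1 := by
  have hlV : 0 ≤ Real.log V := Real.log_natCast_nonneg V
  have hlk0 : lk L i e ≠ 0 := by
    unfold lk
    exact prod_ne_zero_iff.2 fun k _ => dv_ne_zero (he k)
  have hnn : 0 ≤ ε * (Fintype.card ι * Real.log V) := by positivity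
  rcases Nat.lt_or_ge 1 (lk L i e) with h1 | h1
  · have hsq' : Squarefree (lk L i e) := by
      unfold lk
      exact hsq.squarefree_of_dvd (prod_dvd_prod_of_subset _ _ _ (subset_univ _))
    refine (H1 i y (lk L i e) s hy h1 hsq' (fun p hp hpr =>
      Pool.Agent.W262.RK.AT.lk_primes he hp hpr)).trans ?_
    have hle : lk L i e ≤ V ^ Fintype.card ι := by
      unfold lk
      calc ∏ b ∈ (univ.erase i).filter (fun b => L i b ≠ L b i), e b
          ≤ ∏ b ∈ (univ.erase i).filter (fun b => L i b ≠ L b i), V :=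
            prod_le_prod' fun b hb => hlk b (mem_filter.1 hb).2
        _ = V ^ ((univ.erase i).filter (fun b => L i b ≠ L b i)).card := by rw [prod_const]
        _ ≤ V ^ Fintype.card ι := Nat.pow_le_pow_right (by omega)
            ((card_le_card (subset_univ _)).trans (le_of_eq card_univ))
    have h5 : Real.log (lk L i e) ≤ Fintype.card ι * Real.log V := by
      rw [← Real.log_pow]
      apply Real.log_le_log (by exact_mod_cast (by omega : 0 < lk L i e))
      exact_mod_cast hle
    have := mul_le_mul_of_nonneg_left h5 hε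
    linarith
  · have h2 : lk L i e = 1 := by omega
    have hi : i ∈ N := by
      by_contra h
      have := hone h
      omega
    rw [h2]
    refine (H0 i hi y s hy).trans ?_
    linarith

/-- sums with free variables and small moduli -/
lemma free_case (hFr : StFree) (hB : Bd b γ w z B C) {g : ℝ} (hg : 0 ≤ g)
    (hγg : ∀ i (p : ℕ), p.Prime → z < p → γ i p ≤ g / p) (hz : 2 * (Fintype.card ι * g) ≤ z)
    (hBg : 2 * (Fintype.card ι * g) ≤ B) (hL : ∀ i, L i i = false)
    {N : Finset ι} {ε C1 : ℝ} (hε : 0 ≤ ε) (hC1 : 0 ≤ C1)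
    (H1 : ∀ (i : ι) (y r : ℕ) (s : Bool), z < y → 1 < r → Squarefree r →
      (∀ p : ℕ, p.Prime → p ∣ r → z < p) →
      ∑ p ∈ PS z y, b i p * (Jr p r * x4 s p) ≤ ε * Real.log r + C1)
    (H0 : ∀ i ∈ N, ∀ (y : ℕ) (s : Bool), z < y → ∑ p ∈ PS z y, b i p * (Jr p 1 * x4 s p) ≤ C1)
    {F : Finset ι} (hF : ∀ i ∈ F, ∀ j ∈ F, L i j = L j i) {y V : ℕ} (hy : z < y) (hV : 3 ≤ V)
    {t : ι → Finset ℕ} (ht : ∀ k, t k ⊆ (PP z y).divisors)
    (htF : ∀ k ∈ F, t k = (PP z y).divisors)
    (hlk : ∀ i ∈ F, ∀ k ∉ F, L i k ≠ L k i → ∀ m ∈ t k, m ≤ V)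
    (hone : ∀ i ∈ F, i ∉ N → ∃ k, k ∉ F ∧ L i k ≠ L k i ∧ ∀ m ∈ t k, 1 < m) :
    |∑ d ∈ Fintype.piFinset t, HH b L (fun _ => 1) d| ≤
      2 ^ (Fintype.card ι) *
        Real.exp (Fintype.card ι * (ε * (Fintype.card ι * Real.log V) + C1)) *
        ∏ k ∈ univ \ F, ∑ m ∈ t k, gm (γ k) m * hq B m := by
  have hlV : 0 ≤ Real.log V := Real.log_natCast_nonneg V
  have hE0 : 0 ≤ ε * (Fintype.card ι * Real.log V) + C1 := by positivity
  refine (free_sum hFr hB hg hγg hz hBg hL hF hy ht htF
    (fun _ => ε * (Fintype.card ι * Real.log V) + C1) ?_).trans ?_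
  · intro e he1 he2 he3 hsq i hi s
    refine E_le hε H1 H0 hy hV he1 hsq (fun k hk => ?_) (fun hiN => ?_) s
    · by_cases hkF : k ∈ F
      · exact absurd (hF i hi k hkF) hk
      · exact hlk i hi k hkF hk _ (he3 k hkF)
    · obtain ⟨k, hkF, hk, hk1⟩ := hone i hi hiN
      have h1 := hk1 _ (he3 k hkF)
      have hki : k ≠ i := by rintro rfl; exact hkF hi
      have h2 : e k ∣ lk L i e := by
        unfold lk
        exact dvd_prod_of_mem e (mem_filter.2 ⟨mem_erase.2 ⟨hki, mem_univ k⟩, hk⟩)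
      have h3 : lk L i e ≠ 0 := by
        unfold lk
        exact prod_ne_zero_iff.2 fun k _ => dv_ne_zero (he1 k)
      exact lt_of_lt_of_le h1 (Nat.le_of_dvd (Nat.pos_of_ne_zero h3) h2)
  · refine mul_le_mul_of_nonneg_right ?_ ?_
    · refine mul_le_mul_of_nonneg_left ?_ (by positivity)
      refine Real.exp_le_exp.2 ?_
      rw [sum_const, nsmul_eq_mul]
      refine mul_le_mul_of_nonneg_right ?_ hE0
      exact_mod_cast (card_le_card (subset_univ F)).trans (le_of_eq card_univ)
    · exact prod_nonneg fun k _ => sum_nonneg fun m hm => gh_nonneg hB k (ht k hm)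

end AT

end Pool.Agent.L7h19.RP
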