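import Mathlib
import Pool.Agent.L7h19.RP.A7

/-!
# Project RP: sums of products of Jacobi symbols with inactive variables, all patterns
-/

set_option autoImplicit false

namespace Pool.Agent.L7h19.RP

open Finset Pool.Agent.W262.RK

namespace AT

variable {ι : Type} [Fintype ι] [DecidableEq ι]

variable {b γ : ι → ℕ → ℝ} {w : ι → ℝ} {L : ι → ι → Bool} {κ : ι → ℤ} {z B : ℕ} {C : ℝ}

open Pool.Agent.W262.RK.AT (lg VV YY cl cell cell_sub cell_zero cell_one cell_two cell_three
  three_le_VV VV_le_YY one_le_log_VV VV_ge VV_le log_YY_ge log_YY_le log_VV_pow_le exp_neg_pow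
  patterns)

/-- the conditions for the inactive variables -/
structure HN (b : ι → ℕ → ℝ) (w : ι → ℝ) (L : ι → ι → Bool) (N : Finset ι) (K : ℝ) (z A : ℕ)
    (ε C1 δ : ℝ) : Prop where
  L0 : ∀ i, L i i = false
  NN : ∀ i ∈ N, ∀ j ∈ N, L i j = L j i
  hK : ∀ U : Finset ι, (∀ i ∈ U, i ∉ N) → (∀ i ∈ U, ∀ j ∈ U, L i j = L j i) → ∑ i ∈ U, w i ≤ K
  δ0 : 0 < δ
  δw : ∀ i, δ ≤ w i
  δK : ∀ U : Finset ι, ∑ i ∈ U, w i < K → ∑ i ∈ U, w i + δ ≤ K
  ε0 : 0 ≤ ε
  C10 : 0 ≤ C1
  εA : (A : ℝ) * (ε * (Fintype.card ι : ℝ) ^ 2) ≤ δ / 2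
  H1 : ∀ (i : ι) (y r : ℕ) (s : Bool), z < y → 1 < r → Squarefree r →
    (∀ p : ℕ, p.Prime → p ∣ r → z < p) →
    ∑ p ∈ PS z y, b i p * (Jr p r * x4 s p) ≤ ε * Real.log r + C1
  H0 : ∀ i ∈ N, ∀ (y : ℕ) (s : Bool), z < y → ∑ p ∈ PS z y, b i p * (Jr p 1 * x4 s p) ≤ C1

lemma tt_sub (L : ι → ι → Bool) (N : Finset ι) (z y V Y : ℕ) (π : ι → Fin 4) (k : ι) :
    tt L N z y V Y π k ⊆ (PP z y).divisors := by
  unfold tt
  split_ifs
  · exact Subset.refl _
  · exact cell_sub _ _ _ _ _

lemma tt_of {L : ι → ι → Bool} {N : Finset ι} {z y V Y : ℕ} {π : ι → Fin 4} {k : ι}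
    (h : k ∉ NF L N π) : tt L N z y V Y π k = cell z y V Y (π k) := by
  unfold tt
  rw [if_neg h]

/-- the products over the restricted variables -/
lemma prod_tt (hB : Bd b γ w z B C) {N : Finset ι} {y : ℕ} (hy : z < y) {V Y : ℕ} (hV : 3 ≤ V)
    (π : ι → Fin 4) (s : Finset ι) (hs : ∀ k ∈ s, k ∉ NF L N π) (h3 : ∀ k ∈ s, π k ≠ 3) :
    ∏ k ∈ s, ∑ m ∈ tt L N z y V Y π k, gm (γ k) m * hq B m ≤
      C ^ (Fintype.card ι) * (Real.log y) ^ (∑ k ∈ s.filter (fun k => π k = 2), w k) *
        (Real.log V) ^ (Fintype.card ι) := by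
  refine le_trans (le_of_eq ?_) (prod_low hB hy hV (Y := Y) π s h3)
  exact prod_congr rfl fun k hk => by rw [tt_of (hs k hk)]

/-- a small or trivial variable -/
lemma cell_small {z y V Y m : ℕ} {r : Fin 4} (hV : 3 ≤ V) (h2 : r ≠ 2) (h3 : r ≠ 3)
    (h : m ∈ cell z y V Y r) : m ≤ V := by
  have key : ∀ r : Fin 4, r ≠ 2 → r ≠ 3 → r = 0 ∨ r = 1 := by decide
  rcases key r h2 h3 with h' | h'
  · rw [h'] at h
    have := cell_zero h
    omega
  · rw [h'] at h
    exact (cell_one h).2

/-- the bound of a pattern with few large variables -/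
lemma few_case (hFr : StFree) (hB : Bd b γ w z B C) {g : ℝ} (hg : 0 ≤ g)
    (hγg : ∀ i (p : ℕ), p.Prime → z < p → γ i p ≤ g / p) (hz : 2 * (Fintype.card ι * g) ≤ z)
    (hBg : 2 * (Fintype.card ι * g) ≤ B) {N : Finset ι} {K ε C1 δ : ℝ} {A : ℕ}
    (hN : HN b w L N K z A ε C1 δ) (π : ι → Fin 4) (h3 : ∀ k ∉ NF L N π, π k ≠ 3)
    (hS : ∑ k ∈ (univ \ NF L N π).filter (fun k => π k = 2), w k < K) :
    ∃ C' : ℝ, ∀ y, z < y →
      |∑ d ∈ Fintype.piFinset (tt L N z y (VV A (Real.log y)) (YY A (Real.log y)) π),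
        HH b L (fun _ => 1) d| ≤ C' * (Real.log y) ^ K := by
  have hC0 : 0 ≤ C := zero_le_one.trans hB.C1
  set M := Fintype.card ι with hM
  set S := ∑ k ∈ (univ \ NF L N π).filter (fun k => π k = 2), w k with hSdef
  obtain ⟨C2, hC2, h2⟩ := num_le (C1 := C1) A M hN.ε0 hN.δ0 hN.εA
  refine ⟨2 ^ M * C ^ M * C2, fun y hy => ?_⟩
  have hly := one_le_log hB.z2 hy
  have hly0 : 0 < Real.log y := by linarith
  set l := Real.log y with hl
  set V := VV A l with hV
  set Y := YY A l with hY
  have hV3 : 3 ≤ V := three_le_VV A l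
  have hlV : 1 ≤ Real.log V := one_le_log_VV A l
  have h1 := free_case hFr hB hg hγg hz hBg hN.L0 hN.ε0 hN.C10 hN.H1 hN.H0
    (F := NF L N π) (fun i hi j hj => hN.NN i (NF_sub hi) j (NF_sub hj)) hy hV3
    (t := tt L N z y V Y π) (tt_sub L N z y V Y π) (fun k hk => by unfold tt; rw [if_pos hk])
    (fun i hi k hk hik m hm => by
      rw [tt_of hk] at hm
      refine cell_small hV3 (fun h => ?_) (h3 k hk) hm
      have hkN : k ∉ N := fun hkN => hik (hN.NN i (NF_sub hi) k hkN)
      exact hik ((mem_filter.1 hi).2 k hkN h))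
    (fun i hi hiN => absurd (NF_sub hi) hiN)
  have h4 := prod_tt (L := L) hB hy hV3 (Y := Y) π (univ \ NF L N π)
    (fun k hk => (mem_sdiff.1 hk).2) (fun k hk => h3 k (mem_sdiff.1 hk).2)
  rw [← hSdef] at h4
  have h5 := h2 l hly
  have hSδ : S + δ ≤ K := hN.δK _ hS
  calc |∑ d ∈ Fintype.piFinset (tt L N z y V Y π), HH b L (fun _ => 1) d|
      ≤ 2 ^ M * Real.exp (M * (ε * (M * Real.log V) + C1)) *
        (C ^ M * l ^ S * (Real.log V) ^ M) :=
        h1.trans (mul_le_mul_of_nonneg_left h4 (by positivity))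
    _ ≤ 2 ^ M * Real.exp (M * (ε * (M * Real.log V) + C1)) *
        (C ^ M * l ^ S * (Real.log V) ^ (M + 1)) := by
        have := pow_le_pow_right₀ hlV (Nat.le_succ M)
        gcongr
    _ = 2 ^ M * C ^ M * l ^ S * (Real.exp (M * (ε * (M * Real.log V) + C1)) *
        (Real.log V) ^ (M + 1)) := by ring
    _ ≤ 2 ^ M * C ^ M * l ^ S * (C2 * l ^ δ) := by gcongr
    _ = 2 ^ M * C ^ M * C2 * (l ^ S * l ^ δ) := by ring
    _ = 2 ^ M * C ^ M * C2 * l ^ (S + δ) := by rw [Real.rpow_add hly0]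
    _ ≤ _ := by
        apply mul_le_mul_of_nonneg_left _ (by positivity)
        exact Real.rpow_le_rpow_of_exponent_le hly hSδ

/-- the bound of a pattern whose restricted variables are trivial or large -/
lemma diagn_case (hFr : StFree) (hB : Bd b γ w z B C) {g : ℝ} (hg : 0 ≤ g)
    (hγg : ∀ i (p : ℕ), p.Prime → z < p → γ i p ≤ g / p) (hz : 2 * (Fintype.card ι * g) ≤ z)
    (hBg : 2 * (Fintype.card ι * g) ≤ B) {N : Finset ι} {K ε C1 δ : ℝ} {A : ℕ}
    (hN : HN b w L N K z A ε C1 δ) (π : ι → Fin 4) (h3 : ∀ k ∉ NF L N π, π k = 0 ∨ π k = 2)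
    (hS : ∑ k ∈ (univ \ NF L N π).filter (fun k => π k = 2), w k ≤ K) :
    ∃ C' : ℝ, ∀ y, z < y →
      |∑ d ∈ Fintype.piFinset (tt L N z y (VV A (Real.log y)) (YY A (Real.log y)) π),
        HH b L (fun _ => 1) d| ≤ C' * (Real.log y) ^ K := by
  have hC0 : 0 ≤ C := zero_le_one.trans hB.C1
  set M := Fintype.card ι with hM
  set S := ∑ k ∈ (univ \ NF L N π).filter (fun k => π k = 2), w k with hSdef
  refine ⟨2 ^ M * Real.exp (M * C1) * C ^ M, fun y hy => ?_⟩
  have hly := one_le_log hB.z2 hy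
  have hly0 : 0 < Real.log y := by linarith
  set l := Real.log y with hl
  set V := VV A l with hV
  set Y := YY A l with hY
  have hV3 : 3 ≤ V := three_le_VV A l
  have h1 := free_sum hFr hB hg hγg hz hBg hN.L0
    (F := NF L N π) (fun i hi j hj => hN.NN i (NF_sub hi) j (NF_sub hj)) hy
    (t := tt L N z y V Y π) (tt_sub L N z y V Y π) (fun k hk => by unfold tt; rw [if_pos hk])
    (fun _ => C1) (by
      intro e he1 he2 he3 hsq i hi s
      have hone : lk L i e = 1 := by
        unfold lk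
        refine prod_eq_one fun k hk => ?_
        have hik := (mem_filter.1 hk).2
        have hkN : k ∉ N := fun hkN => hik (hN.NN i (NF_sub hi) k hkN)
        have hkF : k ∉ NF L N π := fun h => hkN (NF_sub h)
        have h4 := he3 k hkF
        rw [tt_of hkF] at h4
        rcases h3 k hkF with h5 | h5
        · rw [h5] at h4
          exact cell_zero h4
        · exact absurd ((mem_filter.1 hi).2 k hkN h5) hik
      rw [hone]
      exact hN.H0 i (NF_sub hi) y s hy)
  have e1 : ∀ k ∈ univ \ NF L N π, ∑ m ∈ tt L N z y V Y π k, gm (γ k) m * hq B m ≤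
      C * (if π k = 2 then l ^ (w k) else 1) := by
    intro k hk
    have hkF := (mem_sdiff.1 hk).2
    rw [tt_of hkF]
    rcases h3 k hkF with h | h
    · rw [h, if_neg (by decide)]
      calc ∑ m ∈ cell z y V Y 0, gm (γ k) m * hq B m ≤
            ∑ m ∈ ({1} : Finset ℕ), gm (γ k) m * hq B m := by
            apply sum_le_sum_of_subset_of_nonneg
            · intro m hm
              rw [mem_singleton]
              exact cell_zero hm
            · intro m hm _
              rw [mem_singleton] at hm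
              rw [hm, gm_one, hq_one]
              norm_num
        _ ≤ C * 1 := by
            rw [sum_singleton, gm_one, hq_one, mul_one, mul_one]
            exact hB.C1
    · rw [if_pos h]
      calc ∑ m ∈ cell z y V Y (π k), gm (γ k) m * hq B m ≤
            ∑ m ∈ (PP z y).divisors, gm (γ k) m * hq B m :=
            sum_le_sum_of_subset_of_nonneg (cell_sub _ _ _ _ _) fun m hm _ => gh_nonneg hB k hm
        _ ≤ _ := hB.F1 k y hy
  have e2 : ∏ k ∈ univ \ NF L N π, ∑ m ∈ tt L N z y V Y π k, gm (γ k) m * hq B m ≤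
      C ^ M * l ^ S := by
    calc _ ≤ ∏ k ∈ univ \ NF L N π, (C * (if π k = 2 then l ^ (w k) else 1)) := by
          apply prod_le_prod _ e1
          intro k _
          exact sum_nonneg fun m hm => gh_nonneg hB k (tt_sub _ _ _ _ _ _ _ _ hm)
      _ = C ^ (univ \ NF L N π).card * l ^ S := by
          rw [prod_mul_distrib, prod_const, prod_ite, prod_const_one, mul_one,
            ← Real.rpow_sum_of_pos hly0]
      _ ≤ _ := by
          apply mul_le_mul_of_nonneg_right _ (by positivity)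
          exact pow_le_pow_right₀ hB.C1 ((card_le_card (subset_univ _)).trans (le_of_eq card_univ))
  have e3 : Real.exp (∑ i ∈ NF L N π, C1) ≤ Real.exp (M * C1) := by
    refine Real.exp_le_exp.2 ?_
    rw [sum_const, nsmul_eq_mul]
    refine mul_le_mul_of_nonneg_right ?_ hN.C10
    exact_mod_cast (card_le_card (subset_univ _)).trans (le_of_eq card_univ)
  have e4 : 0 ≤ ∏ k ∈ univ \ NF L N π, ∑ m ∈ tt L N z y V Y π k, gm (γ k) m * hq B m :=
    prod_nonneg fun k _ => sum_nonneg fun m hm => gh_nonneg hB k (tt_sub _ _ _ _ _ _ _ _ hm)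
  calc |∑ d ∈ Fintype.piFinset (tt L N z y V Y π), HH b L (fun _ => 1) d|
      ≤ 2 ^ M * Real.exp (M * C1) * (C ^ M * l ^ S) :=
        h1.trans (mul_le_mul (mul_le_mul_of_nonneg_left e3 (by positivity)) e2 e4 (by positivity))
    _ = 2 ^ M * Real.exp (M * C1) * C ^ M * l ^ S := by ring
    _ ≤ _ := by
        apply mul_le_mul_of_nonneg_left _ (by positivity)
        exact Real.rpow_le_rpow_of_exponent_le hly hS

/-- additivity in one variable -/
lemma sum_split (t : ι → Finset ℕ) (i : ι) (D A1 A3 : Finset ℕ) (H : (ι → ℕ) → ℝ)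
    (h1 : Disjoint (t i) A1) (h2 : Disjoint (t i ∪ A1) A3) (h3 : (t i ∪ A1) ∪ A3 = D) :
    ∑ d ∈ Fintype.piFinset t, H d =
      ∑ d ∈ Fintype.piFinset (Function.update t i D), H d -
        ∑ d ∈ Fintype.piFinset (Function.update t i A1), H d -
        ∑ d ∈ Fintype.piFinset (Function.update t i A3), H d := by
  rw [sum_update t i, sum_update (Function.update t i D) i,
    sum_update (Function.update t i A1) i, sum_update (Function.update t i A3) i]
  simp only [Function.update_idem, Function.update_self]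
  rw [← sum_sub_distrib, ← sum_sub_distrib]
  refine sum_congr rfl fun e _ => ?_
  rw [← h3, sum_union h2, sum_union h1]
  ring

/-- the bound of a pattern with a small variable `k₀` which is linked with a large one `i` -/
lemma char_gen (hFr : StFree) (hB : Bd b γ w z B C) {g : ℝ} (hg : 0 ≤ g)
    (hγg : ∀ i (p : ℕ), p.Prime → z < p → γ i p ≤ g / p) (hz : 2 * (Fintype.card ι * g) ≤ z)
    (hBg : 2 * (Fintype.card ι * g) ≤ B) {N : Finset ι} {K ε C1 δ : ℝ} {A : ℕ} (hK0 : 0 ≤ K)
    (hN : HN b w L N K z A ε C1 δ) (π : ι → Fin 4) (h3 : ∀ k ∉ NF L N π, π k ≠ 3)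
    (hun : ∀ i ∉ NF L N π, ∀ j ∉ NF L N π, π i = 2 → π j = 2 → L i j = L j i)
    (hS : ∑ k ∈ (univ \ NF L N π).filter (fun k => π k = 2), w k ≤ K) {i k₀ : ι}
    (hiN : i ∉ N) (hi2 : π i = 2) (hk₀ : k₀ ∉ NF L N π) (hk1 : π k₀ = 1) (hik : L i k₀ ≠ L k₀ i) :
    ∃ C' : ℝ, ∀ y, z < y →
      |∑ d ∈ Fintype.piFinset (tt L N z y (VV A (Real.log y)) (YY A (Real.log y)) π),
        HH b L (fun _ => 1) d| ≤ C' * (Real.log y) ^ K := by
  classical
  have hC0 : 0 ≤ C := zero_le_one.trans hB.C1
  set M := Fintype.card ι with hM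
  set S := ∑ k ∈ (univ \ NF L N π).filter (fun k => π k = 2), w k with hSdef
  have hiF : i ∉ NF L N π := fun h => hiN (NF_sub h)
  obtain ⟨C2, hC2, h2⟩ := num_le (C1 := C1) A M hN.ε0 hN.δ0 hN.εA
  obtain ⟨C3, hC3, h3'⟩ := tail_gen (L := L) (κ := fun _ => 1) hB A hK0 i
  have hSw : ∑ k ∈ ((univ \ NF L N π).erase i).filter (fun k => π k = 2), w k = S - w i := by
    have h5 : ((univ \ NF L N π).erase i).filter (fun k => π k = 2) =
        ((univ \ NF L N π).filter (fun k => π k = 2)).erase i := by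
      ext k
      simp only [mem_filter, mem_erase]
      tauto
    rw [h5, hSdef, ← add_sum_erase _ _ (show i ∈ (univ \ NF L N π).filter (fun k => π k = 2) by
      rw [mem_filter, mem_sdiff]; exact ⟨⟨mem_univ i, hiF⟩, hi2⟩)]
    ring
  have hSδ : (S - w i) + δ ≤ K := by
    have := hN.δw i
    linarith
  refine ⟨2 ^ M * C ^ M * C2 + 2 ^ M * C ^ (M + 1) * C2 + C3, fun y hy => ?_⟩
  have hly := one_le_log hB.z2 hy
  have hly0 : 0 < Real.log y := by linarith
  have h3y := h3' y hy
  have h2y := h2 (Real.log y) hly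
  set l := Real.log y with hl
  set V := VV A l with hV
  set Y := YY A l with hY
  have hV3 : 3 ≤ V := three_le_VV A l
  have hVY : V ≤ Y := VV_le_YY A l
  have hlV : 1 ≤ Real.log V := one_le_log_VV A l
  set D := (PP z y).divisors with hD
  set A1 := D.filter (fun d => d ≤ V) with hA1
  set A3 := D.filter (fun d => Y < d) with hA3
  set t := tt L N z y V Y π with ht
  have hti : t i = lg z y V Y := by
    rw [ht, tt_of hiF, hi2]
    exact cell_two (by omega)
  have htsub : ∀ k, t k ⊆ D := tt_sub L N z y V Y π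
  have hupd : ∀ (A' : Finset ℕ), A' ⊆ D → ∀ k, Function.update t i A' k ⊆ D := by
    intro A' hA' k
    by_cases hk : k = i
    · subst hk
      rw [Function.update_self]
      exact hA'
    · rw [Function.update_of_ne hk]
      exact htsub k
  -- the small variables
  have hsm : ∀ k ∉ NF L N π, π k ≠ 2 → ∀ m ∈ t k, m ≤ V := by
    intro k hk hk2 m hm
    rw [ht, tt_of hk] at hm
    exact cell_small hV3 hk2 (h3 k hk) hm
  have hlkN : ∀ n ∈ NF L N π, ∀ k, L n k ≠ L k n → k ∉ NF L N π ∧ π k ≠ 2 := by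
    intro n hn k hnk
    have hkN : k ∉ N := fun hkN => hnk (hN.NN n (NF_sub hn) k hkN)
    exact ⟨fun h => hkN (NF_sub h), fun h => hnk ((mem_filter.1 hn).2 k hkN h)⟩
  have hlki : ∀ k, L i k ≠ L k i → k ∉ NF L N π ∧ π k ≠ 2 := by
    intro k hki
    have hk1 : k ∉ NF L N π := fun h => hki ((mem_filter.1 h).2 i hiN hi2).symm
    exact ⟨hk1, fun h => hki (hun i hiF k hk1 hi2 h)⟩
  have hP := prod_tt (L := L) hB hy hV3 (Y := Y) π ((univ \ NF L N π).erase i)
    (fun k hk => (mem_sdiff.1 (mem_erase.1 hk).2).2)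
    (fun k hk => h3 k (mem_sdiff.1 (mem_erase.1 hk).2).2)
  rw [hSw] at hP
  have hPnn : 0 ≤ ∏ k ∈ (univ \ NF L N π).erase i, ∑ m ∈ t k, gm (γ k) m * hq B m :=
    prod_nonneg fun k _ => sum_nonneg fun m hm => gh_nonneg hB k (htsub k hm)
  -- the final estimate
  have hfin : 2 ^ M * Real.exp (M * (ε * (M * Real.log V) + C1)) *
      (C ^ M * l ^ (S - w i) * (Real.log V) ^ (M + 1)) ≤ 2 ^ M * C ^ M * C2 * l ^ K := by
    calc _ = 2 ^ M * C ^ M * l ^ (S - w i) * (Real.exp (M * (ε * (M * Real.log V) + C1)) *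
        (Real.log V) ^ (M + 1)) := by ring
      _ ≤ 2 ^ M * C ^ M * l ^ (S - w i) * (C2 * l ^ δ) := by gcongr
      _ = 2 ^ M * C ^ M * C2 * (l ^ (S - w i) * l ^ δ) := by ring
      _ = 2 ^ M * C ^ M * C2 * l ^ ((S - w i) + δ) := by rw [Real.rpow_add hly0]
      _ ≤ _ := by
        apply mul_le_mul_of_nonneg_left _ (by positivity)
        exact Real.rpow_le_rpow_of_exponent_le hly hSδ
  -- all values of the variable `i`
  have hall : |∑ d ∈ Fintype.piFinset (Function.update t i D), HH b L (fun _ => 1) d| ≤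
      2 ^ M * C ^ M * C2 * l ^ K := by
    have h1 := free_case hFr hB hg hγg hz hBg hN.L0 hN.ε0 hN.C10 hN.H1 hN.H0
      (F := insert i (NF L N π)) (fun a ha c hc => by
        rw [mem_insert] at ha hc
        rcases ha with rfl | ha
        · rcases hc with rfl | hc
          · rfl
          · exact ((mem_filter.1 hc).2 a hiN hi2).symm
        · rcases hc with rfl | hc
          · exact (mem_filter.1 ha).2 c hiN hi2
          · exact hN.NN a (NF_sub ha) c (NF_sub hc)) hy hV3
      (t := Function.update t i D) (hupd D (Subset.refl _)) (fun k hk => by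
        by_cases hki : k = i
        · subst hki
          rw [Function.update_self]
        · rw [Function.update_of_ne hki]
          have := (mem_insert.1 hk).resolve_left hki
          rw [ht]
          unfold tt
          rw [if_pos this])
      (fun a ha k hk hak m hm => by
        rw [mem_insert, not_or] at hk
        rw [Function.update_of_ne hk.1] at hm
        rw [mem_insert] at ha
        rcases ha with rfl | ha
        · exact hsm k (hlki k hak).1 (hlki k hak).2 m hm
        · exact hsm k (hlkN a ha k hak).1 (hlkN a ha k hak).2 m hm)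
      (fun a ha haN => by
        rw [mem_insert] at ha
        rcases ha with rfl | ha
        · have hne : k₀ ≠ a := by rintro rfl; exact hik rfl
          refine ⟨k₀, fun h => ?_, hik, fun m hm => ?_⟩
          · rw [mem_insert] at h
            exact h.elim hne hk₀
          · rw [Function.update_of_ne hne, ht, tt_of hk₀, hk1] at hm
            exact (cell_one hm).1
        · exact absurd (NF_sub ha) haN)
    have e1 : univ \ insert i (NF L N π) = (univ \ NF L N π).erase i := by
      ext k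
      simp only [mem_sdiff, mem_univ, true_and, mem_insert, mem_erase, not_or]
    have e2 : ∏ k ∈ (univ \ NF L N π).erase i, ∑ m ∈ Function.update t i D k,
        gm (γ k) m * hq B m = ∏ k ∈ (univ \ NF L N π).erase i, ∑ m ∈ t k, gm (γ k) m * hq B m :=
      prod_congr rfl fun k hk => by rw [Function.update_of_ne (mem_erase.1 hk).1]
    rw [e1, e2] at h1
    refine h1.trans (le_trans ?_ hfin)
    refine mul_le_mul_of_nonneg_left (hP.trans ?_) (by positivity)
    exact mul_le_mul_of_nonneg_left (pow_le_pow_right₀ hlV (Nat.le_succ M)) (by positivity)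
  -- small values of the variable `i`
  have hsmall : |∑ d ∈ Fintype.piFinset (Function.update t i A1), HH b L (fun _ => 1) d| ≤
      2 ^ M * C ^ (M + 1) * C2 * l ^ K := by
    have h1 := free_case hFr hB hg hγg hz hBg hN.L0 hN.ε0 hN.C10 hN.H1 hN.H0
      (F := NF L N π) (fun a ha c hc => hN.NN a (NF_sub ha) c (NF_sub hc)) hy hV3
      (t := Function.update t i A1) (hupd A1 (filter_subset _ _)) (fun k hk => by
        have hki : k ≠ i := by rintro rfl; exact hiF hk
        rw [Function.update_of_ne hki, ht]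
        unfold tt
        rw [if_pos hk])
      (fun a ha k hk hak m hm => by
        have h5 := hlkN a ha k hak
        have hki : k ≠ i := by rintro rfl; exact h5.2 hi2
        rw [Function.update_of_ne hki] at hm
        exact hsm k h5.1 h5.2 m hm)
      (fun a ha haN => absurd (NF_sub ha) haN)
    have hiU : i ∈ univ \ NF L N π := mem_sdiff.2 ⟨mem_univ i, hiF⟩
    rw [← mul_prod_erase _ _ hiU, Function.update_self] at h1
    have e2 : ∏ k ∈ (univ \ NF L N π).erase i, ∑ m ∈ Function.update t i A1 k,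
        gm (γ k) m * hq B m = ∏ k ∈ (univ \ NF L N π).erase i, ∑ m ∈ t k, gm (γ k) m * hq B m :=
      prod_congr rfl fun k hk => by rw [Function.update_of_ne (mem_erase.1 hk).1]
    rw [e2] at h1
    have e3 : ∑ m ∈ A1, gm (γ i) m * hq B m ≤ C * Real.log V := by
      refine (hB.F2 i y V hy (by omega)).trans ?_
      refine mul_le_mul_of_nonneg_left ?_ hC0
      calc (Real.log V) ^ (w i) ≤ (Real.log V) ^ (1 : ℝ) :=
            Real.rpow_le_rpow_of_exponent_le hlV (hB.w1 i)
        _ = Real.log V := Real.rpow_one _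
    have e4 : 0 ≤ ∑ m ∈ A1, gm (γ i) m * hq B m :=
      sum_nonneg fun m hm => gh_nonneg hB i (mem_filter.1 hm).1
    calc _ ≤ _ := h1
      _ ≤ 2 ^ M * Real.exp (M * (ε * (M * Real.log V) + C1)) *
          ((C * Real.log V) * (C ^ M * l ^ (S - w i) * (Real.log V) ^ M)) := by
          refine mul_le_mul_of_nonneg_left ?_ (by positivity)
          exact mul_le_mul e3 hP hPnn (by positivity)
      _ = C * (2 ^ M * Real.exp (M * (ε * (M * Real.log V) + C1)) *
          (C ^ M * l ^ (S - w i) * (Real.log V) ^ (M + 1))) := by ring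
      _ ≤ C * (2 ^ M * C ^ M * C2 * l ^ K) := mul_le_mul_of_nonneg_left hfin hC0
      _ = _ := by ring
  -- huge values
  have hhuge : |∑ d ∈ Fintype.piFinset (Function.update t i A3), HH b L (fun _ => 1) d| ≤
      C3 * l ^ K := by
    refine h3y _ (hupd A3 (filter_subset _ _)) ?_
    intro m hm
    rw [Function.update_self] at hm
    exact (mem_filter.1 hm).2
  have hsplit := sum_split t i D A1 A3 (HH b L (fun _ => 1))
    (by
      rw [hti, disjoint_left]
      intro m hm hm'
      have h5 := (mem_filter.1 hm).2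
      have h6 := (mem_filter.1 hm').2
      omega)
    (by
      rw [hti, disjoint_left]
      intro m hm hm'
      have h6 := (mem_filter.1 hm').2
      rcases mem_union.1 hm with h | h
      · have h5 := (mem_filter.1 h).2
        omega
      · have h5 := (mem_filter.1 h).2
        omega)
    (by
      rw [hti]
      ext m
      simp only [mem_union, hA1, hA3, mem_filter, lg]
      constructor
      · rintro ((h | h) | h)
        · exact h.1
        · exact h.1
        · exact h.1
      · intro h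
        by_cases h5 : m ≤ V
        · exact Or.inl (Or.inr ⟨h, h5⟩)
        · by_cases h6 : m ≤ Y
          · exact Or.inl (Or.inl ⟨h, by omega, h6⟩)
          · exact Or.inr ⟨h, by omega⟩)
  rw [hsplit]
  have a1 := abs_sub (∑ d ∈ Fintype.piFinset (Function.update t i D), HH b L (fun _ => 1) d -
    ∑ d ∈ Fintype.piFinset (Function.update t i A1), HH b L (fun _ => 1) d)
    (∑ d ∈ Fintype.piFinset (Function.update t i A3), HH b L (fun _ => 1) d)
  have a2 := abs_sub (∑ d ∈ Fintype.piFinset (Function.update t i D), HH b L (fun _ => 1) d)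
    (∑ d ∈ Fintype.piFinset (Function.update t i A1), HH b L (fun _ => 1) d)
  rw [add_mul, add_mul]
  linarith

/-- all patterns -/
lemma patn (hFr : StFree) (hB : Bd b γ w z B C) {g F C2 : ℝ} {E2 : ℕ} (hC2 : 0 ≤ C2)
    (h2 : BWg g F C2 E2) (hg : 0 ≤ g)
    (hγg : ∀ i (p : ℕ), p.Prime → z < p → γ i p ≤ g / p) (hz : 2 * (Fintype.card ι * g) ≤ z)
    (hBg : 2 * (Fintype.card ι * g) ≤ B) (hF : (Fintype.card ι : ℝ) ≤ F)
    {N : Finset ι} {K ε C1 δ : ℝ}
    (hN : HN b w L N K z (6 * (Fintype.card ι + 2 * E2)) ε C1 δ) (π : ι → Fin 4) :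
    ∃ C' : ℝ, ∀ y, z < y →
      |∑ d ∈ Fintype.piFinset (tt L N z y (VV (6 * (Fintype.card ι + 2 * E2)) (Real.log y))
        (YY (6 * (Fintype.card ι + 2 * E2)) (Real.log y)) π),
        HH b L (fun _ => 1) d| ≤ C' * (Real.log y) ^ K := by
  classical
  have hK0 : 0 ≤ K := by simpa using hN.hK ∅ (by simp) (by simp)
  set A := 6 * (Fintype.card ι + 2 * E2) with hA
  by_cases h3 : ∃ k ∉ NF L N π, π k = 3
  · obtain ⟨k, hkF, hk⟩ := h3
    obtain ⟨C', -, hC'⟩ := tail_gen (L := L) (κ := fun _ => 1) hB A hK0 k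
    refine ⟨C', fun y hy => hC' y hy _ (tt_sub _ _ _ _ _ _ _) fun m hm => ?_⟩
    rw [tt_of hkF, hk] at hm
    exact cell_three hm
  push Not at h3
  by_cases hl : ∃ i j, i ∉ NF L N π ∧ j ∉ NF L N π ∧ π i = 2 ∧ π j = 2 ∧ L i j ≠ L j i
  · obtain ⟨i, j, hiF, hjF, hi, hj, hij⟩ := hl
    obtain ⟨C', hC'⟩ := link_gen (κ := fun _ => 1) hB hC2 h2 hg hγg hF hN.L0 (A := A) le_rfl hK0 hij
    refine ⟨C', fun y hy => hC' y hy _ (tt_sub _ _ _ _ _ _ _) ?_ ?_⟩
    · rw [tt_of hiF, hi]
      exact cell_two (by have := three_le_VV A (Real.log y); omega)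
    · rw [tt_of hjF, hj]
      exact cell_two (by have := three_le_VV A (Real.log y); omega)
  push Not at hl
  have hun : ∀ i ∉ NF L N π, ∀ j ∉ NF L N π, π i = 2 → π j = 2 → L i j = L j i :=
    fun i hi j hj h1 h2 => hl i j hi hj h1 h2
  -- the large restricted variables are active
  have hact : ∀ k ∉ NF L N π, π k = 2 → k ∉ N := by
    intro k hk hk2 hkN
    apply hk
    unfold NF
    rw [mem_filter]
    exact ⟨hkN, fun i hi hi2 => hun k hk i (fun h => hi (NF_sub h)) hk2 hi2⟩
  set U := (univ \ NF L N π).filter (fun k => π k = 2) with hU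
  have hUm : ∀ k ∈ U, k ∉ NF L N π ∧ π k = 2 := fun k hk =>
    ⟨(mem_sdiff.1 (mem_filter.1 hk).1).2, (mem_filter.1 hk).2⟩
  have hS : ∑ k ∈ U, w k ≤ K := hN.hK U (fun k hk => hact k (hUm k hk).1 (hUm k hk).2)
    (fun i hi j hj => hun i (hUm i hi).1 j (hUm j hj).1 (hUm i hi).2 (hUm j hj).2)
  rcases hS.lt_or_eq with hlt | heq
  · exact few_case hFr hB hg hγg hz hBg hN π h3 hlt
  by_cases h1 : ∃ k ∉ NF L N π, π k = 1
  · obtain ⟨k₀, hk₀, hk1⟩ := h1
    have hex : ∃ i, i ∉ N ∧ π i = 2 ∧ L i k₀ ≠ L k₀ i := by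
      by_contra hcon
      push Not at hcon
      by_cases hkN : k₀ ∈ N
      · apply hk₀
        unfold NF
        rw [mem_filter]
        exact ⟨hkN, fun i hi hi2 => (hcon i hi hi2).symm⟩
      · have hkU : k₀ ∉ U := by
          intro h
          have := (hUm _ h).2
          rw [hk1] at this
          exact absurd this (by decide)
        have h4 := hN.hK (insert k₀ U) (fun a ha => by
            rcases mem_insert.1 ha with rfl | ha
            · exact hkN
            · exact hact a (hUm a ha).1 (hUm a ha).2)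
          (fun a ha c hc => by
            rcases mem_insert.1 ha with ha' | ha'
            · rcases mem_insert.1 hc with hc' | hc'
              · rw [ha', hc']
              · rw [ha']
                exact (hcon c (hact c (hUm c hc').1 (hUm c hc').2) (hUm c hc').2).symm
            · rcases mem_insert.1 hc with hc' | hc'
              · rw [hc']
                exact hcon a (hact a (hUm a ha').1 (hUm a ha').2) (hUm a ha').2
              · exact hun a (hUm a ha').1 c (hUm c hc').1 (hUm a ha').2 (hUm c hc').2)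
        rw [sum_insert hkU, heq] at h4
        have := hB.w0 k₀
        linarith
    obtain ⟨i, hiN, hi2, hik⟩ := hex
    exact char_gen hFr hB hg hγg hz hBg hK0 hN π h3 hun hS hiN hi2 hk₀ hk1 hik
  push Not at h1
  refine diagn_case hFr hB hg hγg hz hBg hN π (fun k hk => ?_) hS
  have h4 := h3 k hk
  have h5 := h1 k hk
  have key : ∀ r : Fin 4, r ≠ 3 → r ≠ 1 → r = 0 ∨ r = 2 := by decide
  exact key _ h4 h5

/-- **the bound with inactive variables** -/
theorem at_n (hFr : StFree) (hB : Bd b γ w z B C) {g F C2 : ℝ} {E2 : ℕ} (hC2 : 0 ≤ C2)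
    (h2 : BWg g F C2 E2) (hg : 0 ≤ g)
    (hγg : ∀ i (p : ℕ), p.Prime → z < p → γ i p ≤ g / p) (hz : 2 * (Fintype.card ι * g) ≤ z)
    (hBg : 2 * (Fintype.card ι * g) ≤ B) (hF : (Fintype.card ι : ℝ) ≤ F)
    {N : Finset ι} {K ε C1 δ : ℝ}
    (hN : HN b w L N K z (6 * (Fintype.card ι + 2 * E2)) ε C1 δ) :
    ∃ C' : ℝ, ∀ y, z < y →
      |∑ d ∈ Tup ι z y, (∏ i, gm (b i) (d i)) * Sym L (fun _ => 1) d| ≤
        C' * (Real.log y) ^ K := by
  choose C' hC' using fun π : ι → Fin 4 => patn hFr hB hC2 h2 hg hγg hz hBg hF hN π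
  refine ⟨∑ π, |C' π|, fun y hy => ?_⟩
  have hly := one_le_log hB.z2 hy
  have hlK : 0 ≤ (Real.log y) ^ K := Real.rpow_nonneg (by linarith) _
  rw [total_eq, core_patterns L N z y (VV (6 * (Fintype.card ι + 2 * E2)) (Real.log y))
    (YY (6 * (Fintype.card ι + 2 * E2)) (Real.log y)), sum_mul]
  refine (abs_sum_le_sum_abs _ _).trans (sum_le_sum fun π _ => ?_)
  split_ifs
  · exact (hC' π y hy).trans (mul_le_mul_of_nonneg_right (le_abs_self _) hlK)
  · rw [abs_zero]
    positivity

/-- a positive lower bound -/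
lemma exists_lower {α : Type*} [Finite α] (f : α → ℝ) (hf : ∀ a, 0 < f a) :
    ∃ δ : ℝ, 0 < δ ∧ ∀ a, δ ≤ f a := by
  classical
  have := Fintype.ofFinite α
  rcases isEmpty_or_nonempty α with h | h
  · exact ⟨1, one_pos, fun a => (h.false a).elim⟩
  · obtain ⟨a0, -, h0⟩ := exists_min_image (univ : Finset α) f univ_nonempty
    exact ⟨f a0, hf a0, fun a => h0 a (mem_univ a)⟩

/-- the gap -/
lemma exists_gap (w : ι → ℝ) (hw : ∀ i, 0 < w i) (K : ℝ) : ∃ δ : ℝ, 0 < δ ∧ (∀ i, δ ≤ w i) ∧
    ∀ U : Finset ι, ∑ i ∈ U, w i < K → ∑ i ∈ U, w i + δ ≤ K := by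
  classical
  obtain ⟨δ1, h1, h1'⟩ := exists_lower w hw
  obtain ⟨δ2, h2, h2'⟩ := exists_lower
    (fun U : Finset ι => if ∑ i ∈ U, w i < K then K - ∑ i ∈ U, w i else 1) (fun U => by
      split_ifs with h
      · linarith
      · exact one_pos)
  refine ⟨min δ1 δ2, lt_min h1 h2, fun i => (min_le_left _ _).trans (h1' i), fun U hU => ?_⟩
  have h3 := h2' U
  rw [if_pos hU] at h3
  have := min_le_right δ1 δ2
  linarith

end AT

end Pool.Agent.L7h19.RP
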