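import Mathlib
import Pool.Agent.L7h19.RP.SPsv
import Pool.Agent.L7h89.RP.StCnt

/-!
# Project RP, short intervals: the counting in a residue class, for the values at `T0 + t`

Adapted from `Pool.Agent.L7h89.RP.StCnt` (helper89).
-/

set_option autoImplicit false

namespace Pool.Agent.L7h19.RP

open Finset Polynomial Pool.Agent.W262.RK Pool.Agent.W307.RT Pool.Agent.L7h89.RP
open Pool.Agent.H474R2.PG (rho)
open Pool.Agent.W372.RK2 (mem_Tup' sq_pow_dvd card_W mj prod_gw)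

variable {J : Type} [Fintype J] [DecidableEq J]

set_option linter.unusedSectionVars false

variable {f h : J → ℤ[X]} {c z y Y : ℕ} {s v u : J → ℕ} {t : ℤ} {T : J → Fin 4}

/-- the residues modulo the primes of `v` and `u` -/
def PsiZ (v u : J → ℕ) (t : ℤ) (i : Ix v u) : ℕ := (t % (i.1.2 : ℤ)).toNat

lemma PsiZ_mem (hv : v ∈ Tup J z y) (hu : u ∈ Tup J y Y) {t : ℤ} (g : Good f z y s v u t) :
    PsiZ v u t ∈ Fintype.piFinset (fun i : Ix v u => Pool.Agent.L7h89.RP.roots (f i.1.1) i.1.2) := by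
  rw [Fintype.mem_piFinset]
  rintro ⟨⟨j, p⟩, hi⟩
  unfold Ix at hi
  rw [mem_sigma] at hi
  have hp := Nat.prime_of_mem_primeFactors hi.2
  have hd := Nat.dvd_of_mem_primeFactors hi.2
  have hp0 : (0 : ℤ) < p := by exact_mod_cast hp.pos
  have h0 := Int.emod_nonneg t hp0.ne'
  have hl := Int.emod_lt_of_pos t hp0
  unfold PsiZ Pool.Agent.L7h89.RP.roots
  simp only
  rw [mem_filter, mem_range]
  refine ⟨by omega, ?_⟩
  have h1 : (p : ℤ) ∣ (f j).eval t := by
    rcases hp.dvd_mul.1 hd with h | h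
    · exact (dvd_pow_self (p : ℤ) two_ne_zero).trans (g.fv hp h).2
    · exact (g.fu hu hp h).2
  refine (eval_congr (f j) ?_).2 h1
  rw [Int.toNat_of_nonneg h0]
  have h2 : (p : ℤ) ∣ t - t % (p : ℤ) := Int.dvd_self_sub_emod
  have h3 := (dvd_neg.2 h2)
  rwa [neg_sub] at h3

lemma PsiZ_congr {t t' : ℤ} (hv : v ∈ Tup J z y) (hu : u ∈ Tup J y Y)
    (hPsi : PsiZ v u t' = PsiZ v u t) (j : J) (p : ℕ) (hp : p.Prime) (hpd : p ∣ v j * u j) :
    (p : ℤ) ∣ t' - t := by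
  have hi : (⟨j, p⟩ : Σ _ : J, ℕ) ∈ Ix v u := by
    unfold Ix
    rw [mem_sigma]
    refine ⟨mem_univ _, Nat.mem_primeFactors.2 ⟨hp, hpd, ?_⟩⟩
    exact mul_ne_zero (dv_ne_zero ((mem_Tup'.1 hv).1 j)) (dv_ne_zero ((mem_Tup'.1 hu).1 j))
  have h1 := congrFun hPsi ⟨⟨j, p⟩, hi⟩
  unfold PsiZ at h1
  simp only at h1
  have hp0 : (0 : ℤ) < p := by exact_mod_cast hp.pos
  have h2 := Int.emod_nonneg t hp0.ne'
  have h3 := Int.emod_nonneg t' hp0.ne'
  have h4 : t % (p : ℤ) = t' % (p : ℤ) := by omega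
  exact Int.ModEq.dvd h4

set_option maxHeartbeats 1000000 in
/-- `StCnt` for the values at `T0 + t` -/
theorem stCntT (J : Type) [Fintype J] [DecidableEq J] (T : J → Fin 4) (f h : J → ℤ[X])
    (c z : ℕ) (hB : BgP f h c z) : ∃ (C : ℝ) (K y0 : ℕ), 0 ≤ C ∧ 1 ≤ K ∧
  ∀ X y Y : ℕ, y0 ≤ y → z < y → y ^ K ≤ X →
  ∀ s ∈ Tup J z y, ∀ v ∈ Tup J z y, ∀ u ∈ Tup J y Y, (∏ j, s j * v j * u j) ^ 8 ≤ X →
  ∀ (T0 r : ℤ) (E : Finset ℕ), (∀ j, (s j : ℤ) ∣ (f j).eval r) →
    (((Icc 1 X).filter (fun t : ℕ => (T0 + (t : ℤ)) ≡ r [ZMOD ((∏ j, s j : ℕ) : ℤ)] ∧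
      S1 z y (fun j => (f j).eval (T0 + (t : ℤ))) = s ∧
      S2 z y (fun j => (f j).eval (T0 + (t : ℤ))) = v ∧
      (∀ j, (u j : ℤ) ∣ (f j).eval (T0 + (t : ℤ))) ∧
      negP T f h (T0 + (t : ℤ)) s = E)).card : ℝ) ≤
      C * X * (1 / 2) ^ (P3 T s).card * (∏ j, gw 1 c (s j)) *
        (∏ j, gr (f j) c (v j) / v j) * (∏ j, ru (f j) (u j)) /
        (Real.log y) ^ (Fintype.card J) := by
  classical
  obtain ⟨C, K, y0, hC, hK, hSV⟩ := psvT f c z hB.irr hB.pos hB.le_z hB.rho_le hB.cop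
  refine ⟨C, K, y0, hC, hK, ?_⟩
  intro X y Y hy0 hzy hX s hs v hv u hu hsvu T0 r E hr
  have hs' := (mem_Tup'.1 hs).1
  have hv' := (mem_Tup'.1 hv).1
  have hu' := (mem_Tup'.1 hu).1
  have hz : 2 ≤ z := by have := hB.le_z; omega
  have hc : c ≤ z := by have := hB.le_z; omega
  have hlog : 0 ≤ (Real.log y) ^ (Fintype.card J) := pow_nonneg (Real.log_natCast_nonneg y) _
  set S := (Icc 1 X).filter (fun t : ℕ => (T0 + (t : ℤ)) ≡ r [ZMOD ((∏ j, s j : ℕ) : ℤ)] ∧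
      S1 z y (fun j => (f j).eval (T0 + (t : ℤ))) = s ∧ S2 z y (fun j => (f j).eval (T0 + (t : ℤ))) = v ∧
      (∀ j, (u j : ℤ) ∣ (f j).eval (T0 + (t : ℤ))) ∧ negP T f h (T0 + (t : ℤ)) s = E) with hT
  have hgood : ∀ t ∈ S, Good f z y s v u (T0 + (t : ℤ)) ∧ negP T f h (T0 + (t : ℤ)) s = E ∧
      ((∏ j, s j : ℕ) : ℤ) ∣ (T0 + (t : ℤ)) - r := by
    intro t ht
    rw [hT, mem_filter] at ht
    exact ⟨⟨ht.2.2.1, ht.2.2.2.1, ht.2.2.2.2.1⟩, ht.2.2.2.2.2,
      (Int.modEq_iff_dvd).1 ht.2.1.symm⟩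
  have hgs : ∀ j, 0 ≤ gw 1 c (s j) := fun j => gw_nonneg zero_le_one hc (hs' j)
  have hgv : ∀ j, 0 ≤ gw 1 c (v j) := fun j => gw_nonneg zero_le_one hc (hv' j)
  rcases S.eq_empty_or_nonempty with hTe | ⟨t0, ht0⟩
  · rw [hTe, card_empty, Nat.cast_zero]
    apply div_nonneg _ hlog
    have h1 : 0 ≤ ∏ j, gw 1 c (s j) := prod_nonneg fun j _ => hgs j
    have h2 : 0 ≤ ∏ j, gr (f j) c (v j) / v j := prod_nonneg fun j _ => by
      rw [gr_eq]
      have := hgv j
      positivity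
    have h3 : 0 ≤ ∏ j, ru (f j) (u j) := prod_nonneg fun j _ => by
      unfold ru
      positivity
    positivity
  set m := ∏ j, mj T s v u j with hm
  have hmj1 : ∀ j, 1 ≤ mj T s v u j := by
    intro j
    unfold mj
    have h1 := dv_pos (hs' j)
    have h2 := dv_pos (hv' j)
    have h3 := dv_pos (hu' j)
    have h4 : 0 < (if T j = 3 then s j else 1) := by split_ifs <;> omega
    exact Nat.succ_le_of_lt (by positivity)
  have hm1 : 1 ≤ m := Nat.succ_le_of_lt (prod_pos fun j _ => hmj1 j)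
  have hm4 : m ^ 4 ≤ X := by
    refine le_trans ?_ hsvu
    have h1 : m ≤ (∏ j, s j * v j * u j) ^ 2 := by
      rw [← prod_pow]
      apply prod_le_prod'
      intro j _
      unfold mj
      have h1 := dv_pos (hs' j)
      have h3 := dv_pos (hu' j)
      have h4 : (if T j = 3 then s j else 1) ≤ s j := by split_ifs <;> omega
      calc s j * (if T j = 3 then s j else 1) * v j ^ 2 * u j
          ≤ s j * s j * v j ^ 2 * (u j * u j) := by
            apply Nat.mul_le_mul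
            · exact Nat.mul_le_mul_right _ (Nat.mul_le_mul_left _ h4)
            · nlinarith
        _ = (s j * v j * u j) ^ 2 := by ring
    calc m ^ 4 ≤ ((∏ j, s j * v j * u j) ^ 2) ^ 4 := Nat.pow_le_pow_left h1 4
      _ = (∏ j, s j * v j * u j) ^ 8 := by rw [← pow_mul]
  have hsq := (hgood t0 ht0).1
  -- bound for a fibre
  set B : ℝ := C * (X / m) * (∏ p ∈ m.primeFactors.filter (fun p => p ∈ PS z y),
        (p : ℝ) / ((p : ℝ) - c)) / (Real.log y) ^ (Fintype.card J) with hBdef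
  have hB0 : 0 ≤ B := le_trans (Nat.cast_nonneg _) (hSV X y hy0 hzy hX m 0 T0 hm1 hm4)
  set K1 := Fintype.piFinset (fun p : P3 T s => WH E (hval h T s r p) p.1) with hK1
  set K2 := Fintype.piFinset (fun i : Ix v u => Pool.Agent.L7h89.RP.roots (f i.1.1) i.1.2) with hK2
  set key : ℕ → (P3 T s → ℕ) × (Ix v u → ℕ) :=
    fun t => (Phi f T s (T0 + (t : ℤ)), PsiZ v u (T0 + (t : ℤ))) with hkey
  have hfib : ∀ φ : (P3 T s → ℕ) × (Ix v u → ℕ),
      ((S.filter (fun t : ℕ => key t = φ)).card : ℝ) ≤ B := by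
    intro φ
    rcases (S.filter (fun t : ℕ => key t = φ)).eq_empty_or_nonempty with
      he | ⟨r0, hr0⟩
    · rw [he, card_empty, Nat.cast_zero]
      exact hB0
    · refine le_trans ?_ (hSV X y hy0 hzy hX m r0 T0 hm1 hm4)
      rw [Nat.cast_le]
      apply card_le_card
      intro t ht
      rw [mem_filter] at ht hr0
      have g := (hgood t ht.1).1
      have g' := (hgood r0 hr0.1).1
      have htX : t ∈ Icc 1 X := (mem_filter.1 ht.1).1
      have hk : key r0 = key t := hr0.2.trans ht.2.symm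
      have hk1 : Phi f T s (T0 + (r0 : ℤ)) = Phi f T s (T0 + (t : ℤ)) := congrArg Prod.fst hk
      have hk2 : PsiZ v u (T0 + (r0 : ℤ)) = PsiZ v u (T0 + (t : ℤ)) := congrArg Prod.snd hk
      rw [mem_filter]
      refine ⟨htX, ?_, ?_⟩
      · have h0 : ((∏ j, s j : ℕ) : ℤ) ∣ (T0 + (r0 : ℤ)) - (T0 + (t : ℤ)) := by
          have h3 := dvd_sub (hgood r0 hr0.1).2.2 (hgood t ht.1).2.2
          rwa [sub_sub_sub_cancel_right] at h3
        have h1 := congr_of (T := T) hB hzy hs hv hu g g' h0 (fun j hj p hp hps =>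
          Phi_congr hB hs g g' hk1 j hj p hp hps) (fun j p hp hpd =>
          PsiZ_congr hv hu hk2 j p hp hpd)
        rw [← hm, add_sub_add_left_eq_sub] at h1
        exact Nat.modEq_iff_dvd.2 h1
      · intro p hpP hpm j hpf
        have hp := (mem_PS.1 hpP).2
        apply hpm
        rw [hm]
        refine Dvd.dvd.trans ?_ (dvd_prod_of_mem _ (mem_univ j))
        unfold mj
        by_cases h2 : (p : ℤ) ^ 2 ∣ vl f (T0 + (t : ℤ)) j
        · have h3 : p ∣ v j := by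
            rw [← g.hv]
            exact (dvd_S2 hp).2 ⟨hpP, h2⟩
          exact (((h3.pow two_ne_zero).mul_left _).mul_right _)
        · have h3 : p ∣ s j := by
            rw [← g.hs]
            exact (dvd_S1 hp).2 ⟨hpP, hpf, h2⟩
          exact (((h3.mul_right _).mul_right _).mul_right _)
  have hcard : (S.card : ℝ) ≤ ((K1.card : ℝ) * (K2.card : ℝ)) * B := by
    rw [card_eq_sum_card_fiberwise (f := key) (t := K1 ×ˢ K2)
      (fun t ht => mem_product.2 ⟨Phi_mem hB (hgood t ht).2.2 (hgood t ht).1 (hgood t ht).2.1,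
        PsiZ_mem hv hu (hgood t ht).1⟩)]
    rw [Nat.cast_sum]
    refine (sum_le_sum fun φ _ => hfib φ).trans ?_
    rw [sum_const, nsmul_eq_mul, card_product, Nat.cast_mul]
  have hK1c := card_Phi (T := T) hB hs hr E
  rw [← hK1] at hK1c
  have hK2c := card_Psi (f := f) hzy hv hu
  rw [← hK2] at hK2c
  have hstep : ((K1.card : ℝ) * (K2.card : ℝ)) * B ≤
      ((1 / 2) ^ (P3 T s).card * (∏ j, ((if T j = 3 then s j else 1 : ℕ) : ℝ)) *
        (K2.card : ℝ)) * B := by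
    apply mul_le_mul_of_nonneg_right _ hB0
    exact mul_le_mul_of_nonneg_right hK1c (Nat.cast_nonneg _)
  refine hcard.trans (hstep.trans ?_)
  rw [hK2c, hBdef, hm, prod_primes hB hs hv hu hsq, Nat.cast_prod]
  have hterm : ∀ j, ((if T j = 3 then s j else 1 : ℕ) : ℝ) *
      ((∏ p ∈ (v j).primeFactors, (rho (f j) p : ℝ)) *
        ∏ p ∈ (u j).primeFactors, (rho (f j) p : ℝ)) * ((s j *
      gw 1 c (s j)) * (v j * gw 1 c (v j))) /
      ((mj T s v u j : ℕ) : ℝ) = gw 1 c (s j) *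
      (gr (f j) c (v j) / v j) * ru (f j) (u j) := by
    intro j
    rw [gr_eq, ru_eq (f j) (dv_squarefree (hu' j))]
    have h1 : (s j : ℝ) ≠ 0 := Nat.cast_ne_zero.2 (dv_ne_zero (hs' j))
    have h2 : (v j : ℝ) ≠ 0 := Nat.cast_ne_zero.2 (dv_ne_zero (hv' j))
    have h3 : (u j : ℝ) ≠ 0 := Nat.cast_ne_zero.2 (dv_ne_zero (hu' j))
    have h4 : ((if T j = 3 then s j else 1 : ℕ) : ℝ) ≠ 0 := by
      split_ifs
      · exact h1
      · simp
    unfold mj
    rw [Nat.cast_mul, Nat.cast_mul, Nat.cast_mul, Nat.cast_pow]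
    field_simp
  have hprod : (∏ j, ((if T j = 3 then s j else 1 : ℕ) : ℝ)) *
      (∏ j, ((∏ p ∈ (v j).primeFactors, (rho (f j) p : ℝ)) *
        ∏ p ∈ (u j).primeFactors, (rho (f j) p : ℝ))) *
      (∏ j, ((s j * gw 1 c (s j)) * (v j * gw 1 c (v j)))) /
      (∏ j, ((mj T s v u j : ℕ) : ℝ)) = (∏ j, gw 1 c (s j)) *
        (∏ j, gr (f j) c (v j) / v j) * (∏ j, ru (f j) (u j)) := by
    rw [← prod_mul_distrib, ← prod_mul_distrib, ← prod_div_distrib, ← prod_mul_distrib,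
      ← prod_mul_distrib]
    exact prod_congr rfl fun j _ => hterm j
  apply le_of_eq
  rw [show C * X * (1 / 2) ^ (P3 T s).card * (∏ j, gw 1 c (s j)) *
        (∏ j, gr (f j) c (v j) / v j) * (∏ j, ru (f j) (u j)) =
      C * X * (1 / 2) ^ (P3 T s).card * ((∏ j, gw 1 c (s j)) *
        (∏ j, gr (f j) c (v j) / v j) * (∏ j, ru (f j) (u j))) by ring, ← hprod]
  ring

end Pool.Agent.L7h19.RP
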