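import Mathlib

/-!
# Project RP: large primes do not divide the values of two coprime polynomials
-/

set_option autoImplicit false

namespace Pool.Agent.L7h19.RP

open Polynomial

lemma bezout_int {f g : ℤ[X]} (hf : Irreducible f) (hd : 0 < f.natDegree) (h : ¬ f ∣ g) :
    ∃ (u v : ℤ[X]) (R : ℤ), R ≠ 0 ∧ u * f + v * g = C R := by
  have hp : f.IsPrimitive := hf.isPrimitive (by omega)
  have hg0 : g ≠ 0 := fun h0 => h (h0 ▸ dvd_zero f)
  have hF : Irreducible (f.map (algebraMap ℤ ℚ)) :=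
    (IsPrimitive.Int.irreducible_iff_irreducible_map_cast hp).1 hf
  have hnd : ¬ f.map (algebraMap ℤ ℚ) ∣ g.map (algebraMap ℤ ℚ) := by
    intro h1
    have h2 : g.map (algebraMap ℤ ℚ) = C (g.content : ℚ) * g.primPart.map (algebraMap ℤ ℚ) := by
      conv_lhs => rw [g.eq_C_content_mul_primPart]
      simp
    have hc : (g.content : ℚ) ≠ 0 := by
      have := (content_eq_zero_iff (p := g)).not.2 hg0
      exact_mod_cast this
    rw [h2] at h1
    have hu : IsUnit (C (g.content : ℚ)) := isUnit_C.2 (isUnit_iff_ne_zero.2 hc)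
    have h3 : f.map (algebraMap ℤ ℚ) ∣ g.primPart.map (algebraMap ℤ ℚ) :=
      (hu.dvd_mul_left).1 h1
    have h4 : f ∣ g.primPart :=
      (IsPrimitive.Int.dvd_iff_map_cast_dvd_map_cast f g.primPart hp).2 h3
    apply h
    rw [g.eq_C_content_mul_primPart]
    exact h4.mul_left _
  obtain ⟨a, b, hab⟩ := (hF.coprime_iff_not_dvd).2 hnd
  obtain ⟨m, hmm, hm⟩ := IsLocalization.integerNormalization_spec (nonZeroDivisors ℤ) a
  obtain ⟨n, hnm, hn⟩ := IsLocalization.integerNormalization_spec (nonZeroDivisors ℤ) b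
  set A := IsLocalization.integerNormalization (nonZeroDivisors ℤ) a with hA
  set B := IsLocalization.integerNormalization (nonZeroDivisors ℤ) b with hB
  have hm0 : (m : ℤ) ≠ 0 := nonZeroDivisors.ne_zero hmm
  have hn0 : (n : ℤ) ≠ 0 := nonZeroDivisors.ne_zero hnm
  refine ⟨C (n : ℤ) * A, C (m : ℤ) * B, m * n, mul_ne_zero hm0 hn0, ?_⟩
  apply map_injective (algebraMap ℤ ℚ) (algebraMap ℤ ℚ).injective_int
  have hm' : A.map (algebraMap ℤ ℚ) = C ((m : ℤ) : ℚ) * a := by
    rw [hm]
    ext k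
    simp
  have hn' : B.map (algebraMap ℤ ℚ) = C ((n : ℤ) : ℚ) * b := by
    rw [hn]
    ext k
    simp
  rw [Polynomial.map_add, Polynomial.map_mul, Polynomial.map_mul, Polynomial.map_mul,
    Polynomial.map_mul, hm', hn', map_C, map_C, map_C]
  simp only [algebraMap_int_eq, eq_intCast, Int.cast_mul, C_mul] at hab ⊢
  linear_combination (C ((m : ℤ) : ℚ) * C ((n : ℤ) : ℚ)) * hab

lemma large_nd {f g : ℤ[X]} (hf : Irreducible f) (hd : 0 < f.natDegree) (h : ¬ f ∣ g) :
    ∃ B : ℕ, ∀ p : ℕ, B < p → ∀ t : ℤ, (p : ℤ) ∣ f.eval t → ¬ (p : ℤ) ∣ g.eval t := by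
  obtain ⟨u, v, R, hR, huv⟩ := bezout_int hf hd h
  refine ⟨R.natAbs, fun p hp t h1 h2 => ?_⟩
  have h3 : (p : ℤ) ∣ R := by
    have h4 := congrArg (eval t) huv
    rw [eval_add, eval_mul, eval_mul, eval_C] at h4
    rw [← h4]
    exact dvd_add (h1.mul_left _) (h2.mul_left _)
  have h5 := Nat.le_of_dvd (Int.natAbs_pos.2 hR) (Int.natCast_dvd.1 h3)
  omega

/-- an irreducible polynomial of positive degree does not divide its derivative -/
lemma nd_derivative {f : ℤ[X]} (hd : 0 < f.natDegree) : ¬ f ∣ derivative f := by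
  intro h
  have h0 : derivative f ≠ 0 := by
    intro h1
    have := derivative_eq_zero.1 h1
    omega
  have h1 := natDegree_le_of_dvd h h0
  have h2 := natDegree_derivative_lt (p := f) (by omega)
  omega

end Pool.Agent.L7h19.RP
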