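import Mathlib
import Pool.Agent.L7h19.RJ.Exp
import Pool.Agent.L7h19.RP.Defs2

/-!
# Project RP: the expansion of the sum over the residue classes into symbols

Adapted from `Pool.Agent.L7h19.RJ.Exp`.
-/

set_option autoImplicit false

namespace Pool.Agent.L7h19.RP

open Finset Polynomial Pool.Agent.W262.RK Pool.Agent.W108.RK Pool.Agent.W762.RK2
open Pool.Agent.L7h19.RJ
open AT (gm hq)

section crt

lemma sum_crt {a b : ℕ} (hab : a.Coprime b) (ha : a ≠ 0) (hb : b ≠ 0) (G H : ℕ → ℝ)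
    (hG : ∀ r, G (r % a) = G r) (hH : ∀ r, H (r % b) = H r) :
    ∑ r ∈ range (a * b), G r * H r = (∑ r ∈ range a, G r) * ∑ r ∈ range b, H r := by
  rw [Finset.sum_mul_sum, ← Finset.sum_product' (range a) (range b) (fun x y => G x * H y)]
  refine Finset.sum_nbij (fun r => (r % a, r % b)) ?_ ?_ ?_ ?_
  · intro r _
    rw [mem_product, mem_range, mem_range]
    exact ⟨Nat.mod_lt _ (Nat.pos_of_ne_zero ha), Nat.mod_lt _ (Nat.pos_of_ne_zero hb)⟩
  · intro r hr r' hr' h
    rw [mem_coe, mem_range] at hr hr'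
    simp only [Prod.mk.injEq] at h
    have h1 : r ≡ r' [MOD a * b] := (Nat.modEq_and_modEq_iff_modEq_mul hab).1 ⟨h.1, h.2⟩
    have h2 : r % (a * b) = r' % (a * b) := h1
    rwa [Nat.mod_eq_of_lt hr, Nat.mod_eq_of_lt hr'] at h2
  · rintro ⟨x, y⟩ hxy
    rw [mem_coe, mem_product, mem_range, mem_range] at hxy
    obtain ⟨k, hk1, hk2⟩ := Nat.chineseRemainder hab x y
    refine ⟨k % (a * b), ?_, ?_⟩
    · rw [mem_coe, mem_range]
      exact Nat.mod_lt _ (Nat.mul_pos (Nat.pos_of_ne_zero ha) (Nat.pos_of_ne_zero hb))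
    · simp only [Prod.mk.injEq]
      constructor
      · rw [Nat.mod_mul_right_mod]
        have h1 : k % a = x % a := hk1
        rw [h1, Nat.mod_eq_of_lt hxy.1]
      · rw [Nat.mod_mul_left_mod]
        have h1 : k % b = y % b := hk2
        rw [h1, Nat.mod_eq_of_lt hxy.2]
  · intro r _
    simp only [hG, hH]

lemma sum_crt_prod (S : Finset ℕ) (hS : ∀ p ∈ S, p.Prime) (g : ℕ → ℕ → ℝ)
    (hg : ∀ p ∈ S, ∀ r, g p (r % p) = g p r) :
    ∑ r ∈ range (∏ p ∈ S, p), ∏ p ∈ S, g p r = ∏ p ∈ S, ∑ ν ∈ range p, g p ν := by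
  classical
  induction S using Finset.induction_on with
  | empty => simp
  | insert p S hp ih =>
    have hpp : p.Prime := hS p (mem_insert_self p S)
    have hS' : ∀ q ∈ S, q.Prime := fun q hq => hS q (mem_insert_of_mem hq)
    have h0 : ∏ q ∈ S, q ≠ 0 := Finset.prod_ne_zero_iff.2 fun q hq => (hS' q hq).ne_zero
    rw [Finset.prod_insert hp, Finset.prod_insert hp,
      ← ih hS' fun q hq => hg q (mem_insert_of_mem hq)]
    rw [← sum_crt (a := p) (b := ∏ q ∈ S, q) ?_ hpp.ne_zero h0 (g p) (fun r => ∏ q ∈ S, g q r)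
      (hg p (mem_insert_self p S)) ?_]
    · exact sum_congr rfl fun r _ => Finset.prod_insert hp
    · refine Nat.Coprime.prod_right fun q hq => ?_
      refine (Nat.coprime_primes hpp (hS' q hq)).2 ?_
      rintro rfl
      exact hp hq
    · intro r
      refine Finset.prod_congr rfl fun q hq => ?_
      rw [← hg q (mem_insert_of_mem hq) (r % _), Nat.mod_mod_of_dvd _ (dvd_prod_of_mem _ hq),
        hg q (mem_insert_of_mem hq)]

end crt

section modp

lemma sg0_mod {p : ℕ} {a b : ℤ} (h : a ≡ b [ZMOD p]) : sg0 p a = sg0 p b := by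
  unfold sg0
  rw [jacobiSym.mod_left' h]

lemma LLo_mod {c : Option (Fin 4)} {k k' : Fin 3 → ℤ} {p : ℕ} (h : ∀ l, k l ≡ k' l [ZMOD p])
    (neg : Bool) (v w hh g : Bool) : LLo c k neg p v w hh g = LLo c k' neg p v w hh g := by
  cases c with
  | none => rfl
  | some c =>
    show LL c k neg p v w hh g = LL c k' neg p v w hh g
    unfold LL
    rw [sg0_mod (h 0), sg0_mod (h 1), sg0_mod ((h 0).mul (h 1)), sg0_mod ((h 0).mul (h 2)),
      sg0_mod (h 0).neg, sg0_mod (h 2).neg]

lemma eval_mod (f : ℤ[X]) {a b : ℤ} {p : ℕ} (h : a ≡ b [ZMOD p]) :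
    f.eval a ≡ f.eval b [ZMOD p] := by
  rw [Int.modEq_iff_dvd] at h ⊢
  exact h.trans (f.sub_dvd_eval_sub b a)

lemma mod_self (r p : ℕ) : ((r % p : ℕ) : ℤ) ≡ (r : ℤ) [ZMOD p] := by
  push_cast
  exact Int.mod_modEq _ _

end modp

section polys

/-- the constant of the first symbol in the class `3` -/
noncomputable def kHP (k : Fin 3 → ℤ[X]) (v : Bool × Bool) : ℤ[X] :=
  if v = (true, false) then k 0 else if v = (false, true) then k 0 * k 1
  else if v = (true, true) then k 1 else 1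

/-- the constant of the second symbol in the class `3` -/
noncomputable def kGP (k : Fin 3 → ℤ[X]) (v : Bool × Bool) : ℤ[X] :=
  if v = (true, false) then k 0 * k 2 else if v = (false, true) then -k 0
  else if v = (true, true) then -k 2 else 1

/-- the constant for one curve -/
noncomputable def koP (c : Option (Fin 4)) (k : Fin 3 → ℤ[X]) (v x : Bool × Bool) : ℤ[X] :=
  match c with
  | none => 1
  | some c => if c = 3 then (if x.1 = true then kHP k v else 1) * (if x.2 = true then kGP k v else 1)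
      else if v = (false, false) ∨ x = (false, false) then 1 else k 0

lemma eval_kHP (k : Fin 3 → ℤ[X]) (v : Bool × Bool) (t : ℤ) :
    (kHP k v).eval t = kH (fun l => (k l).eval t) v := by
  unfold kHP kH
  split_ifs <;> simp

lemma eval_kGP (k : Fin 3 → ℤ[X]) (v : Bool × Bool) (t : ℤ) :
    (kGP k v).eval t = kG (fun l => (k l).eval t) v := by
  unfold kGP kG
  split_ifs <;> simp

lemma eval_koP (c : Option (Fin 4)) (k : Fin 3 → ℤ[X]) (v x : Bool × Bool) (t : ℤ) :
    (koP c k v x).eval t = ko c (fun l => (k l).eval t) v x := by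
  unfold koP ko
  cases c with
  | none => simp
  | some c =>
    show (if c = 3 then (if x.1 = true then kHP k v else 1) * (if x.2 = true then kGP k v else 1)
      else if v = (false, false) ∨ x = (false, false) then 1 else k 0 : ℤ[X]).eval t =
      if c = 3 then (if x.1 = true then kH (fun l => (k l).eval t) v else 1) *
        (if x.2 = true then kG (fun l => (k l).eval t) v else 1)
      else if v = (false, false) ∨ x = (false, false) then 1 else (k 0).eval t
    split_ifs <;> simp [eval_kHP, eval_kGP]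

variable {f : ℤ[X]}

lemma ndvd_mul (hf : Irreducible f) {a b : ℤ[X]} (ha : ¬ f ∣ a) (hb : ¬ f ∣ b) : ¬ f ∣ a * b :=
  fun h => (hf.prime.dvd_or_dvd h).elim ha hb

lemma ndvd_one (hf : Irreducible f) : ¬ f ∣ 1 := fun h => hf.not_isUnit (isUnit_of_dvd_one h)

lemma kHP_nd (hf : Irreducible f) {k : Fin 3 → ℤ[X]} (h : ∀ l, ¬ f ∣ k l) (v : Bool × Bool) :
    ¬ f ∣ kHP k v := by
  unfold kHP
  split_ifs
  · exact h _
  · exact ndvd_mul hf (h _) (h _)
  · exact h _
  · exact ndvd_one hf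

lemma kGP_nd (hf : Irreducible f) {k : Fin 3 → ℤ[X]} (h : ∀ l, ¬ f ∣ k l) (v : Bool × Bool) :
    ¬ f ∣ kGP k v := by
  unfold kGP
  split_ifs
  · exact ndvd_mul hf (h _) (h _)
  · rw [dvd_neg]; exact h _
  · rw [dvd_neg]; exact h _
  · exact ndvd_one hf

lemma koP_nd (hf : Irreducible f) (c : Option (Fin 4)) {k : Fin 3 → ℤ[X]} (h : ∀ l, ¬ f ∣ k l)
    (v x : Bool × Bool) : ¬ f ∣ koP c k v x := by
  unfold koP
  cases c with
  | none => exact ndvd_one hf
  | some c =>
    show ¬ f ∣ (if c = 3 then (if x.1 = true then kHP k v else 1) * (if x.2 = true then kGP k v else 1)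
      else if v = (false, false) ∨ x = (false, false) then 1 else k 0)
    split_ifs
    · exact ndvd_mul hf (kHP_nd hf h v) (kGP_nd hf h v)
    · exact ndvd_mul hf (kHP_nd hf h v) (ndvd_one hf)
    · exact ndvd_mul hf (ndvd_one hf) (kGP_nd hf h v)
    · exact ndvd_mul hf (ndvd_one hf) (ndvd_one hf)
    · exact ndvd_one hf
    · exact h 0

end polys

variable {ι : Type} [Fintype ι] [DecidableEq ι]
variable {J : Type} [Fintype J] [DecidableEq J] {z y : ℕ}

/-- the constants -/
noncomputable def κJP (cls : ι → J → Option (Fin 4)) (κ : ι → J → Fin 3 → ℤ[X]) (a : IJ cls) :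
    ℤ[X] := ∏ i, koP (cls i a.1.1) (κ i a.1.1) (a.1.2.1 i) (a.1.2.2 i)

lemma eval_κJP (cls : ι → J → Option (Fin 4)) (κ : ι → J → Fin 3 → ℤ[X]) (a : IJ cls) (t : ℤ) :
    (κJP cls κ a).eval t = RJ.κJ cls (κev κ t) a := by
  unfold κJP RJ.κJ
  rw [eval_prod]
  refine prod_congr rfl fun i _ => ?_
  rw [eval_koP]
  rfl

lemma κJP_nd (cls : ι → J → Option (Fin 4)) (κ : ι → J → Fin 3 → ℤ[X]) {f : J → ℤ[X]}
    (hf : ∀ j, Irreducible (f j)) (h : ∀ i j k, ¬ f j ∣ κ i j k) (a : IJ cls) :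
    ¬ f a.1.1 ∣ κJP cls κ a := by
  unfold κJP
  intro hd
  obtain ⟨i, _, hi⟩ := ((hf a.1.1).prime.dvd_finsetProd_iff _).1 hd
  exact koP_nd (hf _) _ (fun l => h i a.1.1 l) _ _ hi

/-- the weights -/
noncomputable def bJ (cls : ι → J → Option (Fin 4)) (κ : ι → J → Fin 3 → ℤ[X]) (f : J → ℤ[X])
    (c : ℕ) (a : IJ cls) (p : ℕ) : ℝ := bw (f a.1.1) (κJP cls κ a) (wJ cls a) c p

lemma prod_gm {ι' : Type} [Fintype ι'] [DecidableEq ι'] (b : ι' → ℕ → ℝ)
    (l : Pr z y → Option ι') :
    ∏ i, gm (b i) (Dl l i) = ∏ p : Pr z y, (l p).elim 1 fun i => b i p := by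
  have h1 : ∀ i, gm (b i) (Dl l i) = ∏ p : Pr z y, if l p = some i then b i p else 1 := by
    intro i
    unfold gm Dl
    rw [prod_pf _ fun p : ℕ => b i p]
    simp only [decide_eq_true_eq]
  rw [Finset.prod_congr rfl fun i _ => h1 i, Finset.prod_comm]
  refine Finset.prod_congr rfl fun p _ => ?_
  cases h : l p with
  | none => simp
  | some j => simp

/-- the roots modulo `p` -/
noncomputable def Rt (f : ℤ[X]) (p : ℕ) : Finset ℕ :=
  (range p).filter (fun ν : ℕ => (p : ℤ) ∣ f.eval (ν : ℤ))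

open Classical in
lemma NBr_eq (cls : ι → J → Option (Fin 4)) (κ : ι → J → Fin 3 → ℤ[X]) (f : J → ℤ[X])
    {s : J → ℕ} (hs : s ∈ Tup J z y) :
    NBr cls κ f s = ∑ d ∈ DD ι (∏ j, s j), ∏ p ∈ (∏ j, s j).primeFactors, ∑ ν ∈ range p,
      (if (∀ j, p ∣ s j → (p : ℤ) ∣ (f j).eval (ν : ℤ)) then
        (Ilj cls (κev κ ν) s d true p + Ilj cls (κev κ ν) s d false p) / 2 else 0) := by
  have hsqf : Squarefree (∏ j, s j) := by
    apply Finset.squarefree_prod_of_pairwise_isCoprime
    · intro i _ j _ hij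
      exact Nat.coprime_iff_isRelPrime.1 ((mem_Tup.1 hs).2 i j hij)
    · intro j _
      exact sqf_of_mem hs j
  have hm : ∏ p ∈ (∏ j, s j).primeFactors, p = ∏ j, s j :=
    Nat.prod_primeFactors_of_squarefree hsqf
  have hiff : ∀ r : ℕ, (∀ j, (s j : ℤ) ∣ (f j).eval (r : ℤ)) ↔
      ∀ p ∈ (∏ j, s j).primeFactors, ∀ j, p ∣ s j → (p : ℤ) ∣ (f j).eval (r : ℤ) := by
    intro r
    constructor
    · intro h p _ j hj
      exact (Int.natCast_dvd_natCast.2 hj).trans (h j)
    · intro h j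
      have h1 : (s j : ℤ) = ∏ p ∈ (s j).primeFactors, (p : ℤ) := by
        conv_lhs => rw [← Nat.prod_primeFactors_of_squarefree (sqf_of_mem hs j)]
        push_cast
        rfl
      rw [h1]
      refine Finset.prod_dvd_of_coprime ?_ ?_
      · intro p hp q hq hpq
        exact Nat.isCoprime_iff_coprime.2 ((Nat.coprime_primes (Nat.prime_of_mem_primeFactors hp)
          (Nat.prime_of_mem_primeFactors hq)).2 hpq)
      · intro p hp
        exact h p (Nat.mem_primeFactors.2 ⟨Nat.prime_of_mem_primeFactors hp,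
          (Nat.dvd_of_mem_primeFactors hp).trans (dvd_prod_of_mem _ (mem_univ j)),
          hsqf.ne_zero⟩) j (Nat.dvd_of_mem_primeFactors hp)
  unfold NBr Rs
  rw [Finset.sum_filter]
  have h1 : ∀ r : ℕ, (if (∀ j, (s j : ℤ) ∣ (f j).eval (r : ℤ)) then NBj cls (κev κ (r : ℤ)) s else 0) =
      ∑ d ∈ DD ι (∏ j, s j), ∏ p ∈ (∏ j, s j).primeFactors,
        (if (∀ j, p ∣ s j → (p : ℤ) ∣ (f j).eval (r : ℤ)) then
          (Ilj cls (κev κ r) s d true p + Ilj cls (κev κ r) s d false p) / 2 else 0) := by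
    intro r
    by_cases hr : ∀ j, (s j : ℤ) ∣ (f j).eval (r : ℤ)
    · rw [if_pos hr, NBj_eq cls (κev κ r) hs]
      refine sum_congr rfl fun d _ => prod_congr rfl fun p hp => ?_
      rw [if_pos ((hiff r).1 hr p hp)]
    · rw [if_neg hr]
      symm
      refine sum_eq_zero fun d _ => ?_
      have hr' : ¬ ∀ p ∈ (∏ j, s j).primeFactors, ∀ j, p ∣ s j → (p : ℤ) ∣ (f j).eval (r : ℤ) :=
        fun h => hr ((hiff r).2 h)
      push Not at hr'
      obtain ⟨p, hp, j, hj, hpj⟩ := hr'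
      refine prod_eq_zero hp (if_neg ?_)
      intro h
      exact hpj (h j hj)
  rw [sum_congr rfl fun r _ => h1 r, sum_comm]
  refine sum_congr rfl fun d _ => ?_
  conv_lhs => rw [← hm]
  have hm2 : (∏ p ∈ (∏ j, s j).primeFactors, p).primeFactors = (∏ j, s j).primeFactors := by
    rw [hm]
  rw [hm2]
  refine sum_crt_prod _ (fun p hp => Nat.prime_of_mem_primeFactors hp)
    (fun p r => if (∀ j, p ∣ s j → (p : ℤ) ∣ (f j).eval (r : ℤ)) then
          (Ilj cls (κev κ r) s d true p + Ilj cls (κev κ r) s d false p) / 2 else 0) ?_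
  intro p _ r
  have hmod := mod_self r p
  have h2 : ∀ neg, Ilj cls (κev κ ((r % p : ℕ) : ℤ)) s d neg p = Ilj cls (κev κ (r : ℤ)) s d neg p := by
    intro neg
    unfold Ilj
    refine prod_congr rfl fun i _ => ?_
    congr 1
    refine propext (forall_congr' fun j => forall_congr' fun _ => ?_)
    have h4 := LLo_mod (c := cls i j) (k := κev κ ((r % p : ℕ) : ℤ) i j)
      (k' := κev κ (r : ℤ) i j) (fun l => eval_mod (κ i j l) hmod) neg (dv p (d i).1)
      (dv p (d i).2) (sgn p (d i).1) (sgn p (d i).2)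
    rw [h4]
  have h3 : (∀ j, p ∣ s j → (p : ℤ) ∣ (f j).eval ((r % p : ℕ) : ℤ)) ↔
      ∀ j, p ∣ s j → (p : ℤ) ∣ (f j).eval (r : ℤ) := by
    refine forall_congr' fun j => forall_congr' fun _ => ?_
    exact (eval_mod (f j) hmod).dvd_iff
  simp only [h2]
  exact if_congr h3 rfl rfl

/-- the local term -/
noncomputable def Tmr (cls : ι → J → Option (Fin 4)) (κ : ι → J → Fin 3 → ℤ[X]) (f : J → ℤ[X])
    (c : ℕ) (ξ : Pr z y → Option (J × (ι → Bool × Bool))) (p : Pr z y) : ℝ :=
  (ξ p).elim 1 fun a => 1 / ((p : ℝ) - c) * ∑ ν ∈ Rt (f a.1) p,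
    (((∏ i, ind (LLo (cls i a.1) (κev κ ν i a.1) true p
    (a.2 i).1 (a.2 i).2 (sgn p (D1j i ξ)) (sgn p (D2j i ξ)))) + ∏ i, ind (LLo (cls i a.1)
    (κev κ ν i a.1) false p (a.2 i).1 (a.2 i).2 (sgn p (D1j i ξ)) (sgn p (D2j i ξ)))) / 2)

lemma lhs_eqr (cls : ι → J → Option (Fin 4)) (κ : ι → J → Fin 3 → ℤ[X]) (f : J → ℤ[X]) (c : ℕ) :
    ∑ s ∈ Tup J z y, NBr cls κ f s * ∏ j, gw 1 c (s j) =
      ∑ ξ : Pr z y → Option (J × (ι → Bool × Bool)), ∏ p, Tmr cls κ f c ξ p := by
  classical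
  set Ph : (J → ℕ) → (ι → ℕ × ℕ) → ℕ → ℝ := fun s d p => ∑ ν ∈ range p,
      (if (∀ j, p ∣ s j → (p : ℤ) ∣ (f j).eval (ν : ℤ)) then
        (Ilj cls (κev κ ν) s d true p + Ilj cls (κev κ ν) s d false p) / 2 else 0) with hPh
  have h1 : ∀ s ∈ Tup J z y, NBr cls κ f s * ∏ j, gw 1 c (s j) =
      ∑ d ∈ DD ι (∏ j, s j),
        (∏ p ∈ (∏ j, s j).primeFactors, Ph s d p) * ∏ j, gw 1 c (s j) := by
    intro s hs
    rw [NBr_eq cls κ f hs, Finset.sum_mul]
  rw [Finset.sum_congr rfl h1, sum_bigj fun s d =>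
    (∏ p ∈ (∏ j, s j).primeFactors, Ph s d p) * ∏ j, gw 1 c (s j)]
  refine Finset.sum_congr rfl fun ξ _ => ?_
  have h2 : ∏ j, gw 1 c (SSj ξ j) = ∏ p : Pr z y, ((ξ p).map Prod.fst).elim 1
      fun _ => 1 / ((p : ℝ) - c) := prod_gw (fun _ => 1) c _
  have h3 : ∏ j, SSj ξ j = nb fun p => ((ξ p).map Prod.fst).isSome := prod_Dl _
  rw [h2, h3, prod_pf _ fun p => Ph (SSj ξ) (fun i => (D1j i ξ, D2j i ξ)) p,
    ← Finset.prod_mul_distrib]
  refine Finset.prod_congr rfl fun p _ => ?_
  unfold Tmr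
  cases hx : ξ p with
  | none => simp
  | some a =>
    have e3 : ∀ j, (p : ℕ) ∣ SSj ξ j ↔ j = a.1 := by
      intro j
      unfold SSj Dl
      rw [dvd_nb, decide_eq_true_iff]
      show (ξ p).map Prod.fst = some j ↔ j = a.1
      rw [hx]
      simp [eq_comm]
    have h4 : ∀ (ν : ℕ) neg, Ilj cls (κev κ ν) (SSj ξ) (fun i => (D1j i ξ, D2j i ξ)) neg p =
        ∏ i, ind (LLo (cls i a.1) (κev κ ν i a.1) neg p (a.2 i).1 (a.2 i).2 (sgn p (D1j i ξ))
          (sgn p (D2j i ξ))) := by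
      intro ν neg
      unfold Ilj
      refine Finset.prod_congr rfl fun i _ => ?_
      have e1 : dv p (D1j i ξ : ℤ) = (a.2 i).1 := by
        have : b1j i (ξ p) = (a.2 i).1 := by rw [hx]; rfl
        rw [← this]
        unfold dv
        rw [Bool.eq_iff_iff, decide_eq_true_iff, Int.natCast_dvd_natCast]
        exact dvd_nb _ p
      have e2 : dv p (D2j i ξ : ℤ) = (a.2 i).2 := by
        have : b2j i (ξ p) = (a.2 i).2 := by rw [hx]; rfl
        rw [← this]
        unfold dv
        rw [Bool.eq_iff_iff, decide_eq_true_iff, Int.natCast_dvd_natCast]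
        exact dvd_nb _ p
      congr 1
      simp only [e1, e2, e3, forall_eq]
    have h5 : Ph (SSj ξ) (fun i => (D1j i ξ, D2j i ξ)) p = ∑ ν ∈ Rt (f a.1) p,
        (((∏ i, ind (LLo (cls i a.1) (κev κ ν i a.1) true p
        (a.2 i).1 (a.2 i).2 (sgn p (D1j i ξ)) (sgn p (D2j i ξ)))) + ∏ i, ind (LLo (cls i a.1)
        (κev κ ν i a.1) false p (a.2 i).1 (a.2 i).2 (sgn p (D1j i ξ)) (sgn p (D2j i ξ)))) / 2) := by
      simp only [hPh, h4]
      unfold Rt
      rw [Finset.sum_filter]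
      refine sum_congr rfl fun ν _ => if_congr ?_ rfl rfl
      simp only [e3, forall_eq]
    rw [h5]
    simp only [Option.map_some, Option.isSome_some, if_true, Option.elim]
    ring

/-- the local factor -/
noncomputable def Gr (cls : ι → J → Option (Fin 4)) (κ : ι → J → Fin 3 → ℤ[X]) (f : J → ℤ[X])
    (c : ℕ) (ξ : Pr z y → Option (J × (ι → Bool × Bool))) (p : Pr z y) (x : Option (IJ cls)) : ℝ :=
  x.elim 1 fun a => bJ cls κ f c a p *
    ∏ i, ((if (a.1.2.2 i).1 = true then sg (sgn p (D1j i ξ)) else 1) *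
      (if (a.1.2.2 i).2 = true then sg (sgn p (D2j i ξ)) else 1))

lemma sum_Gr (cls : ι → J → Option (Fin 4)) (κ : ι → J → Fin 3 → ℤ[X]) (f : J → ℤ[X]) (c : ℕ)
    (ξ : Pr z y → Option (J × (ι → Bool × Bool))) (p : Pr z y)
    (hk : ∀ j (t : ℤ), ((p : ℕ) : ℤ) ∣ (f j).eval t → ∀ i l, ¬ ((p : ℕ) : ℤ) ∣ (κ i j l).eval t) :
    ∑ x ∈ univ.filter (fun x : Option (IJ cls) => fgj x = ξ p), Gr cls κ f c ξ p x =
      Tmr cls κ f c ξ p := by
  rw [Finset.sum_filter, Fintype.sum_option]
  unfold Tmr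
  cases hx : ξ p with
  | none => simp [fgj, Gr]
  | some a =>
    obtain ⟨j, v⟩ := a
    have h0 : (if fgj (none : Option (IJ cls)) = some (j, v) then Gr cls κ f c ξ p none else 0) =
        0 := by
      rw [if_neg]
      simp [fgj]
    rw [h0, zero_add]
    set F : J × (ι → Bool × Bool) × (ι → Bool × Bool) → ℝ := fun r =>
          if r.1 = j ∧ r.2.1 = v then 1 / ((p : ℝ) - c) * ∑ ν ∈ Rt (f r.1) p,
            ((∏ i, wo (cls i r.1)) *
            Jr (∏ i, ko (cls i r.1) (κev κ ν i r.1) (r.2.1 i) (r.2.2 i)) p *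
            ∏ i, ((if (r.2.2 i).1 = true then sg (sgn p (D1j i ξ)) else 1) *
            (if (r.2.2 i).2 = true then sg (sgn p (D2j i ξ)) else 1))) else 0 with hF
    have h1 : ∀ a : IJ cls, (if fgj (some a) = some (j, v) then Gr cls κ f c ξ p (some a) else 0) =
        F a.1 := by
      intro a
      refine if_congr ?_ ?_ rfl
      · simp only [fgj, Option.map_some, Option.some.injEq, Prod.mk.injEq]
      · unfold Gr bJ bw Rt
        simp only [Option.elim, eval_κJP]
        rw [mul_sum, mul_sum, sum_mul]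
        refine sum_congr rfl fun ν _ => ?_
        unfold wJ RJ.κJ
        ring
    refine (Finset.sum_congr rfl fun i _ => h1 i).trans ((sum_IJ cls F).trans ?_)
    rw [Fintype.sum_prod_type, Finset.sum_eq_single j]
    · rw [Fintype.sum_prod_type, Finset.sum_eq_single v]
      · show _ = 1 / ((p : ℝ) - c) * _
        have h2 : ∀ ν ∈ Rt (f j) p, ((∏ i, ind (LLo (cls i j) (κev κ ν i j) true p
            (v i).1 (v i).2 (sgn p (D1j i ξ)) (sgn p (D2j i ξ)))) + ∏ i, ind (LLo (cls i j)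
            (κev κ ν i j) false p (v i).1 (v i).2 (sgn p (D1j i ξ)) (sgn p (D2j i ξ)))) / 2 =
            ∑ x : ι → Bool × Bool, if AlJ (fun i => cls i j) v x = true then
        (∏ i, wo (cls i j)) * Jr (∏ i, ko (cls i j) (κev κ ν i j) (v i) (x i)) p *
          ∏ i, ((if (x i).1 = true then sg (sgn p (D1j i ξ)) else 1) *
            (if (x i).2 = true then sg (sgn p (D2j i ξ)) else 1)) else 0 := by
          intro ν hν
          exact loc_joint (fun i => cls i j) (fun i => κev κ ν i j) (Pr_prime p)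
            (fun i l => hk j ν (mem_filter.1 hν).2 i l) v _ _
        rw [sum_congr rfl h2, sum_comm, Finset.mul_sum]
        refine Finset.sum_congr rfl fun x _ => ?_
        by_cases hA : AlJ (fun i => cls i j) v x = true
        · simp only [hF, and_self, if_true, hA]
        · simp only [hA]
          simp
      · intro v' _ hv'
        refine Finset.sum_eq_zero fun x _ => ?_
        simp [hF, hv']
      · intro h
        exact absurd (Finset.mem_univ _) h
    · intro j' _ hj'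
      refine Finset.sum_eq_zero fun x _ => ?_
      simp [hF, hj']
    · intro h
      exact absurd (Finset.mem_univ _) h

lemma rhs_termr (cls : ι → J → Option (Fin 4)) (κ : ι → J → Fin 3 → ℤ[X]) (f : J → ℤ[X]) (c : ℕ)
    (ξ : Pr z y → Option (J × (ι → Bool × Bool))) (l : Pr z y → Option (IJ cls))
    (h : ∀ p, fgj (l p) = ξ p) :
    (∏ a, gm (bJ cls κ f c a) (Dl l a)) *
      Pool.Agent.W262.RK.Sym (LJ cls) (fun _ => 1) (Dl l) =
      ∏ p, Gr cls κ f c ξ p (l p) := by
  rw [prod_gm, Sym_Dl, ← Finset.prod_mul_distrib, ← Finset.prod_mul_distrib]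
  refine Finset.prod_congr rfl fun p _ => ?_
  cases hl : l p with
  | none =>
    have h0 : ∀ q, lk (LJ cls) (l q) none = false := by
      intro q
      cases l q <;> rfl
    simp [h0, Gr]
  | some a =>
    have hAl := PR_self a
    have h1 : ∀ q, lk (LJ cls) (l q) (some a) =
        PR (fun i => (b1j i (ξ q), b2j i (ξ q))) a.1.2.2 := by
      intro q
      rw [← h q]
      cases hq : l q with
      | none =>
        have : (fun i : ι => (b1j i (fgj (none : Option (IJ cls))),
            b2j i (fgj (none : Option (IJ cls))))) = fun _ => (false, false) := by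
          funext i
          rfl
        rw [this, PR_zero]
        rfl
      | some a' => rfl
    have h2 : ∏ q : Pr z y, (if lk (LJ cls) (l q) (some a) = true then Jr (q : ℕ) p else 1) =
        ∏ i, ((if (a.1.2.2 i).1 = true then sg (sgn p (D1j i ξ)) else 1) *
      (if (a.1.2.2 i).2 = true then sg (sgn p (D2j i ξ)) else 1)) := by
      have h3 : ∀ a : Bool, ∀ b : Pr z y → Bool, (if a = true then sg (sgn p (nb b : ℤ)) else 1) =
          ∏ q : Pr z y, if a = true then (if q ≠ p ∧ b q = true then Jr (q : ℕ) p else 1)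
            else 1 := by
        intro a b
        cases a
        · simp
        · simp only [if_true]
          exact sgn_nb b p
      have h4 : ∀ i, ((if (a.1.2.2 i).1 = true then sg (sgn p (D1j i ξ)) else 1) *
          (if (a.1.2.2 i).2 = true then sg (sgn p (D2j i ξ)) else 1)) =
          ∏ q : Pr z y, ((if (a.1.2.2 i).1 = true then
            (if q ≠ p ∧ b1j i (ξ q) = true then Jr (q : ℕ) p else 1) else 1) *
          (if (a.1.2.2 i).2 = true then
            (if q ≠ p ∧ b2j i (ξ q) = true then Jr (q : ℕ) p else 1) else 1)) := by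
        intro i
        unfold D1j D2j
        rw [h3, h3, ← Finset.prod_mul_distrib]
      rw [Finset.prod_congr rfl fun i _ => h4 i, Finset.prod_comm]
      refine Finset.prod_congr rfl fun q _ => ?_
      rw [h1]
      refine bits_eqj q p _ _ fun hqp => ?_
      rw [hqp, ← h p, hl]
      exact hAl
    rw [h2]
    unfold Gr
    simp only [Option.elim, Jr_one_left]
    ring

/-- the expansion of the sum over the residue classes into symbols -/
theorem expr {ι : Type} [Fintype ι] [DecidableEq ι] {J : Type} [Fintype J] [DecidableEq J]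
    (cls : ι → J → Option (Fin 4)) (κ : ι → J → Fin 3 → ℤ[X]) (f : J → ℤ[X]) (c z y : ℕ)
    (hκ : ∀ p : ℕ, p.Prime → z < p → ∀ j (t : ℤ), (p : ℤ) ∣ (f j).eval t →
      ∀ i k, ¬ (p : ℤ) ∣ (κ i j k).eval t) :
    ∑ s ∈ Tup J z y, NBr cls κ f s * ∏ j, gw 1 c (s j) =
      ∑ d ∈ Tup (IJ cls) z y, (∏ a, gm (bJ cls κ f c a) (d a)) *
        Pool.Agent.W262.RK.Sym (LJ cls) (fun _ => 1) d := by
  classical
  rw [lhs_eqr, sum_Tup, ← Finset.sum_fiberwise univ
    (fun (l : Pr z y → Option (IJ cls)) => fun p => fgj (l p))]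
  refine Finset.sum_congr rfl fun ξ _ => ?_
  have h1 : (univ.filter fun l : Pr z y → Option (IJ cls) => (fun p => fgj (l p)) = ξ) =
      Fintype.piFinset (fun p => univ.filter (fun x : Option (IJ cls) => fgj x = ξ p)) := by
    ext l
    simp only [Finset.mem_filter, Finset.mem_univ, true_and, Fintype.mem_piFinset, funext_iff]
  have hk : ∀ p : Pr z y, ∀ j (t : ℤ), ((p : ℕ) : ℤ) ∣ (f j).eval t →
      ∀ i l, ¬ ((p : ℕ) : ℤ) ∣ (κ i j l).eval t := by
    intro p
    have hz : z < p := by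
      have := p.2
      unfold PS at this
      exact (Finset.mem_Ioc.1 (Finset.mem_filter.1 this).1).1
    exact hκ p (Pr_prime p) hz
  rw [h1, Finset.prod_congr rfl fun p _ => (sum_Gr cls κ f c ξ p (hk p)).symm, Finset.prod_univ_sum]
  refine Finset.sum_congr rfl fun l hl => ?_
  rw [Fintype.mem_piFinset] at hl
  exact (rhs_termr cls κ f c ξ l fun p => (Finset.mem_filter.1 (hl p)).2).symm

end Pool.Agent.L7h19.RP
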