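import Mathlib
import Pool.Agent.L7h19.RP.Stm3
import Pool.Agent.H474R2.GE.FA
import Pool.Agent.H474R2.PG.MertensF

/-!
# Project RP: the sums of the weights

Adapted from `Pool.Agent.W655.RK.Full`.
-/

set_option autoImplicit false

namespace Pool.Agent.L7h19.RP

open Finset Polynomial Pool.Agent.W262.RK
open Pool.Agent.H474R2.PG (rho)
open AT (gm hq)
open Pool.Agent.W655.RK (PS_prime PS_lt PS_le prod_primes_squarefree sum_mult prod_le_exp sum_inv_sq)

lemma gm_hq (γ : ℕ → ℝ) (B d : ℕ) : gm γ d * hq B d =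
    ∏ p ∈ d.primeFactors, (γ p * (1 + (B : ℝ) / (p : ℝ))) := by
  unfold gm hq
  rw [Finset.prod_mul_distrib]

theorem full_g {γ : ℕ → ℝ} {w C0 G : ℝ} {z B : ℕ} (hw : 0 < w) (hw2 : w ≤ 1 / 2) (hz : 2 ≤ z)
    (hγ0 : ∀ p : ℕ, p.Prime → z < p → 0 ≤ γ p) (hγG : ∀ p : ℕ, p.Prime → z < p → γ p ≤ G / p)
    (hG : 0 ≤ G) (hC0 : 0 ≤ C0)
    (hs : ∀ y : ℕ, 2 ≤ y → ∑ p ∈ PS z y, γ p ≤ w * Real.log (Real.log y) + C0) :
    ∃ C : ℝ, 
  (∀ y, z < y → ∑ d ∈ (PP z y).divisors, gm γ d * hq B d ≤ C * (Real.log y) ^ w) ∧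
  (∀ y V : ℕ, z < y → 2 ≤ V →
    ∑ d ∈ (PP z y).divisors.filter (fun d => d ≤ V), gm γ d * hq B d ≤
      C * (Real.log V) ^ w) ∧
  (∀ y Y : ℕ, z < y → 1 ≤ Y →
    ∑ d ∈ (PP z y).divisors.filter (fun d => Y < d), gm γ d * hq B d ≤
      C * Real.exp (-(Real.log Y / Real.log y)) * (Real.log y) ^ 2) := by
  obtain ⟨K, hK, hsq⟩ := sum_inv_sq
  set φ : ℕ → ℝ := fun p => γ p * (1 + (B : ℝ) / (p : ℝ)) with hφ
  set B' : ℝ := C0 + G * B * K with hB'
  have hB0 : 0 ≤ B' := by positivity
  have hφ0 : ∀ y, ∀ p ∈ PS z y, 0 ≤ φ p := fun y p hp =>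
    mul_nonneg (hγ0 p (PS_prime hp) (PS_lt hp)) (by positivity)
  have hsum : ∀ y : ℕ, 2 ≤ y → ∑ p ∈ PS z y, φ p ≤ w * Real.log (Real.log y) + B' := by
    intro y hy
    calc ∑ p ∈ PS z y, φ p ≤ ∑ p ∈ PS z y, (γ p + G * B * (1 / (p : ℝ) ^ 2)) := by
          refine Finset.sum_le_sum fun p hp => ?_
          have hp0 : (0 : ℝ) < p := by exact_mod_cast (PS_prime hp).pos
          have h1 := hγG p (PS_prime hp) (PS_lt hp)
          have h2 : γ p * ((B : ℝ) / (p : ℝ)) ≤ G / p * ((B : ℝ) / (p : ℝ)) :=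
            mul_le_mul_of_nonneg_right h1 (by positivity)
          have h3 : G / p * ((B : ℝ) / (p : ℝ)) = G * B * (1 / (p : ℝ) ^ 2) := by
            field_simp
          simp only [hφ]
          linarith
      _ = ∑ p ∈ PS z y, γ p + G * B * ∑ p ∈ PS z y, 1 / (p : ℝ) ^ 2 := by
          rw [Finset.sum_add_distrib, Finset.mul_sum]
      _ ≤ (w * Real.log (Real.log y) + C0) + G * B * K := by
          refine add_le_add (hs y hy) (mul_le_mul_of_nonneg_left (hsq _) (by positivity))
      _ = _ := by rw [hB']; ring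
  have hlog : ∀ y : ℕ, 2 ≤ y → 0 < Real.log y := fun y hy =>
    Real.log_pos (by exact_mod_cast (by omega : 1 < y))
  have main : ∀ y : ℕ, 2 ≤ y → ∑ d ∈ (PP z y).divisors, gm γ d * hq B d ≤
      Real.exp B' * (Real.log y) ^ w := by
    intro y hy
    simp only [gm_hq]
    unfold PP
    rw [sum_mult (PS z y) (fun p hp => PS_prime hp) φ]
    refine (prod_le_exp _ _ fun p hp => by have := hφ0 y p hp; linarith).trans ?_
    rw [Real.rpow_def_of_pos (hlog y hy), ← Real.exp_add, Real.exp_le_exp]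
    have := hsum y hy
    linarith
  have hnn : ∀ d : ℕ, (∀ p ∈ d.primeFactors, z < p) → 0 ≤ gm γ d * hq B d := by
    intro d hd
    rw [gm_hq]
    exact Finset.prod_nonneg fun p hp =>
      mul_nonneg (hγ0 p (Nat.prime_of_mem_primeFactors hp) (hd p hp)) (by positivity)
  have hpf : ∀ y d, d ∈ (PP z y).divisors → d.primeFactors ⊆ PS z y := by
    intro y d hd
    have h1 : (PP z y).primeFactors = PS z y := Nat.primeFactors_prod fun p hp => PS_prime hp
    rw [← h1]
    exact Nat.primeFactors_mono (Nat.dvd_of_mem_divisors hd) (Nat.mem_divisors.1 hd).2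
  refine ⟨Real.exp (3 * (B' + 1)), ?_, ?_, ?_⟩
  · intro y hy
    refine (main y (by omega)).trans ?_
    refine mul_le_mul_of_nonneg_right ?_ (Real.rpow_nonneg (hlog y (by omega)).le _)
    rw [Real.exp_le_exp]
    linarith
  · intro y V hy hV
    have hsub : (PP z y).divisors.filter (fun d => d ≤ V) ⊆ (PP z (min y V)).divisors := by
      intro d hd
      rw [mem_filter] at hd
      have h1 := hpf y d hd.1
      have hd0 : d ≠ 0 := (Nat.pos_of_mem_divisors hd.1).ne'
      have h2 : Squarefree d := (prod_primes_squarefree (PS z y) fun p hp => PS_prime hp).squarefree_of_dvd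
        (Nat.dvd_of_mem_divisors hd.1)
      rw [Nat.mem_divisors]
      refine ⟨?_, (prod_primes_squarefree (PS z (min y V)) fun p hp => PS_prime hp).ne_zero⟩
      rw [← Nat.prod_primeFactors_of_squarefree h2]
      refine Finset.prod_dvd_prod_of_subset _ _ _ fun p hp => ?_
      have h3 := h1 hp
      have h4 : p ≤ d := Nat.le_of_mem_primeFactors hp
      exact mem_filter.2 ⟨mem_Ioc.2 ⟨PS_lt h3, le_min (PS_le h3) (h4.trans hd.2)⟩, PS_prime h3⟩
    have h1 : ∑ d ∈ (PP z y).divisors.filter (fun d => d ≤ V), gm γ d * hq B d ≤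
        ∑ d ∈ (PP z (min y V)).divisors, gm γ d * hq B d := by
      refine Finset.sum_le_sum_of_subset_of_nonneg hsub fun d hd _ => hnn d fun p hp => ?_
      exact PS_lt (hpf _ d hd hp)
    have hmin2 : 2 ≤ min y V := le_min (by omega) hV
    refine h1.trans ((main _ hmin2).trans ?_)
    have h2 : (Real.log (min y V : ℕ)) ^ w ≤ (Real.log V) ^ w := by
      refine Real.rpow_le_rpow (hlog _ hmin2).le ?_ hw.le
      exact Real.log_le_log (by exact_mod_cast (by omega : 0 < min y V))
        (by exact_mod_cast min_le_right y V)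
    refine mul_le_mul ?_ h2 (Real.rpow_nonneg (hlog _ hmin2).le _) (Real.exp_pos _).le
    rw [Real.exp_le_exp]
    linarith
  · intro y Y hy hY
    have hy3 : 3 ≤ y := by omega
    have hly := hlog y (by omega)
    have hly1 : 1 ≤ Real.log y := by
      rw [Real.le_log_iff_exp_le (by positivity)]
      have := Real.exp_one_lt_d9
      have h3 : (3:ℝ) ≤ y := by exact_mod_cast hy3
      linarith
    have hY0 : (0:ℝ) < Y := by exact_mod_cast hY
    set ψ : ℕ → ℝ := fun p => φ p * Real.exp (Real.log p / Real.log y) with hψ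
    have hterm : ∀ d ∈ (PP z y).divisors.filter (fun d => Y < d), gm γ d * hq B d ≤
        Real.exp (-(Real.log Y / Real.log y)) * ∏ p ∈ d.primeFactors, ψ p := by
      intro d hd
      rw [mem_filter] at hd
      have h1 := hpf y d hd.1
      have hd0 : 0 < d := Nat.pos_of_mem_divisors hd.1
      have h2 : Squarefree d := (prod_primes_squarefree (PS z y) fun p hp => PS_prime hp).squarefree_of_dvd
        (Nat.dvd_of_mem_divisors hd.1)
      have h3 : ∏ p ∈ d.primeFactors, Real.exp (Real.log p / Real.log y) =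
          Real.exp (Real.log d / Real.log y) := by
        rw [← Real.exp_sum, ← Finset.sum_div, ← Real.log_prod]
        · congr 3
          conv_rhs => rw [← Nat.prod_primeFactors_of_squarefree h2]
          push_cast
          rfl
        · intro p hp
          exact_mod_cast (Nat.prime_of_mem_primeFactors hp).ne_zero
      rw [hψ, Finset.prod_mul_distrib, h3, gm_hq]
      have h4 : 0 ≤ ∏ p ∈ d.primeFactors, φ p :=
        Finset.prod_nonneg fun p hp => hφ0 y p (h1 hp)
      have h5 : 1 ≤ Real.exp (-(Real.log Y / Real.log y)) * Real.exp (Real.log d / Real.log y) := by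
        rw [← Real.exp_add]
        apply Real.one_le_exp
        rw [neg_add_eq_sub, ← sub_div]
        refine div_nonneg (sub_nonneg.2 (Real.log_le_log hY0 ?_)) hly.le
        exact_mod_cast hd.2.le
      calc ∏ p ∈ d.primeFactors, φ p = (∏ p ∈ d.primeFactors, φ p) * 1 := (mul_one _).symm
        _ ≤ (∏ p ∈ d.primeFactors, φ p) * (Real.exp (-(Real.log Y / Real.log y)) *
            Real.exp (Real.log d / Real.log y)) := mul_le_mul_of_nonneg_left h5 h4
        _ = _ := by ring
    have hψ0 : ∀ p ∈ PS z y, 0 ≤ ψ p := fun p hp => mul_nonneg (hφ0 y p hp) (Real.exp_pos _).le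
    have hψe : ∀ p ∈ PS z y, ψ p ≤ φ p * Real.exp 1 := by
      intro p hp
      refine mul_le_mul_of_nonneg_left ?_ (hφ0 y p hp)
      rw [Real.exp_le_exp, div_le_one hly]
      exact Real.log_le_log (by exact_mod_cast (PS_prime hp).pos) (by exact_mod_cast PS_le hp)
    calc ∑ d ∈ (PP z y).divisors.filter (fun d => Y < d), gm γ d * hq B d
        ≤ ∑ d ∈ (PP z y).divisors.filter (fun d => Y < d),
            Real.exp (-(Real.log Y / Real.log y)) * ∏ p ∈ d.primeFactors, ψ p :=
          Finset.sum_le_sum hterm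
      _ ≤ ∑ d ∈ (PP z y).divisors,
            Real.exp (-(Real.log Y / Real.log y)) * ∏ p ∈ d.primeFactors, ψ p := by
          refine Finset.sum_le_sum_of_subset_of_nonneg (filter_subset _ _) fun d hd _ => ?_
          exact mul_nonneg (Real.exp_pos _).le (Finset.prod_nonneg fun p hp => hψ0 p (hpf y d hd hp))
      _ = Real.exp (-(Real.log Y / Real.log y)) * ∏ p ∈ PS z y, (1 + ψ p) := by
          rw [← Finset.mul_sum]
          congr 1
          exact sum_mult (PS z y) (fun p hp => PS_prime hp) ψ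
      _ ≤ Real.exp (-(Real.log Y / Real.log y)) *
            (Real.exp (3 * (B' + 1)) * (Real.log y) ^ 2) := by
          refine mul_le_mul_of_nonneg_left ?_ (Real.exp_pos _).le
          refine (prod_le_exp _ _ fun p hp => by have := hψ0 p hp; linarith).trans ?_
          have h6 : (Real.log y) ^ 2 = Real.exp (2 * Real.log (Real.log y)) := by
            rw [mul_comm, Real.exp_mul, Real.exp_log hly]
            norm_num
          rw [h6, ← Real.exp_add, Real.exp_le_exp]
          have h7 : ∑ p ∈ PS z y, ψ p ≤ (w * Real.log (Real.log y) + B') * Real.exp 1 := by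
            calc ∑ p ∈ PS z y, ψ p ≤ ∑ p ∈ PS z y, φ p * Real.exp 1 := Finset.sum_le_sum hψe
              _ = (∑ p ∈ PS z y, φ p) * Real.exp 1 := by rw [Finset.sum_mul]
              _ ≤ _ := mul_le_mul_of_nonneg_right (hsum y (by omega)) (Real.exp_pos _).le
          have h8 : 0 ≤ Real.log (Real.log y) := Real.log_nonneg hly1
          have h9 := Real.exp_one_lt_d9
          have h10 : w * Real.exp 1 ≤ 2 := by nlinarith [Real.exp_pos 1]
          have h11 : w * Real.log (Real.log y) * Real.exp 1 ≤ 2 * Real.log (Real.log y) := by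
            calc w * Real.log (Real.log y) * Real.exp 1 = (w * Real.exp 1) * Real.log (Real.log y) := by ring
              _ ≤ _ := mul_le_mul_of_nonneg_right h10 h8
          have h12 : B' * Real.exp 1 ≤ 3 * B' := by nlinarith
          linarith
      _ = _ := by ring

/-- the sum of `ρ(p) / p` over the primes in `(z, y]` -/
lemma sum_rho (f : ℤ[X]) (hf : Irreducible f) (hd : 0 < f.natDegree) : ∃ C : ℝ, 0 ≤ C ∧
    ∀ z y : ℕ, 2 ≤ z → 2 ≤ y →
    ∑ p ∈ PS z y, (rho f p : ℝ) / p ≤ Real.log (Real.log y) + C := by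
  obtain ⟨C, hC0, hC⟩ := Pool.Agent.H474R2.GE.mertens_rho f hf hd
  refine ⟨C + 1, by positivity, fun z y hz hy => ?_⟩
  rcases Nat.lt_or_ge y 3 with h3 | h3
  · have hy2 : y = 2 := by omega
    subst hy2
    have h1 : PS z 2 = ∅ := by
      ext p
      simp only [notMem_empty, iff_false]
      intro hp
      have := PS_lt hp
      have := PS_le hp
      omega
    rw [h1, sum_empty]
    have h2 : -1 ≤ Real.log (Real.log 2) := by
      rw [Real.le_log_iff_exp_le (Real.log_pos (by norm_num))]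
      have := Real.log_two_gt_d9
      have h4 : Real.exp (-1) ≤ 0.5 := by
        rw [Real.exp_neg]
        have := Real.exp_one_gt_d9
        rw [inv_le_comm₀ (Real.exp_pos 1) (by norm_num)]
        norm_num
        linarith
      linarith
    push_cast
    linarith
  · have h1 := (abs_le.1 (hC y (by exact_mod_cast h3))).2
    have h2 : ∑ p ∈ PS z y, (rho f p : ℝ) / p ≤ Pool.Agent.H474R2.PG.Sg (rho f) (y : ℝ) := by
      unfold Pool.Agent.H474R2.PG.Sg
      refine Finset.sum_le_sum_of_subset_of_nonneg ?_ fun p _ _ => by positivity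
      intro p hp
      unfold Pool.Agent.H474R2.PG.PR
      rw [Nat.floor_natCast]
      exact mem_filter.2 ⟨mem_Icc.2 ⟨(PS_prime hp).one_lt.le, PS_le hp⟩, PS_prime hp⟩
    linarith

/-- bounds for `gaw` -/
lemma gaw_bd {f : ℤ[X]} {w : ℝ} {c d p : ℕ} (hw : 0 < w) (hw2 : w ≤ 1 / 2) (hc : 2 * c + 2 ≤ p)
    (hr : rho f p ≤ d) : 0 ≤ gaw f w c p ∧ gaw f w c p ≤ d / p ∧
      gaw f w c p ≤ w * ((rho f p : ℝ) / p) + (c * d) * (1 / (p : ℝ) ^ 2) := by
  have hp1 : (2 * c + 2 : ℝ) ≤ p := by exact_mod_cast hc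
  have hc0 : (0:ℝ) ≤ c := Nat.cast_nonneg c
  have hp0 : (0:ℝ) < p := by linarith
  have hpc : (0:ℝ) < (p : ℝ) - c := by linarith
  have hr' : (rho f p : ℝ) ≤ d := by exact_mod_cast hr
  have hr0 : (0 : ℝ) ≤ rho f p := Nat.cast_nonneg _
  have hd0 : (0 : ℝ) ≤ d := Nat.cast_nonneg _
  unfold gaw
  refine ⟨by positivity, ?_, ?_⟩
  · have h1 : w / ((p : ℝ) - c) ≤ 1 / p := by
      rw [div_le_div_iff₀ hpc hp0]
      nlinarith
    calc w / ((p : ℝ) - c) * rho f p ≤ 1 / p * d := mul_le_mul h1 hr' hr0 (by positivity)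
      _ = d / p := by ring
  · have h1 : w / ((p : ℝ) - c) * rho f p =
        w * ((rho f p : ℝ) / p) + (w * c / (p * (p - c))) * rho f p := by
      field_simp
      ring
    rw [h1]
    have h7 : w * c / (p * (p - c)) ≤ c * (1 / (p : ℝ) ^ 2) := by
      rw [mul_one_div, div_le_div_iff₀ (by positivity) (by positivity)]
      have h8 : w * p ≤ p - c := by nlinarith
      have h9 : 0 ≤ (c : ℝ) * p := by positivity
      nlinarith
    have h8 : 0 ≤ w * c / (p * (p - c)) := by positivity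
    have h9 : w * c / (p * (p - c)) * rho f p ≤ c * (1 / (p : ℝ) ^ 2) * d :=
      mul_le_mul h7 hr' hr0 (by positivity)
    have h10 : c * (1 / (p : ℝ) ^ 2) * d = (c * d) * (1 / (p : ℝ) ^ 2) := by ring
    linarith

theorem stFull : StFull := by
  intro f w c B hf hd hw hw2
  obtain ⟨C0, hC0, hmer⟩ := sum_rho f hf hd
  obtain ⟨K, hK, hsq⟩ := sum_inv_sq
  obtain ⟨Br, hBr⟩ := Pool.Agent.H474R2.PG.rho_le f hf.ne_zero
  refine ⟨2 * c + 2 + Br, fun z hz => ?_⟩
  have hz2 : 2 ≤ z := by omega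
  set D := f.natDegree with hD
  have hb : ∀ p : ℕ, p.Prime → z < p → 0 ≤ gaw f w c p ∧ gaw f w c p ≤ D / p ∧
      gaw f w c p ≤ w * ((rho f p : ℝ) / p) + (c * D) * (1 / (p : ℝ) ^ 2) := fun p hp hzp =>
    gaw_bd hw hw2 (by omega) (hBr p hp (by omega))
  refine full_g (G := D) (C0 := C0 + c * D * K) hw hw2 hz2 (fun p hp hzp => (hb p hp hzp).1)
    (fun p hp hzp => (hb p hp hzp).2.1) (Nat.cast_nonneg _) (by positivity) fun y hy => ?_
  calc ∑ p ∈ PS z y, gaw f w c p ≤ ∑ p ∈ PS z y, (w * ((rho f p : ℝ) / p) +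
        (c * D) * (1 / (p : ℝ) ^ 2)) :=
        Finset.sum_le_sum fun p hp => (hb p (PS_prime hp) (PS_lt hp)).2.2
    _ = w * ∑ p ∈ PS z y, (rho f p : ℝ) / p + (c * D) * ∑ p ∈ PS z y, 1 / (p : ℝ) ^ 2 := by
        rw [Finset.sum_add_distrib, Finset.mul_sum, Finset.mul_sum]
    _ ≤ w * (Real.log (Real.log y) + C0) + (c * D) * K := by
        refine add_le_add (mul_le_mul_of_nonneg_left (hmer z y hz2 hy) hw.le)
          (mul_le_mul_of_nonneg_left (hsq _) (by positivity))
    _ ≤ _ := by nlinarith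

end Pool.Agent.L7h19.RP
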