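import Mathlib
import Pool.Agent.L7h19.RP.Exp
import Pool.Agent.L7h19.RP.Full
import Pool.Agent.L7h19.RP.Bez
import Pool.Agent.L7h19.RJ.Maj

/-!
# Project RP: the average of the majorant
-/

set_option autoImplicit false

namespace Pool.Agent.L7h19.RP

open Finset Polynomial Pool.Agent.W262.RK Pool.Agent.L7h19.RJ
open Pool.Agent.H474R2.PG (rho)
open Pool.Agent.L7h19.RP.AT (gm hq BWg)

variable {ι : Type} [Fintype ι] [DecidableEq ι] {J : Type} [Fintype J] [DecidableEq J]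

lemma abs_bw_le {f κ : ℤ[X]} {w : ℝ} {c p : ℕ} (hw : 0 ≤ w) (hc : c < p) :
    |bw f κ w c p| ≤ gaw f w c p := by
  have hpc : (0 : ℝ) < (p : ℝ) - c := by
    have : (c : ℝ) < p := by exact_mod_cast hc
    linarith
  unfold bw gaw
  rw [abs_mul, abs_of_nonneg (div_nonneg hw hpc.le)]
  refine mul_le_mul_of_nonneg_left ?_ (div_nonneg hw hpc.le)
  refine (abs_sum_le_sum_abs _ _).trans ?_
  unfold rho
  rw [card_eq_sum_ones]
  push_cast
  refine sum_le_sum fun ν _ => ?_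
  exact Pool.Agent.W655.RK.Jr_abs _ _

lemma le_sum_nat {α : Type*} [Fintype α] (g : α → ℕ) (a : α) : g a ≤ ∑ a, g a :=
  single_le_sum (f := g) (fun _ _ => Nat.zero_le _) (mem_univ a)

lemma le_sum_abs {α : Type*} [Fintype α] (g : α → ℝ) (a : α) : g a ≤ ∑ a, |g a| :=
  (le_abs_self _).trans (single_le_sum (f := fun a => |g a|) (fun _ _ => abs_nonneg _) (mem_univ a))

theorem majr (hEp : StEp) (hBW : StBW) (cls : ι → J → Option (Fin 4)) (n : ι → ℕ)
    (h1 : ∀ i j, cls i j ≠ none → cls i j ≠ some 3 → ∀ i', i' ≠ i → cls i' j = none)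
    (h2 : ∀ j, ∃ i, cls i j ≠ none)
    (h3 : ∀ i (c : Fin 4), c ≠ 3 → (univ.filter (fun j => cls i j = some c)).card = n i)
    (κ : ι → J → Fin 3 → ℤ[X]) (f : J → ℤ[X]) (hf : ∀ j, Irreducible (f j))
    (hd : ∀ j, 0 < (f j).natDegree) (hκ : ∀ i j k, ¬ f j ∣ κ i j k) (c : ℕ) :
    ∃ z0 : ℕ, ∀ z, z0 ≤ z → ∃ C : ℝ, ∀ y, z < y →
      ∑ s ∈ Tup J z y, NBr cls κ f s * ∏ j, gw 1 c (s j) ≤
        C * (Real.log y) ^ (Fintype.card J) := by
  classical
  have hwJ := fun a : IJ cls => wJ_pos cls h2 a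
  choose z1 B0 A hz1 using fun a : IJ cls =>
    hEp (f a.1.1) (κJP cls κ a) (wJ cls a) c (hf _) (hd _) (κJP_nd cls κ hf hκ a) (hwJ a).1 (hwJ a).2
  set B : ℕ := ∑ a, B0 a with hB
  set A' : ℕ := ∑ a, A a with hA'
  choose z2 hz2 using fun a : IJ cls => stFull (f a.1.1) (wJ cls a) c B (hf _) (hd _)
    (hwJ a).1 (hwJ a).2
  choose Bκ hBκ using fun (i : ι) (j : J) (k : Fin 3) => large_nd (hf j) (hd j) (hκ i j k)
  choose Br hBr using fun j : J => Pool.Agent.H474R2.PG.rho_le (f j) (hf j).ne_zero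
  set G : ℕ := ∑ j, (f j).natDegree with hG
  obtain ⟨C2, E2, hC2, hbw⟩ := hBW (G : ℝ) (Fintype.card (IJ cls) : ℝ) (Nat.cast_nonneg _)
  refine ⟨∑ a, z1 a + ∑ a, z2 a + Fintype.card (IJ cls) * G + ∑ j, Br j + (2 * c + 4) +
    ∑ i, ∑ j, ∑ k, Bκ i j k, fun z hz => ?_⟩
  have hz1' : ∀ a, z1 a ≤ z := fun a => (le_sum_nat z1 a).trans (by omega)
  have hz2' : ∀ a, z2 a ≤ z := fun a => (le_sum_nat z2 a).trans (by omega)
  have hBr' : ∀ j, Br j ≤ z := fun j => (le_sum_nat Br j).trans (by omega)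
  have hBκ' : ∀ i j k, Bκ i j k ≤ z := fun i j k => by
    have e1 := le_sum_nat (fun k => Bκ i j k) k
    have e2 := le_sum_nat (fun j => ∑ k, Bκ i j k) j
    have e3 := le_sum_nat (fun i => ∑ j, ∑ k, Bκ i j k) i
    have e1' : Bκ i j k ≤ ∑ k, Bκ i j k := e1
    have e2' : ∑ k, Bκ i j k ≤ ∑ j, ∑ k, Bκ i j k := e2
    have e3' : ∑ j, ∑ k, Bκ i j k ≤ ∑ i, ∑ j, ∑ k, Bκ i j k := e3
    omega
  have hB0 : ∀ a, B0 a ≤ B := fun a => le_sum_nat B0 a
  have hAa : ∀ a, A a ≤ A' := fun a => le_sum_nat A a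
  choose C1 rx hC1 using fun a : IJ cls => hz1 a z B (hz1' a) (hB0 a)
  choose C3 hC3 using fun a : IJ cls => hz2 a z (hz2' a)
  set C : ℝ := 1 + ∑ a, |C1 a| + ∑ a, |C3 a| with hC
  have hs1 : 0 ≤ ∑ a, |C1 a| := sum_nonneg fun _ _ => abs_nonneg _
  have hs3 : 0 ≤ ∑ a, |C3 a| := sum_nonneg fun _ _ => abs_nonneg _
  have hCC1 : ∀ a, C1 a ≤ C := fun a => by have := le_sum_abs C1 a; linarith
  have hCC3 : ∀ a, C3 a ≤ C := fun a => by have := le_sum_abs C3 a; linarith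
  have hgaw : ∀ (a : IJ cls) (p : ℕ), p.Prime → z < p → gaw (f a.1.1) (wJ cls a) c p ≤ (G : ℝ) / p := by
    intro a p hp hzp
    have e1 := (gaw_bd (d := (f a.1.1).natDegree) (hwJ a).1 (hwJ a).2 (by omega : 2 * c + 2 ≤ p)
      (hBr a.1.1 p hp (by have := hBr' a.1.1; omega))).2.1
    refine e1.trans ?_
    refine div_le_div_of_nonneg_right ?_ (Nat.cast_nonneg _)
    exact_mod_cast le_sum_nat (fun j => (f j).natDegree) a.1.1
  have hBd : Pool.Agent.L7h19.RP.AT.Bd (bJ cls κ f c) (fun a => gaw (f a.1.1) (wJ cls a) c) (wJ cls) z B C := by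
    refine ⟨fun a => (hwJ a).1, fun a => (hwJ a).2.trans (by norm_num), by omega, by linarith,
      fun a p hp hzp => abs_bw_le (hwJ a).1.le (by omega), fun a y hy => ?_, fun a y V hy hV => ?_,
      fun a y Y hy hY => ?_⟩
    · refine ((hC3 a).1 y hy).trans ?_
      exact mul_le_mul_of_nonneg_right (hCC3 a) (Real.rpow_nonneg (Real.log_natCast_nonneg _) _)
    · refine ((hC3 a).2.1 y V hy hV).trans ?_
      exact mul_le_mul_of_nonneg_right (hCC3 a) (Real.rpow_nonneg (Real.log_natCast_nonneg _) _)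
    · refine ((hC3 a).2.2 y Y hy hY).trans ?_
      exact mul_le_mul_of_nonneg_right (mul_le_mul_of_nonneg_right (hCC3 a) (Real.exp_pos _).le)
        (by positivity)
  have hEBd : Pool.Agent.L7h19.RP.AT.EBd (bJ cls κ f c) (fun _ => 1) (wJ cls) (fun a => wJ cls a / 2) z B A'
      (fun a => rx a) C := by
    intro a y R r t hy hR hr hrs hrp hrx
    have e1 := hC1 a y R r t hy hR hr hrs hrp hrx
    have hr3 : 3 ≤ r := by
      obtain ⟨p, hp, hpr⟩ := Nat.exists_prime_and_dvd (by omega : r ≠ 1)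
      have h1 := hrp p hp hpr
      have h2 := Nat.le_of_dvd (by omega) hpr
      omega
    have hlr : 1 ≤ Real.log r := by
      rw [Real.le_log_iff_exp_le (by positivity)]
      have := Real.exp_one_lt_d9
      have h3 : (3:ℝ) ≤ r := by exact_mod_cast hr3
      linarith
    have e2 : ∑ d ∈ (PP z y).divisors.filter (fun d => d.Coprime R),
        gm (bJ cls κ f c a) d * (Jr d r * Jr 1 d * x4 t d) =
        ∑ d ∈ (PP z y).divisors.filter (fun d => d.Coprime R),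
        gm (bw (f a.1.1) (κJP cls κ a) (wJ cls a) c) d * (Jr d r * x4 t d) := by
      refine sum_congr rfl fun d _ => ?_
      rw [Pool.Agent.W108.RK.Jr_one_left, mul_one]
      rfl
    rw [e2]
    refine e1.trans ?_
    have e3 : wJ cls a - wJ cls a / 2 = wJ cls a / 2 := by ring
    rw [e3]
    refine mul_le_mul_of_nonneg_right ?_ (Pool.Agent.L7h19.RP.AT.hq_nonneg _ _)
    refine mul_le_mul_of_nonneg_right ?_ (Real.rpow_nonneg (Real.log_natCast_nonneg _) _)
    calc C1 a * (Real.log r) ^ A a ≤ C * (Real.log r) ^ A a :=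
          mul_le_mul_of_nonneg_right (hCC1 a) (by positivity)
      _ ≤ C * (Real.log r) ^ A' :=
          mul_le_mul_of_nonneg_left (pow_le_pow_right₀ hlr (hAa a)) (by linarith)
  obtain ⟨C', hC'⟩ := Pool.Agent.L7h19.RP.AT.at_g (L := LJ cls) (κ := fun _ => 1) hBd hC2 hbw (Nat.cast_nonneg _)
    hgaw (by
      have : Fintype.card (IJ cls) * G ≤ z := by omega
      exact_mod_cast this) le_rfl hEBd (fun a => half_pos (hwJ a).1)
    (fun a => half_le_self (hwJ a).1.le) (LJ_self cls) (K := ((Fintype.card J : ℕ) : ℝ))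
    (fun U hU => combj cls n h1 h3 U hU)
  refine ⟨C', fun y hy => ?_⟩
  rw [expr cls κ f c z y (fun p _ hzp j t ht i k =>
    hBκ i j k p (by have := hBκ' i j k; omega) t ht)]
  refine (le_trans (le_abs_self _) (hC' y hy)).trans (le_of_eq ?_)
  rw [Real.rpow_natCast]

end Pool.Agent.L7h19.RP
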