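import Mathlib
import Pool.Agent.L7h19.RP.Stm

/-!
# Project RP (helper19, MP_157626_nt): statements for the next stages

* `StCnt2`: the analogue of `StCnt` for the values of binary forms at coprime pairs (rational values
  of the parameter).
* `StSieg`: Siegel's theorem over number fields, for the characters of `StH`.
-/

set_option autoImplicit false

namespace Pool.Agent.L7h19.RP

open Finset Polynomial NumberField Pool.Agent.W262.RK Pool.Agent.W307.RT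
open Pool.Agent.H474R2.PG (rho)

/-- the value at `(u, w)` of the homogeneous form `w ^ deg f * f (u / w)` -/
noncomputable def hv (f : ℤ[X]) (u w : ℤ) : ℤ := (f.scaleRoots w).eval u

variable {J : Type} [Fintype J] [DecidableEq J]

/-- the conditions on the polynomials at the primes `> z` (binary forms) -/
structure BgH (f : J → ℤ[X]) (c z : ℕ) : Prop where
  le_z : 2 * c + 2 ≤ z
  irr : ∀ j, Irreducible (f j)
  pos : ∀ j, 0 < (f j).natDegree
  lead : ∀ p : ℕ, p.Prime → z < p → ∀ j, ¬ (p : ℤ) ∣ (f j).leadingCoeff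
  rho_le : ∀ p : ℕ, p.Prime → z < p → ∑ j, rho (f j) p ≤ c
  simple : ∀ p : ℕ, p.Prime → z < p → ∀ j (t : ℤ), (p : ℤ) ∣ (f j).eval t →
    ¬ (p : ℤ) ∣ (derivative (f j)).eval t
  cop : ∀ p : ℕ, p.Prime → z < p → ∀ j l, j ≠ l → ∀ t : ℤ, (p : ℤ) ∣ (f j).eval t →
    ¬ (p : ℤ) ∣ (f l).eval t

/-- the primes of the twist classes at which `f_j(u, w) / p` is not a square -/
noncomputable def negH (T : J → Fin 4) (f : J → ℤ[X]) (u w : ℤ) (s : J → ℕ) : Finset ℕ := by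
  classical
  exact (P3 T s).filter (fun p => ∃ j, T j = 3 ∧ p ∣ s j ∧
    jacobiSym (hv (f j) u w / p) p = -1)

/-- **StCnt2**: the number of coprime pairs `u, w ≤ X` in a class modulo `∏ s_j` such that the
values `f_j(u, w)` have given small prime factors (`s_j`: exactly once, `v_j`: at least twice,
`e_j`: some larger primes) and given signs. For each `w` one can argue as for `StCnt`
(`Pool/Agent/L7h89/RP/Psv.lean`, `StCnt.lean`) with the polynomial `(f j).scaleRoots w`, sieving by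
the primes that do not divide `w` (uniformly in `w`), and then sum `∏_{p ∣ w} p / (p - c)` over the
class of `w` (`Pool/Agent/L7h19/RH/Avhr.lean`; compare `Pool/Agent/L7h19/RH/Cnts.lean`). -/
def StCnt2 : Prop := ∀ (J : Type) [Fintype J] [DecidableEq J] (T : J → Fin 4) (f : J → ℤ[X])
  (c z : ℕ), BgH f c z → ∃ (C : ℝ) (K y0 : ℕ), 0 ≤ C ∧ 1 ≤ K ∧
  ∀ X y Y : ℕ, y0 ≤ y → z < y → y ^ K ≤ X →
  ∀ s ∈ Tup J z y, ∀ v ∈ Tup J z y, ∀ e ∈ Tup J y Y, (∏ j, s j * v j * e j) ^ 8 ≤ X →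
  ∀ (r r' : ℤ) (E : Finset ℕ), (∀ j, (s j : ℤ) ∣ hv (f j) r r') →
    (∀ p : ℕ, p.Prime → p ∣ ∏ j, s j → ¬ (p : ℤ) ∣ r') →
    (((Icc 1 X ×ˢ Icc 1 X).filter (fun q : ℕ × ℕ => q.1.Coprime q.2 ∧
      (q.1 : ℤ) ≡ r [ZMOD ((∏ j, s j : ℕ) : ℤ)] ∧ (q.2 : ℤ) ≡ r' [ZMOD ((∏ j, s j : ℕ) : ℤ)] ∧
      S1 z y (fun j => hv (f j) q.1 q.2) = s ∧ S2 z y (fun j => hv (f j) q.1 q.2) = v ∧
      (∀ j, (e j : ℤ) ∣ hv (f j) q.1 q.2) ∧ negH T f q.1 q.2 s = E)).card : ℝ) ≤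
      C * X ^ 2 * (1 / 2) ^ (P3 T s).card *
        (∏ j, (gw 1 c (s j) * ∏ p ∈ (s j).primeFactors, 1 / ((p : ℝ) - 1))) *
        (∏ j, gr (f j) c (v j) / v j) * (∏ j, ru (f j) (e j)) /
        (Real.log y) ^ (Fintype.card J)

/-- **StSieg**: lower bound (Siegel's theorem over `K`) for the sums of `StH`, with an arbitrarily
small multiple of `log r`. For `K = ℚ` Siegel's theorem is in `Pool/Agent/H307R2/Sg1.lean` to
`Sg6.lean` (Estermann's proof); over `K` one needs `L_K(s, ψ χ_r ∘ N)` for `Re s > 1 - δ_K`, with a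
polynomial bound in `r`. -/
def StSieg : Prop := ∀ (K : Type) [Field K] [NumberField K] (q₀ : ℕ) (ε : ℝ), 0 < q₀ → 0 < ε →
  ∃ (C : ℝ) (z₀ : ℕ), ∀ (ψ : DirichletCharacter ℤ q₀) (r : ℕ), 1 < r → Squarefree r →
    (∀ p : ℕ, p.Prime → p ∣ r → z₀ < p) → ∀ y : ℝ, 3 ≤ y →
    -(ε * Real.log r) - C ≤
    ∑ p ∈ Pool.Agent.H474R2.PG.PR y, (Nat.card (𝓞 K →+* ZMod p) : ℝ) *
      (((ψ (p : ZMod q₀) : ℤ) : ℝ) * Jr (p : ℤ) r) / (p : ℝ)

end Pool.Agent.L7h19.RP
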