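import Mathlib
import Pool.Agent.L7h19.RP.Stm3
import Pool.Agent.L7h19.RP.Stm4

/-!
# Project RP (helper19, MP_157626_nt): statements for the unbalanced families

`StUp`, `StUp0`: upper bounds for the sums over primes, for `StSieg` (helper50). `StCnt3`: the
analogue of `StCnt2` in short boxes.
-/

set_option autoImplicit false

namespace Pool.Agent.L7h19.RP

open Finset Polynomial NumberField Pool.Agent.W262.RK Pool.Agent.W307.RT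
open Pool.Agent.H474R2.PG (rho)

/-- **StUp**: for a nontrivial modulus `r`. By `StQuad` (`Pool/Agent/L7h80/RP`), `∑_ν (κ(ν)/p)` is
`R_K(p)` or `R_{K'}(p) - R_K(p)`; upper bounds by `StH` (`Pool/Agent/L7h78/RP`), lower bounds by
`StSieg` (`Pool/Agent/L7h50/SI`); compare `Pool/Agent/L7h78/RP/StEp.lean`. -/
def StUp : Prop := ∀ (f κ : ℤ[X]) (w ε : ℝ) (c : ℕ), Irreducible f → 0 < f.natDegree → ¬ f ∣ κ →
  0 < w → w ≤ 1 / 2 → 0 < ε → ∃ z0 : ℕ, ∀ z : ℕ, z0 ≤ z → ∃ C : ℝ, ∀ (y r : ℕ) (t : Bool), z < y →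
  1 < r → Squarefree r → (∀ p : ℕ, p.Prime → p ∣ r → z < p) →
    ∑ p ∈ PS z y, bw f κ w c p * (Jr p r * x4 t p) ≤ ε * Real.log r + C

/-- **StUp0**: for the trivial modulus, if `κ(θ)` is not a square in `ℚ(θ)`, where `f(θ) = 0`. Then
`∑_ν (κ(ν)/p) = R_{K'}(p) - R_K(p)` for the field `K' = K(√κ(θ))` (see the proof of `StQuad` in
`Pool/Agent/L7h80/RP/StQuad.lean`), and the theorem of Mertens holds for both fields. -/
def StUp0 : Prop := ∀ (f κ : ℤ[X]) (w : ℝ) (c : ℕ), Irreducible f → 0 < f.natDegree → ¬ f ∣ κ →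
  0 < w → w ≤ 1 / 2 →
  ¬ IsSquare (AdjoinRoot.mk (f.map (Int.castRingHom ℚ)) (κ.map (Int.castRingHom ℚ))) →
  ∃ z0 : ℕ, ∀ z : ℕ, z0 ≤ z → ∃ C : ℝ, ∀ y : ℕ, z < y → ∑ p ∈ PS z y, bw f κ w c p ≤ C

/-- **StCnt3**: `StCnt2` in short boxes: the number of coprime pairs `(U0 + q.1, W0 + q.2)`,
`q.1, q.2 ≤ X`, where `W0 ≤ X ^ μ`, `|U0| ≤ X ^ μ`, in a class modulo `∏ s_j` such that the values
`f_j(u, w)` have given small prime factors (`s_j`: exactly once, `v_j`: at least twice, `e_j`: some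
larger primes) and given signs. For `StCnt2` see `Pool/Agent/L7h80/RP/StCnt2.lean`; for the sieve at
the values `U0 + t` (with a shift) see `Pool/Agent/L7h19/RP/SPsv.lean`, `SCnt.lean`. Only the primes
`≤ y ≤ X ^ (1 / K)` matter, so that `∏_{p ∣ w, p ≤ y} p / (p - c)` has a bounded average over the
class of `w` in `(W0, W0 + X]` (the primes `> log X` contribute a bounded factor, as `w ≤ 2 X ^ μ`). -/
def StCnt3 : Prop := ∀ (J : Type) [Fintype J] [DecidableEq J] (T : J → Fin 4) (f : J → ℤ[X])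
  (c z μ : ℕ), BgH f c z → 1 ≤ μ → ∃ (C : ℝ) (K y0 : ℕ), 0 ≤ C ∧ 1 ≤ K ∧
  ∀ (X y Y : ℕ) (U0 : ℤ) (W0 : ℕ), y0 ≤ y → z < y → y ^ K ≤ X → U0.natAbs ≤ X ^ μ → W0 ≤ X ^ μ →
  ∀ s ∈ Tup J z y, ∀ v ∈ Tup J z y, ∀ e ∈ Tup J y Y, (∏ j, s j * v j * e j) ^ 8 ≤ X →
  ∀ (r r' : ℤ) (E : Finset ℕ), (∀ j, (s j : ℤ) ∣ hv (f j) r r') →
    (∀ p : ℕ, p.Prime → p ∣ ∏ j, s j → ¬ (p : ℤ) ∣ r') →
    (((Icc 1 X ×ˢ Icc 1 X).filter (fun q : ℕ × ℕ =>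
      IsCoprime (U0 + (q.1 : ℤ)) ((W0 : ℤ) + (q.2 : ℤ)) ∧
      U0 + (q.1 : ℤ) ≡ r [ZMOD ((∏ j, s j : ℕ) : ℤ)] ∧
      (W0 : ℤ) + (q.2 : ℤ) ≡ r' [ZMOD ((∏ j, s j : ℕ) : ℤ)] ∧
      S1 z y (fun j => hv (f j) (U0 + (q.1 : ℤ)) ((W0 : ℤ) + (q.2 : ℤ))) = s ∧
      S2 z y (fun j => hv (f j) (U0 + (q.1 : ℤ)) ((W0 : ℤ) + (q.2 : ℤ))) = v ∧
      (∀ j, (e j : ℤ) ∣ hv (f j) (U0 + (q.1 : ℤ)) ((W0 : ℤ) + (q.2 : ℤ))) ∧
      negH T f (U0 + (q.1 : ℤ)) ((W0 : ℤ) + (q.2 : ℤ)) s = E)).card : ℝ) ≤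
      C * X ^ 2 * (1 / 2) ^ (P3 T s).card *
        (∏ j, (gw 1 c (s j) * ∏ p ∈ (s j).primeFactors, 1 / ((p : ℝ) - 1))) *
        (∏ j, gr (f j) c (v j) / v j) * (∏ j, ru (f j) (e j)) /
        (Real.log y) ^ (Fintype.card J)

end Pool.Agent.L7h19.RP
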