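import Mathlib
import Pool.Agent.L7h19.RP.A8
import Pool.Agent.L7h19.RP.Maj
import Pool.Agent.L7h19.RP.Stm5

/-!
# Project RP: the average of the majorant, unbalanced families
-/

set_option autoImplicit false

namespace Pool.Agent.L7h19.RP

open Finset Polynomial Pool.Agent.W262.RK Pool.Agent.L7h19.RJ
open Pool.Agent.H474R2.PG (rho)
open Pool.Agent.L7h19.RP.AT (gm hq BWg)

variable {ι : Type} [Fintype ι] [DecidableEq ι] {J : Type} [Fintype J] [DecidableEq J]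

/-- is `κ(θ)` a square in `ℚ(θ)`, where `f(θ) = 0`? -/
def SqAt (f κ : ℤ[X]) : Prop :=
  IsSquare (AdjoinRoot.mk (f.map (Int.castRingHom ℚ)) (κ.map (Int.castRingHom ℚ)))

lemma bw_neg (f κ : ℤ[X]) (w : ℝ) (c : ℕ) {p : ℕ} (hp : Odd p) :
    bw f κ w c p * x4 true p = bw f (-κ) w c p := by
  unfold bw
  rw [mul_assoc, sum_mul]
  congr 1
  refine sum_congr rfl fun ν _ => ?_
  rw [eval_neg]
  unfold Jr x4
  rw [jacobiSym.neg _ hp]
  push_cast
  rw [if_pos rfl]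
  ring

lemma κJP_N {cls : ι → J → Option (Fin 4)} {Q : Finset J}
    (h1 : ∀ i j, cls i j ≠ none → cls i j ≠ some 3 → ∀ i', i' ≠ i → cls i' j = none)
    (κ : ι → J → Fin 3 → ℤ[X]) {a : IJ cls} (ha : NIJ cls Q a) :
    a.1.1 ∉ Q ∧ ∃ i, cls i a.1.1 ≠ none ∧ cls i a.1.1 ≠ some 3 ∧
      κJP cls κ a = κ i a.1.1 0 := by
  obtain ⟨hQ, i, hi1, hi2, hv, hx⟩ := ha
  refine ⟨hQ, i, hi1, hi2, ?_⟩
  unfold κJP
  rw [Finset.prod_eq_single i]
  · obtain ⟨c, hc⟩ := Option.ne_none_iff_exists'.1 hi1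
    have hc3 : c ≠ 3 := fun h => hi2 (by rw [hc, h])
    rw [hc]
    show (if c = 3 then _ else if a.1.2.1 i = (false, false) ∨ a.1.2.2 i = (false, false) then 1
      else κ i a.1.1 0 : ℤ[X]) = κ i a.1.1 0
    rw [if_neg hc3, if_neg (by push Not; exact ⟨hv, hx⟩)]
  · intro i' _ hi'
    rw [h1 i a.1.1 hi1 hi2 i' hi']
    rfl
  · intro h
    exact absurd (mem_univ i) h

theorem majn (hUp : StUp) (hUp0 : StUp0) (hBW : StBW) (hFr : StFree) (hCb : StComb)
    (cls : ι → J → Option (Fin 4)) (Q : Finset J)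
    (h1 : ∀ i j, cls i j ≠ none → cls i j ≠ some 3 → ∀ i', i' ≠ i → cls i' j = none)
    (h2 : ∀ j, ∃ i, cls i j ≠ none)
    (h3 : ∀ i (c : Fin 4), c ≠ 3 →
      (univ.filter (fun j => cls i j = some c)).card + (Q.filter (fun j => cls i j = some c)).card ≤
        (univ.filter (fun j => ∃ c' : Fin 4, c' ≠ 3 ∧ c' ≠ c ∧ cls i j = some c')).card)
    (κ : ι → J → Fin 3 → ℤ[X]) (f : J → ℤ[X]) (hf : ∀ j, Irreducible (f j))
    (hd : ∀ j, 0 < (f j).natDegree) (hκ : ∀ i j k, ¬ f j ∣ κ i j k)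
    (hsq : ∀ i j, j ∉ Q → cls i j ≠ none → cls i j ≠ some 3 →
      ¬ SqAt (f j) (κ i j 0) ∧ ¬ SqAt (f j) (-(κ i j 0))) (c : ℕ) :
    ∃ z0 : ℕ, ∀ z, z0 ≤ z → ∃ C : ℝ, ∀ y, z < y →
      ∑ s ∈ Tup J z y, NBr cls κ f s * ∏ j, gw 1 c (s j) ≤
        C * (Real.log y) ^ (Fintype.card J) := by
  classical
  have hwJ := fun a : IJ cls => wJ_pos cls h2 a
  obtain ⟨hcomb1, hcomb2⟩ := hCb ι J cls Q h1 h3
  set N : Finset (IJ cls) := univ.filter (fun a => NIJ cls Q a) with hNdef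
  have hNm : ∀ a, a ∈ N ↔ NIJ cls Q a := fun a => by
    rw [hNdef, mem_filter]
    exact ⟨fun h => h.2, fun h => ⟨mem_univ a, h⟩⟩
  set M : ℕ := Fintype.card (IJ cls) with hM
  set K : ℝ := ((Fintype.card J : ℕ) : ℝ) with hK
  set G : ℕ := ∑ j, (f j).natDegree with hG
  obtain ⟨C2, E2, hC2, hbw⟩ := hBW (G : ℝ) (M : ℝ) (Nat.cast_nonneg _)
  obtain ⟨δ, hδ, hδw, hδK⟩ := Pool.Agent.L7h19.RP.AT.exists_gap (wJ cls) (fun a => (hwJ a).1) K
  set A : ℕ := 6 * (M + 2 * E2) with hA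
  set ε : ℝ := δ / 2 / (A * (M : ℝ) ^ 2 + 1) with hε
  have hden : (0 : ℝ) < A * (M : ℝ) ^ 2 + 1 := by positivity
  have hε0 : 0 < ε := by positivity
  have hεA : (A : ℝ) * (ε * (M : ℝ) ^ 2) ≤ δ / 2 := by
    have e1 : (A : ℝ) * (ε * (M : ℝ) ^ 2) = δ / 2 * ((A * (M : ℝ) ^ 2) / (A * (M : ℝ) ^ 2 + 1)) := by
      rw [hε]
      field_simp
    rw [e1]
    have e2 : (A * (M : ℝ) ^ 2) / (A * (M : ℝ) ^ 2 + 1) ≤ 1 := by
      rw [div_le_one hden]
      linarith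
    have e3 : 0 ≤ δ / 2 := by positivity
    calc δ / 2 * ((A * (M : ℝ) ^ 2) / (A * (M : ℝ) ^ 2 + 1)) ≤ δ / 2 * 1 :=
          mul_le_mul_of_nonneg_left e2 e3
      _ = δ / 2 := mul_one _
  set B : ℕ := 2 * (M * G) with hB
  choose z1 hz1 using fun a : IJ cls =>
    hUp (f a.1.1) (κJP cls κ a) (wJ cls a) ε c (hf _) (hd _) (κJP_nd cls κ hf hκ a)
      (hwJ a).1 (hwJ a).2 hε0
  choose z2 hz2 using fun a : IJ cls => stFull (f a.1.1) (wJ cls a) c B (hf _) (hd _)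
    (hwJ a).1 (hwJ a).2
  have hup0 : ∀ (a : IJ cls) (s : Bool), ∃ z0 : ℕ, NIJ cls Q a → ∀ z : ℕ, z0 ≤ z → ∃ C : ℝ,
      ∀ y : ℕ, z < y → ∑ p ∈ PS z y, bw (f a.1.1)
        (if s then -(κJP cls κ a) else κJP cls κ a) (wJ cls a) c p ≤ C := by
    intro a s
    by_cases ha : NIJ cls Q a
    · obtain ⟨hQ, i, hi1, hi2, hκa⟩ := κJP_N h1 κ ha
      have h5 := hsq i a.1.1 hQ hi1 hi2
      cases s with
      | true =>
        obtain ⟨z0, hz0⟩ := hUp0 (f a.1.1) (-(κJP cls κ a)) (wJ cls a) c (hf _) (hd _)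
          (by rw [dvd_neg]; exact κJP_nd cls κ hf hκ a) (hwJ a).1 (hwJ a).2
          (by rw [hκa]; exact h5.2)
        exact ⟨z0, fun _ z hz => by simpa using hz0 z hz⟩
      | false =>
        obtain ⟨z0, hz0⟩ := hUp0 (f a.1.1) (κJP cls κ a) (wJ cls a) c (hf _) (hd _)
          (κJP_nd cls κ hf hκ a) (hwJ a).1 (hwJ a).2
          (by rw [hκa]; exact h5.1)
        exact ⟨z0, fun _ z hz => by simpa using hz0 z hz⟩
    · exact ⟨0, fun h => absurd h ha⟩
  choose z3 hz3 using hup0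
  choose Bκ hBκ using fun (i : ι) (j : J) (k : Fin 3) => large_nd (hf j) (hd j) (hκ i j k)
  choose Br hBr using fun j : J => Pool.Agent.H474R2.PG.rho_le (f j) (hf j).ne_zero
  refine ⟨∑ a, z1 a + ∑ a, z2 a + ∑ a, (z3 a true + z3 a false) + 2 * (M * G) + ∑ j, Br j +
    (2 * c + 4) + ∑ i, ∑ j, ∑ k, Bκ i j k, fun z hz => ?_⟩
  have hz1' : ∀ a, z1 a ≤ z := fun a => (le_sum_nat z1 a).trans (by omega)
  have hz2' : ∀ a, z2 a ≤ z := fun a => (le_sum_nat z2 a).trans (by omega)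
  have hz3' : ∀ a s, z3 a s ≤ z := fun a s => by
    have e1 : z3 a true + z3 a false ≤ ∑ a, (z3 a true + z3 a false) :=
      le_sum_nat (fun a => z3 a true + z3 a false) a
    cases s <;> omega
  have hBr' : ∀ j, Br j ≤ z := fun j => (le_sum_nat Br j).trans (by omega)
  have hBκ' : ∀ i j k, Bκ i j k ≤ z := fun i j k => by
    have e1 := le_sum_nat (fun k => Bκ i j k) k
    have e2 := le_sum_nat (fun j => ∑ k, Bκ i j k) j
    have e3 := le_sum_nat (fun i => ∑ j, ∑ k, Bκ i j k) i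
    have e1' : Bκ i j k ≤ ∑ k, Bκ i j k := e1
    have e2' : ∑ k, Bκ i j k ≤ ∑ j, ∑ k, Bκ i j k := e2
    have e3' : ∑ j, ∑ k, Bκ i j k ≤ ∑ i, ∑ j, ∑ k, Bκ i j k := e3
    omega
  choose C1 hC1 using fun a : IJ cls => hz1 a z (hz1' a)
  choose C3 hC3 using fun a : IJ cls => hz2 a z (hz2' a)
  have h4 : ∀ (a : IJ cls) (s : Bool), ∃ C : ℝ, NIJ cls Q a → ∀ y : ℕ, z < y →
      ∑ p ∈ PS z y, bw (f a.1.1) (if s then -(κJP cls κ a) else κJP cls κ a) (wJ cls a) c p ≤ C := by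
    intro a s
    by_cases ha : NIJ cls Q a
    · obtain ⟨C, hC⟩ := hz3 a s ha z (hz3' a s)
      exact ⟨C, fun _ => hC⟩
    · exact ⟨0, fun h => absurd h ha⟩
  choose C4 hC4 using h4
  set C : ℝ := 1 + ∑ a, |C3 a| with hC
  set D1 : ℝ := ∑ a, |C1 a| + ∑ a, (|C4 a true| + |C4 a false|) with hD1
  have hs1 : 0 ≤ ∑ a, |C1 a| := sum_nonneg fun _ _ => abs_nonneg _
  have hs3 : 0 ≤ ∑ a, |C3 a| := sum_nonneg fun _ _ => abs_nonneg _
  have hs4 : 0 ≤ ∑ a, (|C4 a true| + |C4 a false|) := sum_nonneg fun _ _ => by positivity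
  have hCC1 : ∀ a, C1 a ≤ D1 := fun a => by have := le_sum_abs C1 a; linarith
  have hCC3 : ∀ a, C3 a ≤ C := fun a => by have := le_sum_abs C3 a; linarith
  have hCC4 : ∀ a s, C4 a s ≤ D1 := fun a s => by
    have e1 : |C4 a true| + |C4 a false| ≤ ∑ a, (|C4 a true| + |C4 a false|) :=
      single_le_sum (f := fun a => |C4 a true| + |C4 a false|) (fun _ _ => by positivity)
        (mem_univ a)
    have e2 := le_abs_self (C4 a s)
    have e3 := abs_nonneg (C4 a true)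
    have e4 := abs_nonneg (C4 a false)
    cases s <;> linarith
  have hgaw : ∀ (a : IJ cls) (p : ℕ), p.Prime → z < p → gaw (f a.1.1) (wJ cls a) c p ≤ (G : ℝ) / p := by
    intro a p hp hzp
    have e1 := (gaw_bd (d := (f a.1.1).natDegree) (hwJ a).1 (hwJ a).2 (by omega : 2 * c + 2 ≤ p)
      (hBr a.1.1 p hp (by have := hBr' a.1.1; omega))).2.1
    refine e1.trans ?_
    refine div_le_div_of_nonneg_right ?_ (Nat.cast_nonneg _)
    exact_mod_cast le_sum_nat (fun j => (f j).natDegree) a.1.1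
  have hBd : Pool.Agent.L7h19.RP.AT.Bd (bJ cls κ f c) (fun a => gaw (f a.1.1) (wJ cls a) c) (wJ cls) z B C := by
    refine ⟨fun a => (hwJ a).1, fun a => (hwJ a).2.trans (by norm_num), by omega, by linarith,
      fun a p hp hzp => abs_bw_le (hwJ a).1.le (by omega), fun a y hy => ?_, fun a y V hy hV => ?_,
      fun a y Y hy hY => ?_⟩
    · refine ((hC3 a).1 y hy).trans ?_
      exact mul_le_mul_of_nonneg_right (hCC3 a) (Real.rpow_nonneg (Real.log_natCast_nonneg _) _)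
    · refine ((hC3 a).2.1 y V hy hV).trans ?_
      exact mul_le_mul_of_nonneg_right (hCC3 a) (Real.rpow_nonneg (Real.log_natCast_nonneg _) _)
    · refine ((hC3 a).2.2 y Y hy hY).trans ?_
      exact mul_le_mul_of_nonneg_right (mul_le_mul_of_nonneg_right (hCC3 a) (Real.exp_pos _).le)
        (by positivity)
  have hHN : Pool.Agent.L7h19.RP.AT.HN (bJ cls κ f c) (wJ cls) (LJ cls) N K z A ε D1 δ := by
    refine ⟨LJ_self cls, fun a ha a' ha' => hcomb1 a a' ((hNm a).1 ha) ((hNm a').1 ha'),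
      fun U hU1 hU2 => hcomb2 U (fun a ha hN => hU1 a ha ((hNm a).2 hN)) hU2, hδ, hδw, hδK,
      hε0.le, by linarith, hεA, ?_, ?_⟩
    · intro a y r s hy hr hrs hrp
      refine (hC1 a y r s hy hr hrs hrp).trans ?_
      have := hCC1 a
      linarith
    · intro a ha y s hy
      have ha' := (hNm a).1 ha
      have e1 := hC4 a s ha' y hy
      refine le_trans (le_of_eq ?_) (e1.trans (hCC4 a s))
      refine sum_congr rfl fun p hp => ?_
      have hpp := mem_PS.1 hp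
      have hpo : Odd p := hpp.2.odd_of_ne_two (by omega)
      rw [show Jr (p : ℤ) 1 = 1 from Pool.Agent.W262.RK.Jr_one_right _, one_mul]
      cases s with
      | true =>
        rw [if_pos rfl, ← bw_neg _ _ _ _ hpo]
        rfl
      | false =>
        have : x4 false p = 1 := by unfold x4; simp
        rw [this, mul_one]
        rfl
  obtain ⟨C', hC'⟩ := Pool.Agent.L7h19.RP.AT.at_n hFr hBd hC2 hbw (Nat.cast_nonneg _)
    hgaw (by
      have : 2 * (M * G) ≤ z := by omega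
      exact_mod_cast this) (by
      have : 2 * (M * G) ≤ B := le_rfl
      exact_mod_cast this) le_rfl hHN
  refine ⟨C', fun y hy => ?_⟩
  rw [expr cls κ f c z y (fun p _ hzp j t ht i k =>
    hBκ i j k p (by have := hBκ' i j k; omega) t ht)]
  refine (le_trans (le_abs_self _) (hC' y hy)).trans (le_of_eq ?_)
  rw [Real.rpow_natCast]

end Pool.Agent.L7h19.RP
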