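import Mathlib
import Pool.Agent.L7h19.RP.Maj
import Pool.Agent.L7h19.RJ.Ext
import Pool.Agent.L7h19.RJ.Main
import Pool.Agent.W45.RT.ANT

/-!
# Project RP: polynomials, values and constants
-/

set_option autoImplicit false

namespace Pool.Agent.L7h19.RP

open Finset Polynomial Pool.Agent.W262.RK Pool.Agent.W307.RT Pool.Agent.L7h19.RJ
open Pool.Agent.H474R2.PG (rho)

section bounds

/-- the sum of the absolute values of the coefficients -/
def cS (f : ℤ[X]) : ℕ := ∑ i ∈ range (f.natDegree + 1), (f.coeff i).natAbs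

lemma natAbs_sum_le {α : Type*} (s : Finset α) (g : α → ℤ) :
    (∑ i ∈ s, g i).natAbs ≤ ∑ i ∈ s, (g i).natAbs := by
  classical
  induction s using Finset.induction_on with
  | empty => simp
  | insert a s ha ih =>
    rw [sum_insert ha, sum_insert ha]
    exact (Int.natAbs_add_le _ _).trans (Nat.add_le_add_left ih _)

lemma eval_le (f : ℤ[X]) {t : ℤ} {X : ℕ} (ht : t.natAbs ≤ X) (hS : cS f ≤ X) (hX : 1 ≤ X) :
    (f.eval t).natAbs ≤ X ^ (f.natDegree + 1) := by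
  rw [eval_eq_sum_range]
  refine (natAbs_sum_le _ _).trans ?_
  calc ∑ i ∈ range (f.natDegree + 1), (f.coeff i * t ^ i).natAbs ≤
      ∑ i ∈ range (f.natDegree + 1), (f.coeff i).natAbs * X ^ f.natDegree := by
        refine sum_le_sum fun i hi => ?_
        rw [Int.natAbs_mul, Int.natAbs_pow]
        refine Nat.mul_le_mul_left _ ?_
        calc t.natAbs ^ i ≤ X ^ i := Nat.pow_le_pow_left ht _
          _ ≤ X ^ f.natDegree := Nat.pow_le_pow_right hX (by have := mem_range.1 hi; omega)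
    _ = cS f * X ^ f.natDegree := by rw [cS, sum_mul]
    _ ≤ X * X ^ f.natDegree := Nat.mul_le_mul_right _ hS
    _ = X ^ (f.natDegree + 1) := by ring

lemma le_eval (f : ℤ[X]) (hd : 0 < f.natDegree) (t : ℕ) :
    t ≤ (f.eval (t : ℤ)).natAbs + cS f := by
  rcases Nat.lt_or_ge (cS f) t with h | h
  swap
  · omega
  obtain ⟨d, hd'⟩ := Nat.exists_eq_succ_of_ne_zero hd.ne'
  set S' : ℕ := ∑ i ∈ range f.natDegree, (f.coeff i).natAbs with hS'
  have h1 : cS f = S' + (f.coeff f.natDegree).natAbs := by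
    rw [cS, sum_range_succ]
  have hlc : 1 ≤ (f.coeff f.natDegree).natAbs := by
    apply Int.natAbs_pos.2
    rw [coeff_natDegree, leadingCoeff_ne_zero]
    rintro rfl
    simp at hd
  have h2 : f.eval (t : ℤ) = ∑ i ∈ range f.natDegree, f.coeff i * (t : ℤ) ^ i +
      f.coeff f.natDegree * (t : ℤ) ^ f.natDegree := by
    rw [eval_eq_sum_range, sum_range_succ]
  set E : ℤ := ∑ i ∈ range f.natDegree, f.coeff i * (t : ℤ) ^ i with hE
  have h3 : E.natAbs ≤ S' * t ^ d := by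
    refine (natAbs_sum_le _ _).trans ?_
    rw [hS', sum_mul]
    refine sum_le_sum fun i hi => ?_
    rw [Int.natAbs_mul, Int.natAbs_pow, Int.natAbs_natCast]
    refine Nat.mul_le_mul_left _ (Nat.pow_le_pow_right (by omega) ?_)
    have := mem_range.1 hi
    omega
  have h4 : (f.coeff f.natDegree * (t : ℤ) ^ f.natDegree).natAbs ≤
      (f.eval (t : ℤ)).natAbs + E.natAbs := by
    have : f.coeff f.natDegree * (t : ℤ) ^ f.natDegree = f.eval (t : ℤ) - E := by
      rw [h2]; ring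
    rw [this]
    exact Int.natAbs_sub_le _ _
  have h5 : t * t ^ d ≤ (f.coeff f.natDegree * (t : ℤ) ^ f.natDegree).natAbs := by
    rw [Int.natAbs_mul, Int.natAbs_pow, Int.natAbs_natCast, hd', pow_succ]
    have h6 : t ^ d * t ≤ (f.coeff (d + 1)).natAbs * (t ^ d * t) := by
      rw [hd'] at hlc
      exact Nat.le_mul_of_pos_left _ hlc
    linarith
  have h6 : t * t ^ d ≤ (f.eval (t : ℤ)).natAbs + S' * t ^ d := by omega
  have h7 : 1 ≤ t ^ d := Nat.one_le_pow _ _ (by omega)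
  have h8 : (t - S') * t ^ d ≤ (f.eval (t : ℤ)).natAbs := by
    rw [Nat.sub_mul]
    omega
  have h9 : t - S' ≤ (t - S') * t ^ d := Nat.le_mul_of_pos_right _ h7
  omega

end bounds

variable {ι : Type} [Fintype ι] [DecidableEq ι] {J : Type} [Fintype J] [DecidableEq J]

/-- the values -/
def vf (f : J → ℤ[X]) (t : ℤ) (j : J) : ℤ := (f j).eval t

/-- the product of the `2 ^ rank` -/
noncomputable def RRp (cls : ι → J → Option (Fin 4)) (a : ι → Fin 3 → ℤ) (f : J → ℤ[X]) (t : ℤ) :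
    ℝ :=
  ∏ i, (2 : ℝ) ^ Module.finrank ℤ
    (EAB (FV (cls i) (a i) (vf f t) 0) (FV (cls i) (a i) (vf f t) 1)).toAffine.Point

lemma RRp_nonneg (cls : ι → J → Option (Fin 4)) (a : ι → Fin 3 → ℤ) (f : J → ℤ[X]) (t : ℤ) :
    0 ≤ RRp cls a f t := prod_nonneg fun i _ => by positivity

/-- the constants as polynomials -/
noncomputable def kapP (c : J → Option (Fin 4)) (a : Fin 3 → ℤ) (f : J → ℤ[X]) (j : J) (k : Fin 3) :
    ℤ[X] :=
  match c j with
  | none => 1
  | some e => if e = 3 then C (a k) * ∏ l ∈ (fsJ c k).erase j, f l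
      else C (sg4 e) * (C (a (cp4 e)) * ∏ l ∈ fsJ c (cp4 e), f l)

lemma eval_kapP (c : J → Option (Fin 4)) (a : Fin 3 → ℤ) (f : J → ℤ[X]) (j : J) (k : Fin 3)
    (t : ℤ) : (kapP c a f j k).eval t = kapV c a (vf f t) j k := by
  unfold kapP kapV
  rcases c j with _ | e
  · simp
  · show (if e = 3 then C (a k) * ∏ l ∈ (fsJ c k).erase j, f l
      else C (sg4 e) * (C (a (cp4 e)) * ∏ l ∈ fsJ c (cp4 e), f l) : ℤ[X]).eval t =
      if e = 3 then a k * ∏ l ∈ (fsJ c k).erase j, vf f t l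
      else sg4 e * (a (cp4 e) * ∏ l ∈ fsJ c (cp4 e), vf f t l)
    split_ifs
    · rw [eval_mul, eval_C, eval_prod]
      rfl
    · rw [eval_mul, eval_mul, eval_C, eval_C, eval_prod]
      rfl

lemma ndvd_C {f : ℤ[X]} (hd : 0 < f.natDegree) {r : ℤ} (hr : r ≠ 0) : ¬ f ∣ C r := by
  intro h
  have := natDegree_le_of_dvd h (C_ne_zero.2 hr)
  rw [natDegree_C] at this
  omega

lemma ndvd_prod {f : J → ℤ[X]} (hf : ∀ j, Irreducible (f j)) (hnd : ∀ j l, j ≠ l → ¬ f j ∣ f l)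
    {j : J} {S : Finset J} (hS : j ∉ S) : ¬ f j ∣ ∏ l ∈ S, f l := by
  intro h
  obtain ⟨l, hl, hl2⟩ := ((hf j).prime.dvd_finsetProd_iff _).1 h
  exact hnd j l (fun h => hS (h ▸ hl)) hl2

lemma kapP_nd {c : J → Option (Fin 4)} {a : Fin 3 → ℤ} {f : J → ℤ[X]}
    (hf : ∀ j, Irreducible (f j)) (hd : ∀ j, 0 < (f j).natDegree)
    (hnd : ∀ j l, j ≠ l → ¬ f j ∣ f l) (ha : ∀ k, a k ≠ 0) (j : J) (k : Fin 3) :
    ¬ f j ∣ kapP c a f j k := by
  have key : ∀ e, c j = some e → e ≠ 3 → j ∉ fsJ c (cp4 e) := by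
    intro e he h3 hj
    unfold fsJ at hj
    rw [mem_filter, he] at hj
    rcases hj.2 with h | h
    · exact cp4_ne e h3 (Option.some.inj h).symm
    · exact h3 (Option.some.inj h)
  unfold kapP
  rcases hc : c j with _ | e
  · exact ndvd_one (hf j)
  · show ¬ f j ∣ (if e = 3 then C (a k) * ∏ l ∈ (fsJ c k).erase j, f l
      else C (sg4 e) * (C (a (cp4 e)) * ∏ l ∈ fsJ c (cp4 e), f l) : ℤ[X])
    split_ifs with h3
    · exact ndvd_mul (hf j) (ndvd_C (hd j) (ha k)) (ndvd_prod hf hnd (notMem_erase _ _))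
    · exact ndvd_mul (hf j) (ndvd_C (hd j) (sg4_ne e)) (ndvd_mul (hf j) (ndvd_C (hd j) (ha _))
        (ndvd_prod hf hnd (key e hc h3)))

lemma NBr_nonneg (cls : ι → J → Option (Fin 4)) (κ : ι → J → Fin 3 → ℤ[X]) (f : J → ℤ[X])
    (s : J → ℕ) : 0 ≤ NBr cls κ f s := sum_nonneg fun _ _ => NBj_nonneg _ _ _

lemma S1_ext1 {P : Finset J} {x : J → ℤ} {z y : ℕ}
    (h : ∀ j ∈ P, ∀ p ∈ PS z y, ¬ (p : ℤ) ∣ x j) :
    S1 z y x = ext1 P (S1 z y (fun j : Jp P => x j.1)) := by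
  funext j
  by_cases hj : j ∈ P
  · rw [ext1_mem P _ hj]
    unfold S1
    rw [filter_false_of_mem, prod_empty]
    intro p hp h2
    exact h j hj p hp h2.1
  · have := ext1_val P (S1 z y (fun j : Jp P => x j.1)) ⟨j, hj⟩
    rw [this]
    rfl

lemma S2_ext1 {P : Finset J} {x : J → ℤ} {z y : ℕ}
    (h : ∀ j ∈ P, ∀ p ∈ PS z y, ¬ (p : ℤ) ∣ x j) :
    S2 z y x = ext1 P (S2 z y (fun j : Jp P => x j.1)) := by
  funext j
  by_cases hj : j ∈ P
  · rw [ext1_mem P _ hj]
    unfold S2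
    rw [filter_false_of_mem, prod_empty]
    intro p hp h2
    exact h j hj p hp (dvd_trans ⟨(p : ℤ), by ring⟩ h2)
  · have := ext1_val P (S2 z y (fun j : Jp P => x j.1)) ⟨j, hj⟩
    rw [this]
    rfl

lemma Rs_ext1 (P : Finset J) (f : J → ℤ[X]) (s : Jp P → ℕ) :
    Rs f (ext1 P s) = Rs (fun j : Jp P => f j.1) s := by
  unfold Rs
  have h1 : ∏ j, ext1 P s j = ∏ j, s j := prod_ext1 P (fun _ n => n) (fun _ => rfl) s
  rw [h1]
  refine filter_congr fun r _ => ?_
  constructor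
  · intro h j
    have := h j.1
    rwa [ext1_val] at this
  · intro h j
    by_cases hj : j ∈ P
    · rw [ext1_mem P s hj]
      simp
    · have h2 := ext1_val P s ⟨j, hj⟩
      rw [h2]
      exact h ⟨j, hj⟩

lemma NBr_ext1 (P : Finset J) (cls : ι → J → Option (Fin 4)) (κ : ι → J → Fin 3 → ℤ[X])
    (f : J → ℤ[X]) (s : Jp P → ℕ) :
    NBr cls κ f (ext1 P s) = NBr (fun i (j : Jp P) => cls i j.1) (fun i (j : Jp P) => κ i j.1)
      (fun j : Jp P => f j.1) s := by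
  unfold NBr
  rw [Rs_ext1]
  refine sum_congr rfl fun r _ => ?_
  exact NBj_ext1 P cls (κev κ r) s

lemma negP_iff (cls : ι → J → Option (Fin 4)) (f : J → ℤ[X]) {t : ℤ} {z y : ℕ} {s : J → ℕ}
    (hmem : s ∈ Tup J z y) {i : ι} {j : J} {p : ℕ} (hc : cls i j = some 3) (hp : p.Prime)
    (hj : p ∣ s j) :
    p ∈ negP (tw cls) f (fun _ => 1) t s ↔ jacobiSym (vf f t j / p) p = -1 := by
  classical
  have h3 : tw cls j = 3 := if_pos ⟨i, hc⟩
  unfold negP P3
  rw [mem_filter, Nat.mem_primeFactors]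
  constructor
  · rintro ⟨_, l, hl3, hl, hl2⟩
    have : l = j := by
      by_contra hne
      have h4 := (mem_Tup'.1 hmem).2 l j hne
      exact hp.one_lt.ne' (Nat.dvd_one.1 (h4 ▸ Nat.dvd_gcd hl hj))
    rw [this, eval_one, one_mul] at hl2
    exact hl2
  · intro h5
    refine ⟨⟨hp, dvd_trans hj (dvd_prod_of_mem _ (mem_filter.2 ⟨mem_univ _, h3⟩)), ?_⟩,
      j, h3, hj, ?_⟩
    · exact prod_ne_zero_iff.2 fun l _ => (Tup_pos hmem l).ne'
    · rw [eval_one, one_mul]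
      exact h5

lemma negP_sub (T : J → Fin 4) (f h : J → ℤ[X]) (t : ℤ) (s : J → ℕ) :
    negP T f h t s ∈ (P3 T s).powerset := by
  classical
  unfold negP
  rw [mem_powerset]
  exact filter_subset _ _

/-- a large prime value has no small prime factor -/
lemma no_small_p {f : ℤ[X]} (hd : 0 < f.natDegree) {z y X t : ℕ} (hS : cS f ≤ y) (hy : 3 ≤ y)
    (hyX : y ^ 4 ≤ X) (ht : Nat.sqrt X < t) (hp : (f.eval (t : ℤ)).natAbs.Prime) :
    ∀ p ∈ PS z y, ¬ (p : ℤ) ∣ f.eval (t : ℤ) := by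
  intro p hpS hdv
  have hpS := mem_PS.1 hpS
  have h1 : p ∣ (f.eval (t : ℤ)).natAbs := Int.natCast_dvd.1 hdv
  have h2 : p = (f.eval (t : ℤ)).natAbs := (Nat.prime_dvd_prime_iff_eq hpS.2 hp).1 h1
  have h3 : y ^ 2 ≤ Nat.sqrt X := Nat.le_sqrt.2 (by nlinarith)
  have h4 := le_eval f hd t
  have h7 : p ≤ y := hpS.1.2
  nlinarith

/-- the weights of the squares -/
lemma gr_le {f : ℤ[X]} {c z y : ℕ} (hcz : 2 * c + 2 ≤ z)
    (hr : ∀ p : ℕ, p.Prime → z < p → rho f p ≤ c) {v : ℕ} (hv : v ∣ PP z y) :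
    0 ≤ gr f c v ∧ gr f c v ≤ (c : ℝ) ^ v.primeFactors.card * gw 1 c v := by
  have hv' : v ∈ (PP z y).divisors := Nat.mem_divisors.2 ⟨hv, PP_ne_zero z y⟩
  have hp : ∀ p ∈ v.primeFactors, p.Prime ∧ z < p := fun p hp => by
    have hpp := Nat.prime_of_mem_primeFactors hp
    exact ⟨hpp, (dv_prime hv' hpp (Nat.dvd_of_mem_primeFactors hp)).1⟩
  have hpos : ∀ p ∈ v.primeFactors, (0 : ℝ) < (p : ℝ) - c := fun p hpm => by
    have : (c : ℝ) < p := by exact_mod_cast (by have := (hp p hpm).2; omega)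
    linarith
  unfold gr gw
  constructor
  · exact prod_nonneg fun p hpm => div_nonneg (Nat.cast_nonneg _) (hpos p hpm).le
  · rw [← prod_const, ← prod_mul_distrib]
    refine prod_le_prod (fun p hpm => div_nonneg (Nat.cast_nonneg _) (hpos p hpm).le)
      fun p hpm => ?_
    rw [mul_one_div]
    refine div_le_div_of_nonneg_right ?_ (hpos p hpm).le
    exact_mod_cast hr p (hp p hpm).1 (hp p hpm).2

/-- the weights of the medium primes -/
lemma ru_le {f : ℤ[X]} {c z y Y : ℕ} (hzy : z ≤ y)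
    (hr : ∀ p : ℕ, p.Prime → z < p → rho f p ≤ c) {u : ℕ} (hu : u ∣ PP y Y) :
    0 ≤ ru f u ∧ ru f u ≤ (c : ℝ) ^ u.primeFactors.card * (1 / (u : ℝ)) := by
  have hu' : u ∈ (PP y Y).divisors := Nat.mem_divisors.2 ⟨hu, PP_ne_zero y Y⟩
  have hsq : Squarefree u := dv_squarefree hu'
  have hp : ∀ p ∈ u.primeFactors, p.Prime ∧ z < p := fun p hp => by
    have hpp := Nat.prime_of_mem_primeFactors hp
    have := (dv_prime hu' hpp (Nat.dvd_of_mem_primeFactors hp)).1
    exact ⟨hpp, by omega⟩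
  have h1 : (1 / (u : ℝ)) = ∏ p ∈ u.primeFactors, (1 / (p : ℝ)) := by
    conv_lhs => rw [← Nat.prod_primeFactors_of_squarefree hsq]
    push_cast
    rw [prod_div_distrib, prod_const_one]
  unfold ru
  constructor
  · exact prod_nonneg fun p hpm => by positivity
  · rw [h1, ← prod_const, ← prod_mul_distrib]
    refine prod_le_prod (fun p hpm => by positivity) fun p hpm => ?_
    rw [mul_one_div]
    refine div_le_div_of_nonneg_right ?_ (Nat.cast_nonneg _)
    exact_mod_cast hr p (hp p hpm).1 (hp p hpm).2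

/-- the number of the medium primes -/
lemma card_u {y Y X k : ℕ} {u : J → ℕ} (hu : u ∈ Tup J y Y) (hX : ∏ j, u j ≤ X)
    (hk : X < (y + 1) ^ k) : ∑ j, (u j).primeFactors.card ≤ k := by
  have h1 : ∀ j, (y + 1) ^ (u j).primeFactors.card ≤ u j := by
    intro j
    have hj := (mem_Tup'.1 hu).1 j
    have hj' : u j ∈ (PP y Y).divisors := Nat.mem_divisors.2 ⟨hj, PP_ne_zero y Y⟩
    conv_rhs => rw [← Nat.prod_primeFactors_of_squarefree (dv_squarefree hj')]
    refine Finset.pow_card_le_prod _ _ _ (fun p hp => ?_)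
    exact (dv_prime hj' (Nat.prime_of_mem_primeFactors hp) (Nat.dvd_of_mem_primeFactors hp)).1
  have h2 : (y + 1) ^ (∑ j, (u j).primeFactors.card) ≤ ∏ j, u j := by
    rw [← prod_pow_eq_pow_sum]
    exact prod_le_prod' fun j _ => h1 j
  have h3 : (y + 1) ^ (∑ j, (u j).primeFactors.card) < (y + 1) ^ k := by omega
  rcases Nat.eq_zero_or_pos y with hy | hy
  · subst hy
    simp only [zero_add, one_pow] at h3
    omega
  · exact ((Nat.pow_lt_pow_iff_right (by omega)).1 h3).le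

end Pool.Agent.L7h19.RP
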