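import Mathlib
import Pool.Agent.L7h19.RP.Pol
import Pool.Agent.L7h19.RJ.Ant

/-!
# Project RP: the main theorem for the positive values of the parameter
-/

set_option autoImplicit false

namespace Pool.Agent.L7h19.RP

open Finset Polynomial Pool.Agent.W262.RK Pool.Agent.W307.RT Pool.Agent.L7h19.RJ
open Pool.Agent.H474R2.PG (rho)

variable {ι : Type} [Fintype ι] [DecidableEq ι] {J : Type} [Fintype J] [DecidableEq J]

theorem mainr (hEp : StEp) (hBW : StBW) (hSub : StSub) (hMod : StMod) (hRank : StRank)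
    (hCnt : StCnt) (cls : ι → J → Option (Fin 4)) (n : ι → ℕ) (P : Finset J)
    (h1 : ∀ i, ∀ j ∉ P, cls i j ≠ none → cls i j ≠ some 3 → ∀ i', i' ≠ i → cls i' j = none)
    (h2 : ∀ j ∉ P, ∃ i, cls i j ≠ none)
    (h3 : ∀ i (c : Fin 4), c ≠ 3 →
      (univ.filter (fun j => j ∉ P ∧ cls i j = some c)).card = n i)
    (a : ι → Fin 3 → ℤ) (f : J → ℤ[X]) (ha : ∀ i k, a i k ≠ 0) (hf : ∀ j, Irreducible (f j))
    (hd : ∀ j, 0 < (f j).natDegree) (hnd : ∀ j l, j ≠ l → ¬ f j ∣ f l)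
    (hF : ∀ i (t : ℤ), FV (cls i) (a i) (vf f t) 0 - FV (cls i) (a i) (vf f t) 1 =
      FV (cls i) (a i) (vf f t) 2) :
    ∃ (X0 : ℕ) (B : ℝ), 0 ≤ B ∧ ∀ X : ℕ, X0 ≤ X →
      (Real.log X) ^ P.card * ∑ t ∈ (Icc 1 X).filter (fun t : ℕ => Nat.sqrt X < t ∧
        (∀ j, vf f t j ≠ 0) ∧ ∀ j ∈ P, (vf f t j).natAbs.Prime), RRp cls a f t ≤ B * X := by
  classical
  set κ : ι → J → Fin 3 → ℤ[X] := fun i j => kapP (cls i) (a i) f j with hκdef
  have hκ0 : ∀ i j k, ¬ f j ∣ κ i j k := fun i j k => kapP_nd hf hd hnd (ha i) j k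
  set cls' : ι → Jp P → Option (Fin 4) := fun i j => cls i j.1 with hcls'
  set κ' : ι → Jp P → Fin 3 → ℤ[X] := fun i j => κ i j.1 with hκ'
  set f' : Jp P → ℤ[X] := fun j => f j.1 with hf'
  set N := Fintype.card J with hN
  set N' := Fintype.card (Jp P) with hN'
  set M := Fintype.card ι with hM
  set c : ℕ := 1 + ∑ j, (f j).natDegree with hc
  have hNN : N' + P.card = N := card_Jp P
  obtain ⟨z0, hz0⟩ := majr hEp hBW cls' n (fun i j => h1 i j.1 j.2) (fun j => h2 j.1 j.2)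
    (fun i e he => by
    rw [← h3 i e he]
    refine card_bij (fun j _ => j.1) (fun j hj => ?_) (fun j _ j' _ h => Subtype.ext h)
      (fun j hj => ?_)
    · rw [mem_filter] at hj ⊢
      exact ⟨mem_univ _, j.2, hj.2⟩
    · rw [mem_filter] at hj
      exact ⟨⟨j, hj.2.1⟩, mem_filter.2 ⟨mem_univ _, hj.2.2⟩, rfl⟩) κ' f'
    (fun j => hf j.1) (fun j => hd j.1) (fun i j k => hκ0 i j.1 k) c
  choose Bκ hBκ using fun (i : ι) (j : J) (k : Fin 3) => large_nd (hf j) (hd j) (hκ0 i j k)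
  choose Br hBr using fun j : J => Pool.Agent.H474R2.PG.rho_le (f j) (hf j).ne_zero
  choose Bd hBd using fun j : J => large_nd (hf j) (hd j) (nd_derivative (hd j))
  have hco : ∀ j l, ∃ B : ℕ, j ≠ l → ∀ p : ℕ, B < p → ∀ t : ℤ, (p : ℤ) ∣ (f j).eval t →
      ¬ (p : ℤ) ∣ (f l).eval t := by
    intro j l
    by_cases h : j = l
    · exact ⟨0, fun h' => absurd h h'⟩
    · obtain ⟨B, hB⟩ := large_nd (hf j) (hd j) (hnd j l h)
      exact ⟨B, fun _ => hB⟩
  choose Bc hBc using hco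
  set z : ℕ := z0 + (2 * c + 2) + ∑ i, ∑ k, (a i k).natAbs + ∑ j, Br j + ∑ j, Bd j +
    ∑ j, ∑ l, Bc j l + ∑ i, ∑ j, ∑ k, Bκ i j k with hz
  have hz2 : 2 ≤ z := by omega
  have hcz : 2 * c + 2 ≤ z := by omega
  have hdc : ∀ j, (f j).natDegree + 1 ≤ c := fun j => by
    have := le_sum_nat (fun j => (f j).natDegree) j
    have h' : (f j).natDegree ≤ ∑ j, (f j).natDegree := this
    omega
  have hc1 : 1 ≤ c := by omega
  have hrho : ∀ p : ℕ, p.Prime → z < p → ∀ j, rho (f j) p ≤ c := fun p hp hzp j => by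
    have e1 := le_sum_nat Br j
    have e2 := hBr j p hp (by omega)
    have e3 := hdc j
    omega
  have hap : ∀ i, ∀ p : ℕ, p.Prime → z < p → ∀ k, ¬ (p : ℤ) ∣ a i k := fun i p hp hzp k h => by
    have e1 := Nat.le_of_dvd (Int.natAbs_pos.2 (ha i k)) (Int.natCast_dvd.1 h)
    have e2 : (a i k).natAbs ≤ ∑ k, (a i k).natAbs := le_sum_nat (fun k => (a i k).natAbs) k
    have e3 : ∑ k, (a i k).natAbs ≤ ∑ i, ∑ k, (a i k).natAbs :=
      le_sum_nat (fun i => ∑ k, (a i k).natAbs) i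
    omega
  have hBB : BgP f (fun _ => 1) c z := by
    refine ⟨hcz, hf, hd, fun p hp hzp => ?_, fun p hp hzp j t hj => ?_,
      fun p hp hzp j l hjl t hj => ?_, fun p hp hzp j t hj h => ?_⟩
    · have e1 : ∑ j, rho (f j) p ≤ ∑ j, (f j).natDegree := sum_le_sum fun j _ => by
        have e1 := le_sum_nat Br j
        exact hBr j p hp (by omega)
      omega
    · have e1 := le_sum_nat Bd j
      exact hBd j p (by omega) t hj
    · have e2 : Bc j l ≤ ∑ l, Bc j l := le_sum_nat (fun l => Bc j l) l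
      have e3 : ∑ l, Bc j l ≤ ∑ j, ∑ l, Bc j l := le_sum_nat (fun j => ∑ l, Bc j l) j
      exact hBc j l hjl p (by omega) t hj
    · rw [eval_one] at h
      exact hp.one_lt.ne' (Nat.dvd_one.1 (by exact_mod_cast h))
  have hκz : ∀ p : ℕ, p.Prime → z < p → ∀ j (t : ℤ), (p : ℤ) ∣ (f j).eval t →
      ∀ i k, ¬ (p : ℤ) ∣ (κ i j k).eval t := by
    intro p hp hzp j t hj i k
    have e1 : Bκ i j k ≤ ∑ k, Bκ i j k := le_sum_nat (fun k => Bκ i j k) k
    have e2 : ∑ k, Bκ i j k ≤ ∑ j, ∑ k, Bκ i j k := le_sum_nat (fun j => ∑ k, Bκ i j k) j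
    have e3 : ∑ j, ∑ k, Bκ i j k ≤ ∑ i, ∑ j, ∑ k, Bκ i j k :=
      le_sum_nat (fun i => ∑ j, ∑ k, Bκ i j k) i
    exact hBκ i j k p (by omega) t hj
  have hGdJ : ∀ t : ℤ, (∀ j, vf f t j ≠ 0) → Gd z (vf f t) := fun t ht =>
    ⟨ht, fun p hp hzp j l hjl h => hBB.cop p hp hzp j l hjl t h.1 h.2⟩
  obtain ⟨C', hC'⟩ := hz0 z (by omega)
  obtain ⟨C, K, y0, hC0, hK1, hcn⟩ := hCnt J (tw cls) f (fun _ => 1) c z hBB
  set y1 : ℕ := y0 + ∑ j, cS (f j) + 3 with hy1
  set b : ℝ := 4 ^ M * c with hb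
  have hcr : (1 : ℝ) ≤ c := by exact_mod_cast hc1
  have hb1 : 1 ≤ b := one_le_mul_of_one_le_of_one_le (one_le_pow₀ (by norm_num)) hcr
  set D : ℝ := (4 ^ (c * N)) ^ M * 2 ^ P.card * c with hD
  have hD1 : 1 ≤ D := one_le_mul_of_one_le_of_one_le (one_le_mul_of_one_le_of_one_le
    (one_le_pow₀ (one_le_pow₀ (by norm_num))) (one_le_pow₀ (by norm_num))) hcr
  obtain ⟨X0, B, hB0, hmain⟩ := ant_u Pool.Agent.W591.RK2.ru Pool.Agent.W358.RK2.gr hb1 (Jp P) z
    (NBr cls' κ' f') (C * (4 ^ (z + 2)) ^ M * 2 ^ P.card) C' D (K + 4) y1 c hcz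
    (fun s => NBr_nonneg _ _ _ s) (by positivity) hD1
    (fun y hy s e hse => hSub ι (Jp P) cls' κ' f' z c hz2 (fun p hp hzp j => hrho p hp hzp j.1)
      (fun p hp hzp j t ht i k => hκz p hp hzp j.1 t ht i k) y hy s e hse) hC'
  refine ⟨X0 + 1, B, hB0, fun X hX0 => ?_⟩
  have hX : 1 ≤ X := by omega
  have hXr : (1 : ℝ) ≤ X := by exact_mod_cast hX
  have hlogX : 0 ≤ Real.log X := Real.log_nonneg hXr
  set TX : Finset ℕ := (Icc 1 X).filter (fun t : ℕ => Nat.sqrt X < t ∧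
        (∀ j, vf f t j ≠ 0) ∧ ∀ j ∈ P, (vf f t j).natAbs.Prime) with hTX
  have hmem : ∀ t ∈ TX, (1 ≤ t ∧ t ≤ X) ∧ Nat.sqrt X < t ∧
        (∀ j, vf f t j ≠ 0) ∧ ∀ j ∈ P, (vf f t j).natAbs.Prime := fun t ht => by
    rw [hTX, mem_filter, mem_Icc] at ht
    exact ht
  have hres := hmain ℕ X TX (X : ℝ) (fun t : ℕ => vf f' (t : ℤ))
    (fun t : ℕ => (Real.log X) ^ P.card * RRp cls a f t) (by omega) (by positivity)
    (fun t ht => ⟨fun j => (hmem t ht).2.2.1 j.1, fun p hp hzp j l hjl h =>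
      hBB.cop p hp hzp j.1 l.1 (fun h => hjl (Subtype.ext h)) t h.1 h.2⟩)
    (fun t => mul_nonneg (pow_nonneg hlogX _) (RRp_nonneg _ _ _ _)) ?_
  · rw [← mul_sum] at hres
    exact hres
  -- the bound for the classes
  intro y Y k hy0 hzy hyK hk s hs v hv u hu h8 T' hT'X hT'
  have hy00 : y0 ≤ y := by omega
  have hy3 : 3 ≤ y := by omega
  have hyK' : y ^ K ≤ X := le_trans (Nat.pow_le_pow_right (by omega) (by omega)) hyK
  have hy4 : y ^ 4 ≤ X := le_trans (Nat.pow_le_pow_right (by omega) (by omega)) hyK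
  have hyX : y ≤ X := le_trans (Nat.le_self_pow (by omega) y) hyK
  have hcSy : ∀ j, cS (f j) ≤ y := fun j => by
    have e1 : cS (f j) ≤ ∑ j, cS (f j) := le_sum_nat (fun j => cS (f j)) j
    omega
  set sx := ext1 P s with hsx
  set vx := ext1 P v with hvx
  set ux := ext1 P u with hux
  have hsxm : sx ∈ Tup J z y := ext1_Tup hs
  have hvxm : vx ∈ Tup J z y := ext1_Tup hv
  have huxm : ux ∈ Tup J y Y := ext1_Tup hu
  have hyr : (3 : ℝ) ≤ y := by exact_mod_cast hy3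
  have hlogy : 0 < Real.log y := Real.log_pos (by linarith)
  have hfacts : ∀ t ∈ T', (1 ≤ t ∧ t ≤ X) ∧ (∀ j, vf f t j ≠ 0) ∧ S1 z y (vf f t) = sx ∧
      S2 z y (vf f t) = vx ∧ ∀ j, (ux j : ℤ) ∣ vf f t j := by
    intro t ht
    obtain ⟨ht1, ht2, ht3, ht4⟩ := hmem t (hT'X ht)
    obtain ⟨hts, htv, htu⟩ := hT' t ht
    have hno : ∀ j ∈ P, ∀ p ∈ PS z y, ¬ (p : ℤ) ∣ vf f t j := fun j hj =>
      no_small_p (hd j) (hcSy j) hy3 hy4 ht2 (ht4 j hj)
    refine ⟨ht1, ht3, ?_, ?_, fun j => ?_⟩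
    · rw [S1_ext1 hno]
      exact congrArg (ext1 P) hts
    · rw [S2_ext1 hno]
      exact congrArg (ext1 P) htv
    · by_cases hj : j ∈ P
      · rw [hux, ext1_mem P u hj]
        simp
      · have h4 := ext1_val P u ⟨j, hj⟩
        have h5 : ux j = u ⟨j, hj⟩ := h4
        rw [h5]
        exact htu ⟨j, hj⟩
  set m : ℕ := ∏ j, sx j with hm
  have hm0 : m ≠ 0 := prod_ne_zero_iff.2 fun j _ => (Tup_pos hsxm j).ne'
  have hsm : ∀ j, sx j ∣ m := fun j => dvd_prod_of_mem _ (mem_univ j)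
  set g : ℕ → Finset ℕ → ℝ := fun r E =>
    ∏ i, (NL m (LLso (cls i) (κev κ (r : ℤ) i) sx E) : ℝ) with hg
  have hg0 : ∀ r E, 0 ≤ g r E := fun r E => prod_nonneg fun i _ => Nat.cast_nonneg _
  set W : ℝ := (4 ^ (z + 2)) ^ M * ((4 ^ (c * N)) ^ M) ^ k *
    (4 ^ M) ^ (∑ j, (v j).primeFactors.card) with hW
  have hW0 : 0 ≤ W := by positivity
  have hvsum : ∑ j, (vx j).primeFactors.card = ∑ j, (v j).primeFactors.card := by
    have h4 := prod_ext1 (M := Multiplicative ℕ) P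
      (fun _ m => Multiplicative.ofAdd m.primeFactors.card) (fun _ => by simp) v
    have h5 : Multiplicative.ofAdd (∑ j, (vx j).primeFactors.card) =
        Multiplicative.ofAdd (∑ j, (v j).primeFactors.card) := by
      rw [ofAdd_sum, ofAdd_sum]
      exact h4
    exact Multiplicative.ofAdd.injective h5
  set E : ℕ → Finset ℕ := fun t => negP (tw cls) f (fun _ => 1) (t : ℤ) sx with hE
  have hb1' : ∀ t ∈ T', RRp cls a f t ≤ W * g (t % m) (E t) := by
    intro t ht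
    obtain ⟨htX, ht0, hts, htv, _⟩ := hfacts t ht
    have hr : ∀ i, (2 : ℝ) ^ Module.finrank ℤ
        (EAB (FV (cls i) (a i) (vf f t) 0) (FV (cls i) (a i) (vf f t) 1)).toAffine.Point ≤
        (4 ^ (z + 2) * (4 ^ (c * N)) ^ k * 4 ^ (∑ j, (v j).primeFactors.card)) *
          (NL m (LLso (cls i) (κev κ ((t % m : ℕ) : ℤ) i) sx (E t)) : ℝ) := by
      intro i
      have hr := hRank J (cls i) (a i) (vf f t) z y X k c hz2 (hGdJ t ht0) (ha i) (hap i)
        (hF i t) (fun j => by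
          have e1 := eval_le (f j) (t := (t : ℤ)) (X := X) (by simpa using htX.2)
            (by have := hcSy j; omega) hX
          exact e1.trans (Nat.pow_le_pow_right hX (hdc j))) hX (by omega) hk (E t)
        (fun j p hc hp hj => by
          rw [hts] at hj
          exact negP_iff cls f hsxm hc hp hj)
      rw [hts, htv, hvsum] at hr
      have hmm : NL m (LLso (cls i) (kapV (cls i) (a i) (vf f t)) sx (E t)) =
          NL m (LLso (cls i) (κev κ ((t % m : ℕ) : ℤ) i) sx (E t)) := by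
        refine (hMod ι J cls (fun i j k => kapV (cls i) (a i) (vf f t) j k)
          (κev κ ((t % m : ℕ) : ℤ)) sx (fun j => (Tup_pos hsxm j).ne') ?_).2 i (E t)
        intro j p hp hpj i k
        have e1 : kapV (cls i) (a i) (vf f t) j k = (κ i j k).eval (t : ℤ) :=
          (eval_kapP _ _ _ _ _ _).symm
        show kapV (cls i) (a i) (vf f t) j k ≡ (κ i j k).eval ((t % m : ℕ) : ℤ) [ZMOD p]
        rw [e1]
        refine (eval_mod _ ?_).symm
        exact (mod_self t m).of_dvd (by exact_mod_cast hpj.trans (hsm j))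
      rw [hmm] at hr
      exact_mod_cast hr
    have h5 : RRp cls a f t ≤ ∏ i : ι,
        ((4 ^ (z + 2) * (4 ^ (c * N)) ^ k * 4 ^ (∑ j, (v j).primeFactors.card)) *
          (NL m (LLso (cls i) (κev κ ((t % m : ℕ) : ℤ) i) sx (E t)) : ℝ)) :=
      prod_le_prod (fun i _ => by positivity) (fun i _ => hr i)
    refine h5.trans (le_of_eq ?_)
    rw [prod_mul_distrib, prod_const, card_univ, hW, hg]
    dsimp only
    congr 1
    rw [mul_pow, mul_pow, ← pow_mul (4 : ℝ) (∑ j, (v j).primeFactors.card),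
      ← pow_mul (4 : ℝ) M, mul_comm M, pow_right_comm (4 ^ (c * N) : ℝ)]
  set φ : ℕ → ℕ × Finset ℕ := fun t => (t % m, E t) with hφ
  set A : Finset (ℕ × Finset ℕ) := Rs f sx ×ˢ (P3 (tw cls) sx).powerset with hA
  have hmaps : ∀ t ∈ T', φ t ∈ A := by
    intro t ht
    obtain ⟨htX, ht0, hts, htv, _⟩ := hfacts t ht
    rw [hA, mem_product]
    refine ⟨?_, negP_sub _ _ _ _ _⟩
    unfold Rs
    rw [mem_filter, mem_range]
    refine ⟨Nat.mod_lt _ (Nat.pos_of_ne_zero hm0), fun j => ?_⟩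
    have e1 : (sx j : ℤ) ∣ vf f t j := by
      have hPP := (mem_Tup'.1 (Pool.Agent.W45.RT.S1_mem (hGdJ t ht0) : S1 z y (vf f t) ∈ Tup J z y)).1 j
      rw [← hts]
      have hsq : Squarefree (S1 z y (vf f t) j) :=
        dv_squarefree (Nat.mem_divisors.2 ⟨hPP, PP_ne_zero z y⟩)
      unfold S1
      push_cast
      refine Finset.prod_dvd_of_coprime ?_ ?_
      · intro p hp q hq hpq
        have hp' := (mem_PS.1 (mem_filter.1 hp).1).2
        have hq' := (mem_PS.1 (mem_filter.1 hq).1).2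
        exact Nat.isCoprime_iff_coprime.2 ((Nat.coprime_primes hp' hq').2 hpq)
      · intro p hp
        exact (mem_filter.1 hp).2.1
    have e2 : (f j).eval ((t % m : ℕ) : ℤ) ≡ (f j).eval (t : ℤ) [ZMOD (sx j)] :=
      eval_mod _ ((mod_self t m).of_dvd (by exact_mod_cast hsm j))
    exact (e2.dvd_iff).2 e1
  have h2' : ∑ t ∈ T', g (t % m) (E t) =
      ∑ q ∈ A, ((T'.filter (fun t : ℕ => φ t = q)).card : ℝ) * g q.1 q.2 := by
    rw [← sum_fiberwise_of_maps_to hmaps]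
    refine sum_congr rfl fun q _ => ?_
    rw [← nsmul_eq_mul, ← sum_const]
    refine sum_congr rfl fun t ht => ?_
    rw [← (mem_filter.1 ht).2]
  set Q : ℝ := C * X * (1 / 2) ^ (P3 (tw cls) sx).card * (∏ j, gw 1 c (sx j)) *
        (∏ j, gr (f j) c (vx j) / vx j) * (∏ j, ru (f j) (ux j)) / (Real.log y) ^ N with hQ
  have hpu : ∏ j, ux j = ∏ j, u j := prod_ext1 P (fun _ n => n) (fun _ => rfl) u
  have hps : ∏ j, sx j = ∏ j, s j := prod_ext1 P (fun _ n => n) (fun _ => rfl) s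
  have hpv : ∏ j, vx j = ∏ j, v j := prod_ext1 P (fun _ n => n) (fun _ => rfl) v
  have h8x : (∏ j, sx j * vx j * ux j) ^ 8 ≤ X := by
    rw [prod_mul_distrib, prod_mul_distrib, hps, hpv, hpu, ← prod_mul_distrib,
      ← prod_mul_distrib]
    exact h8
  have h3' : ∀ q ∈ A, ((T'.filter (fun t : ℕ => φ t = q)).card : ℝ) * g q.1 q.2 ≤
      Q * g q.1 q.2 := by
    intro q hq
    rw [hA, mem_product] at hq
    refine mul_le_mul_of_nonneg_right ?_ (hg0 _ _)
    have hrs : ∀ j, (sx j : ℤ) ∣ (f j).eval (q.1 : ℤ) := by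
      have := hq.1
      unfold Rs at this
      exact (mem_filter.1 this).2
    refine le_trans ?_ (hcn X y Y hy00 hzy hyK' sx hsxm vx hvxm ux huxm h8x (q.1 : ℤ) q.2 hrs)
    have h4 : T'.filter (fun t : ℕ => φ t = q) ⊆
        (Icc 1 X).filter (fun t : ℕ => (t : ℤ) ≡ (q.1 : ℤ) [ZMOD ((∏ j, sx j : ℕ) : ℤ)] ∧
          S1 z y (fun j => (f j).eval (t : ℤ)) = sx ∧ S2 z y (fun j => (f j).eval (t : ℤ)) = vx ∧
          (∀ j, (ux j : ℤ) ∣ (f j).eval (t : ℤ)) ∧ negP (tw cls) f (fun _ => 1) t sx = q.2) := by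
      intro t ht
      rw [mem_filter] at ht
      have h5 := hfacts t ht.1
      rw [mem_filter, mem_Icc]
      refine ⟨h5.1, ?_, h5.2.2.1, h5.2.2.2.1, h5.2.2.2.2, ?_⟩
      · rw [← ht.2]
        exact (mod_self t m).symm
      · rw [← ht.2]
    exact_mod_cast card_le_card h4
  have hvb : ∏ j, gr (f j) c (vx j) / (vx j : ℝ) ≤
      (c : ℝ) ^ (∑ j, (v j).primeFactors.card) * ∏ j, (gw 1 c (v j) / (v j : ℝ)) := by
    have e1 : ∏ j, gr (f j) c (vx j) / (vx j : ℝ) ≤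
        ∏ j, ((c : ℝ) ^ (vx j).primeFactors.card * (gw 1 c (vx j) / (vx j : ℝ))) := by
      refine prod_le_prod (fun j _ => div_nonneg (gr_le hcz (fun p hp hzp => hrho p hp hzp j)
        ((mem_Tup'.1 hvxm).1 j)).1 (Nat.cast_nonneg _)) fun j _ => ?_
      rw [← mul_div_assoc]
      exact div_le_div_of_nonneg_right (gr_le hcz (fun p hp hzp => hrho p hp hzp j)
        ((mem_Tup'.1 hvxm).1 j)).2 (Nat.cast_nonneg _)
    refine e1.trans (le_of_eq ?_)
    rw [prod_mul_distrib, prod_pow_eq_pow_sum, hvsum]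
    congr 1
    exact prod_ext1 P (fun _ m => gw 1 c m / (m : ℝ)) (fun _ => by rw [gw_one]; norm_num) v
  have hub : ∏ j, ru (f j) (ux j) ≤ (c : ℝ) ^ k * ∏ j, 1 / (u j : ℝ) := by
    have e1 : ∏ j, ru (f j) (ux j) ≤
        ∏ j, ((c : ℝ) ^ (ux j).primeFactors.card * (1 / (ux j : ℝ))) := by
      refine prod_le_prod (fun j _ => (ru_le hzy.le (fun p hp hzp => hrho p hp hzp j)
        ((mem_Tup'.1 huxm).1 j)).1) fun j _ => ?_
      exact (ru_le hzy.le (fun p hp hzp => hrho p hp hzp j) ((mem_Tup'.1 huxm).1 j)).2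
    refine e1.trans ?_
    rw [prod_mul_distrib, prod_pow_eq_pow_sum]
    have e2 : ∏ j, 1 / (ux j : ℝ) = ∏ j, 1 / (u j : ℝ) :=
      prod_ext1 P (fun _ m => 1 / (m : ℝ)) (fun _ => by norm_num) u
    rw [e2]
    refine mul_le_mul_of_nonneg_right ?_ (prod_nonneg fun j _ => by positivity)
    refine pow_le_pow_right₀ hcr (card_u huxm (X := X) ?_ hk)
    have e3 : ∏ j, ux j ≤ ∏ j, sx j * vx j * ux j := by
      refine prod_le_prod' fun j _ => ?_
      have e4 := Tup_pos hsxm j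
      have e5 := Tup_pos hvxm j
      exact Nat.le_mul_of_pos_left _ (Nat.mul_pos e4 e5)
    refine e3.trans (le_trans ?_ h8x)
    exact Nat.le_self_pow (by norm_num) _
  set G : ℝ := ∑ q ∈ A, g q.1 q.2 with hG
  have hG0 : 0 ≤ G := sum_nonneg fun q _ => hg0 _ _
  have hNB : NBr cls' κ' f' s = (1 / 2) ^ (P3 (tw cls) sx).card * G := by
    have e1 := NBr_ext1 P cls κ f s
    rw [show NBr cls' κ' f' s = NBr cls κ f sx from e1.symm]
    unfold NBr NBj
    rw [← mul_sum, hG, hA, sum_product]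
  set Q' : ℝ := C * X * (1 / 2) ^ (P3 (tw cls) sx).card * (∏ j, gw 1 c (s j)) *
        ((c : ℝ) ^ (∑ j, (v j).primeFactors.card) * ∏ j, (gw 1 c (v j) / (v j : ℝ))) *
        ((c : ℝ) ^ k * ∏ j, 1 / (u j : ℝ)) / (Real.log y) ^ N with hQ'
  have e3 : ∏ j, gw 1 c (sx j) = ∏ j, gw 1 c (s j) :=
    prod_ext1 P (fun _ m => gw 1 c m) (fun _ => gw_one 1 c) s
  have hcz' : c ≤ z := by omega
  have hgs : 0 ≤ ∏ j, gw 1 c (s j) := prod_nonneg fun j _ => gw_nn hcz' hs j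
  have hgr0 : 0 ≤ ∏ j, gr (f j) c (vx j) / (vx j : ℝ) :=
    prod_nonneg fun j _ => div_nonneg (gr_le hcz (fun p hp hzp => hrho p hp hzp j)
        ((mem_Tup'.1 hvxm).1 j)).1 (Nat.cast_nonneg _)
  have hru0 : 0 ≤ ∏ j, ru (f j) (ux j) :=
    prod_nonneg fun j _ => (ru_le hzy.le (fun p hp hzp => hrho p hp hzp j)
        ((mem_Tup'.1 huxm).1 j)).1
  have hQQ : Q ≤ Q' := by
    rw [hQ, hQ', e3]
    refine div_le_div_of_nonneg_right ?_ (by positivity)
    refine mul_le_mul (mul_le_mul_of_nonneg_left hvb (by positivity)) hub hru0 ?_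
    refine mul_nonneg (by positivity) (hgr0.trans hvb)
  have hkey : ∑ t ∈ T', RRp cls a f t ≤ W * (Q' * G) := by
    calc ∑ t ∈ T', RRp cls a f t ≤ ∑ t ∈ T', W * g (t % m) (E t) := sum_le_sum hb1'
      _ = W * ∑ q ∈ A, ((T'.filter (fun t : ℕ => φ t = q)).card : ℝ) * g q.1 q.2 := by
          rw [← mul_sum, h2']
      _ ≤ W * ∑ q ∈ A, Q * g q.1 q.2 :=
          mul_le_mul_of_nonneg_left (sum_le_sum h3') hW0
      _ = W * (Q * G) := by rw [← mul_sum]
      _ ≤ _ := mul_le_mul_of_nonneg_left (mul_le_mul_of_nonneg_right hQQ hG0) hW0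
  have hlog : (Real.log X) ^ P.card ≤ 2 ^ P.card * (2 ^ P.card) ^ k * (Real.log y) ^ P.card := by
    have h4 : Real.log X ≤ 2 * 2 ^ k * Real.log y := by
      have h5 : Real.log X ≤ k * Real.log ((y : ℝ) + 1) := by
        rw [← Real.log_pow]
        exact Real.log_le_log (by linarith) (by exact_mod_cast hk.le)
      have h6 : Real.log ((y : ℝ) + 1) ≤ 2 * Real.log y := by
        rw [← Nat.cast_ofNat (R := ℝ), ← Real.log_pow]
        exact Real.log_le_log (by linarith) (by nlinarith)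
      have h7 : (k : ℝ) ≤ 2 ^ k := by exact_mod_cast (Nat.lt_two_pow_self (n := k)).le
      have h8 : (k : ℝ) * Real.log ((y : ℝ) + 1) ≤ 2 ^ k * (2 * Real.log y) :=
        mul_le_mul h7 h6 (Real.log_nonneg (by linarith)) (by positivity)
      linarith
    calc (Real.log X) ^ P.card ≤ (2 * 2 ^ k * Real.log y) ^ P.card :=
          pow_le_pow_left₀ hlogX h4 _
      _ = _ := by
        rw [mul_pow, mul_pow, ← pow_mul (2 : ℝ) k, mul_comm k, pow_mul (2 : ℝ) P.card]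
  have hfin : (Real.log X) ^ P.card * ∑ t ∈ T', RRp cls a f t ≤
      (2 ^ P.card * (2 ^ P.card) ^ k * (Real.log y) ^ P.card) * (W * (Q' * G)) :=
    mul_le_mul hlog hkey (sum_nonneg fun t _ => RRp_nonneg _ _ _ _) (by positivity)
  rw [← mul_sum]
  refine hfin.trans (le_of_eq ?_)
  have hL : (Real.log y) ^ P.card ≠ 0 := by positivity
  have hL' : (Real.log y) ^ N' ≠ 0 := by positivity
  have e6 : (Real.log y) ^ N = (Real.log y) ^ N' * (Real.log y) ^ P.card := by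
    rw [← pow_add, hNN]
  have e2 : (∏ j, b ^ (v j).primeFactors.card * (gw 1 c (v j) / (v j : ℝ))) =
      b ^ (∑ j, (v j).primeFactors.card) * ∏ j, (gw 1 c (v j) / (v j : ℝ)) := by
    rw [prod_mul_distrib, prod_pow_eq_pow_sum]
  rw [hNB, e2, hQ', hW, e6, hD, hb, mul_pow (4 ^ M : ℝ) (c : ℝ), mul_pow, mul_pow]
  rw [show Fintype.card (Jp P) = N' from rfl]
  field_simp

end Pool.Agent.L7h19.RP
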