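import Mathlib
import Pool.Agent.L7h19.RP.Main
import Pool.Agent.L7h19.RJ.Fin

/-!
# Project RP: summation over all `t`
-/

set_option autoImplicit false

namespace Pool.Agent.L7h19.RP

open Finset Polynomial Pool.Agent.W262.RK Pool.Agent.W307.RT Pool.Agent.L7h19.RJ

variable {ι : Type} [Fintype ι] [DecidableEq ι] {J : Type} [Fintype J] [DecidableEq J]

/-- the parts -/
structure Parts : Prop where
  ep : StEp
  bw : StBW
  sub : StSub
  mod : StMod
  rank : StRank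
  cnt : StCnt

/-- the sum over the positive `t`, if all the forms outside `P` occur -/
theorem fin_pos_p (hp : Parts) (cls : ι → J → Option (Fin 4)) (n : ι → ℕ) (P : Finset J)
    (h1 : ∀ i, ∀ j ∉ P, cls i j ≠ none → cls i j ≠ some 3 → ∀ i', i' ≠ i → cls i' j = none)
    (h2 : ∀ j ∉ P, ∃ i, cls i j ≠ none)
    (h3 : ∀ i (c : Fin 4), c ≠ 3 →
      (univ.filter (fun j => j ∉ P ∧ cls i j = some c)).card = n i)
    (a : ι → Fin 3 → ℤ) (f : J → ℤ[X]) (ha : ∀ i k, a i k ≠ 0) (hf : ∀ j, Irreducible (f j))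
    (hd : ∀ j, 0 < (f j).natDegree) (hnd : ∀ j l, j ≠ l → ¬ f j ∣ f l)
    (hF : ∀ i (t : ℤ), FV (cls i) (a i) (vf f t) 0 - FV (cls i) (a i) (vf f t) 1 =
      FV (cls i) (a i) (vf f t) 2) :
    ∃ C : ℝ, 0 ≤ C ∧ ∀ X : ℕ, 1 ≤ X → (Real.log X) ^ P.card *
      ∑ t ∈ (Icc 1 X).filter (fun t : ℕ => ∀ j ∈ P, (vf f t j).natAbs.Prime), RRp cls a f t ≤
        C * X := by
  classical
  obtain ⟨X0, B, hB0, hm⟩ := mainr hp.ep hp.bw hp.sub hp.mod hp.rank hp.cnt cls n P h1 h2 h3 a f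
    ha hf hd hnd hF
  set T0 : ℕ := ∑ j, cS (f j) with hT0
  have hzero : ∀ t : ℕ, (¬ ∀ j, vf f t j ≠ 0) → t ≤ T0 := by
    intro t ht
    push Not at ht
    obtain ⟨j, hj⟩ := ht
    have h1 := le_eval (f j) (hd j) t
    have h2 : (f j).eval (t : ℤ) = 0 := hj
    rw [h2, Int.natAbs_zero, zero_add] at h1
    exact h1.trans (le_sum_nat (fun j => cS (f j)) j)
  set A : ℝ := ∑ t ∈ Icc 1 T0, RRp cls a f (t : ℤ) + ∑ t ∈ Icc 1 X0, RRp cls a f (t : ℤ) with hA
  have hA0 : 0 ≤ A := add_nonneg (sum_nonneg fun t _ => RRp_nonneg _ _ _ _)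
    (sum_nonneg fun t _ => RRp_nonneg _ _ _ _)
  refine sqrt_ind P.card (fun X => ∑ t ∈ (Icc 1 X).filter
    (fun t : ℕ => ∀ j ∈ P, (vf f t j).natAbs.Prime), RRp cls a f t)
    (fun X Y hXY => sum_le_sum_of_subset_of_nonneg (filter_subset_filter _
      (Icc_subset_Icc le_rfl hXY)) (fun t _ _ => RRp_nonneg _ _ _ _))
    (fun X => sum_nonneg fun t _ => RRp_nonneg _ _ _ _) A B hA0 hB0 fun X => ?_
  have hlog : 0 ≤ (Real.log X) ^ P.card := by
    rcases Nat.eq_zero_or_pos X with hX | hX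
    · subst hX; simp
    · exact pow_nonneg (Real.log_nonneg (by exact_mod_cast hX)) _
  set U := (Icc 1 X).filter (fun t : ℕ => Nat.sqrt X < t ∧
        (∀ j, vf f t j ≠ 0) ∧ ∀ j ∈ P, (vf f t j).natAbs.Prime) with hU
  have hsub : (Icc 1 X).filter (fun t : ℕ => ∀ j ∈ P, (vf f t j).natAbs.Prime) ⊆
      ((Icc 1 (Nat.sqrt X)).filter (fun t : ℕ => ∀ j ∈ P, (vf f t j).natAbs.Prime) ∪
        Icc 1 T0) ∪ U := by
    intro t ht
    rw [mem_filter, mem_Icc] at ht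
    rw [mem_union, mem_union, mem_filter, hU, mem_filter, mem_Icc, mem_Icc, mem_Icc]
    by_cases h5 : t ≤ Nat.sqrt X
    · exact Or.inl (Or.inl ⟨⟨ht.1.1, h5⟩, ht.2⟩)
    by_cases h6 : ∀ j, vf f t j ≠ 0
    · exact Or.inr ⟨ht.1, by omega, h6, ht.2⟩
    · exact Or.inl (Or.inr ⟨ht.1.1, hzero t h6⟩)
  have hun : ∀ S T : Finset ℕ, ∑ t ∈ S ∪ T, RRp cls a f (t : ℤ) ≤
      ∑ t ∈ S, RRp cls a f (t : ℤ) + ∑ t ∈ T, RRp cls a f (t : ℤ) := by
    intro S T
    rw [← sum_union_inter]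
    exact le_add_of_nonneg_right (sum_nonneg fun t _ => RRp_nonneg _ _ _ _)
  have h5 := (sum_le_sum_of_subset_of_nonneg hsub (fun t _ _ => RRp_nonneg cls a f t)).trans
    ((hun _ _).trans (add_le_add (hun _ _) le_rfl))
  have h6 := mul_le_mul_of_nonneg_left h5 hlog
  have h7 : (Real.log X) ^ P.card * ∑ t ∈ U, RRp cls a f t ≤
      (Real.log X) ^ P.card * ∑ t ∈ Icc 1 X0, RRp cls a f (t : ℤ) + B * X := by
    rcases Nat.lt_or_ge X X0 with hX | hX
    · have e1 : ∑ t ∈ U, RRp cls a f t ≤ ∑ t ∈ Icc 1 X0, RRp cls a f (t : ℤ) := by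
        refine sum_le_sum_of_subset_of_nonneg (fun t ht => ?_) fun t _ _ => RRp_nonneg _ _ _ _
        rw [hU, mem_filter, mem_Icc] at ht
        rw [mem_Icc]
        omega
      have e2 := mul_le_mul_of_nonneg_left e1 hlog
      have e3 : 0 ≤ B * (X : ℝ) := by positivity
      linarith
    · have e1 := hm X hX
      have e2 : 0 ≤ (Real.log X) ^ P.card * ∑ t ∈ Icc 1 X0, RRp cls a f (t : ℤ) :=
        mul_nonneg hlog (sum_nonneg fun t _ => RRp_nonneg _ _ _ _)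
      linarith
  refine h6.trans ?_
  rw [hA]
  linarith [h7]

/-- the sum over the positive `t` -/
theorem fin_pos_p' (hp : Parts) (cls : ι → J → Option (Fin 4)) (n : ι → ℕ) (P : Finset J)
    (h1 : ∀ i, ∀ j ∉ P, cls i j ≠ none → cls i j ≠ some 3 → ∀ i', i' ≠ i → cls i' j = none)
    (h3 : ∀ i (c : Fin 4), c ≠ 3 →
      (univ.filter (fun j => j ∉ P ∧ cls i j = some c)).card = n i)
    (a : ι → Fin 3 → ℤ) (f : J → ℤ[X]) (ha : ∀ i k, a i k ≠ 0) (hf : ∀ j, Irreducible (f j))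
    (hd : ∀ j, 0 < (f j).natDegree) (hnd : ∀ j l, j ≠ l → ¬ f j ∣ f l)
    (hF : ∀ i (t : ℤ), FV (cls i) (a i) (vf f t) 0 - FV (cls i) (a i) (vf f t) 1 =
      FV (cls i) (a i) (vf f t) 2) :
    ∃ C : ℝ, 0 ≤ C ∧ ∀ X : ℕ, 1 ≤ X → (Real.log X) ^ P.card *
      ∑ t ∈ (Icc 1 X).filter (fun t : ℕ => ∀ j ∈ P, (vf f t j).natAbs.Prime), RRp cls a f t ≤
        C * X := by
  classical
  set U : J → Prop := fun j => j ∈ P ∨ ∃ i, cls i j ≠ none with hU
  set cls' : ι → {j // U j} → Option (Fin 4) := fun i j => cls i j.1 with hcls'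
  set P' : Finset {j // U j} := univ.filter (fun j => j.1 ∈ P) with hP'
  have hmP : ∀ j : {j // U j}, j ∈ P' ↔ j.1 ∈ P := fun j => by
    rw [hP', mem_filter]; exact ⟨fun h => h.2, fun h => ⟨mem_univ _, h⟩⟩
  have hcard : P'.card = P.card := by
    refine card_bij (fun j _ => j.1) (fun j hj => (hmP j).1 hj) (fun j _ j' _ h => Subtype.ext h)
      (fun j hj => ⟨⟨j, Or.inl hj⟩, (hmP _).2 hj, rfl⟩)
  have hFJ : ∀ i (t : ℤ) k, FV (cls' i) (a i) (vf (fun j : {j // U j} => f j.1) t) k =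
      FV (cls i) (a i) (vf f t) k := by
    intro i t k
    unfold FV
    congr 1
    refine prod_bij (fun l _ => l.1) (fun l hl => ?_) (fun l _ l' _ h => Subtype.ext h)
      (fun l hl => ?_) (fun l _ => rfl)
    · unfold fsJ at hl ⊢
      rw [mem_filter] at hl ⊢
      exact ⟨mem_univ _, hl.2⟩
    · unfold fsJ at hl
      rw [mem_filter] at hl
      have hne : cls i l ≠ none := by
        rcases hl.2 with h | h <;> rw [h] <;> simp
      refine ⟨⟨l, Or.inr ⟨i, hne⟩⟩, ?_, rfl⟩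
      unfold fsJ
      rw [mem_filter]
      exact ⟨mem_univ _, hl.2⟩
  obtain ⟨C, hC0, hC⟩ := fin_pos_p hp cls' n P' (fun i j hj => h1 i j.1 (fun h => hj ((hmP j).2 h)))
    (fun j hj => by
      rcases j.2 with h | h
      · exact absurd ((hmP j).2 h) hj
      · exact h)
    (fun i c hc => by
      rw [← h3 i c hc]
      refine card_bij (fun j _ => j.1) (fun j hj => ?_) (fun j _ j' _ h => Subtype.ext h)
        (fun j hj => ?_)
      · rw [mem_filter] at hj ⊢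
        exact ⟨mem_univ _, fun h => hj.2.1 ((hmP j).2 h), hj.2.2⟩
      · rw [mem_filter] at hj
        refine ⟨⟨j, Or.inr ⟨i, by rw [hj.2.2]; simp⟩⟩, ?_, rfl⟩
        rw [mem_filter]
        exact ⟨mem_univ _, fun h => hj.2.1 ((hmP _).1 h), hj.2.2⟩) a
    (fun j : {j // U j} => f j.1) ha (fun j => hf j.1) (fun j => hd j.1)
    (fun j l hjl => hnd j.1 l.1 (fun h => hjl (Subtype.ext h)))
    (fun i t => by rw [hFJ, hFJ, hFJ]; exact hF i t)
  refine ⟨C, hC0, fun X hX => ?_⟩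
  have h4 := hC X hX
  rw [hcard] at h4
  refine le_trans (le_of_eq ?_) h4
  congr 1
  refine sum_congr ?_ fun t _ => ?_
  · refine filter_congr fun t _ => ?_
    constructor
    · intro h j hj
      exact h j.1 ((hmP j).1 hj)
    · intro h j hj
      exact h ⟨j, Or.inl hj⟩ ((hmP _).2 hj)
  · unfold RRp
    refine prod_congr rfl fun i _ => ?_
    rw [hFJ, hFJ]

/-- substitution `t ↦ -t` -/
lemma vf_neg (f : J → ℤ[X]) (t : ℤ) : vf (fun j => (f j).comp (-X)) t = vf f (-t) := by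
  funext j
  unfold vf
  rw [eval_comp, eval_neg, eval_X]

lemma comp_neg_comp (g : ℤ[X]) : (g.comp (-X)).comp (-X) = g := by
  rw [comp_assoc, neg_comp, X_comp, neg_neg, comp_X]

lemma dvd_comp_neg {g h : ℤ[X]} (hd : g ∣ h) : g.comp (-X) ∣ h.comp (-X) := by
  obtain ⟨q, rfl⟩ := hd
  exact ⟨q.comp (-X), mul_comp _ _ _⟩

lemma irr_comp_neg {g : ℤ[X]} (h : Irreducible g) : Irreducible (g.comp (-X)) := by
  have e : g.comp (-X) = (Polynomial.algEquivAevalNegX (R := ℤ)) g := by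
    rw [Polynomial.algEquivAevalNegX_apply, Polynomial.comp_eq_aeval]
  rw [e]
  exact (MulEquiv.irreducible_iff (Polynomial.algEquivAevalNegX (R := ℤ)).toMulEquiv).2 h

/-- the sum over all `t` -/
theorem fin_all_p (hp : Parts) (cls : ι → J → Option (Fin 4)) (n : ι → ℕ) (P : Finset J)
    (h1 : ∀ i, ∀ j ∉ P, cls i j ≠ none → cls i j ≠ some 3 → ∀ i', i' ≠ i → cls i' j = none)
    (h3 : ∀ i (c : Fin 4), c ≠ 3 →
      (univ.filter (fun j => j ∉ P ∧ cls i j = some c)).card = n i)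
    (a : ι → Fin 3 → ℤ) (f : J → ℤ[X]) (ha : ∀ i k, a i k ≠ 0) (hf : ∀ j, Irreducible (f j))
    (hd : ∀ j, 0 < (f j).natDegree) (hnd : ∀ j l, j ≠ l → ¬ f j ∣ f l)
    (hF : ∀ i (t : ℤ), FV (cls i) (a i) (vf f t) 0 - FV (cls i) (a i) (vf f t) 1 =
      FV (cls i) (a i) (vf f t) 2) :
    ∃ C : ℝ, ∀ X : ℕ, 1 ≤ X → (Real.log X) ^ P.card *
      ∑ t ∈ (Icc (-(X : ℤ)) X).filter (fun t : ℤ => ∀ j ∈ P, (vf f t j).natAbs.Prime),
        RRp cls a f t ≤ C * X := by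
  classical
  obtain ⟨C1, hC10, hC1⟩ := fin_pos_p' hp cls n P h1 h3 a f ha hf hd hnd hF
  obtain ⟨C2, hC20, hC2⟩ := fin_pos_p' hp cls n P h1 h3 a (fun j => (f j).comp (-X)) ha
    (fun j => irr_comp_neg (hf j))
    (fun j => by rw [natDegree_comp, natDegree_neg, natDegree_X, mul_one]; exact hd j)
    (fun j l hjl h => hnd j l hjl (by
      have := dvd_comp_neg h
      rwa [comp_neg_comp, comp_neg_comp] at this))
    (fun i t => by rw [vf_neg]; exact hF i (-t))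
  have hRR : ∀ t : ℤ, RRp cls a (fun j => (f j).comp (-X)) t = RRp cls a f (-t) := by
    intro t
    unfold RRp
    rw [vf_neg]
  set R0 : ℝ := RRp cls a f 0 with hR0d
  have hR0 : 0 ≤ R0 := RRp_nonneg _ _ _ _
  refine ⟨C1 + C2 + P.card.factorial * R0, fun X hX => ?_⟩
  have hXr : (1 : ℝ) ≤ X := by exact_mod_cast hX
  have hlog : 0 ≤ (Real.log X) ^ P.card := pow_nonneg (Real.log_nonneg hXr) _
  set S1 := (Icc 1 X).filter (fun t : ℕ => ∀ j ∈ P, (vf f t j).natAbs.Prime) with hS1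
  set S2 := (Icc 1 X).filter (fun t : ℕ => ∀ j ∈ P,
    (vf (fun j => (f j).comp (-Polynomial.X)) t j).natAbs.Prime) with hS2
  have hsub : (Icc (-(X : ℤ)) X).filter (fun t : ℤ => ∀ j ∈ P, (vf f t j).natAbs.Prime) ⊆
      (S1.image (fun t : ℕ => (t : ℤ)) ∪ S2.image (fun t : ℕ => -(t : ℤ))) ∪ {0} := by
    intro t ht
    rw [mem_filter, mem_Icc] at ht
    rw [mem_union, mem_union, mem_image, mem_image, mem_singleton]
    rcases lt_trichotomy t 0 with h | h | h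
    · left; right
      have e : ((t.natAbs : ℕ) : ℤ) = -t := by omega
      refine ⟨t.natAbs, mem_filter.2 ⟨mem_Icc.2 (by omega), fun j hj => ?_⟩, by omega⟩
      rw [vf_neg, e, neg_neg]
      exact ht.2 j hj
    · right; exact h
    · left; left
      have e : ((t.natAbs : ℕ) : ℤ) = t := by omega
      refine ⟨t.natAbs, mem_filter.2 ⟨mem_Icc.2 (by omega), fun j hj => ?_⟩, e⟩
      rw [e]
      exact ht.2 j hj
  have hun : ∀ S T : Finset ℤ, ∑ t ∈ S ∪ T, RRp cls a f t ≤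
      ∑ t ∈ S, RRp cls a f t + ∑ t ∈ T, RRp cls a f t := by
    intro S T
    rw [← sum_union_inter]
    exact le_add_of_nonneg_right (sum_nonneg fun t _ => RRp_nonneg _ _ _ _)
  have e3 : ∑ t ∈ S1.image (fun t : ℕ => (t : ℤ)), RRp cls a f t =
      ∑ t ∈ S1, RRp cls a f (t : ℤ) :=
    sum_image (fun i _ j _ hij => by exact_mod_cast hij)
  have e4 : ∑ t ∈ S2.image (fun t : ℕ => -(t : ℤ)), RRp cls a f t =
      ∑ t ∈ S2, RRp cls a (fun j => (f j).comp (-Polynomial.X)) (t : ℤ) := by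
    rw [sum_image (fun i _ j _ hij => by simpa using hij)]
    exact sum_congr rfl fun t _ => (hRR t).symm
  have h5 := (sum_le_sum_of_subset_of_nonneg hsub (fun t _ _ => RRp_nonneg cls a f t)).trans
    ((hun _ _).trans (add_le_add (hun _ _) le_rfl))
  rw [e3, e4, sum_singleton] at h5
  have h6 := mul_le_mul_of_nonneg_left h5 hlog
  have h7 := hC1 X hX
  have h8 := hC2 X hX
  have h9 : (Real.log X) ^ P.card * R0 ≤ (P.card.factorial : ℝ) * X * R0 :=
    mul_le_mul_of_nonneg_right (log_pow_le _ hX) hR0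
  refine h6.trans ?_
  rw [mul_add, mul_add]
  linarith

end Pool.Agent.L7h19.RP
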