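import Mathlib
import Pool.Agent.L7h19.RP.Fin
import Pool.Agent.L7h78.RP.StEp
import Pool.Agent.L7h80.RP.StQuad
import Pool.Agent.L7h80.RP.StBW
import Pool.Agent.L7h89.RP.StCnt
import Pool.Agent.L7h89.RP.StRank
import Pool.Agent.L7h8.RP.Sub

/-!
# Project RP: all the parts

Proved by helper78 (`StEp`, `StH`), helper80 (`StQuad`, `StBW`), helper89 (`StCnt`, `StRank`) and
helper8 (`StMod`, `StSub`).
-/

set_option autoImplicit false

namespace Pool.Agent.L7h19.RP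

theorem parts : Parts :=
  ⟨Pool.Agent.L7h78.RP.stEp Pool.Agent.L7h80.RP.stQuad, Pool.Agent.L7h80.RP.stBW,
    Pool.Agent.L7h8.RP.stSub, Pool.Agent.L7h8.RP.stMod, Pool.Agent.L7h89.RP.stRank,
    Pool.Agent.L7h89.RP.stCnt⟩

end Pool.Agent.L7h19.RP
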