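import Mathlib
import Pool.Agent.L7h19.RP.Fin
import Pool.Agent.L7h19.RJ.Cls

/-!
# Project RP: the families given by sets of polynomials
-/

set_option autoImplicit false

namespace Pool.Agent.L7h19.RP

open Finset Polynomial Pool.Agent.W262.RK Pool.Agent.W307.RT Pool.Agent.L7h19.RJ

variable {ι : Type} [Fintype ι] [DecidableEq ι] {J : Type} [Fintype J] [DecidableEq J]

lemma FV_clsS {T : Finset J} {S : Fin 3 → Finset J} (hST : ∀ k, Disjoint (S k) T)
    (hSS : ∀ k k', k ≠ k' → Disjoint (S k) (S k')) (a : Fin 3 → ℤ) (f : J → ℤ[X]) (t : ℤ)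
    (k : Fin 3) :
    FV (clsS T S) a (vf f t) k =
      (C (a k) * (∏ j ∈ T, f j) * ∏ j ∈ S k, f j : ℤ[X]).eval t := by
  have h : fsJ (clsS T S) k = T ∪ S k := by
    ext j
    unfold fsJ
    rw [mem_filter, clsS_S hST hSS, clsS_T, mem_union]
    exact ⟨fun h => h.2.symm, fun h => ⟨mem_univ _, h.symm⟩⟩
  unfold FV
  rw [h, prod_union (hST k).symm, eval_mul, eval_mul, eval_C, eval_prod, eval_prod, mul_assoc]
  rfl

/-- the theorem for families given by sets of polynomials -/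
theorem fin_sets_p (hp : Parts) (P : Finset J) (T : ι → Finset J) (S : ι → Fin 3 → Finset J)
    (n : ι → ℕ) (hST : ∀ i k, Disjoint (S i k) (T i))
    (hSS : ∀ i k k', k ≠ k' → Disjoint (S i k) (S i k'))
    (hex : ∀ i i', i ≠ i' → ∀ k, ∀ j ∈ S i k, j ∉ P → j ∉ T i' ∧ ∀ k', j ∉ S i' k')
    (hn : ∀ i k, (S i k \ P).card = n i)
    (a : ι → Fin 3 → ℤ) (f : J → ℤ[X]) (ha : ∀ i k, a i k ≠ 0) (hf : ∀ j, Irreducible (f j))
    (hd : ∀ j, 0 < (f j).natDegree) (hnd : ∀ j l, j ≠ l → ¬ Associated (f j) (f l))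
    (hF : ∀ i, C (a i 0) * (∏ j ∈ T i, f j) * ∏ j ∈ S i 0, f j -
      C (a i 1) * (∏ j ∈ T i, f j) * ∏ j ∈ S i 1, f j =
      C (a i 2) * (∏ j ∈ T i, f j) * ∏ j ∈ S i 2, f j) :
    ∃ C' : ℝ, ∀ X : ℕ, 1 ≤ X → (Real.log X) ^ P.card *
      ∑ t ∈ (Icc (-(X : ℤ)) X).filter (fun t : ℤ => ∀ j ∈ P, ((f j).eval t).natAbs.Prime),
        ∏ i, (2 : ℝ) ^ Module.finrank ℤ (EAB
          ((C (a i 0) * (∏ j ∈ T i, f j) * ∏ j ∈ S i 0, f j : ℤ[X]).eval t)
          ((C (a i 1) * (∏ j ∈ T i, f j) * ∏ j ∈ S i 1, f j : ℤ[X]).eval t)).toAffine.Point ≤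
        C' * X := by
  have hFV : ∀ i t k, FV (clsS (T i) (S i)) (a i) (vf f t) k =
      (C (a i k) * (∏ j ∈ T i, f j) * ∏ j ∈ S i k, f j : ℤ[X]).eval t :=
    fun i t k => FV_clsS (hST i) (hSS i) (a i) f t k
  obtain ⟨C', hC⟩ := fin_all_p hp (fun i => clsS (T i) (S i)) n P
    (fun i j hj h h3 i' hi' => by
      obtain ⟨k, hk⟩ := clsS_ne h h3
      have := hex i i' (Ne.symm hi') k j hk hj
      exact clsS_none this.1 this.2)
    (fun i c hc => by
      have hc' : ∃ k : Fin 3, c = k.castSucc := by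
        revert c
        decide
      obtain ⟨k, rfl⟩ := hc'
      rw [← hn i k]
      congr 1
      ext j
      rw [mem_filter, mem_sdiff, clsS_S (hST i) (hSS i)]
      exact ⟨fun h => ⟨h.2.2, h.2.1⟩, fun h => ⟨mem_univ _, h.2, h.1⟩⟩)
    a f ha hf hd (fun j l hjl h => hnd j l hjl ((hf j).associated_of_dvd (hf l) h))
    (fun i t => by rw [hFV, hFV, hFV, ← eval_sub, hF i])
  refine ⟨C', fun X hX => ?_⟩
  have h4 := hC X hX
  refine le_trans (le_of_eq ?_) h4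
  congr 1
  refine sum_congr rfl fun t _ => ?_
  unfold RRp
  refine prod_congr rfl fun i _ => ?_
  rw [hFV, hFV]

end Pool.Agent.L7h19.RP
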