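import Mathlib
import Pool.Agent.L7h19.RP.SMain

/-!
# Project RP, short intervals: summation over all the `t` of an interval
-/

set_option autoImplicit false

namespace Pool.Agent.L7h19.RP

open Finset Polynomial Pool.Agent.W262.RK Pool.Agent.W307.RT Pool.Agent.L7h19.RJ

variable {ι : Type} [Fintype ι] [DecidableEq ι] {J : Type} [Fintype J] [DecidableEq J]

section aux

variable (cls : ι → J → Option (Fin 4)) (a : ι → Fin 3 → ℤ) (f : J → ℤ[X])

lemma un_le (S T : Finset ℤ) : ∑ t ∈ S ∪ T, RRp cls a f t ≤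
    ∑ t ∈ S, RRp cls a f t + ∑ t ∈ T, RRp cls a f t := by
  rw [← sum_union_inter]
  exact le_add_of_nonneg_right (sum_nonneg fun t _ => RRp_nonneg _ _ _ _)

lemma sub_le {S T : Finset ℤ} (h : S ⊆ T) : ∑ t ∈ S, RRp cls a f t ≤ ∑ t ∈ T, RRp cls a f t :=
  sum_le_sum_of_subset_of_nonneg h fun t _ _ => RRp_nonneg _ _ _ _

lemma zero_le_Z0 (hd : ∀ j, 0 < (f j).natDegree) (t : ℤ) (ht : ¬ ∀ j, vf f t j ≠ 0) :
    t.natAbs ≤ ∑ j, cS (f j) := by
  push Not at ht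
  obtain ⟨j, hj⟩ := ht
  have h1 := le_evalZ (f j) (hd j) t
  have h2 : (f j).eval t = 0 := hj
  rw [h2, Int.natAbs_zero, zero_add] at h1
  exact h1.trans (le_sum_nat (fun j => cS (f j)) j)

lemma image_eq (S : Finset ℕ) (T0 : ℤ) : ∑ t ∈ S.image (fun t : ℕ => T0 + (t : ℤ)), RRp cls a f t =
    ∑ t ∈ S, RRp cls a f (T0 + t) :=
  sum_image (fun i _ j _ hij => by simpa using hij)

end aux

/-- the sum over all `|t| ≤ X` -/
theorem finS_all (hSub : StSub) (hMod : StMod) (hRank : StRank)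
    (cls : ι → J → Option (Fin 4)) (P : Finset J)
    (a : ι → Fin 3 → ℤ) (f : J → ℤ[X]) (ha : ∀ i k, a i k ≠ 0) (hf : ∀ j, Irreducible (f j))
    (hd : ∀ j, 0 < (f j).natDegree) (hnd : ∀ j l, j ≠ l → ¬ f j ∣ f l)
    (hF : ∀ i (t : ℤ), FV (cls i) (a i) (vf f t) 0 - FV (cls i) (a i) (vf f t) 1 =
      FV (cls i) (a i) (vf f t) 2) (hMaj : MajP cls P a f) :
    ∃ C : ℝ, 0 ≤ C ∧ ∀ X : ℕ, 1 ≤ X → (Real.log X) ^ P.card *
      ∑ t ∈ (Icc (-(X : ℤ)) X).filter (fun t : ℤ => ∀ j ∈ P, (vf f t j).natAbs.Prime),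
        RRp cls a f t ≤ C * X := by
  classical
  obtain ⟨X0, B, hB0, hm⟩ := mainS hSub hMod hRank cls P a f ha hf hd hnd hF hMaj 1 le_rfl
  set Z0 : ℕ := ∑ j, cS (f j) with hZ0
  set A1 : ℝ := ∑ t ∈ Icc (-(Z0 : ℤ)) Z0, RRp cls a f t with hA1
  set A2 : ℝ := ∑ t ∈ Icc (-(X0 : ℤ)) X0, RRp cls a f t with hA2
  have hA10 : 0 ≤ A1 := sum_nonneg fun t _ => RRp_nonneg _ _ _ _
  have hA20 : 0 ≤ A2 := sum_nonneg fun t _ => RRp_nonneg _ _ _ _
  refine sqrt_ind P.card (fun X => ∑ t ∈ (Icc (-(X : ℤ)) X).filter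
    (fun t : ℤ => ∀ j ∈ P, (vf f t j).natAbs.Prime), RRp cls a f t)
    (fun X Y hXY => sub_le cls a f (filter_subset_filter _
      (Icc_subset_Icc (by omega) (by omega))))
    (fun X => sum_nonneg fun t _ => RRp_nonneg _ _ _ _) (A1 + A2) (2 * B) (by positivity)
      (by positivity) fun X => ?_
  have hlog : 0 ≤ (Real.log X) ^ P.card := by
    rcases Nat.eq_zero_or_pos X with hX | hX
    · subst hX; simp
    · exact pow_nonneg (Real.log_nonneg (by exact_mod_cast hX)) _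
  have hSq : 0 ≤ ∑ t ∈ (Icc (-((Nat.sqrt X : ℕ) : ℤ)) (Nat.sqrt X : ℕ)).filter
    (fun t : ℤ => ∀ j ∈ P, (vf f t j).natAbs.Prime), RRp cls a f t :=
    sum_nonneg fun t _ => RRp_nonneg _ _ _ _
  rcases Nat.lt_or_ge X X0 with hX | hX
  · have e1 : ∑ t ∈ (Icc (-(X : ℤ)) X).filter
        (fun t : ℤ => ∀ j ∈ P, (vf f t j).natAbs.Prime), RRp cls a f t ≤ A2 :=
      sub_le cls a f ((filter_subset _ _).trans (Icc_subset_Icc (by omega) (by omega)))
    have e2 : (0 : ℝ) ≤ 2 * B * X := by positivity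
    have e3 := mul_le_mul_of_nonneg_left (e1.trans (by linarith :
      A2 ≤ ∑ t ∈ (Icc (-((Nat.sqrt X : ℕ) : ℤ)) (Nat.sqrt X : ℕ)).filter
      (fun t : ℤ => ∀ j ∈ P, (vf f t j).natAbs.Prime), RRp cls a f t + (A1 + A2))) hlog
    linarith
  · set U : ℤ → Finset ℕ := fun T0 => (Icc 1 X).filter (fun t : ℕ =>
        Nat.sqrt X < (T0 + (t : ℤ)).natAbs ∧
        (∀ j, vf f (T0 + t) j ≠ 0) ∧ ∀ j ∈ P, (vf f (T0 + t) j).natAbs.Prime) with hU
    have h1 := hm X 0 hX (fun t ht => by rw [mem_Icc] at ht; rw [pow_one]; omega)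
    have h2 := hm X (-((X : ℤ) + 1)) hX (fun t ht => by rw [mem_Icc] at ht; rw [pow_one]; omega)
    have hsub : (Icc (-(X : ℤ)) X).filter (fun t : ℤ => ∀ j ∈ P, (vf f t j).natAbs.Prime) ⊆
        ((Icc (-((Nat.sqrt X : ℕ) : ℤ)) (Nat.sqrt X : ℕ)).filter
          (fun t : ℤ => ∀ j ∈ P, (vf f t j).natAbs.Prime) ∪ Icc (-(Z0 : ℤ)) Z0) ∪
        ((U 0).image (fun t : ℕ => 0 + (t : ℤ)) ∪
          (U (-((X : ℤ) + 1))).image (fun t : ℕ => -((X : ℤ) + 1) + (t : ℤ))) := by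
      intro t ht
      rw [mem_filter, mem_Icc] at ht
      rw [mem_union, mem_union, mem_union, mem_filter, mem_Icc, mem_Icc, mem_image, mem_image]
      by_cases h5 : t.natAbs ≤ Nat.sqrt X
      · exact Or.inl (Or.inl ⟨by omega, ht.2⟩)
      by_cases h6 : ∀ j, vf f t j ≠ 0
      · right
        rcases lt_trichotomy t 0 with h | h | h
        · right
          have e : -((X : ℤ) + 1) + (((t + ((X : ℤ) + 1)).toNat : ℕ) : ℤ) = t := by omega
          refine ⟨(t + ((X : ℤ) + 1)).toNat, ?_, e⟩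
          rw [hU, mem_filter, mem_Icc, e]
          exact ⟨by omega, by omega, h6, ht.2⟩
        · subst h
          simp at h5
        · left
          have e : 0 + ((t.toNat : ℕ) : ℤ) = t := by omega
          refine ⟨t.toNat, ?_, e⟩
          rw [hU, mem_filter, mem_Icc, e]
          exact ⟨by omega, by omega, h6, ht.2⟩
      · have h7 := zero_le_Z0 f hd t h6
        exact Or.inl (Or.inr (by omega))
    have h5 := (sub_le cls a f hsub).trans ((un_le cls a f _ _).trans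
      (add_le_add (un_le cls a f _ _) (un_le cls a f _ _)))
    rw [image_eq, image_eq] at h5
    have h6 := mul_le_mul_of_nonneg_left h5 hlog
    have e3 : 0 ≤ (Real.log X) ^ P.card * A2 := mul_nonneg hlog hA20
    refine h6.trans ?_
    rw [mul_add, mul_add, mul_add]
    have h7 : (Real.log X) ^ P.card * ∑ t ∈ U 0, RRp cls a f (0 + (t : ℤ)) ≤ B * X := h1
    have h8 : (Real.log X) ^ P.card * ∑ t ∈ U (-((X : ℤ) + 1)),
      RRp cls a f (-((X : ℤ) + 1) + (t : ℤ)) ≤ B * X := h2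
    rw [← hA1]
    linarith

/-- the sum over short intervals -/
theorem finS_short (hSub : StSub) (hMod : StMod) (hRank : StRank)
    (cls : ι → J → Option (Fin 4)) (P : Finset J)
    (a : ι → Fin 3 → ℤ) (f : J → ℤ[X]) (ha : ∀ i k, a i k ≠ 0) (hf : ∀ j, Irreducible (f j))
    (hd : ∀ j, 0 < (f j).natDegree) (hnd : ∀ j l, j ≠ l → ¬ f j ∣ f l)
    (hF : ∀ i (t : ℤ), FV (cls i) (a i) (vf f t) 0 - FV (cls i) (a i) (vf f t) 1 =
      FV (cls i) (a i) (vf f t) 2) (hMaj : MajP cls P a f) (ε : ℝ) (hε : 0 < ε) :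
    ∃ C : ℝ, 0 ≤ C ∧ ∀ (X : ℕ) (u v : ℤ), 1 ≤ X → -(X : ℤ) ≤ u → v ≤ X →
      (X : ℝ) ^ ε ≤ (v : ℝ) - u → (Real.log X) ^ P.card *
      ∑ t ∈ (Icc u v).filter (fun t : ℤ => ∀ j ∈ P, (vf f t j).natAbs.Prime),
        RRp cls a f t ≤ C * ((v : ℝ) - u) := by
  classical
  obtain ⟨C0, hC00, hC0⟩ := finS_all hSub hMod hRank cls P a f ha hf hd hnd hF hMaj
  set μ : ℕ := ⌈1 / ε⌉₊ + 1 with hμ
  have hμ1 : 1 ≤ μ := by omega
  obtain ⟨X0, B, hB0, hm⟩ := mainS hSub hMod hRank cls P a f ha hf hd hnd hF hMaj μ hμ1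
  set p := P.card with hp
  set Z0 : ℕ := ∑ j, cS (f j) with hZ0
  set A1 : ℝ := ∑ t ∈ Icc (-(Z0 : ℤ)) Z0, RRp cls a f t with hA1
  set X1 : ℕ := (X0 + 1) ^ μ with hX1
  set A2 : ℝ := ∑ t ∈ Icc (-(X1 : ℤ)) X1, RRp cls a f t with hA2
  have hA10 : 0 ≤ A1 := sum_nonneg fun t _ => RRp_nonneg _ _ _ _
  have hA20 : 0 ≤ A2 := sum_nonneg fun t _ => RRp_nonneg _ _ _ _
  have hS3 : ∀ Y : ℕ, ∑ t ∈ (Icc (-(Y : ℤ)) Y).filter
      (fun t : ℤ => ∀ j ∈ P, (vf f t j).natAbs.Prime), RRp cls a f t ≤ C0 * ((Y : ℝ) + 3) := by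
    intro Y
    have h1 : ∑ t ∈ (Icc (-(Y : ℤ)) Y).filter
      (fun t : ℤ => ∀ j ∈ P, (vf f t j).natAbs.Prime), RRp cls a f t ≤
      ∑ t ∈ (Icc (-((Y + 3 : ℕ) : ℤ)) (Y + 3 : ℕ)).filter
      (fun t : ℤ => ∀ j ∈ P, (vf f t j).natAbs.Prime), RRp cls a f t :=
      sub_le cls a f (filter_subset_filter _ (Icc_subset_Icc (by omega) (by omega)))
    have h2 := hC0 (Y + 3) (by omega)
    have h3 : 1 ≤ Real.log ((Y + 3 : ℕ) : ℝ) := by
      rw [Real.le_log_iff_exp_le (by positivity)]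
      have := Real.exp_one_lt_d9
      push_cast
      have h4 : (0 : ℝ) ≤ Y := Nat.cast_nonneg Y
      linarith
    have h4 : (1 : ℝ) ≤ (Real.log ((Y + 3 : ℕ) : ℝ)) ^ p := one_le_pow₀ h3
    have h5 : 0 ≤ ∑ t ∈ (Icc (-((Y + 3 : ℕ) : ℤ)) (Y + 3 : ℕ)).filter
      (fun t : ℤ => ∀ j ∈ P, (vf f t j).natAbs.Prime), RRp cls a f t :=
      sum_nonneg fun t _ => RRp_nonneg _ _ _ _
    have h6 := le_mul_of_one_le_left h5 h4
    push_cast at h2 h6
    push_cast at h1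
    linarith
  set K1 : ℝ := 2 ^ p * (p.factorial : ℝ) * C0 + 3 * (p.factorial : ℝ) * C0 +
    (p.factorial : ℝ) * A1 + B with hK1
  have hK10 : 0 ≤ K1 := by positivity
  refine ⟨(μ : ℝ) ^ p * (2 * K1) + (p.factorial : ℝ) * X1 * A2, by positivity,
    fun X u v hX hu hv huv => ?_⟩
  have hXr : (1 : ℝ) ≤ X := by exact_mod_cast hX
  have hXe : (1 : ℝ) ≤ (X : ℝ) ^ ε := Real.one_le_rpow hXr hε.le
  have huv1 : (1 : ℝ) ≤ (v : ℝ) - u := hXe.trans huv
  have huv1' : u + 1 ≤ v := by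
    have : (1 : ℝ) ≤ ((v - u : ℤ) : ℝ) := by push_cast; exact huv1
    have := (Int.cast_le (R := ℝ)).1 (by push_cast at this ⊢; exact this : ((1 : ℤ) : ℝ) ≤ ((v - u : ℤ) : ℝ))
    omega
  have hlogX : 0 ≤ Real.log X := Real.log_nonneg hXr
  set H : ℕ := (v - u + 1).toNat with hH
  have hHz : (H : ℤ) = v - u + 1 := by omega
  have hHr : (H : ℝ) = (v : ℝ) - u + 1 := by
    have : ((H : ℤ) : ℝ) = ((v - u + 1 : ℤ) : ℝ) := by rw [hHz]
    push_cast at this
    exact this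
  have hH1 : 1 ≤ H := by omega
  have hHr1 : (1 : ℝ) ≤ H := by exact_mod_cast hH1
  have hlogH : 0 ≤ Real.log H := Real.log_nonneg hHr1
  -- `X ≤ H ^ μ`
  have hXH : X ≤ H ^ μ := by
    have h1 : (X : ℝ) ^ ε ≤ H := by rw [hHr]; linarith
    have h2 : (X : ℝ) ≤ (H : ℝ) ^ (1 / ε) := by
      calc (X : ℝ) = ((X : ℝ) ^ ε) ^ (1 / ε) := by
            rw [← Real.rpow_mul (by linarith), mul_one_div_cancel hε.ne', Real.rpow_one]
        _ ≤ _ := Real.rpow_le_rpow (by linarith) h1 (by positivity)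
    have h3 : (H : ℝ) ^ (1 / ε) ≤ (H : ℝ) ^ (μ : ℝ) := by
      refine Real.rpow_le_rpow_of_exponent_le hHr1 ?_
      rw [hμ]
      push_cast
      have := Nat.le_ceil (1 / ε)
      linarith
    rw [Real.rpow_natCast] at h3
    exact_mod_cast h2.trans h3
  set SS : ℝ := ∑ t ∈ (Icc u v).filter (fun t : ℤ => ∀ j ∈ P, (vf f t j).natAbs.Prime),
        RRp cls a f t with hSS
  have hSS0 : 0 ≤ SS := sum_nonneg fun t _ => RRp_nonneg _ _ _ _
  have hextra1 : 0 ≤ (μ : ℝ) ^ p * (2 * K1) * ((v : ℝ) - u) := by positivity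
  have hextra2 : 0 ≤ (p.factorial : ℝ) * X1 * A2 * ((v : ℝ) - u) := by positivity
  rcases Nat.lt_or_ge H (X0 + 1) with hlt | hge
  · -- small intervals
    have hXX1 : X ≤ X1 := hXH.trans (Nat.pow_le_pow_left (by omega) _)
    have h1 : SS ≤ A2 :=
      sub_le cls a f ((filter_subset _ _).trans (Icc_subset_Icc (by omega) (by omega)))
    have h2 : (Real.log X) ^ p ≤ (p.factorial : ℝ) * X1 := by
      refine (log_pow_le p hX).trans ?_
      exact mul_le_mul_of_nonneg_left (by exact_mod_cast hXX1) (Nat.cast_nonneg _)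
    calc (Real.log X) ^ p * SS ≤ ((p.factorial : ℝ) * X1) * A2 :=
          mul_le_mul h2 h1 hSS0 (by positivity)
      _ ≤ ((p.factorial : ℝ) * X1 * A2) * ((v : ℝ) - u) :=
          le_mul_of_one_le_right (by positivity) huv1
      _ ≤ _ := by rw [add_mul]; linarith
  · have hT : ∀ t ∈ Icc 1 H, ((u - 1) + (t : ℤ)).natAbs ≤ H ^ μ := by
      intro t ht
      rw [mem_Icc] at ht
      have h1 : ((u - 1) + (t : ℤ)).natAbs ≤ X := by omega
      exact h1.trans hXH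
    have h1 := hm H (u - 1) (by omega) hT
    set U : Finset ℕ := (Icc 1 H).filter (fun t : ℕ =>
        Nat.sqrt H < ((u - 1) + (t : ℤ)).natAbs ∧
        (∀ j, vf f ((u - 1) + t) j ≠ 0) ∧ ∀ j ∈ P, (vf f ((u - 1) + t) j).natAbs.Prime) with hU
    have hsub : (Icc u v).filter (fun t : ℤ => ∀ j ∈ P, (vf f t j).natAbs.Prime) ⊆
        ((Icc (-((Nat.sqrt H : ℕ) : ℤ)) (Nat.sqrt H : ℕ)).filter
          (fun t : ℤ => ∀ j ∈ P, (vf f t j).natAbs.Prime) ∪ Icc (-(Z0 : ℤ)) Z0) ∪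
        U.image (fun t : ℕ => (u - 1) + (t : ℤ)) := by
      intro t ht
      rw [mem_filter, mem_Icc] at ht
      rw [mem_union, mem_union, mem_filter, mem_Icc, mem_Icc, mem_image]
      by_cases h5 : t.natAbs ≤ Nat.sqrt H
      · exact Or.inl (Or.inl ⟨by omega, ht.2⟩)
      by_cases h6 : ∀ j, vf f t j ≠ 0
      · right
        have e : (u - 1) + (((t - (u - 1)).toNat : ℕ) : ℤ) = t := by omega
        refine ⟨(t - (u - 1)).toNat, ?_, e⟩
        rw [hU, mem_filter, mem_Icc, e]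
        exact ⟨by omega, by omega, h6, ht.2⟩
      · have h7 := zero_le_Z0 f hd t h6
        exact Or.inl (Or.inr (by omega))
    have h5 := (sub_le cls a f hsub).trans ((un_le cls a f _ _).trans
      (add_le_add (un_le cls a f _ _) le_rfl))
    rw [image_eq, ← hSS, ← hA1] at h5
    have h6 := hS3 (Nat.sqrt H)
    have hsq : ((Nat.sqrt H : ℕ) : ℝ) ≤ √(H : ℝ) := Real.nat_sqrt_le_real_sqrt
    -- `(log H) ^ p * √ H ≤ 2 ^ p * p! * H`
    have h7 : (Real.log H) ^ p * √(H : ℝ) ≤ 2 ^ p * (p.factorial : ℝ) * H := by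
      have e1 : Real.log H = 2 * Real.log (√(H : ℝ)) := by
        rw [Real.log_sqrt (by positivity)]
        ring
      have e2 : 0 ≤ Real.log (√(H : ℝ)) := by
        rw [Real.log_sqrt (by positivity)]
        positivity
      have e3 := Real.pow_div_factorial_le_exp (Real.log (√(H : ℝ))) e2 p
      have e4 : (0 : ℝ) < √(H : ℝ) := Real.sqrt_pos.2 (by linarith)
      rw [Real.exp_log e4, div_le_iff₀ (by positivity)] at e3
      rw [e1, mul_pow]
      have e5 : √(H : ℝ) * √(H : ℝ) = H := Real.mul_self_sqrt (by linarith)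
      calc 2 ^ p * (Real.log (√(H : ℝ))) ^ p * √(H : ℝ) ≤
          2 ^ p * (√(H : ℝ) * (p.factorial : ℝ)) * √(H : ℝ) := by gcongr
        _ = 2 ^ p * (p.factorial : ℝ) * (√(H : ℝ) * √(H : ℝ)) := by ring
        _ = _ := by rw [e5]
    have h8 := log_pow_le p hH1
    have hlogHp : 0 ≤ (Real.log H) ^ p := pow_nonneg hlogH _
    have h9 : (Real.log H) ^ p * SS ≤ K1 * H := by
      have e1 := mul_le_mul_of_nonneg_left h5 hlogHp
      have e2 : (Real.log H) ^ p * ∑ t ∈ (Icc (-((Nat.sqrt H : ℕ) : ℤ)) (Nat.sqrt H : ℕ)).filter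
          (fun t : ℤ => ∀ j ∈ P, (vf f t j).natAbs.Prime), RRp cls a f t ≤
          (2 ^ p * (p.factorial : ℝ) * C0 + 3 * (p.factorial : ℝ) * C0) * H := by
        calc _ ≤ (Real.log H) ^ p * (C0 * (√(H : ℝ) + 3)) := by
              refine mul_le_mul_of_nonneg_left (h6.trans ?_) hlogHp
              exact mul_le_mul_of_nonneg_left (by linarith) hC00
          _ = C0 * ((Real.log H) ^ p * √(H : ℝ)) + 3 * C0 * (Real.log H) ^ p := by ring
          _ ≤ C0 * (2 ^ p * (p.factorial : ℝ) * H) + 3 * C0 * ((p.factorial : ℝ) * H) := by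
              gcongr
          _ = _ := by ring
      have e3 : (Real.log H) ^ p * A1 ≤ (p.factorial : ℝ) * A1 * H := by
        calc _ ≤ ((p.factorial : ℝ) * H) * A1 := mul_le_mul_of_nonneg_right h8 hA10
          _ = _ := by ring
      have e4 : (Real.log H) ^ p * ∑ t ∈ U, RRp cls a f ((u - 1) + (t : ℤ)) ≤ B * H := h1
      rw [mul_add, mul_add] at e1
      rw [hK1]
      linarith
    have h10 : Real.log X ≤ μ * Real.log H := by
      rw [← Real.log_pow]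
      exact Real.log_le_log (by linarith) (by exact_mod_cast hXH)
    have h11 : (Real.log X) ^ p ≤ (μ : ℝ) ^ p * (Real.log H) ^ p := by
      rw [← mul_pow]
      exact pow_le_pow_left₀ hlogX h10 _
    calc (Real.log X) ^ p * SS ≤ ((μ : ℝ) ^ p * (Real.log H) ^ p) * SS :=
          mul_le_mul_of_nonneg_right h11 hSS0
      _ = (μ : ℝ) ^ p * ((Real.log H) ^ p * SS) := by ring
      _ ≤ (μ : ℝ) ^ p * (K1 * H) := mul_le_mul_of_nonneg_left h9 (by positivity)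
      _ ≤ (μ : ℝ) ^ p * (2 * K1) * ((v : ℝ) - u) := by
          have : (H : ℝ) ≤ 2 * ((v : ℝ) - u) := by rw [hHr]; linarith
          calc (μ : ℝ) ^ p * (K1 * H) ≤ (μ : ℝ) ^ p * (K1 * (2 * ((v : ℝ) - u))) := by gcongr
            _ = _ := by ring
      _ ≤ _ := by rw [add_mul]; linarith

end Pool.Agent.L7h19.RP
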