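import Mathlib
import Pool.Agent.L7h19.RP.SFin
import Pool.Agent.L7h19.RP.Cls

/-!
# Project RP, short intervals: the families given by sets of polynomials
-/

set_option autoImplicit false

namespace Pool.Agent.L7h19.RP

open Finset Polynomial Pool.Agent.W262.RK Pool.Agent.W307.RT Pool.Agent.L7h19.RJ

variable {ι : Type} [Fintype ι] [DecidableEq ι] {J : Type} [Fintype J] [DecidableEq J]

/-- the majorant of the balanced families -/
theorem maj_bal (hp : Parts) (cls : ι → J → Option (Fin 4)) (n : ι → ℕ) (P : Finset J)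
    (h1 : ∀ i, ∀ j ∉ P, cls i j ≠ none → cls i j ≠ some 3 → ∀ i', i' ≠ i → cls i' j = none)
    (h2 : ∀ j ∉ P, ∃ i, cls i j ≠ none)
    (h3 : ∀ i (c : Fin 4), c ≠ 3 →
      (univ.filter (fun j => j ∉ P ∧ cls i j = some c)).card = n i)
    (a : ι → Fin 3 → ℤ) (f : J → ℤ[X]) (ha : ∀ i k, a i k ≠ 0) (hf : ∀ j, Irreducible (f j))
    (hd : ∀ j, 0 < (f j).natDegree) (hnd : ∀ j l, j ≠ l → ¬ f j ∣ f l) :
    MajP cls P a f := by
  intro c
  refine majr hp.ep hp.bw (fun i (j : Jp P) => cls i j.1) n (fun i j => h1 i j.1 j.2)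
    (fun j => h2 j.1 j.2) (fun i e he => ?_)
    (fun i (j : Jp P) => kapP (cls i) (a i) f j.1) (fun j : Jp P => f j.1)
    (fun j => hf j.1) (fun j => hd j.1) (fun i j k => kapP_nd hf hd hnd (ha i) j.1 k) c
  rw [← h3 i e he]
  refine card_bij (fun j _ => j.1) (fun j hj => ?_) (fun j _ j' _ h => Subtype.ext h)
    (fun j hj => ?_)
  · rw [mem_filter] at hj ⊢
    exact ⟨mem_univ _, j.2, hj.2⟩
  · rw [mem_filter] at hj
    exact ⟨⟨j, hj.2.1⟩, mem_filter.2 ⟨mem_univ _, hj.2.2⟩, rfl⟩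

/-- the sum over short intervals, for balanced families -/
theorem short_bal (hp : Parts) (cls : ι → J → Option (Fin 4)) (n : ι → ℕ) (P : Finset J)
    (h1 : ∀ i, ∀ j ∉ P, cls i j ≠ none → cls i j ≠ some 3 → ∀ i', i' ≠ i → cls i' j = none)
    (h3 : ∀ i (c : Fin 4), c ≠ 3 →
      (univ.filter (fun j => j ∉ P ∧ cls i j = some c)).card = n i)
    (a : ι → Fin 3 → ℤ) (f : J → ℤ[X]) (ha : ∀ i k, a i k ≠ 0) (hf : ∀ j, Irreducible (f j))
    (hd : ∀ j, 0 < (f j).natDegree) (hnd : ∀ j l, j ≠ l → ¬ f j ∣ f l)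
    (hF : ∀ i (t : ℤ), FV (cls i) (a i) (vf f t) 0 - FV (cls i) (a i) (vf f t) 1 =
      FV (cls i) (a i) (vf f t) 2) (ε : ℝ) (hε : 0 < ε) :
    ∃ C : ℝ, 0 ≤ C ∧ ∀ (X : ℕ) (u v : ℤ), 1 ≤ X → -(X : ℤ) ≤ u → v ≤ X →
      (X : ℝ) ^ ε ≤ (v : ℝ) - u → (Real.log X) ^ P.card *
      ∑ t ∈ (Icc u v).filter (fun t : ℤ => ∀ j ∈ P, (vf f t j).natAbs.Prime),
        RRp cls a f t ≤ C * ((v : ℝ) - u) := by
  classical
  set U : J → Prop := fun j => j ∈ P ∨ ∃ i, cls i j ≠ none with hU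
  set cls' : ι → {j // U j} → Option (Fin 4) := fun i j => cls i j.1 with hcls'
  set P' : Finset {j // U j} := univ.filter (fun j => j.1 ∈ P) with hP'
  have hmP : ∀ j : {j // U j}, j ∈ P' ↔ j.1 ∈ P := fun j => by
    rw [hP', mem_filter]; exact ⟨fun h => h.2, fun h => ⟨mem_univ _, h⟩⟩
  have hcard : P'.card = P.card := by
    refine card_bij (fun j _ => j.1) (fun j hj => (hmP j).1 hj) (fun j _ j' _ h => Subtype.ext h)
      (fun j hj => ⟨⟨j, Or.inl hj⟩, (hmP _).2 hj, rfl⟩)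
  have hFJ : ∀ i (t : ℤ) k, FV (cls' i) (a i) (vf (fun j : {j // U j} => f j.1) t) k =
      FV (cls i) (a i) (vf f t) k := by
    intro i t k
    unfold FV
    congr 1
    refine prod_bij (fun l _ => l.1) (fun l hl => ?_) (fun l _ l' _ h => Subtype.ext h)
      (fun l hl => ?_) (fun l _ => rfl)
    · unfold fsJ at hl ⊢
      rw [mem_filter] at hl ⊢
      exact ⟨mem_univ _, hl.2⟩
    · unfold fsJ at hl
      rw [mem_filter] at hl
      have hne : cls i l ≠ none := by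
        rcases hl.2 with h | h <;> rw [h] <;> simp
      refine ⟨⟨l, Or.inr ⟨i, hne⟩⟩, ?_, rfl⟩
      unfold fsJ
      rw [mem_filter]
      exact ⟨mem_univ _, hl.2⟩
  have hnd' : ∀ j l : {j // U j}, j ≠ l → ¬ f j.1 ∣ f l.1 := fun j l hjl =>
    hnd j.1 l.1 (fun h => hjl (Subtype.ext h))
  have hMaj : MajP cls' P' a (fun j : {j // U j} => f j.1) :=
    maj_bal hp cls' n P' (fun i j hj => h1 i j.1 (fun h => hj ((hmP j).2 h)))
    (fun j hj => by
      rcases j.2 with h | h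
      · exact absurd ((hmP j).2 h) hj
      · exact h)
    (fun i c hc => by
      rw [← h3 i c hc]
      refine card_bij (fun j _ => j.1) (fun j hj => ?_) (fun j _ j' _ h => Subtype.ext h)
        (fun j hj => ?_)
      · rw [mem_filter] at hj ⊢
        exact ⟨mem_univ _, fun h => hj.2.1 ((hmP j).2 h), hj.2.2⟩
      · rw [mem_filter] at hj
        refine ⟨⟨j, Or.inr ⟨i, by rw [hj.2.2]; simp⟩⟩, ?_, rfl⟩
        rw [mem_filter]
        exact ⟨mem_univ _, fun h => hj.2.1 ((hmP _).1 h), hj.2.2⟩) a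
    (fun j : {j // U j} => f j.1) ha (fun j => hf j.1) (fun j => hd j.1) hnd'
  obtain ⟨C, hC0, hC⟩ := finS_short hp.sub hp.mod hp.rank cls' P' a (fun j : {j // U j} => f j.1)
    ha (fun j => hf j.1) (fun j => hd j.1) hnd'
    (fun i t => by rw [hFJ, hFJ, hFJ]; exact hF i t) hMaj ε hε
  refine ⟨C, hC0, fun X u v hX hu hv huv => ?_⟩
  have h4 := hC X u v hX hu hv huv
  rw [hcard] at h4
  refine le_trans (le_of_eq ?_) h4
  congr 1
  refine sum_congr ?_ fun t _ => ?_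
  · refine filter_congr fun t _ => ?_
    constructor
    · intro h j hj
      exact h j.1 ((hmP j).1 hj)
    · intro h j hj
      exact h ⟨j, Or.inl hj⟩ ((hmP _).2 hj)
  · unfold RRp
    refine prod_congr rfl fun i _ => ?_
    rw [hFJ, hFJ]

/-- short intervals, families given by sets of polynomials -/
theorem short_sets (hp : Parts) (P : Finset J) (T : ι → Finset J) (S : ι → Fin 3 → Finset J)
    (n : ι → ℕ) (hST : ∀ i k, Disjoint (S i k) (T i))
    (hSS : ∀ i k k', k ≠ k' → Disjoint (S i k) (S i k'))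
    (hex : ∀ i i', i ≠ i' → ∀ k, ∀ j ∈ S i k, j ∉ P → j ∉ T i' ∧ ∀ k', j ∉ S i' k')
    (hn : ∀ i k, (S i k \ P).card = n i)
    (a : ι → Fin 3 → ℤ) (f : J → ℤ[X]) (ha : ∀ i k, a i k ≠ 0) (hf : ∀ j, Irreducible (f j))
    (hd : ∀ j, 0 < (f j).natDegree) (hnd : ∀ j l, j ≠ l → ¬ Associated (f j) (f l))
    (hF : ∀ i, C (a i 0) * (∏ j ∈ T i, f j) * ∏ j ∈ S i 0, f j -
      C (a i 1) * (∏ j ∈ T i, f j) * ∏ j ∈ S i 1, f j =
      C (a i 2) * (∏ j ∈ T i, f j) * ∏ j ∈ S i 2, f j) (ε : ℝ) (hε : 0 < ε) :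
    ∃ C' : ℝ, 0 ≤ C' ∧ ∀ (X : ℕ) (u v : ℤ), 1 ≤ X → -(X : ℤ) ≤ u → v ≤ X →
      (X : ℝ) ^ ε ≤ (v : ℝ) - u → (Real.log X) ^ P.card *
      ∑ t ∈ (Icc u v).filter (fun t : ℤ => ∀ j ∈ P, ((f j).eval t).natAbs.Prime),
        ∏ i, (2 : ℝ) ^ Module.finrank ℤ (EAB
          ((C (a i 0) * (∏ j ∈ T i, f j) * ∏ j ∈ S i 0, f j : ℤ[X]).eval t)
          ((C (a i 1) * (∏ j ∈ T i, f j) * ∏ j ∈ S i 1, f j : ℤ[X]).eval t)).toAffine.Point ≤
        C' * ((v : ℝ) - u) := by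
  have hFV : ∀ i t k, FV (clsS (T i) (S i)) (a i) (vf f t) k =
      (C (a i k) * (∏ j ∈ T i, f j) * ∏ j ∈ S i k, f j : ℤ[X]).eval t :=
    fun i t k => FV_clsS (hST i) (hSS i) (a i) f t k
  obtain ⟨C', hC0, hC⟩ := short_bal hp (fun i => clsS (T i) (S i)) n P
    (fun i j hj h h3 i' hi' => by
      obtain ⟨k, hk⟩ := clsS_ne h h3
      have := hex i i' (Ne.symm hi') k j hk hj
      exact clsS_none this.1 this.2)
    (fun i c hc => by
      have hc' : ∃ k : Fin 3, c = k.castSucc := by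
        revert c
        decide
      obtain ⟨k, rfl⟩ := hc'
      rw [← hn i k]
      congr 1
      ext j
      rw [mem_filter, mem_sdiff, clsS_S (hST i) (hSS i)]
      exact ⟨fun h => ⟨h.2.2, h.2.1⟩, fun h => ⟨mem_univ _, h.2, h.1⟩⟩)
    a f ha hf hd (fun j l hjl h => hnd j l hjl ((hf j).associated_of_dvd (hf l) h))
    (fun i t => by rw [hFV, hFV, hFV, ← eval_sub, hF i]) ε hε
  refine ⟨C', hC0, fun X u v hX hu hv huv => ?_⟩
  have h4 := hC X u v hX hu hv huv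
  refine le_trans (le_of_eq ?_) h4
  congr 1
  refine sum_congr rfl fun t _ => ?_
  unfold RRp
  refine prod_congr rfl fun i _ => ?_
  rw [hFV, hFV]

end Pool.Agent.L7h19.RP
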