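import Mathlib
import Pool.Agent.L7h19.RP.MajN
import Pool.Agent.L7h19.RP.SCls

/-!
# Project RP, short intervals: unbalanced families
-/

set_option autoImplicit false

namespace Pool.Agent.L7h19.RP

open Finset Polynomial Pool.Agent.W262.RK Pool.Agent.W307.RT Pool.Agent.L7h19.RJ

variable {ι : Type} [Fintype ι] [DecidableEq ι] {J : Type} [Fintype J] [DecidableEq J]

/-- the parts for the unbalanced families -/
structure PartsN : Prop where
  up : StUp
  up0 : StUp0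
  bw : StBW
  free : StFree
  comb : StComb
  sub : StSub
  mod : StMod
  rank : StRank

/-- the polynomial `F_k` -/
noncomputable def FP (c : J → Option (Fin 4)) (a : Fin 3 → ℤ) (f : J → ℤ[X]) (k : Fin 3) : ℤ[X] :=
  C (a k) * ∏ l ∈ fsJ c k, f l

lemma sq_kapP {c : J → Option (Fin 4)} {a : Fin 3 → ℤ} {f : J → ℤ[X]} {j : J} {e : Fin 4}
    (he : c j = some e) (h3 : e ≠ 3) (k : Fin 3)
    (h : ¬ SqAt (f j) (FP c a f (cp4 e)) ∧ ¬ SqAt (f j) (-(FP c a f (cp4 e)))) :
    ¬ SqAt (f j) (kapP c a f j k) ∧ ¬ SqAt (f j) (-(kapP c a f j k)) := by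
  have h1 : kapP c a f j k = C (sg4 e) * FP c a f (cp4 e) := by
    unfold kapP FP
    rw [he]
    show (if e = 3 then _ else _ : ℤ[X]) = _
    rw [if_neg h3]
  rw [h1]
  by_cases h2 : e = 2
  · have : sg4 e = 1 := by unfold sg4; rw [if_pos h2]
    rw [this, C_1, one_mul]
    exact h
  · have : sg4 e = -1 := by unfold sg4; rw [if_neg h2]
    rw [this, C_neg, C_1, neg_one_mul, neg_neg]
    exact ⟨h.2, h.1⟩

/-- the majorant of the unbalanced families -/
theorem maj_n (hp : PartsN) (cls : ι → J → Option (Fin 4)) (P Q : Finset J)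
    (h1 : ∀ i, ∀ j ∉ P, cls i j ≠ none → cls i j ≠ some 3 → ∀ i', i' ≠ i → cls i' j = none)
    (h2 : ∀ j ∉ P, ∃ i, cls i j ≠ none)
    (h3 : ∀ i (c : Fin 4), c ≠ 3 →
      (univ.filter (fun j => j ∉ P ∧ cls i j = some c)).card +
      (univ.filter (fun j => j ∉ P ∧ j ∈ Q ∧ cls i j = some c)).card ≤
      (univ.filter (fun j => j ∉ P ∧ ∃ c' : Fin 4, c' ≠ 3 ∧ c' ≠ c ∧ cls i j = some c')).card)
    (a : ι → Fin 3 → ℤ) (f : J → ℤ[X]) (ha : ∀ i k, a i k ≠ 0) (hf : ∀ j, Irreducible (f j))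
    (hd : ∀ j, 0 < (f j).natDegree) (hnd : ∀ j l, j ≠ l → ¬ f j ∣ f l)
    (hsq : ∀ i, ∀ j ∉ P, j ∉ Q → ∀ e : Fin 4, cls i j = some e → e ≠ 3 →
      ¬ SqAt (f j) (FP (cls i) (a i) f (cp4 e)) ∧
      ¬ SqAt (f j) (-(FP (cls i) (a i) f (cp4 e)))) :
    MajP cls P a f := by
  intro c
  have hcard : ∀ (U : J → Prop) [DecidablePred U],
      (univ.filter (fun j : Jp P => U j.1)).card = (univ.filter (fun j : J => j ∉ P ∧ U j)).card := by
    intro U _
    refine card_bij (fun j _ => j.1) (fun j hj => ?_) (fun j _ j' _ h => Subtype.ext h)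
      (fun j hj => ?_)
    · rw [mem_filter] at hj ⊢
      exact ⟨mem_univ _, j.2, hj.2⟩
    · rw [mem_filter] at hj
      exact ⟨⟨j, hj.2.1⟩, mem_filter.2 ⟨mem_univ _, hj.2.2⟩, rfl⟩
  refine majn hp.up hp.up0 hp.bw hp.free hp.comb (fun i (j : Jp P) => cls i j.1)
    (univ.filter (fun j : Jp P => j.1 ∈ Q)) (fun i j => h1 i j.1 j.2)
    (fun j => h2 j.1 j.2) (fun i e he => ?_)
    (fun i (j : Jp P) => kapP (cls i) (a i) f j.1) (fun j : Jp P => f j.1)
    (fun j => hf j.1) (fun j => hd j.1) (fun i j k => kapP_nd hf hd hnd (ha i) j.1 k)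
    (fun i j hjQ hj1 hj2 => ?_) c
  · have h4 := h3 i e he
    rw [filter_filter, hcard (fun j => cls i j = some e),
      hcard (fun j => j ∈ Q ∧ cls i j = some e),
      hcard (fun j => ∃ c' : Fin 4, c' ≠ 3 ∧ c' ≠ e ∧ cls i j = some c')]
    exact h4
  · obtain ⟨e, he⟩ := Option.ne_none_iff_exists'.1 hj1
    have he3 : e ≠ 3 := fun h => hj2 (by rw [he, h])
    exact sq_kapP he he3 0 (hsq i j.1 j.2 (fun h => hjQ (mem_filter.2 ⟨mem_univ _, h⟩)) e he he3)

/-- the sum over short intervals, for unbalanced families -/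
theorem short_n (hp : PartsN) (cls : ι → J → Option (Fin 4)) (P Q : Finset J)
    (h1 : ∀ i, ∀ j ∉ P, cls i j ≠ none → cls i j ≠ some 3 → ∀ i', i' ≠ i → cls i' j = none)
    (h3 : ∀ i (c : Fin 4), c ≠ 3 →
      (univ.filter (fun j => j ∉ P ∧ cls i j = some c)).card +
      (univ.filter (fun j => j ∉ P ∧ j ∈ Q ∧ cls i j = some c)).card ≤
      (univ.filter (fun j => j ∉ P ∧ ∃ c' : Fin 4, c' ≠ 3 ∧ c' ≠ c ∧ cls i j = some c')).card)
    (a : ι → Fin 3 → ℤ) (f : J → ℤ[X]) (ha : ∀ i k, a i k ≠ 0) (hf : ∀ j, Irreducible (f j))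
    (hd : ∀ j, 0 < (f j).natDegree) (hnd : ∀ j l, j ≠ l → ¬ f j ∣ f l)
    (hsq : ∀ i, ∀ j ∉ P, j ∉ Q → ∀ e : Fin 4, cls i j = some e → e ≠ 3 →
      ¬ SqAt (f j) (FP (cls i) (a i) f (cp4 e)) ∧
      ¬ SqAt (f j) (-(FP (cls i) (a i) f (cp4 e))))
    (hF : ∀ i (t : ℤ), FV (cls i) (a i) (vf f t) 0 - FV (cls i) (a i) (vf f t) 1 =
      FV (cls i) (a i) (vf f t) 2) (ε : ℝ) (hε : 0 < ε) :
    ∃ C : ℝ, 0 ≤ C ∧ ∀ (X : ℕ) (u v : ℤ), 1 ≤ X → -(X : ℤ) ≤ u → v ≤ X →
      (X : ℝ) ^ ε ≤ (v : ℝ) - u → (Real.log X) ^ P.card *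
      ∑ t ∈ (Icc u v).filter (fun t : ℤ => ∀ j ∈ P, (vf f t j).natAbs.Prime),
        RRp cls a f t ≤ C * ((v : ℝ) - u) := by
  classical
  set U : J → Prop := fun j => j ∈ P ∨ ∃ i, cls i j ≠ none with hU
  set cls' : ι → {j // U j} → Option (Fin 4) := fun i j => cls i j.1 with hcls'
  set P' : Finset {j // U j} := univ.filter (fun j => j.1 ∈ P) with hP'
  set Q' : Finset {j // U j} := univ.filter (fun j => j.1 ∈ Q) with hQ'
  have hmP : ∀ j : {j // U j}, j ∈ P' ↔ j.1 ∈ P := fun j => by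
    rw [hP', mem_filter]; exact ⟨fun h => h.2, fun h => ⟨mem_univ _, h⟩⟩
  have hmQ : ∀ j : {j // U j}, j ∈ Q' ↔ j.1 ∈ Q := fun j => by
    rw [hQ', mem_filter]; exact ⟨fun h => h.2, fun h => ⟨mem_univ _, h⟩⟩
  have hcard : P'.card = P.card := by
    refine card_bij (fun j _ => j.1) (fun j hj => (hmP j).1 hj) (fun j _ j' _ h => Subtype.ext h)
      (fun j hj => ⟨⟨j, Or.inl hj⟩, (hmP _).2 hj, rfl⟩)
  have hprod : ∀ {R : Type} [CommRing R] (g : J → R) (i : ι) (k : Fin 3),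
      ∏ l ∈ fsJ (cls' i) k, g l.1 = ∏ l ∈ fsJ (cls i) k, g l := by
    intro R _ g i k
    refine prod_bij (fun l _ => l.1) (fun l hl => ?_) (fun l _ l' _ h => Subtype.ext h)
      (fun l hl => ?_) (fun l _ => rfl)
    · unfold fsJ at hl ⊢
      rw [mem_filter] at hl ⊢
      exact ⟨mem_univ _, hl.2⟩
    · unfold fsJ at hl
      rw [mem_filter] at hl
      have hne : cls i l ≠ none := by
        rcases hl.2 with h | h <;> rw [h] <;> simp
      refine ⟨⟨l, Or.inr ⟨i, hne⟩⟩, ?_, rfl⟩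
      unfold fsJ
      rw [mem_filter]
      exact ⟨mem_univ _, hl.2⟩
  have hFJ : ∀ i (t : ℤ) k, FV (cls' i) (a i) (vf (fun j : {j // U j} => f j.1) t) k =
      FV (cls i) (a i) (vf f t) k := by
    intro i t k
    unfold FV
    rw [← hprod (vf f t) i k]
    rfl
  have hFPJ : ∀ i k, FP (cls' i) (a i) (fun j : {j // U j} => f j.1) k =
      FP (cls i) (a i) f k := by
    intro i k
    unfold FP
    rw [← hprod f i k]
  have hnd' : ∀ j l : {j // U j}, j ≠ l → ¬ f j.1 ∣ f l.1 := fun j l hjl =>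
    hnd j.1 l.1 (fun h => hjl (Subtype.ext h))
  have hcard2 : ∀ (V : J → Prop) [DecidablePred V], (∀ j, V j → ∃ i, cls i j ≠ none) →
      (univ.filter (fun j : {j // U j} => j ∉ P' ∧ V j.1)).card =
      (univ.filter (fun j : J => j ∉ P ∧ V j)).card := by
    intro V _ hV
    refine card_bij (fun j _ => j.1) (fun j hj => ?_) (fun j _ j' _ h => Subtype.ext h)
      (fun j hj => ?_)
    · rw [mem_filter] at hj ⊢
      exact ⟨mem_univ _, fun h => hj.2.1 ((hmP j).2 h), hj.2.2⟩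
    · rw [mem_filter] at hj
      refine ⟨⟨j, Or.inr (hV j hj.2.2)⟩, ?_, rfl⟩
      rw [mem_filter]
      exact ⟨mem_univ _, fun h => hj.2.1 ((hmP _).1 h), hj.2.2⟩
  have hMaj : MajP cls' P' a (fun j : {j // U j} => f j.1) :=
    maj_n hp cls' P' Q' (fun i j hj => h1 i j.1 (fun h => hj ((hmP j).2 h)))
    (fun j hj => by
      rcases j.2 with h | h
      · exact absurd ((hmP j).2 h) hj
      · exact h)
    (fun i c hc => by
      have h4 := h3 i c hc
      have e1 := hcard2 (fun j => cls i j = some c) (fun j hj => ⟨i, by rw [hj]; simp⟩)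
      have e2 := hcard2 (fun j => j ∈ Q ∧ cls i j = some c) (fun j hj => ⟨i, by rw [hj.2]; simp⟩)
      have e3 := hcard2 (fun j => ∃ c' : Fin 4, c' ≠ 3 ∧ c' ≠ c ∧ cls i j = some c')
        (fun j ⟨c', _, _, hj⟩ => ⟨i, by rw [hj]; simp⟩)
      have e2' : (univ.filter (fun j : {j // U j} => j ∉ P' ∧ j ∈ Q' ∧ cls' i j = some c)).card =
          (univ.filter (fun j : {j // U j} => j ∉ P' ∧ j.1 ∈ Q ∧ cls i j.1 = some c)).card := by
        simp only [hmQ]
        rfl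
      rw [e2', e2]
      exact (add_le_add_left e1.le _).trans (h4.trans e3.symm.le)) a
    (fun j : {j // U j} => f j.1) ha (fun j => hf j.1) (fun j => hd j.1) hnd'
    (fun i j hjP hjQ e he he3 => by
      rw [hFPJ]
      exact hsq i j.1 (fun h => hjP ((hmP j).2 h)) (fun h => hjQ ((hmQ j).2 h)) e he he3)
  obtain ⟨C, hC0, hC⟩ := finS_short hp.sub hp.mod hp.rank cls' P' a (fun j : {j // U j} => f j.1)
    ha (fun j => hf j.1) (fun j => hd j.1) hnd'
    (fun i t => by rw [hFJ, hFJ, hFJ]; exact hF i t) hMaj ε hε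
  refine ⟨C, hC0, fun X u v hX hu hv huv => ?_⟩
  have h4 := hC X u v hX hu hv huv
  rw [hcard] at h4
  refine le_trans (le_of_eq ?_) h4
  congr 1
  refine sum_congr ?_ fun t _ => ?_
  · refine filter_congr fun t _ => ?_
    constructor
    · intro h j hj
      exact h j.1 ((hmP j).1 hj)
    · intro h j hj
      exact h ⟨j, Or.inl hj⟩ ((hmP _).2 hj)
  · unfold RRp
    refine prod_congr rfl fun i _ => ?_
    rw [hFJ, hFJ]

/-- the polynomial `F_k` of a family given by sets -/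
noncomputable def FS (f : J → ℤ[X]) (c : ℤ) (T S : Finset J) : ℤ[X] :=
  C c * (∏ j ∈ T, f j) * ∏ j ∈ S, f j

lemma FP_clsS {T : Finset J} {S : Fin 3 → Finset J} (hST : ∀ k, Disjoint (S k) T)
    (hSS : ∀ k k', k ≠ k' → Disjoint (S k) (S k')) (a : Fin 3 → ℤ) (f : J → ℤ[X]) (k : Fin 3) :
    FP (clsS T S) a f k = FS f (a k) T (S k) := by
  have h : fsJ (clsS T S) k = T ∪ S k := by
    ext j
    unfold fsJ
    rw [mem_filter, clsS_S hST hSS, clsS_T, mem_union]
    exact ⟨fun h => h.2.symm, fun h => ⟨mem_univ _, h.symm⟩⟩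
  unfold FP FS
  rw [h, prod_union (hST k).symm, mul_assoc]

open Classical in
/-- the elements `j ∉ P` of `S k` such that `F_{k'}` or `-F_{k'}` is a square modulo `f_j`, `k' ≠ k` -/
noncomputable def Qk (f : J → ℤ[X]) (P T : Finset J) (a : Fin 3 → ℤ) (S : Fin 3 → Finset J)
    (k : Fin 3) : Finset J :=
  (S k \ P).filter (fun j => ∃ k', k' ≠ k ∧
    (SqAt (f j) (FS f (a k') T (S k')) ∨ SqAt (f j) (-(FS f (a k') T (S k')))))

/-- short intervals, unbalanced families given by sets of polynomials -/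
theorem short_sets_n (hp : PartsN) (P : Finset J) (T : ι → Finset J) (S : ι → Fin 3 → Finset J)
    (a : ι → Fin 3 → ℤ) (f : J → ℤ[X])
    (hST : ∀ i k, Disjoint (S i k) (T i))
    (hSS : ∀ i k k', k ≠ k' → Disjoint (S i k) (S i k'))
    (hex : ∀ i i', i ≠ i' → ∀ k, ∀ j ∈ S i k, j ∉ P → j ∉ T i' ∧ ∀ k', j ∉ S i' k')
    (hn : ∀ i k, (S i k \ P).card + (Qk f P (T i) (a i) (S i) k).card ≤
      ∑ k' ∈ univ.erase k, (S i k' \ P).card)
    (ha : ∀ i k, a i k ≠ 0) (hf : ∀ j, Irreducible (f j))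
    (hd : ∀ j, 0 < (f j).natDegree) (hnd : ∀ j l, j ≠ l → ¬ Associated (f j) (f l))
    (hF : ∀ i, FS f (a i 0) (T i) (S i 0) - FS f (a i 1) (T i) (S i 1) =
      FS f (a i 2) (T i) (S i 2)) (ε : ℝ) (hε : 0 < ε) :
    ∃ C' : ℝ, 0 ≤ C' ∧ ∀ (X : ℕ) (u v : ℤ), 1 ≤ X → -(X : ℤ) ≤ u → v ≤ X →
      (X : ℝ) ^ ε ≤ (v : ℝ) - u → (Real.log X) ^ P.card *
      ∑ t ∈ (Icc u v).filter (fun t : ℤ => ∀ j ∈ P, ((f j).eval t).natAbs.Prime),
        ∏ i, (2 : ℝ) ^ Module.finrank ℤ (EAB ((FS f (a i 0) (T i) (S i 0)).eval t)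
          ((FS f (a i 1) (T i) (S i 1)).eval t)).toAffine.Point ≤
        C' * ((v : ℝ) - u) := by
  classical
  have hFV : ∀ i t k, FV (clsS (T i) (S i)) (a i) (vf f t) k =
      (FS f (a i k) (T i) (S i k)).eval t :=
    fun i t k => FV_clsS (hST i) (hSS i) (a i) f t k
  have hFPS : ∀ i k, FP (clsS (T i) (S i)) (a i) f k = FS f (a i k) (T i) (S i k) :=
    fun i k => FP_clsS (hST i) (hSS i) (a i) f k
  set Q : Finset J := univ.filter (fun j => ∃ i k, j ∈ Qk f P (T i) (a i) (S i) k) with hQ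
  have hcast : ∀ c : Fin 4, c ≠ 3 → ∃ k : Fin 3, c = k.castSucc := by decide
  have hcast3 : ∀ k : Fin 3, k.castSucc ≠ (3 : Fin 4) := by decide
  have hcp : ∀ k : Fin 3, cp4 k.castSucc ≠ k := by decide
  have hcastinj : ∀ k k' : Fin 3, k.castSucc = k'.castSucc → k = k' := fun k k' h =>
    Fin.castSucc_injective _ h
  obtain ⟨C', hC0, hC⟩ := short_n hp (fun i => clsS (T i) (S i)) P Q
    (fun i j hj h h3 i' hi' => by
      obtain ⟨k, hk⟩ := clsS_ne h h3
      have := hex i i' (Ne.symm hi') k j hk hj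
      exact clsS_none this.1 this.2)
    (fun i c hc => by
      obtain ⟨k, rfl⟩ := hcast c hc
      have e1 : univ.filter (fun j => j ∉ P ∧ clsS (T i) (S i) j = some k.castSucc) = S i k \ P := by
        ext j
        rw [mem_filter, mem_sdiff, clsS_S (hST i) (hSS i)]
        exact ⟨fun h => ⟨h.2.2, h.2.1⟩, fun h => ⟨mem_univ _, h.2, h.1⟩⟩
      have e2 : univ.filter (fun j => j ∉ P ∧ j ∈ Q ∧ clsS (T i) (S i) j = some k.castSucc) =
          Qk f P (T i) (a i) (S i) k := by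
        ext j
        rw [mem_filter, clsS_S (hST i) (hSS i)]
        constructor
        · rintro ⟨-, hjP, hjQ, hjS⟩
          rw [hQ, mem_filter] at hjQ
          obtain ⟨-, i', k', h'⟩ := hjQ
          have hj' := mem_sdiff.1 (mem_filter.1 h').1
          by_cases hi : i' = i
          · subst hi
            by_cases hk : k' = k
            · rw [← hk]; exact h'
            · exact absurd hjS (disjoint_left.1 (hSS i' k' k hk) hj'.1)
          · exact absurd hjS ((hex i' i hi k' j hj'.1 hjP).2 k)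
        · intro h'
          have hj' := mem_sdiff.1 (mem_filter.1 h').1
          exact ⟨mem_univ _, hj'.2, mem_filter.2 ⟨mem_univ _, i, k, h'⟩, hj'.1⟩
      have e3 : (univ.filter (fun j => j ∉ P ∧ ∃ c' : Fin 4, c' ≠ 3 ∧ c' ≠ k.castSucc ∧
          clsS (T i) (S i) j = some c')).card = ∑ k' ∈ univ.erase k, (S i k' \ P).card := by
        rw [← card_biUnion]
        · congr 1
          ext j
          rw [mem_filter, mem_biUnion]
          constructor
          · rintro ⟨-, hjP, c', hc', hne, hj⟩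
            obtain ⟨k', rfl⟩ := hcast c' hc'
            rw [clsS_S (hST i) (hSS i)] at hj
            exact ⟨k', mem_erase.2 ⟨fun h => hne (by rw [h]), mem_univ _⟩, mem_sdiff.2 ⟨hj, hjP⟩⟩
          · rintro ⟨k', hk', hj⟩
            rw [mem_sdiff] at hj
            refine ⟨mem_univ _, hj.2, k'.castSucc, hcast3 k', fun h => ?_, ?_⟩
            · exact (mem_erase.1 hk').1 (hcastinj _ _ h)
            · rw [clsS_S (hST i) (hSS i)]
              exact hj.1
        · intro k1 _ k2 _ h12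
          exact (hSS i k1 k2 h12).mono sdiff_subset sdiff_subset
      rw [e1, e2, e3]
      exact hn i k)
    a f ha hf hd (fun j l hjl h => hnd j l hjl ((hf j).associated_of_dvd (hf l) h))
    (fun i j hjP hjQ e he he3 => by
      obtain ⟨k, rfl⟩ := hcast e he3
      have hjS : j ∈ S i k := (clsS_S (hST i) (hSS i) k).1 he
      have hk : cp4 k.castSucc ≠ k := hcp k
      rw [hFPS]
      have h5 : j ∉ Qk f P (T i) (a i) (S i) k := fun h => hjQ (mem_filter.2 ⟨mem_univ _, i, k, h⟩)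
      unfold Qk at h5
      rw [mem_filter, not_and] at h5
      have h6 := h5 (mem_sdiff.2 ⟨hjS, hjP⟩)
      push Not at h6
      exact h6 _ hk)
    (fun i t => by rw [hFV, hFV, hFV, ← eval_sub, hF i]) ε hε
  refine ⟨C', hC0, fun X u v hX hu hv huv => ?_⟩
  have h4 := hC X u v hX hu hv huv
  refine le_trans (le_of_eq ?_) h4
  congr 1
  refine sum_congr rfl fun t _ => ?_
  unfold RRp
  refine prod_congr rfl fun i _ => ?_
  rw [hFV, hFV]

end Pool.Agent.L7h19.RP
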