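import Mathlib
import Pool.Agent.L7h19.RP.Exp

/-!
# Project RP, rational values of the parameter: the expansion of the sum over the residue classes

The classes modulo `m = ∏ s_j` of the coprime pairs `(u, w)` with `s_j ∣ f_j(u, w)` are given by
`ν = u / w`, a root of `f_j` modulo `s_j`, and `w`, a unit modulo `m`.
-/

set_option autoImplicit false

namespace Pool.Agent.L7h19.RP

open Finset Polynomial Pool.Agent.W262.RK Pool.Agent.W108.RK Pool.Agent.W762.RK2
open Pool.Agent.L7h19.RJ
open AT (gm hq)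

variable {ι : Type} [Fintype ι] [DecidableEq ι] {J : Type} [Fintype J] [DecidableEq J]

/-- the constants at `(ν, w)` -/
def κ2 (κ : ι → J → Fin 3 → ℤ[X]) (e : ι → J → ℕ) (ν w : ℤ) (i : ι) (j : J) (k : Fin 3) : ℤ :=
  w ^ e i j * (κ i j k).eval ν

/-- the units modulo `m` -/
def Un (m : ℕ) : Finset ℕ := (range m).filter (fun w => ∀ p ∈ m.primeFactors, ¬ p ∣ w)

/-- `1 / φ(m)` -/
noncomputable def uw (m : ℕ) : ℝ := ∏ p ∈ m.primeFactors, 1 / ((p : ℝ) - 1)

/-- the sum of the local counts over the residue classes -/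
noncomputable def NBh (cls : ι → J → Option (Fin 4)) (κ : ι → J → Fin 3 → ℤ[X]) (e : ι → J → ℕ)
    (f : J → ℤ[X]) (s : J → ℕ) : ℝ :=
  ∑ ν ∈ Rs f s, ∑ w ∈ Un (∏ j, s j), uw (∏ j, s j) * NBj cls (κ2 κ e (ν : ℤ) (w : ℤ)) s

/-- the exponent of the first constant -/
def nH (v : Bool × Bool) : ℕ :=
  if v = (true, false) then 1 else if v = (false, true) then 2
  else if v = (true, true) then 1 else 0

/-- the exponent of the second constant -/
def nG (v : Bool × Bool) : ℕ :=
  if v = (true, false) then 2 else if v = (false, true) then 1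
  else if v = (true, true) then 1 else 0

/-- the exponent for one curve -/
def no (c : Option (Fin 4)) (v x : Bool × Bool) : ℕ :=
  match c with
  | none => 0
  | some c => if c = 3 then (if x.1 = true then nH v else 0) + (if x.2 = true then nG v else 0)
      else if v = (false, false) ∨ x = (false, false) then 0 else 1

lemma kH_pow (k : Fin 3 → ℤ) (W : ℤ) (v : Bool × Bool) :
    kH (fun l => W * k l) v = W ^ nH v * kH k v := by
  unfold kH nH
  split_ifs <;> ring

lemma kG_pow (k : Fin 3 → ℤ) (W : ℤ) (v : Bool × Bool) :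
    kG (fun l => W * k l) v = W ^ nG v * kG k v := by
  unfold kG nG
  split_ifs <;> ring

lemma ko_pow (c : Option (Fin 4)) (k : Fin 3 → ℤ) (W : ℤ) (v x : Bool × Bool) :
    ko c (fun l => W * k l) v x = W ^ no c v x * ko c k v x := by
  unfold ko no
  cases c with
  | none => simp
  | some c =>
    show (if c = 3 then (if x.1 = true then kH (fun l => W * k l) v else 1) *
        (if x.2 = true then kG (fun l => W * k l) v else 1)
      else if v = (false, false) ∨ x = (false, false) then 1 else W * k 0) =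
      W ^ (if c = 3 then (if x.1 = true then nH v else 0) + (if x.2 = true then nG v else 0)
      else if v = (false, false) ∨ x = (false, false) then 0 else 1) *
      (if c = 3 then (if x.1 = true then kH k v else 1) *
        (if x.2 = true then kG k v else 1)
      else if v = (false, false) ∨ x = (false, false) then 1 else k 0)
    rw [kH_pow, kG_pow]
    split_ifs <;> ring

/-- the exponent of `w` in the constant -/
def NJ (cls : ι → J → Option (Fin 4)) (e : ι → J → ℕ) (a : IJ cls) : ℕ :=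
  ∑ i, e i a.1.1 * no (cls i a.1.1) (a.1.2.1 i) (a.1.2.2 i)

lemma prod_ko2 (cls : ι → J → Option (Fin 4)) (κ : ι → J → Fin 3 → ℤ[X]) (e : ι → J → ℕ)
    (ν w : ℤ) (j : J) (v x : ι → Bool × Bool) :
    ∏ i, ko (cls i j) (κ2 κ e ν w i j) (v i) (x i) =
      w ^ (∑ i, e i j * no (cls i j) (v i) (x i)) *
        ∏ i, ko (cls i j) (κev κ ν i j) (v i) (x i) := by
  have h : ∀ i, ko (cls i j) (κ2 κ e ν w i j) (v i) (x i) =
      w ^ (e i j * no (cls i j) (v i) (x i)) * ko (cls i j) (κev κ ν i j) (v i) (x i) := by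
    intro i
    have := ko_pow (cls i j) (κev κ ν i j) (w ^ e i j) (v i) (x i)
    rw [← pow_mul] at this
    exact this
  rw [prod_congr rfl fun i _ => h i, prod_mul_distrib, prod_pow_eq_pow_sum]

/-- the weights -/
noncomputable def b2 (cls : ι → J → Option (Fin 4)) (κ : ι → J → Fin 3 → ℤ[X]) (e : ι → J → ℕ)
    (f : J → ℤ[X]) (c : ℕ) (a : IJ cls) (p : ℕ) : ℝ :=
  if Even (NJ cls e a) then bJ cls κ f c a p else 0

lemma Jr_pow_left (a : ℤ) (N n : ℕ) : Jr (a ^ N) n = Jr a n ^ N := by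
  induction N with
  | zero => rw [pow_zero, pow_zero, Jr_one_left]
  | succ N ih => rw [pow_succ, pow_succ, Jr_mul_left, ih]

/-- the units modulo a prime -/
def Up (p : ℕ) : Finset ℕ := (range p).filter (fun w => ¬ p ∣ w)

lemma sum_Up_zmod (p : ℕ) [hp : Fact p.Prime] (g : ZMod p → ℝ) :
    ∑ w ∈ Up p, g (w : ZMod p) = ∑ x ∈ univ.filter (fun x : ZMod p => x ≠ 0), g x := by
  haveI : NeZero p := ⟨hp.1.ne_zero⟩
  refine Finset.sum_nbij (fun w : ℕ => (w : ZMod p)) ?_ ?_ ?_ ?_
  · intro w hw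
    unfold Up at hw
    rw [mem_filter, mem_range] at hw
    rw [mem_filter]
    refine ⟨mem_univ _, fun h => hw.2 ?_⟩
    exact (ZMod.natCast_eq_zero_iff w p).1 h
  · intro w hw w' hw' h
    unfold Up at hw hw'
    rw [mem_coe, mem_filter, mem_range] at hw hw'
    have h2 : (w : ZMod p) = (w' : ZMod p) := h
    rw [ZMod.natCast_eq_natCast_iff] at h2
    exact Nat.ModEq.eq_of_lt_of_lt h2 hw.1 hw'.1
  · intro x hx
    rw [mem_coe, mem_filter] at hx
    refine ⟨x.val, ?_, ZMod.natCast_zmod_val x⟩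
    unfold Up
    rw [mem_coe, mem_filter, mem_range]
    refine ⟨ZMod.val_lt x, fun h => hx.2 ?_⟩
    rw [← ZMod.natCast_zmod_val x]
    exact (ZMod.natCast_eq_zero_iff _ p).2 h
  · intro w _
    rfl

lemma card_Up {p : ℕ} (hp : p.Prime) : ((Up p).card : ℝ) = (p : ℝ) - 1 := by
  haveI := Fact.mk hp
  have h := sum_Up_zmod p (fun _ => (1 : ℝ))
  rw [sum_const, sum_const, nsmul_eq_mul, nsmul_eq_mul, mul_one, mul_one] at h
  rw [h]
  have h2 : (univ.filter (fun x : ZMod p => x ≠ 0)).card = p - 1 := by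
    rw [filter_ne' univ (0 : ZMod p), card_erase_of_mem (mem_univ _), card_univ, ZMod.card]
  rw [h2, Nat.cast_sub hp.one_lt.le, Nat.cast_one]

lemma sum_Up {p : ℕ} (hp : p.Prime) (h2 : 2 < p) (N : ℕ) :
    ∑ w ∈ Up p, 1 / ((p : ℝ) - 1) * Jr (w : ℤ) p ^ N = if Even N then 1 else 0 := by
  haveI := Fact.mk hp
  have hp1 : (0 : ℝ) < (p : ℝ) - 1 := by
    have : (2 : ℝ) < p := by exact_mod_cast h2
    linarith
  have hne : ∀ w ∈ Up p, Jr (w : ℤ) p * Jr (w : ℤ) p = 1 := by
    intro w hw
    unfold Up at hw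
    rw [mem_filter] at hw
    have h3 : ¬ (p : ℤ) ∣ (w : ℤ) := fun h => hw.2 (by exact_mod_cast h)
    rw [Jr_dvd_ne hp h3]
    unfold sg
    split_ifs <;> norm_num
  split_ifs with hN
  · obtain ⟨m, hm⟩ := hN
    have h3 : ∀ w ∈ Up p, 1 / ((p : ℝ) - 1) * Jr (w : ℤ) p ^ N = 1 / ((p : ℝ) - 1) := by
      intro w hw
      rw [hm, pow_add, ← mul_pow, hne w hw, one_pow, mul_one]
    rw [sum_congr rfl h3, sum_const, nsmul_eq_mul, card_Up hp]
    field_simp
  · rw [Nat.not_even_iff_odd] at hN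
    obtain ⟨m, hm⟩ := hN
    have h3 : ∀ w ∈ Up p, 1 / ((p : ℝ) - 1) * Jr (w : ℤ) p ^ N =
        1 / ((p : ℝ) - 1) * Jr (w : ℤ) p := by
      intro w hw
      rw [hm, pow_succ, two_mul, pow_add, ← mul_pow, hne w hw, one_pow, one_mul]
    rw [sum_congr rfl h3, ← mul_sum]
    have h4 : ∑ w ∈ Up p, Jr (w : ℤ) p = 0 := by
      have h5 : ∀ w ∈ Up p, Jr (w : ℤ) p =
          (fun x : ZMod p => ((quadraticChar (ZMod p) x : ℤ) : ℝ)) (w : ZMod p) := by
        intro w _
        unfold Jr
        rw [← jacobiSym.legendreSym.to_jacobiSym]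
        unfold legendreSym
        simp
      rw [sum_congr rfl h5, sum_Up_zmod p (fun x : ZMod p => ((quadraticChar (ZMod p) x : ℤ) : ℝ)),
        sum_filter]
      have h6 : ∀ x : ZMod p, (if x ≠ 0 then ((quadraticChar (ZMod p) x : ℤ) : ℝ) else 0) =
          ((quadraticChar (ZMod p) x : ℤ) : ℝ) := by
        intro x
        by_cases hx : x = 0
        · rw [if_neg (not_not.2 hx), hx]
          simp
        · rw [if_pos hx]
      rw [sum_congr rfl fun x _ => h6 x, ← Int.cast_sum, quadraticChar_sum_zero, Int.cast_zero]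
      rw [ZMod.ringChar_zmod_n]
      omega
    rw [h4, mul_zero]

end Pool.Agent.L7h19.RP
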