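import Mathlib
import Pool.Agent.L7h19.RP.HExp

/-!
# Project RP, rational values of the parameter: the expansion
-/

set_option autoImplicit false

namespace Pool.Agent.L7h19.RP

open Finset Polynomial Pool.Agent.W262.RK Pool.Agent.W108.RK Pool.Agent.W762.RK2
open Pool.Agent.L7h19.RJ
open AT (gm hq)

variable {ι : Type} [Fintype ι] [DecidableEq ι] {J : Type} [Fintype J] [DecidableEq J] {z y : ℕ}

lemma κ2_mod (κ : ι → J → Fin 3 → ℤ[X]) (e : ι → J → ℕ) {ν ν' w w' : ℤ} {p : ℕ}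
    (h1 : ν ≡ ν' [ZMOD p]) (h2 : w ≡ w' [ZMOD p]) (i : ι) (j : J) (k : Fin 3) :
    κ2 κ e ν w i j k ≡ κ2 κ e ν' w' i j k [ZMOD p] :=
  (h2.pow _).mul (eval_mod (κ i j k) h1)

open Classical in
/-- the local sum at `p` -/
noncomputable def gh (cls : ι → J → Option (Fin 4)) (κ : ι → J → Fin 3 → ℤ[X]) (e : ι → J → ℕ)
    (f : J → ℤ[X]) (s : J → ℕ) (d : ι → ℕ × ℕ) (p ν w : ℕ) : ℝ :=
  if (∀ j, p ∣ s j → (p : ℤ) ∣ (f j).eval (ν : ℤ)) ∧ ¬ p ∣ w then
    1 / ((p : ℝ) - 1) *
      ((Ilj cls (κ2 κ e ν w) s d true p + Ilj cls (κ2 κ e ν w) s d false p) / 2) else 0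

lemma Ilj_mod (cls : ι → J → Option (Fin 4)) (κ : ι → J → Fin 3 → ℤ[X]) (e : ι → J → ℕ)
    (s : J → ℕ) (d : ι → ℕ × ℕ) (neg : Bool) {p : ℕ} {ν ν' w w' : ℤ}
    (h1 : ν ≡ ν' [ZMOD p]) (h2 : w ≡ w' [ZMOD p]) :
    Ilj cls (κ2 κ e ν w) s d neg p = Ilj cls (κ2 κ e ν' w') s d neg p := by
  unfold Ilj
  refine prod_congr rfl fun i _ => ?_
  congr 1
  refine propext (forall_congr' fun j => forall_congr' fun _ => ?_)
  rw [LLo_mod (c := cls i j) (k := κ2 κ e ν w i j) (k' := κ2 κ e ν' w' i j)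
    (fun l => κ2_mod κ e h1 h2 i j l) neg _ _ _ _]

lemma gh_mod1 (cls : ι → J → Option (Fin 4)) (κ : ι → J → Fin 3 → ℤ[X]) (e : ι → J → ℕ)
    (f : J → ℤ[X]) (s : J → ℕ) (d : ι → ℕ × ℕ) (p ν w : ℕ) :
    gh cls κ e f s d p (ν % p) w = gh cls κ e f s d p ν w := by
  unfold gh
  have h3 : (∀ j, p ∣ s j → (p : ℤ) ∣ (f j).eval ((ν % p : ℕ) : ℤ)) ↔
      ∀ j, p ∣ s j → (p : ℤ) ∣ (f j).eval (ν : ℤ) :=
    forall_congr' fun j => forall_congr' fun _ => (eval_mod (f j) (mod_self ν p)).dvd_iff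
  have h4 : ∀ neg, Ilj cls (κ2 κ e ((ν % p : ℕ) : ℤ) w) s d neg p =
      Ilj cls (κ2 κ e (ν : ℤ) w) s d neg p := fun neg =>
    Ilj_mod cls κ e s d neg (mod_self ν p) (Int.ModEq.refl _)
  rw [h4, h4]
  exact if_congr (and_congr h3 Iff.rfl) rfl rfl

lemma gh_mod2 (cls : ι → J → Option (Fin 4)) (κ : ι → J → Fin 3 → ℤ[X]) (e : ι → J → ℕ)
    (f : J → ℤ[X]) (s : J → ℕ) (d : ι → ℕ × ℕ) (p ν w : ℕ) :
    gh cls κ e f s d p ν (w % p) = gh cls κ e f s d p ν w := by
  unfold gh
  have h4 : ∀ neg, Ilj cls (κ2 κ e (ν : ℤ) ((w % p : ℕ) : ℤ)) s d neg p =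
      Ilj cls (κ2 κ e (ν : ℤ) w) s d neg p := fun neg =>
    Ilj_mod cls κ e s d neg (Int.ModEq.refl _) (mod_self w p)
  rw [h4, h4]
  refine if_congr (and_congr Iff.rfl (not_congr ?_)) rfl rfl
  exact Nat.dvd_mod_iff (dvd_refl p)

lemma sqf_prod {s : J → ℕ} (hs : s ∈ Tup J z y) : Squarefree (∏ j, s j) := by
  apply Finset.squarefree_prod_of_pairwise_isCoprime
  · intro i _ j _ hij
    exact Nat.coprime_iff_isRelPrime.1 ((mem_Tup.1 hs).2 i j hij)
  · intro j _
    exact sqf_of_mem hs j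

lemma root_iff (f : J → ℤ[X]) {s : J → ℕ} (hs : s ∈ Tup J z y) (r : ℕ) :
    (∀ j, (s j : ℤ) ∣ (f j).eval (r : ℤ)) ↔
      ∀ p ∈ (∏ j, s j).primeFactors, ∀ j, p ∣ s j → (p : ℤ) ∣ (f j).eval (r : ℤ) := by
  constructor
  · intro h p _ j hj
    exact (Int.natCast_dvd_natCast.2 hj).trans (h j)
  · intro h j
    have h1 : (s j : ℤ) = ∏ p ∈ (s j).primeFactors, (p : ℤ) := by
      conv_lhs => rw [← Nat.prod_primeFactors_of_squarefree (sqf_of_mem hs j)]
      push_cast
      rfl
    rw [h1]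
    refine Finset.prod_dvd_of_coprime ?_ ?_
    · intro p hp q hq hpq
      exact Nat.isCoprime_iff_coprime.2 ((Nat.coprime_primes (Nat.prime_of_mem_primeFactors hp)
        (Nat.prime_of_mem_primeFactors hq)).2 hpq)
    · intro p hp
      exact h p (Nat.mem_primeFactors.2 ⟨Nat.prime_of_mem_primeFactors hp,
        (Nat.dvd_of_mem_primeFactors hp).trans (dvd_prod_of_mem _ (mem_univ j)),
        (sqf_prod hs).ne_zero⟩) j (Nat.dvd_of_mem_primeFactors hp)

open Classical in
lemma NBh_eq (cls : ι → J → Option (Fin 4)) (κ : ι → J → Fin 3 → ℤ[X]) (e : ι → J → ℕ)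
    (f : J → ℤ[X]) {s : J → ℕ} (hs : s ∈ Tup J z y) :
    NBh cls κ e f s = ∑ d ∈ DD ι (∏ j, s j), ∏ p ∈ (∏ j, s j).primeFactors,
      ∑ ν ∈ range p, ∑ w ∈ range p, gh cls κ e f s d p ν w := by
  have hsqf := sqf_prod hs
  have hm : ∏ p ∈ (∏ j, s j).primeFactors, p = ∏ j, s j :=
    Nat.prod_primeFactors_of_squarefree hsqf
  unfold NBh Rs
  rw [Finset.sum_filter]
  have h1 : ∀ ν : ℕ, (if (∀ j, (s j : ℤ) ∣ (f j).eval (ν : ℤ)) then
      ∑ w ∈ Un (∏ j, s j), uw (∏ j, s j) * NBj cls (κ2 κ e (ν : ℤ) (w : ℤ)) s else 0) =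
      ∑ w ∈ range (∏ j, s j), ∑ d ∈ DD ι (∏ j, s j), ∏ p ∈ (∏ j, s j).primeFactors,
        gh cls κ e f s d p ν w := by
    intro ν
    by_cases hr : ∀ j, (s j : ℤ) ∣ (f j).eval (ν : ℤ)
    · rw [if_pos hr]
      unfold Un
      rw [sum_filter]
      refine sum_congr rfl fun w _ => ?_
      by_cases hw : ∀ p ∈ (∏ j, s j).primeFactors, ¬ p ∣ w
      · rw [if_pos hw, NBj_eq cls _ hs, mul_sum]
        refine sum_congr rfl fun d _ => ?_
        unfold uw
        rw [← prod_mul_distrib]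
        refine prod_congr rfl fun p hp => ?_
        unfold gh
        rw [if_pos ⟨(root_iff f hs ν).1 hr p hp, hw p hp⟩]
      · rw [if_neg hw]
        symm
        refine sum_eq_zero fun d _ => ?_
        push Not at hw
        obtain ⟨p, hp, hpw⟩ := hw
        refine prod_eq_zero hp ?_
        unfold gh
        exact if_neg fun h => h.2 hpw
    · rw [if_neg hr]
      symm
      refine sum_eq_zero fun w _ => sum_eq_zero fun d _ => ?_
      have hr' : ¬ ∀ p ∈ (∏ j, s j).primeFactors, ∀ j, p ∣ s j → (p : ℤ) ∣ (f j).eval (ν : ℤ) :=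
        fun h => hr ((root_iff f hs ν).2 h)
      push Not at hr'
      obtain ⟨p, hp, j, hj, hpj⟩ := hr'
      refine prod_eq_zero hp ?_
      unfold gh
      exact if_neg fun h => hpj (h.1 j hj)
  rw [sum_congr rfl fun ν _ => h1 ν]
  have h2 : ∀ ν : ℕ, ∑ w ∈ range (∏ j, s j), ∑ d ∈ DD ι (∏ j, s j),
      ∏ p ∈ (∏ j, s j).primeFactors, gh cls κ e f s d p ν w =
      ∑ d ∈ DD ι (∏ j, s j), ∏ p ∈ (∏ j, s j).primeFactors,
        ∑ w ∈ range p, gh cls κ e f s d p ν w := by
    intro ν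
    rw [sum_comm]
    refine sum_congr rfl fun d _ => ?_
    have h3 := sum_crt_prod (∏ j, s j).primeFactors (fun p hp => Nat.prime_of_mem_primeFactors hp)
      (fun p w => gh cls κ e f s d p ν w) (fun p _ w => gh_mod2 cls κ e f s d p ν w)
    rw [hm] at h3
    exact h3
  rw [sum_congr rfl fun ν _ => h2 ν, sum_comm]
  refine sum_congr rfl fun d _ => ?_
  have h3 := sum_crt_prod (∏ j, s j).primeFactors (fun p hp => Nat.prime_of_mem_primeFactors hp)
    (fun p ν => ∑ w ∈ range p, gh cls κ e f s d p ν w)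
    (fun p _ ν => sum_congr rfl fun w _ => gh_mod1 cls κ e f s d p ν w)
  rw [hm] at h3
  exact h3

/-- the local term -/
noncomputable def Tmh (cls : ι → J → Option (Fin 4)) (κ : ι → J → Fin 3 → ℤ[X]) (e : ι → J → ℕ)
    (f : J → ℤ[X]) (c : ℕ) (ξ : Pr z y → Option (J × (ι → Bool × Bool))) (p : Pr z y) : ℝ :=
  (ξ p).elim 1 fun a => 1 / ((p : ℝ) - c) * ∑ ν ∈ Rt (f a.1) p, ∑ w ∈ Up p, 1 / ((p : ℝ) - 1) *
    (((∏ i, ind (LLo (cls i a.1) (κ2 κ e ν w i a.1) true p
    (a.2 i).1 (a.2 i).2 (sgn p (D1j i ξ)) (sgn p (D2j i ξ)))) + ∏ i, ind (LLo (cls i a.1)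
    (κ2 κ e ν w i a.1) false p (a.2 i).1 (a.2 i).2 (sgn p (D1j i ξ)) (sgn p (D2j i ξ)))) / 2)

lemma lhs_eqh (cls : ι → J → Option (Fin 4)) (κ : ι → J → Fin 3 → ℤ[X]) (e : ι → J → ℕ)
    (f : J → ℤ[X]) (c : ℕ) :
    ∑ s ∈ Tup J z y, NBh cls κ e f s * ∏ j, gw 1 c (s j) =
      ∑ ξ : Pr z y → Option (J × (ι → Bool × Bool)), ∏ p, Tmh cls κ e f c ξ p := by
  classical
  set Ph : (J → ℕ) → (ι → ℕ × ℕ) → ℕ → ℝ := fun s d p =>
    ∑ ν ∈ range p, ∑ w ∈ range p, gh cls κ e f s d p ν w with hPh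
  have h1 : ∀ s ∈ Tup J z y, NBh cls κ e f s * ∏ j, gw 1 c (s j) =
      ∑ d ∈ DD ι (∏ j, s j),
        (∏ p ∈ (∏ j, s j).primeFactors, Ph s d p) * ∏ j, gw 1 c (s j) := by
    intro s hs
    rw [NBh_eq cls κ e f hs, Finset.sum_mul]
  rw [Finset.sum_congr rfl h1, sum_bigj fun s d =>
    (∏ p ∈ (∏ j, s j).primeFactors, Ph s d p) * ∏ j, gw 1 c (s j)]
  refine Finset.sum_congr rfl fun ξ _ => ?_
  have h2 : ∏ j, gw 1 c (SSj ξ j) = ∏ p : Pr z y, ((ξ p).map Prod.fst).elim 1
      fun _ => 1 / ((p : ℝ) - c) := prod_gw (fun _ => 1) c _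
  have h3 : ∏ j, SSj ξ j = nb fun p => ((ξ p).map Prod.fst).isSome := prod_Dl _
  rw [h2, h3, prod_pf _ fun p => Ph (SSj ξ) (fun i => (D1j i ξ, D2j i ξ)) p,
    ← Finset.prod_mul_distrib]
  refine Finset.prod_congr rfl fun p _ => ?_
  unfold Tmh
  cases hx : ξ p with
  | none => simp
  | some a =>
    have e3 : ∀ j, (p : ℕ) ∣ SSj ξ j ↔ j = a.1 := by
      intro j
      unfold SSj Dl
      rw [dvd_nb, decide_eq_true_iff]
      show (ξ p).map Prod.fst = some j ↔ j = a.1
      rw [hx]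
      simp [eq_comm]
    have h4 : ∀ (ν w : ℕ) neg, Ilj cls (κ2 κ e ν w) (SSj ξ) (fun i => (D1j i ξ, D2j i ξ)) neg p =
        ∏ i, ind (LLo (cls i a.1) (κ2 κ e ν w i a.1) neg p (a.2 i).1 (a.2 i).2 (sgn p (D1j i ξ))
          (sgn p (D2j i ξ))) := by
      intro ν w neg
      unfold Ilj
      refine Finset.prod_congr rfl fun i _ => ?_
      have e1 : dv p (D1j i ξ : ℤ) = (a.2 i).1 := by
        have : b1j i (ξ p) = (a.2 i).1 := by rw [hx]; rfl
        rw [← this]
        unfold dv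
        rw [Bool.eq_iff_iff, decide_eq_true_iff, Int.natCast_dvd_natCast]
        exact dvd_nb _ p
      have e2 : dv p (D2j i ξ : ℤ) = (a.2 i).2 := by
        have : b2j i (ξ p) = (a.2 i).2 := by rw [hx]; rfl
        rw [← this]
        unfold dv
        rw [Bool.eq_iff_iff, decide_eq_true_iff, Int.natCast_dvd_natCast]
        exact dvd_nb _ p
      congr 1
      simp only [e1, e2, e3, forall_eq]
    have h5 : Ph (SSj ξ) (fun i => (D1j i ξ, D2j i ξ)) p = ∑ ν ∈ Rt (f a.1) p, ∑ w ∈ Up p,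
        1 / ((p : ℝ) - 1) * (((∏ i, ind (LLo (cls i a.1) (κ2 κ e ν w i a.1) true p
        (a.2 i).1 (a.2 i).2 (sgn p (D1j i ξ)) (sgn p (D2j i ξ)))) + ∏ i, ind (LLo (cls i a.1)
        (κ2 κ e ν w i a.1) false p (a.2 i).1 (a.2 i).2 (sgn p (D1j i ξ)) (sgn p (D2j i ξ)))) / 2) := by
      simp only [hPh]
      unfold Rt Up
      rw [Finset.sum_filter]
      refine sum_congr rfl fun ν _ => ?_
      by_cases hν : ((p : ℕ) : ℤ) ∣ (f a.1).eval (ν : ℤ)
      · rw [if_pos hν, sum_filter]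
        refine sum_congr rfl fun w _ => ?_
        unfold gh
        rw [h4, h4]
        refine if_congr ?_ rfl rfl
        constructor
        · exact fun h => h.2
        · refine fun h => ⟨fun j hj => ?_, h⟩
          rw [(e3 j).1 hj]
          exact hν
      · rw [if_neg hν]
        refine sum_eq_zero fun w _ => ?_
        unfold gh
        exact if_neg fun h => hν (h.1 a.1 ((e3 a.1).2 rfl))
    rw [h5]
    simp only [Option.map_some, Option.isSome_some, if_true, Option.elim]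
    ring

/-- the local factor -/
noncomputable def Gh (cls : ι → J → Option (Fin 4)) (κ : ι → J → Fin 3 → ℤ[X]) (e : ι → J → ℕ)
    (f : J → ℤ[X]) (c : ℕ) (ξ : Pr z y → Option (J × (ι → Bool × Bool))) (p : Pr z y)
    (x : Option (IJ cls)) : ℝ :=
  x.elim 1 fun a => b2 cls κ e f c a p *
    ∏ i, ((if (a.1.2.2 i).1 = true then sg (sgn p (D1j i ξ)) else 1) *
      (if (a.1.2.2 i).2 = true then sg (sgn p (D2j i ξ)) else 1))

lemma sum_Gh (cls : ι → J → Option (Fin 4)) (κ : ι → J → Fin 3 → ℤ[X]) (e : ι → J → ℕ)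
    (f : J → ℤ[X]) (c : ℕ)
    (ξ : Pr z y → Option (J × (ι → Bool × Bool))) (p : Pr z y) (hp2 : 2 < (p : ℕ))
    (hk : ∀ j (t : ℤ), ((p : ℕ) : ℤ) ∣ (f j).eval t → ∀ i l, ¬ ((p : ℕ) : ℤ) ∣ (κ i j l).eval t) :
    ∑ x ∈ univ.filter (fun x : Option (IJ cls) => fgj x = ξ p), Gh cls κ e f c ξ p x =
      Tmh cls κ e f c ξ p := by
  rw [Finset.sum_filter, Fintype.sum_option]
  unfold Tmh
  cases hx : ξ p with
  | none => simp [fgj, Gh]
  | some a =>
    obtain ⟨j, v⟩ := a
    have h0 : (if fgj (none : Option (IJ cls)) = some (j, v) then Gh cls κ e f c ξ p none else 0) =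
        0 := by
      rw [if_neg]
      simp [fgj]
    rw [h0, zero_add]
    set F : J × (ι → Bool × Bool) × (ι → Bool × Bool) → ℝ := fun r =>
          if r.1 = j ∧ r.2.1 = v then 1 / ((p : ℝ) - c) * ∑ ν ∈ Rt (f r.1) p, ∑ w ∈ Up p,
            1 / ((p : ℝ) - 1) * ((∏ i, wo (cls i r.1)) *
            Jr (∏ i, ko (cls i r.1) (κ2 κ e ν w i r.1) (r.2.1 i) (r.2.2 i)) p *
            ∏ i, ((if (r.2.2 i).1 = true then sg (sgn p (D1j i ξ)) else 1) *
            (if (r.2.2 i).2 = true then sg (sgn p (D2j i ξ)) else 1))) else 0 with hF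
    have h1 : ∀ a : IJ cls, (if fgj (some a) = some (j, v) then Gh cls κ e f c ξ p (some a) else 0) =
        F a.1 := by
      intro a
      refine if_congr ?_ ?_ rfl
      · simp only [fgj, Option.map_some, Option.some.injEq, Prod.mk.injEq]
      · have e1 : ∀ ν w : ℕ, Jr (∏ i, ko (cls i a.1.1) (κ2 κ e ν w i a.1.1) (a.1.2.1 i)
            (a.1.2.2 i)) p = Jr (w : ℤ) p ^ NJ cls e a * Jr ((κJP cls κ a).eval (ν : ℤ)) p := by
          intro ν w
          rw [prod_ko2, Jr_mul_left, Jr_pow_left, eval_κJP]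
          rfl
        have e2 : ∀ ν ∈ Rt (f a.1.1) p, ∑ w ∈ Up p,
            1 / (((p : ℕ) : ℝ) - 1) * ((∏ i, wo (cls i a.1.1)) *
            Jr (∏ i, ko (cls i a.1.1) (κ2 κ e ν w i a.1.1) (a.1.2.1 i) (a.1.2.2 i)) p *
            ∏ i, ((if (a.1.2.2 i).1 = true then sg (sgn p (D1j i ξ)) else 1) *
            (if (a.1.2.2 i).2 = true then sg (sgn p (D2j i ξ)) else 1))) =
            (if Even (NJ cls e a) then 1 else 0) * ((∏ i, wo (cls i a.1.1)) *
            Jr ((κJP cls κ a).eval (ν : ℤ)) p *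
            ∏ i, ((if (a.1.2.2 i).1 = true then sg (sgn p (D1j i ξ)) else 1) *
            (if (a.1.2.2 i).2 = true then sg (sgn p (D2j i ξ)) else 1))) := by
          intro ν _
          rw [← sum_Up (Pr_prime p) hp2 (NJ cls e a), sum_mul]
          refine sum_congr rfl fun w _ => ?_
          rw [e1]
          ring
        unfold Gh b2 bJ bw
        simp only [Option.elim]
        rw [sum_congr rfl e2]
        by_cases hN : Even (NJ cls e a)
        · rw [if_pos hN]
          simp only [if_pos hN, one_mul]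
          unfold Rt
          rw [mul_sum, mul_sum, sum_mul]
          refine sum_congr rfl fun ν _ => ?_
          unfold wJ
          ring
        · rw [if_neg hN]
          simp only [if_neg hN, zero_mul, sum_const_zero, mul_zero]
    refine (Finset.sum_congr rfl fun i _ => h1 i).trans ((sum_IJ cls F).trans ?_)
    rw [Fintype.sum_prod_type, Finset.sum_eq_single j]
    · rw [Fintype.sum_prod_type, Finset.sum_eq_single v]
      · show _ = 1 / ((p : ℝ) - c) * _
        have h2 : ∀ ν ∈ Rt (f j) p, ∑ w ∈ Up p, 1 / ((p : ℝ) - 1) *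
            (((∏ i, ind (LLo (cls i j) (κ2 κ e ν w i j) true p
            (v i).1 (v i).2 (sgn p (D1j i ξ)) (sgn p (D2j i ξ)))) + ∏ i, ind (LLo (cls i j)
            (κ2 κ e ν w i j) false p (v i).1 (v i).2 (sgn p (D1j i ξ)) (sgn p (D2j i ξ)))) / 2) =
            ∑ x : ι → Bool × Bool, if AlJ (fun i => cls i j) v x = true then
            ∑ w ∈ Up p, 1 / ((p : ℝ) - 1) *
        ((∏ i, wo (cls i j)) * Jr (∏ i, ko (cls i j) (κ2 κ e ν w i j) (v i) (x i)) p *
          ∏ i, ((if (x i).1 = true then sg (sgn p (D1j i ξ)) else 1) *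
            (if (x i).2 = true then sg (sgn p (D2j i ξ)) else 1))) else 0 := by
          intro ν hν
          have h3 : ∀ w ∈ Up p, 1 / ((p : ℝ) - 1) *
            (((∏ i, ind (LLo (cls i j) (κ2 κ e ν w i j) true p
            (v i).1 (v i).2 (sgn p (D1j i ξ)) (sgn p (D2j i ξ)))) + ∏ i, ind (LLo (cls i j)
            (κ2 κ e ν w i j) false p (v i).1 (v i).2 (sgn p (D1j i ξ)) (sgn p (D2j i ξ)))) / 2) =
            ∑ x : ι → Bool × Bool, if AlJ (fun i => cls i j) v x = true then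
            1 / ((p : ℝ) - 1) *
        ((∏ i, wo (cls i j)) * Jr (∏ i, ko (cls i j) (κ2 κ e ν w i j) (v i) (x i)) p *
          ∏ i, ((if (x i).1 = true then sg (sgn p (D1j i ξ)) else 1) *
            (if (x i).2 = true then sg (sgn p (D2j i ξ)) else 1))) else 0 := by
            intro w hw
            unfold Up at hw
            rw [mem_filter] at hw
            have h4 : ∀ i l, ¬ ((p : ℕ) : ℤ) ∣ κ2 κ e ν w i j l := by
              intro i l h
              unfold κ2 at h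
              rcases (Nat.prime_iff_prime_int.1 (Pr_prime p)).dvd_or_dvd h with h5 | h5
              · have h6 := (Nat.prime_iff_prime_int.1 (Pr_prime p)).dvd_of_dvd_pow h5
                exact hw.2 (by exact_mod_cast h6)
              · exact hk j ν (mem_filter.1 hν).2 i l h5
            rw [loc_joint (fun i => cls i j) (fun i => κ2 κ e ν w i j) (Pr_prime p)
              h4 v _ _, mul_sum]
            refine sum_congr rfl fun x _ => ?_
            by_cases hA : AlJ (fun i => cls i j) v x = true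
            · rw [if_pos hA, if_pos hA]
            · rw [if_neg hA, if_neg hA, mul_zero]
          rw [sum_congr rfl h3, sum_comm]
          refine sum_congr rfl fun x _ => ?_
          by_cases hA : AlJ (fun i => cls i j) v x = true
          · simp only [if_pos hA]
          · simp only [if_neg hA, sum_const_zero]
        rw [sum_congr rfl h2, sum_comm, Finset.mul_sum]
        refine Finset.sum_congr rfl fun x _ => ?_
        by_cases hA : AlJ (fun i => cls i j) v x = true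
        · simp only [hF, and_self, if_true, hA]
        · simp only [hA]
          simp
      · intro v' _ hv'
        refine Finset.sum_eq_zero fun x _ => ?_
        simp [hF, hv']
      · intro h
        exact absurd (Finset.mem_univ _) h
    · intro j' _ hj'
      refine Finset.sum_eq_zero fun x _ => ?_
      simp [hF, hj']
    · intro h
      exact absurd (Finset.mem_univ _) h

lemma rhs_termh (cls : ι → J → Option (Fin 4)) (κ : ι → J → Fin 3 → ℤ[X]) (e : ι → J → ℕ)
    (f : J → ℤ[X]) (c : ℕ)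
    (ξ : Pr z y → Option (J × (ι → Bool × Bool))) (l : Pr z y → Option (IJ cls))
    (h : ∀ p, fgj (l p) = ξ p) :
    (∏ a, gm (b2 cls κ e f c a) (Dl l a)) *
      Pool.Agent.W262.RK.Sym (LJ cls) (fun _ => 1) (Dl l) =
      ∏ p, Gh cls κ e f c ξ p (l p) := by
  rw [prod_gm, Sym_Dl, ← Finset.prod_mul_distrib, ← Finset.prod_mul_distrib]
  refine Finset.prod_congr rfl fun p _ => ?_
  cases hl : l p with
  | none =>
    have h0 : ∀ q, lk (LJ cls) (l q) none = false := by
      intro q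
      cases l q <;> rfl
    simp [h0, Gh]
  | some a =>
    have hAl := PR_self a
    have h1 : ∀ q, lk (LJ cls) (l q) (some a) =
        PR (fun i => (b1j i (ξ q), b2j i (ξ q))) a.1.2.2 := by
      intro q
      rw [← h q]
      cases hq : l q with
      | none =>
        have : (fun i : ι => (b1j i (fgj (none : Option (IJ cls))),
            b2j i (fgj (none : Option (IJ cls))))) = fun _ => (false, false) := by
          funext i
          rfl
        rw [this, PR_zero]
        rfl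
      | some a' => rfl
    have h2 : ∏ q : Pr z y, (if lk (LJ cls) (l q) (some a) = true then Jr (q : ℕ) p else 1) =
        ∏ i, ((if (a.1.2.2 i).1 = true then sg (sgn p (D1j i ξ)) else 1) *
      (if (a.1.2.2 i).2 = true then sg (sgn p (D2j i ξ)) else 1)) := by
      have h3 : ∀ a : Bool, ∀ b : Pr z y → Bool, (if a = true then sg (sgn p (nb b : ℤ)) else 1) =
          ∏ q : Pr z y, if a = true then (if q ≠ p ∧ b q = true then Jr (q : ℕ) p else 1)
            else 1 := by
        intro a b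
        cases a
        · simp
        · simp only [if_true]
          exact sgn_nb b p
      have h4 : ∀ i, ((if (a.1.2.2 i).1 = true then sg (sgn p (D1j i ξ)) else 1) *
          (if (a.1.2.2 i).2 = true then sg (sgn p (D2j i ξ)) else 1)) =
          ∏ q : Pr z y, ((if (a.1.2.2 i).1 = true then
            (if q ≠ p ∧ b1j i (ξ q) = true then Jr (q : ℕ) p else 1) else 1) *
          (if (a.1.2.2 i).2 = true then
            (if q ≠ p ∧ b2j i (ξ q) = true then Jr (q : ℕ) p else 1) else 1)) := by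
        intro i
        unfold D1j D2j
        rw [h3, h3, ← Finset.prod_mul_distrib]
      rw [Finset.prod_congr rfl fun i _ => h4 i, Finset.prod_comm]
      refine Finset.prod_congr rfl fun q _ => ?_
      rw [h1]
      refine bits_eqj q p _ _ fun hqp => ?_
      rw [hqp, ← h p, hl]
      exact hAl
    rw [h2]
    unfold Gh
    simp only [Option.elim, Jr_one_left]
    ring

/-- the expansion of the sum over the residue classes into symbols -/
theorem exph {ι : Type} [Fintype ι] [DecidableEq ι] {J : Type} [Fintype J] [DecidableEq J]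
    (cls : ι → J → Option (Fin 4)) (κ : ι → J → Fin 3 → ℤ[X]) (e : ι → J → ℕ) (f : J → ℤ[X])
    (c z y : ℕ) (hz : 2 ≤ z)
    (hκ : ∀ p : ℕ, p.Prime → z < p → ∀ j (t : ℤ), (p : ℤ) ∣ (f j).eval t →
      ∀ i k, ¬ (p : ℤ) ∣ (κ i j k).eval t) :
    ∑ s ∈ Tup J z y, NBh cls κ e f s * ∏ j, gw 1 c (s j) =
      ∑ d ∈ Tup (IJ cls) z y, (∏ a, gm (b2 cls κ e f c a) (d a)) *
        Pool.Agent.W262.RK.Sym (LJ cls) (fun _ => 1) d := by
  classical
  rw [lhs_eqh, sum_Tup, ← Finset.sum_fiberwise univ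
    (fun (l : Pr z y → Option (IJ cls)) => fun p => fgj (l p))]
  refine Finset.sum_congr rfl fun ξ _ => ?_
  have h1 : (univ.filter fun l : Pr z y → Option (IJ cls) => (fun p => fgj (l p)) = ξ) =
      Fintype.piFinset (fun p => univ.filter (fun x : Option (IJ cls) => fgj x = ξ p)) := by
    ext l
    simp only [Finset.mem_filter, Finset.mem_univ, true_and, Fintype.mem_piFinset, funext_iff]
  have hzp : ∀ p : Pr z y, z < p := by
    intro p
    have := p.2
    unfold PS at this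
    exact (Finset.mem_Ioc.1 (Finset.mem_filter.1 this).1).1
  have hk : ∀ p : Pr z y, ∀ j (t : ℤ), ((p : ℕ) : ℤ) ∣ (f j).eval t →
      ∀ i l, ¬ ((p : ℕ) : ℤ) ∣ (κ i j l).eval t := fun p => hκ p (Pr_prime p) (hzp p)
  rw [h1, Finset.prod_congr rfl fun p _ => (sum_Gh cls κ e f c ξ p
    (by have := hzp p; omega) (hk p)).symm, Finset.prod_univ_sum]
  refine Finset.sum_congr rfl fun l hl => ?_
  rw [Fintype.mem_piFinset] at hl
  exact (rhs_termh cls κ e f c ξ l fun p => (Finset.mem_filter.1 (hl p)).2).symm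

end Pool.Agent.L7h19.RP
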