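import Mathlib
import Pool.Agent.L7h19.RP.HExp2
import Pool.Agent.L7h19.RP.Maj
import Pool.Agent.L7h19.RJ.Ext

/-!
# Project RP, rational values of the parameter: the average of the majorant
-/

set_option autoImplicit false

namespace Pool.Agent.L7h19.RP

open Finset Polynomial Pool.Agent.W262.RK Pool.Agent.L7h19.RJ
open Pool.Agent.H474R2.PG (rho)
open Pool.Agent.L7h19.RP.AT (gm hq BWg gm_one)

section restrict

variable {I : Type} [Fintype I] [DecidableEq I] {z y : ℕ}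

lemma Sym_ext1 (P : Finset I) (L : I → I → Bool) (d : Jp P → ℕ) :
    Pool.Agent.W262.RK.Sym L (fun _ => 1) (ext1 P d) =
      Pool.Agent.W262.RK.Sym (fun a b : Jp P => L a.1 b.1) (fun _ => 1) d := by
  unfold Pool.Agent.W262.RK.Sym
  simp only [Pool.Agent.W108.RK.Jr_one_left, prod_const_one, mul_one]
  have h1 := prod_ext1 P (fun (i : I) (n : ℕ) => ∏ j, if L i j = true then
    Jr (n : ℤ) (ext1 P d j) else 1) (fun i => by
      refine prod_eq_one fun j _ => ?_
      split_ifs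
      · exact_mod_cast Pool.Agent.W108.RK.Jr_one_left _
      · rfl) d
  refine h1.trans (prod_congr rfl fun a _ => ?_)
  refine (prod_ext1 P (fun (j : I) (n : ℕ) => if L a.1 j = true then Jr (d a : ℤ) n else 1)
    (fun j => ?_) d)
  split_ifs
  · exact Pool.Agent.W108.RK.Jr_one_right _
  · rfl

lemma sum_Tup_ext1 (P : Finset I) (F : (I → ℕ) → ℝ)
    (hF : ∀ d ∈ Tup I z y, (∃ a ∈ P, d a ≠ 1) → F d = 0) :
    ∑ d ∈ Tup I z y, F d = ∑ d ∈ Tup (Jp P) z y, F (ext1 P d) := by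
  classical
  have hinj : Function.Injective (ext1 P) := by
    intro d d' h
    funext a
    have := congrFun h a.1
    rwa [ext1_val, ext1_val] at this
  rw [← sum_image (f := F) (g := ext1 P) (fun d _ d' _ h => hinj h)]
  symm
  refine sum_subset (fun d hd => ?_) fun d hd hd2 => hF d hd ?_
  · obtain ⟨d', hd', rfl⟩ := mem_image.1 hd
    exact ext1_Tup hd'
  · by_contra hne
    push Not at hne
    apply hd2
    refine mem_image.2 ⟨fun a => d a.1, ?_, ?_⟩
    · rw [mem_Tup'] at hd ⊢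
      exact ⟨fun a => hd.1 a.1, fun a b hab => hd.2 a.1 b.1 fun h => hab (Subtype.ext h)⟩
    · funext a
      by_cases ha : a ∈ P
      · rw [ext1_mem P _ ha, hne a ha]
      · exact ext1_val P (fun a => d a.1) ⟨a, ha⟩

lemma gm_zero {f : ℕ → ℝ} (hf : ∀ p, f p = 0) {d y : ℕ} (hd : d ∣ PP z y) (h1 : d ≠ 1) :
    gm f d = 0 := by
  obtain ⟨p, hp, hpd⟩ := Nat.exists_prime_and_dvd h1
  unfold gm
  exact prod_eq_zero (Nat.mem_primeFactors.2 ⟨hp, hpd, fun h => PP_ne_zero z y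
    (Nat.eq_zero_of_zero_dvd (h ▸ hd))⟩) (hf p)

end restrict

variable {ι : Type} [Fintype ι] [DecidableEq ι] {J : Type} [Fintype J] [DecidableEq J]

/-- the indices with an odd exponent of `w` -/
def Od (cls : ι → J → Option (Fin 4)) (e : ι → J → ℕ) : Finset (IJ cls) :=
  univ.filter (fun a => ¬ Even (NJ cls e a))

lemma ev_of {cls : ι → J → Option (Fin 4)} {e : ι → J → ℕ} (a : Jp (Od cls e)) :
    Even (NJ cls e a.1) := by
  have := a.2
  unfold Od at this
  rw [mem_filter] at this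
  by_contra h
  exact this ⟨mem_univ _, h⟩

theorem exph2 (cls : ι → J → Option (Fin 4)) (κ : ι → J → Fin 3 → ℤ[X]) (e : ι → J → ℕ)
    (f : J → ℤ[X]) (c z y : ℕ) (hz : 2 ≤ z)
    (hκ : ∀ p : ℕ, p.Prime → z < p → ∀ j (t : ℤ), (p : ℤ) ∣ (f j).eval t →
      ∀ i k, ¬ (p : ℤ) ∣ (κ i j k).eval t) :
    ∑ s ∈ Tup J z y, NBh cls κ e f s * ∏ j, gw 1 c (s j) =
      ∑ d ∈ Tup (Jp (Od cls e)) z y, (∏ a, gm (bJ cls κ f c a.1) (d a)) *
        Pool.Agent.W262.RK.Sym (fun a b : Jp (Od cls e) => LJ cls a.1 b.1) (fun _ => 1) d := by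
  rw [exph cls κ e f c z y hz hκ, sum_Tup_ext1 (Od cls e)]
  · refine sum_congr rfl fun d _ => ?_
    rw [Sym_ext1]
    congr 1
    refine (prod_ext1 (Od cls e) (fun a n => gm (b2 cls κ e f c a) n) (fun _ => gm_one _) d).trans ?_
    refine prod_congr rfl fun a _ => ?_
    have h : b2 cls κ e f c a.1 = bJ cls κ f c a.1 := by
      funext p
      unfold b2
      exact if_pos (ev_of a)
    rw [h]
  · rintro d hd ⟨a, ha, ha1⟩
    rw [prod_eq_zero (mem_univ a), zero_mul]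
    refine gm_zero (fun p => ?_) ((mem_Tup'.1 hd).1 a) ha1
    unfold Od at ha
    unfold b2
    exact if_neg (mem_filter.1 ha).2

theorem majh (hEp : StEp) (hBW : StBW) (cls : ι → J → Option (Fin 4)) (e : ι → J → ℕ)
    (h2 : ∀ j, ∃ i, cls i j ≠ none) (K : ℕ)
    (hK : ∀ U : Finset (IJ cls), (∀ a ∈ U, Even (NJ cls e a)) →
      (∀ a ∈ U, ∀ a' ∈ U, LJ cls a a' = LJ cls a' a) → ∑ a ∈ U, wJ cls a ≤ (K : ℝ))
    (κ : ι → J → Fin 3 → ℤ[X]) (f : J → ℤ[X]) (hf : ∀ j, Irreducible (f j))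
    (hd : ∀ j, 0 < (f j).natDegree) (hκ : ∀ i j k, ¬ f j ∣ κ i j k) (c : ℕ) :
    ∃ z0 : ℕ, ∀ z, z0 ≤ z → ∃ C : ℝ, ∀ y, z < y →
      ∑ s ∈ Tup J z y, NBh cls κ e f s * ∏ j, gw 1 c (s j) ≤ C * (Real.log y) ^ K := by
  classical
  set I : Type := Jp (Od cls e) with hI
  have hwJ := fun a : I => wJ_pos cls h2 a.1
  choose z1 B0 A hz1 using fun a : I =>
    hEp (f a.1.1.1) (κJP cls κ a.1) (wJ cls a.1) c (hf _) (hd _) (κJP_nd cls κ hf hκ a.1)
      (hwJ a).1 (hwJ a).2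
  set B : ℕ := ∑ a, B0 a with hB
  set A' : ℕ := ∑ a, A a with hA'
  choose z2 hz2 using fun a : I => stFull (f a.1.1.1) (wJ cls a.1) c B (hf _) (hd _)
    (hwJ a).1 (hwJ a).2
  choose Bκ hBκ using fun (i : ι) (j : J) (k : Fin 3) => large_nd (hf j) (hd j) (hκ i j k)
  choose Br hBr using fun j : J => Pool.Agent.H474R2.PG.rho_le (f j) (hf j).ne_zero
  set G : ℕ := ∑ j, (f j).natDegree with hG
  obtain ⟨C2, E2, hC2, hbw⟩ := hBW (G : ℝ) (Fintype.card I : ℝ) (Nat.cast_nonneg _)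
  refine ⟨∑ a, z1 a + ∑ a, z2 a + Fintype.card I * G + ∑ j, Br j + (2 * c + 4) +
    ∑ i, ∑ j, ∑ k, Bκ i j k, fun z hz => ?_⟩
  have hz1' : ∀ a, z1 a ≤ z := fun a => (le_sum_nat z1 a).trans (by omega)
  have hz2' : ∀ a, z2 a ≤ z := fun a => (le_sum_nat z2 a).trans (by omega)
  have hBr' : ∀ j, Br j ≤ z := fun j => (le_sum_nat Br j).trans (by omega)
  have hBκ' : ∀ i j k, Bκ i j k ≤ z := fun i j k => by
    have e1 := le_sum_nat (fun k => Bκ i j k) k
    have e2 := le_sum_nat (fun j => ∑ k, Bκ i j k) j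
    have e3 := le_sum_nat (fun i => ∑ j, ∑ k, Bκ i j k) i
    have e1' : Bκ i j k ≤ ∑ k, Bκ i j k := e1
    have e2' : ∑ k, Bκ i j k ≤ ∑ j, ∑ k, Bκ i j k := e2
    have e3' : ∑ j, ∑ k, Bκ i j k ≤ ∑ i, ∑ j, ∑ k, Bκ i j k := e3
    omega
  have hB0 : ∀ a, B0 a ≤ B := fun a => le_sum_nat B0 a
  have hAa : ∀ a, A a ≤ A' := fun a => le_sum_nat A a
  choose C1 rx hC1 using fun a : I => hz1 a z B (hz1' a) (hB0 a)
  choose C3 hC3 using fun a : I => hz2 a z (hz2' a)
  set C : ℝ := 1 + ∑ a, |C1 a| + ∑ a, |C3 a| with hC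
  have hs1 : 0 ≤ ∑ a, |C1 a| := sum_nonneg fun _ _ => abs_nonneg _
  have hs3 : 0 ≤ ∑ a, |C3 a| := sum_nonneg fun _ _ => abs_nonneg _
  have hCC1 : ∀ a, C1 a ≤ C := fun a => by have := le_sum_abs C1 a; linarith
  have hCC3 : ∀ a, C3 a ≤ C := fun a => by have := le_sum_abs C3 a; linarith
  have hgaw : ∀ (a : I) (p : ℕ), p.Prime → z < p →
      gaw (f a.1.1.1) (wJ cls a.1) c p ≤ (G : ℝ) / p := by
    intro a p hp hzp
    have e1 := (gaw_bd (d := (f a.1.1.1).natDegree) (hwJ a).1 (hwJ a).2 (by omega : 2 * c + 2 ≤ p)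
      (hBr a.1.1.1 p hp (by have := hBr' a.1.1.1; omega))).2.1
    refine e1.trans ?_
    refine div_le_div_of_nonneg_right ?_ (Nat.cast_nonneg _)
    exact_mod_cast le_sum_nat (fun j => (f j).natDegree) a.1.1.1
  have hBd : Pool.Agent.L7h19.RP.AT.Bd (fun a : I => bJ cls κ f c a.1)
      (fun a => gaw (f a.1.1.1) (wJ cls a.1) c) (fun a => wJ cls a.1) z B C := by
    refine ⟨fun a => (hwJ a).1, fun a => (hwJ a).2.trans (by norm_num), by omega, by linarith,
      fun a p hp hzp => abs_bw_le (hwJ a).1.le (by omega), fun a y hy => ?_, fun a y V hy hV => ?_,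
      fun a y Y hy hY => ?_⟩
    · refine ((hC3 a).1 y hy).trans ?_
      exact mul_le_mul_of_nonneg_right (hCC3 a) (Real.rpow_nonneg (Real.log_natCast_nonneg _) _)
    · refine ((hC3 a).2.1 y V hy hV).trans ?_
      exact mul_le_mul_of_nonneg_right (hCC3 a) (Real.rpow_nonneg (Real.log_natCast_nonneg _) _)
    · refine ((hC3 a).2.2 y Y hy hY).trans ?_
      exact mul_le_mul_of_nonneg_right (mul_le_mul_of_nonneg_right (hCC3 a) (Real.exp_pos _).le)
        (by positivity)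
  have hEBd : Pool.Agent.L7h19.RP.AT.EBd (fun a : I => bJ cls κ f c a.1) (fun _ => 1)
      (fun a => wJ cls a.1) (fun a => wJ cls a.1 / 2) z B A' (fun a => rx a) C := by
    intro a y R r t hy hR hr hrs hrp hrx
    have e1 := hC1 a y R r t hy hR hr hrs hrp hrx
    have hr3 : 3 ≤ r := by
      obtain ⟨p, hp, hpr⟩ := Nat.exists_prime_and_dvd (by omega : r ≠ 1)
      have h1 := hrp p hp hpr
      have h2 := Nat.le_of_dvd (by omega) hpr
      omega
    have hlr : 1 ≤ Real.log r := by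
      rw [Real.le_log_iff_exp_le (by positivity)]
      have := Real.exp_one_lt_d9
      have h3 : (3:ℝ) ≤ r := by exact_mod_cast hr3
      linarith
    have e2 : ∑ d ∈ (PP z y).divisors.filter (fun d => d.Coprime R),
        gm (bJ cls κ f c a.1) d * (Jr d r * Jr 1 d * x4 t d) =
        ∑ d ∈ (PP z y).divisors.filter (fun d => d.Coprime R),
        gm (bw (f a.1.1.1) (κJP cls κ a.1) (wJ cls a.1) c) d * (Jr d r * x4 t d) := by
      refine sum_congr rfl fun d _ => ?_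
      rw [Pool.Agent.W108.RK.Jr_one_left, mul_one]
      rfl
    rw [e2]
    refine e1.trans ?_
    have e3 : wJ cls a.1 - wJ cls a.1 / 2 = wJ cls a.1 / 2 := by ring
    rw [e3]
    refine mul_le_mul_of_nonneg_right ?_ (Pool.Agent.L7h19.RP.AT.hq_nonneg _ _)
    refine mul_le_mul_of_nonneg_right ?_ (Real.rpow_nonneg (Real.log_natCast_nonneg _) _)
    calc C1 a * (Real.log r) ^ A a ≤ C * (Real.log r) ^ A a :=
          mul_le_mul_of_nonneg_right (hCC1 a) (by positivity)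
      _ ≤ C * (Real.log r) ^ A' :=
          mul_le_mul_of_nonneg_left (pow_le_pow_right₀ hlr (hAa a)) (by linarith)
  obtain ⟨C', hC'⟩ := Pool.Agent.L7h19.RP.AT.at_g (L := fun a b : I => LJ cls a.1 b.1)
    (κ := fun _ => 1) hBd hC2 hbw (Nat.cast_nonneg _)
    hgaw (by
      have : Fintype.card I * G ≤ z := by omega
      exact_mod_cast this) le_rfl hEBd (fun a => half_pos (hwJ a).1)
    (fun a => half_le_self (hwJ a).1.le) (fun a => LJ_self cls a.1) (K := (K : ℝ))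
    (fun U hU => by
      have h3 := hK (U.map (Function.Embedding.subtype _)) (fun a ha => by
        obtain ⟨b, _, rfl⟩ := mem_map.1 ha
        exact ev_of b) (fun a ha a' ha' => by
        obtain ⟨b, hb, rfl⟩ := mem_map.1 ha
        obtain ⟨b', hb', rfl⟩ := mem_map.1 ha'
        exact hU b hb b' hb')
      rw [sum_map] at h3
      exact h3)
  refine ⟨C', fun y hy => ?_⟩
  rw [exph2 cls κ e f c z y (by omega) (fun p _ hzp j t ht i k =>
    hBκ i j k p (by have := hBκ' i j k; omega) t ht)]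
  refine (le_trans (le_abs_self _) (hC' y hy)).trans (le_of_eq ?_)
  rw [Real.rpow_natCast]

end Pool.Agent.L7h19.RP
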