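import Mathlib
import Pool.Agent.L7h19.RP.Pol
import Pool.Agent.L7h19.RP.Stm4
import Pool.Agent.L7h19.RP.HExp2

/-!
# Project RP, rational values of the parameter: values of binary forms and constants
-/

set_option autoImplicit false

namespace Pool.Agent.L7h19.RP

open Finset Polynomial Pool.Agent.W262.RK Pool.Agent.W307.RT Pool.Agent.L7h19.RJ
open Pool.Agent.H474R2.PG (rho)

section forms

lemma hv_mul (f : ℤ[X]) (ν w : ℤ) : hv f (ν * w) w = w ^ f.natDegree * f.eval ν := by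
  unfold hv
  rw [mul_comm ν w, scaleRoots_eval_mul]

lemma hv_mod (f : ℤ[X]) {u u' w : ℤ} {p : ℕ} (h : u ≡ u' [ZMOD p]) :
    hv f u w ≡ hv f u' w [ZMOD p] := eval_mod _ h

lemma hv_sum (f : ℤ[X]) (u w : ℤ) :
    hv f u w = ∑ i ∈ range (f.natDegree + 1), f.coeff i * w ^ (f.natDegree - i) * u ^ i := by
  unfold hv
  rw [eval_eq_sum_range, natDegree_scaleRoots]
  refine sum_congr rfl fun i _ => ?_
  rw [coeff_scaleRoots]

lemma hv_le (f : ℤ[X]) {u w : ℤ} {X : ℕ} (hu : u.natAbs ≤ X) (hw : w.natAbs ≤ X) (hS : cS f ≤ X) :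
    (hv f u w).natAbs ≤ X ^ (f.natDegree + 1) := by
  rw [hv_sum]
  refine (natAbs_sum_le _ _).trans ?_
  calc ∑ i ∈ range (f.natDegree + 1), (f.coeff i * w ^ (f.natDegree - i) * u ^ i).natAbs ≤
      ∑ i ∈ range (f.natDegree + 1), (f.coeff i).natAbs * X ^ f.natDegree := by
        refine sum_le_sum fun i hi => ?_
        rw [Int.natAbs_mul, Int.natAbs_mul, Int.natAbs_pow, Int.natAbs_pow, mul_assoc]
        refine Nat.mul_le_mul_left _ ?_
        have hi' := mem_range.1 hi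
        calc w.natAbs ^ (f.natDegree - i) * u.natAbs ^ i ≤ X ^ (f.natDegree - i) * X ^ i :=
              Nat.mul_le_mul (Nat.pow_le_pow_left hw _) (Nat.pow_le_pow_left hu _)
          _ = X ^ f.natDegree := by rw [← pow_add]; congr 1; omega
    _ = cS f * X ^ f.natDegree := by rw [cS, sum_mul]
    _ ≤ X * X ^ f.natDegree := Nat.mul_le_mul_right _ hS
    _ = X ^ (f.natDegree + 1) := by ring

lemma hv_lead (f : ℤ[X]) (u w : ℤ) : w ∣ hv f u w - f.leadingCoeff * u ^ f.natDegree := by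
  rw [hv_sum, sum_range_succ, Nat.sub_self, pow_zero, mul_one, coeff_natDegree,
    add_sub_cancel_right]
  refine dvd_sum fun i hi => ?_
  have hi' := mem_range.1 hi
  obtain ⟨k, hk⟩ := Nat.exists_eq_succ_of_ne_zero (by omega : f.natDegree - i ≠ 0)
  rw [hk, pow_succ]
  exact ⟨f.coeff i * w ^ k * u ^ i, by ring⟩

lemma hv_ndvd {f : ℤ[X]} {u w : ℤ} {p : ℕ} (hp : p.Prime) (hl : ¬ (p : ℤ) ∣ f.leadingCoeff)
    (huw : ¬ ((p : ℤ) ∣ u ∧ (p : ℤ) ∣ w)) (h : (p : ℤ) ∣ hv f u w) : ¬ (p : ℤ) ∣ w := by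
  intro hw
  have h1 : (p : ℤ) ∣ f.leadingCoeff * u ^ f.natDegree := by
    have h2 := (dvd_sub h (hw.trans (hv_lead f u w)))
    rwa [sub_sub_cancel] at h2
  have hpi := Nat.prime_iff_prime_int.1 hp
  rcases hpi.dvd_or_dvd h1 with h3 | h3
  · exact hl h3
  · exact huw ⟨hpi.dvd_of_dvd_pow h3, hw⟩

/-- `u / w` modulo `m` -/
noncomputable def nuf (m u w : ℕ) : ℕ := ((u : ZMod m) * (w : ZMod m)⁻¹).val

lemma nuf_lt {m : ℕ} (hm : m ≠ 0) (u w : ℕ) : nuf m u w < m := by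
  haveI : NeZero m := ⟨hm⟩
  exact ZMod.val_lt _

lemma nuf_mul {m : ℕ} (hm : m ≠ 0) (u : ℕ) {w : ℕ} (h : w.Coprime m) :
    (nuf m u w : ℤ) * w ≡ u [ZMOD m] := by
  haveI : NeZero m := ⟨hm⟩
  rw [← ZMod.intCast_eq_intCast_iff]
  push_cast
  unfold nuf
  rw [ZMod.natCast_zmod_val, mul_assoc, mul_comm (w : ZMod m)⁻¹, ZMod.coe_mul_inv_eq_one w h,
    mul_one]

end forms

variable {ι : Type} [Fintype ι] [DecidableEq ι] {J : Type} [Fintype J] [DecidableEq J]

/-- the values -/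
noncomputable def vh (f : J → ℤ[X]) (u w : ℤ) (j : J) : ℤ := hv (f j) u w

/-- the exponents of `w` in the constants -/
def exh (cls : ι → J → Option (Fin 4)) (f : J → ℤ[X]) (D : ι → ℕ) (i : ι) (j : J) : ℕ :=
  match cls i j with
  | none => 0
  | some e => if e = 3 then D i - (f j).natDegree else D i

lemma prod_hv (f : J → ℤ[X]) (S : Finset J) (ν w : ℤ) :
    ∏ l ∈ S, hv (f l) (ν * w) w =
      w ^ (∑ l ∈ S, (f l).natDegree) * ∏ l ∈ S, (f l).eval ν := by
  rw [prod_congr rfl fun l _ => hv_mul (f l) ν w, prod_mul_distrib, prod_pow_eq_pow_sum]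

/-- the constants at `(ν w, w)` -/
lemma kapV_vh (cls : ι → J → Option (Fin 4)) (a : ι → Fin 3 → ℤ) (f : J → ℤ[X]) (D : ι → ℕ)
    (hD : ∀ i k, ∑ l ∈ fsJ (cls i) k, (f l).natDegree = D i) (ν w : ℤ) (i : ι) (j : J)
    (k : Fin 3) :
    kapV (cls i) (a i) (vh f (ν * w) w) j k =
      κ2 (fun i j => kapP (cls i) (a i) f j) (exh cls f D) ν w i j k := by
  unfold κ2
  rw [eval_kapP]
  unfold kapV exh vh vf
  rcases hc : cls i j with _ | e
  · simp
  · show (if e = 3 then a i k * ∏ l ∈ (fsJ (cls i) k).erase j, hv (f l) (ν * w) w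
      else sg4 e * (a i (cp4 e) * ∏ l ∈ fsJ (cls i) (cp4 e), hv (f l) (ν * w) w)) =
      w ^ (if e = 3 then D i - (f j).natDegree else D i) *
      (if e = 3 then a i k * ∏ l ∈ (fsJ (cls i) k).erase j, (f l).eval ν
      else sg4 e * (a i (cp4 e) * ∏ l ∈ fsJ (cls i) (cp4 e), (f l).eval ν))
    by_cases h3 : e = 3
    · rw [if_pos h3, if_pos h3, if_pos h3, prod_hv]
      have hj : j ∈ fsJ (cls i) k := by
        unfold fsJ
        rw [mem_filter, hc, h3]
        exact ⟨mem_univ _, Or.inr rfl⟩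
      have h1 : ∑ l ∈ (fsJ (cls i) k).erase j, (f l).natDegree = D i - (f j).natDegree := by
        rw [← hD i k, ← sum_erase_add _ _ hj]
        omega
      rw [h1]
      ring
    · rw [if_neg h3, if_neg h3, if_neg h3, prod_hv, hD]
      ring

lemma kapV_mod (c : J → Option (Fin 4)) (a : Fin 3 → ℤ) {x x' : J → ℤ} {p : ℕ}
    (h : ∀ j, x j ≡ x' j [ZMOD p]) (j : J) (k : Fin 3) :
    kapV c a x j k ≡ kapV c a x' j k [ZMOD p] := by
  have hprod : ∀ S : Finset J, ∏ l ∈ S, x l ≡ ∏ l ∈ S, x' l [ZMOD p] := by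
    intro S
    induction S using Finset.induction_on with
    | empty => exact Int.ModEq.refl _
    | insert l S hl ih =>
      rw [prod_insert hl, prod_insert hl]
      exact (h l).mul ih
  unfold kapV
  rcases c j with _ | e
  · exact Int.ModEq.refl _
  · show (if e = 3 then a k * ∏ l ∈ (fsJ c k).erase j, x l
      else sg4 e * (a (cp4 e) * ∏ l ∈ fsJ c (cp4 e), x l)) ≡
      (if e = 3 then a k * ∏ l ∈ (fsJ c k).erase j, x' l
      else sg4 e * (a (cp4 e) * ∏ l ∈ fsJ c (cp4 e), x' l)) [ZMOD p]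
    split_ifs
    · exact (hprod _).mul_left _
    · exact ((hprod _).mul_left _).mul_left _

/-- the product of the `2 ^ rank` -/
noncomputable def RRh (cls : ι → J → Option (Fin 4)) (a : ι → Fin 3 → ℤ) (f : J → ℤ[X])
    (u w : ℤ) : ℝ :=
  ∏ i, (2 : ℝ) ^ Module.finrank ℤ
    (EAB (FV (cls i) (a i) (vh f u w) 0) (FV (cls i) (a i) (vh f u w) 1)).toAffine.Point

lemma RRh_nonneg (cls : ι → J → Option (Fin 4)) (a : ι → Fin 3 → ℤ) (f : J → ℤ[X]) (u w : ℤ) :
    0 ≤ RRh cls a f u w := prod_nonneg fun i _ => by positivity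

lemma NBh_nonneg (cls : ι → J → Option (Fin 4)) (κ : ι → J → Fin 3 → ℤ[X]) (e : ι → J → ℕ)
    (f : J → ℤ[X]) (s : J → ℕ) : 0 ≤ NBh cls κ e f s := by
  unfold NBh
  refine sum_nonneg fun _ _ => sum_nonneg fun _ _ => mul_nonneg ?_ (NBj_nonneg _ _ _)
  unfold uw
  refine prod_nonneg fun p hp => ?_
  have h1 := (Nat.prime_of_mem_primeFactors hp).one_lt
  have h2 : (1 : ℝ) < p := by exact_mod_cast h1
  exact div_nonneg zero_le_one (by linarith)

lemma negH_iff (cls : ι → J → Option (Fin 4)) (f : J → ℤ[X]) {u w : ℤ} {z y : ℕ} {s : J → ℕ}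
    (hmem : s ∈ Tup J z y) {i : ι} {j : J} {p : ℕ} (hc : cls i j = some 3) (hp : p.Prime)
    (hj : p ∣ s j) :
    p ∈ negH (tw cls) f u w s ↔ jacobiSym (vh f u w j / p) p = -1 := by
  classical
  have h3 : tw cls j = 3 := if_pos ⟨i, hc⟩
  unfold negH P3
  rw [mem_filter, Nat.mem_primeFactors]
  constructor
  · rintro ⟨_, l, hl3, hl, hl2⟩
    have : l = j := by
      by_contra hne
      have h4 := (mem_Tup'.1 hmem).2 l j hne
      exact hp.one_lt.ne' (Nat.dvd_one.1 (h4 ▸ Nat.dvd_gcd hl hj))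
    rw [this] at hl2
    exact hl2
  · intro h5
    refine ⟨⟨hp, dvd_trans hj (dvd_prod_of_mem _ (mem_filter.2 ⟨mem_univ _, h3⟩)), ?_⟩,
      j, h3, hj, h5⟩
    exact prod_ne_zero_iff.2 fun l _ => (Tup_pos hmem l).ne'

lemma negH_sub (T : J → Fin 4) (f : J → ℤ[X]) (u w : ℤ) (s : J → ℕ) :
    negH T f u w s ∈ (P3 T s).powerset := by
  classical
  unfold negH
  rw [mem_powerset]
  exact filter_subset _ _

end Pool.Agent.L7h19.RP
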