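import Mathlib
import Pool.Agent.L7h19.RP.MajN
import Pool.Agent.L7h19.RP.HMaj
import Pool.Agent.L7h19.RP.HPol

/-!
# Project RP, rational values of the parameter: the average of the majorant, unbalanced families
-/

set_option autoImplicit false

namespace Pool.Agent.L7h19.RP

open Finset Polynomial Pool.Agent.W262.RK Pool.Agent.L7h19.RJ
open Pool.Agent.H474R2.PG (rho)
open Pool.Agent.L7h19.RP.AT (gm hq BWg gm_one)

variable {ι : Type} [Fintype ι] [DecidableEq ι] {J : Type} [Fintype J] [DecidableEq J]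

theorem majhn (hUp : StUp) (hUp0 : StUp0) (hBW : StBW) (hFr : StFree)
    (cls : ι → J → Option (Fin 4)) (e : ι → J → ℕ)
    (h2 : ∀ j, ∃ i, cls i j ≠ none) (K : ℕ) (Nin : IJ cls → Prop)
    (hNN : ∀ a a', Nin a → Nin a' → LJ cls a a' = LJ cls a' a)
    (hK : ∀ U : Finset (IJ cls), (∀ a ∈ U, Even (NJ cls e a)) → (∀ a ∈ U, ¬ Nin a) →
      (∀ a ∈ U, ∀ a' ∈ U, LJ cls a a' = LJ cls a' a) → ∑ a ∈ U, wJ cls a ≤ (K : ℝ))
    (κ : ι → J → Fin 3 → ℤ[X]) (f : J → ℤ[X]) (hf : ∀ j, Irreducible (f j))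
    (hd : ∀ j, 0 < (f j).natDegree) (hκ : ∀ i j k, ¬ f j ∣ κ i j k)
    (hsq : ∀ a, Nin a → ¬ SqAt (f a.1.1) (κJP cls κ a) ∧ ¬ SqAt (f a.1.1) (-(κJP cls κ a)))
    (c : ℕ) :
    ∃ z0 : ℕ, ∀ z, z0 ≤ z → ∃ C : ℝ, ∀ y, z < y →
      ∑ s ∈ Tup J z y, NBh cls κ e f s * ∏ j, gw 1 c (s j) ≤ C * (Real.log y) ^ K := by
  classical
  set I : Type := Jp (Od cls e) with hI
  have hwJ := fun a : I => wJ_pos cls h2 a.1
  set N : Finset I := univ.filter (fun a => Nin a.1) with hNdef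
  have hNm : ∀ a : I, a ∈ N ↔ Nin a.1 := fun a => by
    rw [hNdef, mem_filter]
    exact ⟨fun h => h.2, fun h => ⟨mem_univ a, h⟩⟩
  set M : ℕ := Fintype.card I with hM
  set G : ℕ := ∑ j, (f j).natDegree with hG
  obtain ⟨C2, E2, hC2, hbw⟩ := hBW (G : ℝ) (M : ℝ) (Nat.cast_nonneg _)
  obtain ⟨δ, hδ, hδw, hδK⟩ := Pool.Agent.L7h19.RP.AT.exists_gap (fun a : I => wJ cls a.1)
    (fun a => (hwJ a).1) (K : ℝ)
  set A : ℕ := 6 * (M + 2 * E2) with hA
  set ε : ℝ := δ / 2 / (A * (M : ℝ) ^ 2 + 1) with hε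
  have hden : (0 : ℝ) < A * (M : ℝ) ^ 2 + 1 := by positivity
  have hε0 : 0 < ε := by positivity
  have hεA : (A : ℝ) * (ε * (M : ℝ) ^ 2) ≤ δ / 2 := by
    have e1 : (A : ℝ) * (ε * (M : ℝ) ^ 2) = δ / 2 * ((A * (M : ℝ) ^ 2) / (A * (M : ℝ) ^ 2 + 1)) := by
      rw [hε]
      field_simp
    rw [e1]
    have e2 : (A * (M : ℝ) ^ 2) / (A * (M : ℝ) ^ 2 + 1) ≤ 1 := by
      rw [div_le_one hden]
      linarith
    have e3 : 0 ≤ δ / 2 := by positivity
    calc δ / 2 * ((A * (M : ℝ) ^ 2) / (A * (M : ℝ) ^ 2 + 1)) ≤ δ / 2 * 1 :=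
          mul_le_mul_of_nonneg_left e2 e3
      _ = δ / 2 := mul_one _
  set B : ℕ := 2 * (M * G) with hB
  choose z1 hz1 using fun a : I =>
    hUp (f a.1.1.1) (κJP cls κ a.1) (wJ cls a.1) ε c (hf _) (hd _) (κJP_nd cls κ hf hκ a.1)
      (hwJ a).1 (hwJ a).2 hε0
  choose z2 hz2 using fun a : I => stFull (f a.1.1.1) (wJ cls a.1) c B (hf _) (hd _)
    (hwJ a).1 (hwJ a).2
  have hup0 : ∀ (a : I) (s : Bool), ∃ z0 : ℕ, Nin a.1 → ∀ z : ℕ, z0 ≤ z → ∃ C : ℝ,
      ∀ y : ℕ, z < y → ∑ p ∈ PS z y, bw (f a.1.1.1)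
        (if s then -(κJP cls κ a.1) else κJP cls κ a.1) (wJ cls a.1) c p ≤ C := by
    intro a s
    by_cases ha : Nin a.1
    · have h5 := hsq a.1 ha
      cases s with
      | true =>
        obtain ⟨z0, hz0⟩ := hUp0 (f a.1.1.1) (-(κJP cls κ a.1)) (wJ cls a.1) c (hf _) (hd _)
          (by rw [dvd_neg]; exact κJP_nd cls κ hf hκ a.1) (hwJ a).1 (hwJ a).2 h5.2
        exact ⟨z0, fun _ z hz => by simpa using hz0 z hz⟩
      | false =>
        obtain ⟨z0, hz0⟩ := hUp0 (f a.1.1.1) (κJP cls κ a.1) (wJ cls a.1) c (hf _) (hd _)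
          (κJP_nd cls κ hf hκ a.1) (hwJ a).1 (hwJ a).2 h5.1
        exact ⟨z0, fun _ z hz => by simpa using hz0 z hz⟩
    · exact ⟨0, fun h => absurd h ha⟩
  choose z3 hz3 using hup0
  choose Bκ hBκ using fun (i : ι) (j : J) (k : Fin 3) => large_nd (hf j) (hd j) (hκ i j k)
  choose Br hBr using fun j : J => Pool.Agent.H474R2.PG.rho_le (f j) (hf j).ne_zero
  refine ⟨∑ a, z1 a + ∑ a, z2 a + ∑ a, (z3 a true + z3 a false) + 2 * (M * G) + ∑ j, Br j +
    (2 * c + 4) + ∑ i, ∑ j, ∑ k, Bκ i j k, fun z hz => ?_⟩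
  have hz1' : ∀ a, z1 a ≤ z := fun a => (le_sum_nat z1 a).trans (by omega)
  have hz2' : ∀ a, z2 a ≤ z := fun a => (le_sum_nat z2 a).trans (by omega)
  have hz3' : ∀ a s, z3 a s ≤ z := fun a s => by
    have e1 : z3 a true + z3 a false ≤ ∑ a, (z3 a true + z3 a false) :=
      le_sum_nat (fun a => z3 a true + z3 a false) a
    cases s <;> omega
  have hBr' : ∀ j, Br j ≤ z := fun j => (le_sum_nat Br j).trans (by omega)
  have hBκ' : ∀ i j k, Bκ i j k ≤ z := fun i j k => by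
    have e1 := le_sum_nat (fun k => Bκ i j k) k
    have e2 := le_sum_nat (fun j => ∑ k, Bκ i j k) j
    have e3 := le_sum_nat (fun i => ∑ j, ∑ k, Bκ i j k) i
    have e1' : Bκ i j k ≤ ∑ k, Bκ i j k := e1
    have e2' : ∑ k, Bκ i j k ≤ ∑ j, ∑ k, Bκ i j k := e2
    have e3' : ∑ j, ∑ k, Bκ i j k ≤ ∑ i, ∑ j, ∑ k, Bκ i j k := e3
    omega
  choose C1 hC1 using fun a : I => hz1 a z (hz1' a)
  choose C3 hC3 using fun a : I => hz2 a z (hz2' a)
  have h4 : ∀ (a : I) (s : Bool), ∃ C : ℝ, Nin a.1 → ∀ y : ℕ, z < y →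
      ∑ p ∈ PS z y, bw (f a.1.1.1) (if s then -(κJP cls κ a.1) else κJP cls κ a.1)
        (wJ cls a.1) c p ≤ C := by
    intro a s
    by_cases ha : Nin a.1
    · obtain ⟨C, hC⟩ := hz3 a s ha z (hz3' a s)
      exact ⟨C, fun _ => hC⟩
    · exact ⟨0, fun h => absurd h ha⟩
  choose C4 hC4 using h4
  set C : ℝ := 1 + ∑ a, |C3 a| with hC
  set D1 : ℝ := ∑ a, |C1 a| + ∑ a, (|C4 a true| + |C4 a false|) with hD1
  have hs1 : 0 ≤ ∑ a, |C1 a| := sum_nonneg fun _ _ => abs_nonneg _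
  have hs3 : 0 ≤ ∑ a, |C3 a| := sum_nonneg fun _ _ => abs_nonneg _
  have hs4 : 0 ≤ ∑ a, (|C4 a true| + |C4 a false|) := sum_nonneg fun _ _ => by positivity
  have hCC1 : ∀ a, C1 a ≤ D1 := fun a => by have := le_sum_abs C1 a; linarith
  have hCC3 : ∀ a, C3 a ≤ C := fun a => by have := le_sum_abs C3 a; linarith
  have hCC4 : ∀ a s, C4 a s ≤ D1 := fun a s => by
    have e1 : |C4 a true| + |C4 a false| ≤ ∑ a, (|C4 a true| + |C4 a false|) :=
      single_le_sum (f := fun a => |C4 a true| + |C4 a false|) (fun _ _ => by positivity)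
        (mem_univ a)
    have e2 := le_abs_self (C4 a s)
    have e3 := abs_nonneg (C4 a true)
    have e4 := abs_nonneg (C4 a false)
    cases s <;> linarith
  have hgaw : ∀ (a : I) (p : ℕ), p.Prime → z < p →
      gaw (f a.1.1.1) (wJ cls a.1) c p ≤ (G : ℝ) / p := by
    intro a p hp hzp
    have e1 := (gaw_bd (d := (f a.1.1.1).natDegree) (hwJ a).1 (hwJ a).2 (by omega : 2 * c + 2 ≤ p)
      (hBr a.1.1.1 p hp (by have := hBr' a.1.1.1; omega))).2.1
    refine e1.trans ?_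
    refine div_le_div_of_nonneg_right ?_ (Nat.cast_nonneg _)
    exact_mod_cast le_sum_nat (fun j => (f j).natDegree) a.1.1.1
  have hBd : Pool.Agent.L7h19.RP.AT.Bd (fun a : I => bJ cls κ f c a.1)
      (fun a => gaw (f a.1.1.1) (wJ cls a.1) c) (fun a => wJ cls a.1) z B C := by
    refine ⟨fun a => (hwJ a).1, fun a => (hwJ a).2.trans (by norm_num), by omega, by linarith,
      fun a p hp hzp => abs_bw_le (hwJ a).1.le (by omega), fun a y hy => ?_, fun a y V hy hV => ?_,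
      fun a y Y hy hY => ?_⟩
    · refine ((hC3 a).1 y hy).trans ?_
      exact mul_le_mul_of_nonneg_right (hCC3 a) (Real.rpow_nonneg (Real.log_natCast_nonneg _) _)
    · refine ((hC3 a).2.1 y V hy hV).trans ?_
      exact mul_le_mul_of_nonneg_right (hCC3 a) (Real.rpow_nonneg (Real.log_natCast_nonneg _) _)
    · refine ((hC3 a).2.2 y Y hy hY).trans ?_
      exact mul_le_mul_of_nonneg_right (mul_le_mul_of_nonneg_right (hCC3 a) (Real.exp_pos _).le)
        (by positivity)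
  have hHN : Pool.Agent.L7h19.RP.AT.HN (fun a : I => bJ cls κ f c a.1) (fun a => wJ cls a.1)
      (fun a b : I => LJ cls a.1 b.1) N (K : ℝ) z A ε D1 δ := by
    refine ⟨fun a => LJ_self cls a.1, fun a ha a' ha' => hNN a.1 a'.1 ((hNm a).1 ha) ((hNm a').1 ha'),
      fun U hU1 hU2 => ?_, hδ, hδw, hδK, hε0.le, by linarith, hεA, ?_, ?_⟩
    · have h3 := hK (U.map (Function.Embedding.subtype _)) (fun a ha => by
        obtain ⟨b, _, rfl⟩ := mem_map.1 ha
        exact ev_of b) (fun a ha => by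
        obtain ⟨b, hb, rfl⟩ := mem_map.1 ha
        exact fun h => hU1 b hb ((hNm b).2 h)) (fun a ha a' ha' => by
        obtain ⟨b, hb, rfl⟩ := mem_map.1 ha
        obtain ⟨b', hb', rfl⟩ := mem_map.1 ha'
        exact hU2 b hb b' hb')
      rw [sum_map] at h3
      exact h3
    · intro a y r s hy hr hrs hrp
      refine (hC1 a y r s hy hr hrs hrp).trans ?_
      have := hCC1 a
      linarith
    · intro a ha y s hy
      have ha' := (hNm a).1 ha
      have e1 := hC4 a s ha' y hy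
      refine le_trans (le_of_eq ?_) (e1.trans (hCC4 a s))
      refine sum_congr rfl fun p hp => ?_
      have hpp := mem_PS.1 hp
      have hpo : Odd p := hpp.2.odd_of_ne_two (by omega)
      rw [show Jr (p : ℤ) 1 = 1 from Pool.Agent.W262.RK.Jr_one_right _, one_mul]
      cases s with
      | true =>
        rw [if_pos rfl, ← bw_neg _ _ _ _ hpo]
        rfl
      | false =>
        have : x4 false p = 1 := by unfold x4; simp
        rw [this, mul_one]
        rfl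
  obtain ⟨C', hC'⟩ := Pool.Agent.L7h19.RP.AT.at_n hFr hBd hC2 hbw (Nat.cast_nonneg _)
    hgaw (by
      have : 2 * (M * G) ≤ z := by omega
      exact_mod_cast this) (by
      have : 2 * (M * G) ≤ B := le_rfl
      exact_mod_cast this) le_rfl hHN
  refine ⟨C', fun y hy => ?_⟩
  rw [exph2 cls κ e f c z y (by omega) (fun p _ hzp j t ht i k =>
    hBκ i j k p (by have := hBκ' i j k; omega) t ht)]
  refine (le_trans (le_abs_self _) (hC' y hy)).trans (le_of_eq ?_)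
  rw [Real.rpow_natCast]

/-- the bound for the average of the majorant -/
def MajH (cls : ι → J → Option (Fin 4)) (P : Finset J) (D : ι → ℕ) (a : ι → Fin 3 → ℤ)
    (f : J → ℤ[X]) : Prop :=
  ∀ c : ℕ, ∃ z0 : ℕ, ∀ z, z0 ≤ z → ∃ C : ℝ, ∀ y, z < y →
    ∑ s ∈ Tup (Jp P) z y, NBh (fun i (j : Jp P) => cls i j.1)
      (fun i (j : Jp P) => kapP (cls i) (a i) f j.1) (fun i (j : Jp P) => exh cls f D i j.1)
      (fun j : Jp P => f j.1) s *
      ∏ j, gw 1 c (s j) ≤ C * (Real.log y) ^ (Fintype.card (Jp P))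

lemma NBh_ext1 (P : Finset J) (cls : ι → J → Option (Fin 4)) (κ : ι → J → Fin 3 → ℤ[X])
    (e : ι → J → ℕ) (f : J → ℤ[X]) (s : Jp P → ℕ) :
    NBh cls κ e f (ext1 P s) = NBh (fun i (j : Jp P) => cls i j.1) (fun i (j : Jp P) => κ i j.1)
      (fun i (j : Jp P) => e i j.1) (fun j : Jp P => f j.1) s := by
  unfold NBh
  have h1 : ∏ j, ext1 P s j = ∏ j, s j := prod_ext1 P (fun _ n => n) (fun _ => rfl) s
  rw [Rs_ext1, h1]
  refine sum_congr rfl fun r _ => sum_congr rfl fun w _ => ?_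
  congr 1
  exact NBj_ext1 P cls (κ2 κ e r w) s

end Pool.Agent.L7h19.RP
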