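import Mathlib
import Pool.Agent.L7h19.RP.HExp2
import Pool.Agent.L7h8.RP.Sub

/-!
# Project RP, rational values of the parameter: growth of the sum over the residue classes
-/

set_option autoImplicit false

namespace Pool.Agent.L7h19.RP

open Finset Polynomial Pool.Agent.W262.RK Pool.Agent.L7h19.RJ
open Pool.Agent.H474R2.PG (rho)

variable {ι : Type} [Fintype ι] [DecidableEq ι] {J : Type} [Fintype J] [DecidableEq J]

lemma mem_Un {m w : ℕ} : w ∈ Un m ↔ w < m ∧ ∀ p ∈ m.primeFactors, ¬ p ∣ w := by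
  unfold Un
  rw [mem_filter, mem_range]

lemma card_Un {m : ℕ} (hm : Squarefree m) :
    ((Un m).card : ℝ) = ∏ p ∈ m.primeFactors, ((p : ℝ) - 1) := by
  classical
  have hmp : ∏ p ∈ m.primeFactors, p = m := Nat.prod_primeFactors_of_squarefree hm
  have h3 := sum_crt_prod m.primeFactors (fun p hp => Nat.prime_of_mem_primeFactors hp)
    (fun p w => if ¬ p ∣ w then (1 : ℝ) else 0) (fun p _ w => by
      refine if_congr (not_congr ?_) rfl rfl
      exact Nat.dvd_mod_iff (dvd_refl p))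
  rw [hmp] at h3
  have h4 : ((Un m).card : ℝ) = ∑ w ∈ range m, ∏ p ∈ m.primeFactors,
      (if ¬ p ∣ w then (1 : ℝ) else 0) := by
    unfold Un
    rw [card_filter]
    push_cast
    refine sum_congr rfl fun w _ => ?_
    by_cases h : ∀ p ∈ m.primeFactors, ¬ p ∣ w
    · rw [if_pos h]
      symm
      exact prod_eq_one fun p hp => if_pos (h p hp)
    · rw [if_neg h]
      push Not at h
      obtain ⟨p, hp, hpw⟩ := h
      symm
      exact prod_eq_zero hp (if_neg (not_not.2 hpw))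
  rw [h4, h3]
  refine prod_congr rfl fun p hp => ?_
  rw [← sum_filter, sum_const, nsmul_eq_mul, mul_one]
  exact card_Up (Nat.prime_of_mem_primeFactors hp)

lemma uw_mul_card {m : ℕ} (hm : Squarefree m) : uw m * ((Un m).card : ℝ) = 1 := by
  rw [card_Un hm, uw, ← prod_mul_distrib]
  refine prod_eq_one fun p hp => ?_
  have h1 := (Nat.prime_of_mem_primeFactors hp).one_lt
  have h2 : (0 : ℝ) < (p : ℝ) - 1 := by
    have : (1 : ℝ) < p := by exact_mod_cast h1
    linarith
  field_simp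

lemma uw_nonneg (m : ℕ) : 0 ≤ uw m := by
  unfold uw
  refine prod_nonneg fun p hp => ?_
  have h1 := (Nat.prime_of_mem_primeFactors hp).one_lt
  have h2 : (1 : ℝ) < p := by exact_mod_cast h1
  exact div_nonneg zero_le_one (by linarith)

lemma uw_mul {m m' : ℕ} (h : m.Coprime m') : uw (m * m') = uw m * uw m' := by
  unfold uw
  rw [h.primeFactors_mul, prod_union h.disjoint_primeFactors]

/-- the average over the units -/
lemma Un_avg {m m' : ℕ} (hm : Squarefree (m * m')) (G : ℕ → ℝ) (hG : ∀ w, G (w % m) = G w) :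
    ∑ w ∈ Un (m * m'), uw (m * m') * G w = ∑ w ∈ Un m, uw m * G w := by
  classical
  have hcop : m.Coprime m' := Nat.coprime_of_squarefree_mul hm
  have hm0 : m ≠ 0 := left_ne_zero_of_mul hm.ne_zero
  have hm'0 : m' ≠ 0 := right_ne_zero_of_mul hm.ne_zero
  have hpf : (m * m').primeFactors = m.primeFactors ∪ m'.primeFactors := hcop.primeFactors_mul
  have hper : ∀ n w : ℕ, (∀ p ∈ n.primeFactors, ¬ p ∣ w % n) ↔ ∀ p ∈ n.primeFactors, ¬ p ∣ w := by
    intro n w
    refine forall_congr' fun p => forall_congr' fun hp => not_congr ?_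
    exact Nat.dvd_mod_iff (Nat.dvd_of_mem_primeFactors hp)
  have h1 := sum_crt hcop hm0 hm'0
    (fun w => if ∀ p ∈ m.primeFactors, ¬ p ∣ w then G w else 0)
    (fun w => if ∀ p ∈ m'.primeFactors, ¬ p ∣ w then (1 : ℝ) else 0)
    (fun w => by simp only [hper, hG]) (fun w => by simp only [hper])
  have h2 : ∑ w ∈ Un (m * m'), G w = (∑ w ∈ Un m, G w) * ((Un m').card : ℝ) := by
    have e1 : ((Un m').card : ℝ) = ∑ w ∈ range m',
        (if ∀ p ∈ m'.primeFactors, ¬ p ∣ w then (1 : ℝ) else 0) := by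
      unfold Un
      rw [card_filter]
      push_cast
      rfl
    have e2 : ∑ w ∈ Un m, G w = ∑ w ∈ range m,
        (if ∀ p ∈ m.primeFactors, ¬ p ∣ w then G w else 0) := by
      unfold Un
      rw [sum_filter]
    rw [e1, e2, ← h1]
    unfold Un
    rw [sum_filter]
    refine sum_congr rfl fun w _ => ?_
    by_cases ha : ∀ p ∈ m.primeFactors, ¬ p ∣ w
    · by_cases hb : ∀ p ∈ m'.primeFactors, ¬ p ∣ w
      · rw [if_pos ha, if_pos hb, if_pos, mul_one]
        intro p hp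
        rw [hpf, mem_union] at hp
        exact hp.elim (ha p) (hb p)
      · rw [if_neg hb, mul_zero, if_neg]
        intro h
        exact hb fun p hp => h p (by rw [hpf, mem_union]; exact Or.inr hp)
    · rw [if_neg ha, zero_mul, if_neg]
      intro h
      exact ha fun p hp => h p (by rw [hpf, mem_union]; exact Or.inl hp)
  rw [← mul_sum, ← mul_sum, h2, uw_mul hcop]
  have h3 := uw_mul_card (hm.squarefree_of_dvd (dvd_mul_left m' m))
  linear_combination (uw m * ∑ w ∈ Un m, G w) * h3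

/-- the sum over the lifts of the roots -/
lemma Rs_lift (f : J → ℤ[X]) {z y c : ℕ}
    (hρ : ∀ p : ℕ, p.Prime → z < p → ∀ j, rho (f j) p ≤ c) {s e : J → ℕ}
    (hT : (fun j => s j * e j) ∈ Tup J z y) (Φ : ℕ → ℝ) (h0 : ∀ r, 0 ≤ Φ r)
    (hΦ : ∀ r, Φ (r % ∏ j, s j) = Φ r) :
    ∑ r ∈ Rs f (fun j => s j * e j), Φ r ≤
      (c : ℝ) ^ (∑ j, (e j).primeFactors.card) * ∑ r ∈ Rs f s, Φ r := by
  classical
  have hT' : (∀ j, s j * e j ∈ (PP z y).divisors) ∧
      ∀ i j, i ≠ j → (s i * e i).Coprime (s j * e j) := by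
    unfold Tup at hT
    rw [mem_filter, Fintype.mem_piFinset] at hT
    exact hT
  have hsqj : ∀ j, Squarefree (s j * e j) := fun j => dv_squarefree (hT'.1 j)
  have hsq : Squarefree (∏ j, (s j * e j)) := by
    apply Finset.squarefree_prod_of_pairwise_isCoprime
    · intro i _ j _ hij
      exact Nat.coprime_iff_isRelPrime.1 (hT'.2 i j hij)
    · intro j _
      exact hsqj j
  have hprod : ∏ j, (s j * e j) = (∏ j, s j) * ∏ j, e j := Finset.prod_mul_distrib
  have hme : Squarefree ((∏ j, s j) * ∏ j, e j) := hprod ▸ hsq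
  have hs0 : ∀ j, s j ≠ 0 := fun j => left_ne_zero_of_mul (hsqj j).ne_zero
  have he0 : ∀ j, e j ≠ 0 := fun j => right_ne_zero_of_mul (hsqj j).ne_zero
  have hzp : ∀ p : ℕ, p.Prime → ∀ j, p ∣ s j * e j → z < p := fun p hp j hj =>
    (dv_prime (hT'.1 j) hp hj).1
  set m := ∏ j, s j with hm
  have hm0 : m ≠ 0 := prod_ne_zero_iff.2 fun j _ => hs0 j
  set N := ∑ j, (e j).primeFactors.card with hN
  have hω : (∏ j, e j).primeFactors.card = N := by
    have h1 : (∏ j, e j).primeFactors = univ.biUnion (fun j => (e j).primeFactors) := by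
      ext p
      rw [mem_biUnion]
      constructor
      · intro hp
        have hpp := Nat.prime_of_mem_primeFactors hp
        obtain ⟨j, _, hj⟩ := (hpp.prime.dvd_finsetProd_iff _).1 (Nat.dvd_of_mem_primeFactors hp)
        exact ⟨j, mem_univ _, Nat.mem_primeFactors.2 ⟨hpp, hj, he0 j⟩⟩
      · rintro ⟨j, _, hp⟩
        exact Nat.mem_primeFactors.2 ⟨Nat.prime_of_mem_primeFactors hp,
          (Nat.dvd_of_mem_primeFactors hp).trans (dvd_prod_of_mem _ (mem_univ j)),
          prod_ne_zero_iff.2 fun j _ => he0 j⟩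
    rw [h1, card_biUnion]
    intro i _ j _ hij
    have h2 : (e i).Coprime (e j) :=
      Nat.Coprime.of_dvd (dvd_mul_left _ _) (dvd_mul_left _ _) (hT'.2 i j hij)
    exact h2.disjoint_primeFactors
  have hmaps : ∀ r ∈ Rs f (fun j => s j * e j), r % m ∈ Rs f s := by
    intro r hr
    unfold Rs at hr ⊢
    rw [mem_filter] at hr ⊢
    refine ⟨mem_range.2 (Nat.mod_lt _ (Nat.pos_of_ne_zero hm0)), fun j => ?_⟩
    have h4 : (s j : ℤ) ∣ (f j).eval (r : ℤ) := by
      refine Dvd.dvd.trans ?_ (hr.2 j)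
      push_cast
      exact dvd_mul_right _ _
    have h5 : ((r % m : ℕ) : ℤ) ≡ (r : ℤ) [ZMOD (s j : ℕ)] :=
      (mod_self r m).of_dvd (Int.natCast_dvd_natCast.2 (dvd_prod_of_mem _ (mem_univ j)))
    exact (eval_mod (f j) h5).dvd_iff.2 h4
  rw [← sum_fiberwise_of_maps_to hmaps Φ, mul_sum]
  refine sum_le_sum fun r0 hr0 => ?_
  have h6 : ∑ r ∈ (Rs f (fun j => s j * e j)).filter (fun r => r % m = r0), Φ r =
      (((Rs f (fun j => s j * e j)).filter (fun r => r % m = r0)).card : ℝ) * Φ r0 := by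
    rw [sum_congr rfl (g := fun _ => Φ r0) ?_, sum_const, nsmul_eq_mul]
    intro r hr
    rw [← (mem_filter.1 hr).2, hΦ]
  rw [h6]
  refine mul_le_mul_of_nonneg_right ?_ (h0 _)
  have h7 := Pool.Agent.L7h8.RP.fiber f z c hρ e m hme
    (fun p hp j hj => hzp p hp j (hj.trans (dvd_mul_left _ _))) r0
  rw [hω] at h7
  have h8 : ((Rs f (fun j => s j * e j)).filter (fun r => r % m = r0)).card ≤
      ((range (m * ∏ j, e j)).filter (fun r : ℕ => r % m = r0 ∧
        ∀ j, (e j : ℤ) ∣ (f j).eval (r : ℤ))).card := by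
    refine card_le_card ?_
    intro r hr
    rw [mem_filter] at hr ⊢
    obtain ⟨hr, hr2⟩ := hr
    unfold Rs at hr
    rw [mem_filter, hprod] at hr
    refine ⟨hr.1, hr2, fun j => ?_⟩
    refine Dvd.dvd.trans ?_ (hr.2 j)
    push_cast
    exact dvd_mul_left _ _
  exact_mod_cast h8.trans h7

/-- growth of `NBh` -/
theorem subh (cls : ι → J → Option (Fin 4)) (κ : ι → J → Fin 3 → ℤ[X]) (ex : ι → J → ℕ)
    (f : J → ℤ[X]) (z c : ℕ) (hz : 2 ≤ z)
    (hρ : ∀ p : ℕ, p.Prime → z < p → ∀ j, rho (f j) p ≤ c)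
    (hκ : ∀ p : ℕ, p.Prime → z < p → ∀ j (t : ℤ), (p : ℤ) ∣ (f j).eval t →
      ∀ i k, ¬ (p : ℤ) ∣ (κ i j k).eval t) (y : ℕ) (s e : J → ℕ)
    (hT : (fun j => s j * e j) ∈ Tup J z y) :
    NBh cls κ ex f (fun j => s j * e j) ≤
      ((4 : ℝ) ^ Fintype.card ι * c) ^ (∑ j, (e j).primeFactors.card) * NBh cls κ ex f s := by
  classical
  have hT' : (∀ j, s j * e j ∈ (PP z y).divisors) ∧
      ∀ i j, i ≠ j → (s i * e i).Coprime (s j * e j) := by
    unfold Tup at hT
    rw [mem_filter, Fintype.mem_piFinset] at hT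
    exact hT
  have hsqj : ∀ j, Squarefree (s j * e j) := fun j => dv_squarefree (hT'.1 j)
  have hsq : Squarefree (∏ j, (s j * e j)) := by
    apply Finset.squarefree_prod_of_pairwise_isCoprime
    · intro i _ j _ hij
      exact Nat.coprime_iff_isRelPrime.1 (hT'.2 i j hij)
    · intro j _
      exact hsqj j
  have hprod : ∏ j, (s j * e j) = (∏ j, s j) * ∏ j, e j := Finset.prod_mul_distrib
  have hme : Squarefree ((∏ j, s j) * ∏ j, e j) := hprod ▸ hsq
  have hs0 : ∀ j, s j ≠ 0 := fun j => left_ne_zero_of_mul (hsqj j).ne_zero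
  have hzp : ∀ p : ℕ, p.Prime → ∀ j, p ∣ s j * e j → z < p := fun p hp j hj =>
    (dv_prime (hT'.1 j) hp hj).1
  set m := ∏ j, s j with hm
  set N := ∑ j, (e j).primeFactors.card with hN
  set G : ℕ → ℕ → ℝ := fun ν w => NBj cls (κ2 κ ex (ν : ℤ) (w : ℤ)) s with hG
  have hG0 : ∀ ν w, 0 ≤ G ν w := fun ν w => NBj_nonneg _ _ _
  have hpm : ∀ j (p : ℕ), p ∣ s j → p ∣ m := fun j p h => h.trans (dvd_prod_of_mem _ (mem_univ j))
  have hG1 : ∀ ν w, G (ν % m) w = G ν w := by
    intro ν w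
    refine (Pool.Agent.L7h8.RP.stMod ι J cls _ _ s hs0 ?_).1
    intro j p _ hpj i k
    exact κ2_mod κ ex ((mod_self ν m).of_dvd (Int.natCast_dvd_natCast.2 (hpm j p hpj)))
      (Int.ModEq.refl _) i j k
  have hG2 : ∀ ν w, G ν (w % m) = G ν w := by
    intro ν w
    refine (Pool.Agent.L7h8.RP.stMod ι J cls _ _ s hs0 ?_).1
    intro j p _ hpj i k
    exact κ2_mod κ ex (Int.ModEq.refl _)
      ((mod_self w m).of_dvd (Int.natCast_dvd_natCast.2 (hpm j p hpj))) i j k
  have h1 : NBh cls κ ex f (fun j => s j * e j) ≤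
      ((4 : ℝ) ^ Fintype.card ι) ^ N * ∑ ν ∈ Rs f (fun j => s j * e j),
        ∑ w ∈ Un m, uw m * G ν w := by
    unfold NBh
    rw [mul_sum]
    refine sum_le_sum fun ν hν => ?_
    rw [← Un_avg hme (G ν) (hG2 ν), mul_sum, hprod]
    refine sum_le_sum fun w hw => ?_
    have h2 := Pool.Agent.L7h8.RP.subj' cls (κ2 κ ex (ν : ℤ) (w : ℤ)) hz s e hT (by
      intro j p hp hpj i k h
      have hzp' := hzp p hp j (hpj.trans (Dvd.intro _ rfl))
      unfold κ2 at h
      rcases (Nat.prime_iff_prime_int.1 hp).dvd_or_dvd h with h5 | h5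
      · have h6 := (Nat.prime_iff_prime_int.1 hp).dvd_of_dvd_pow h5
        refine (mem_Un.1 hw).2 p ?_ (by exact_mod_cast h6)
        exact Nat.mem_primeFactors.2 ⟨hp, (hpm j p hpj).trans (Dvd.intro _ rfl), hme.ne_zero⟩
      · unfold Rs at hν
        rw [mem_filter] at hν
        have h2 : (p : ℤ) ∣ (f j).eval (ν : ℤ) :=
          (Int.natCast_dvd_natCast.2 (hpj.trans (Dvd.intro _ rfl))).trans (hν.2 j)
        exact hκ p hp hzp' j ν h2 i k h5)
    calc uw (m * ∏ j, e j) * NBj cls (κ2 κ ex (ν : ℤ) (w : ℤ)) (fun j => s j * e j) ≤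
        uw (m * ∏ j, e j) * (((4 : ℝ) ^ Fintype.card ι) ^ N * G ν w) :=
          mul_le_mul_of_nonneg_left h2 (uw_nonneg _)
      _ = _ := by ring
  have h2 := Rs_lift f hρ hT (fun ν => ∑ w ∈ Un m, uw m * G ν w)
    (fun ν => sum_nonneg fun w _ => mul_nonneg (uw_nonneg _) (hG0 _ _))
    (fun ν => sum_congr rfl fun w _ => by rw [hG1])
  refine h1.trans ((mul_le_mul_of_nonneg_left h2 (by positivity)).trans (le_of_eq ?_))
  rw [mul_pow]
  unfold NBh
  ring

end Pool.Agent.L7h19.RP
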