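import Mathlib
import Pool.Agent.L7h19.RP.HPol
import Pool.Agent.L7h19.RP.HSub
import Pool.Agent.L7h19.RP.HMaj
import Pool.Agent.L7h19.RP.Fin
import Pool.Agent.L7h19.RJ.Ant

/-!
# Project RP, rational values of the parameter: the main theorem for positive coprime pairs
-/

set_option autoImplicit false

namespace Pool.Agent.L7h19.RP

open Finset Polynomial Pool.Agent.W262.RK Pool.Agent.W307.RT Pool.Agent.L7h19.RJ
open Pool.Agent.H474R2.PG (rho)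

variable {ι : Type} [Fintype ι] [DecidableEq ι] {J : Type} [Fintype J] [DecidableEq J]

theorem mainh (hp : Parts) (hCnt : StCnt2) (cls : ι → J → Option (Fin 4)) (D : ι → ℕ)
    (a : ι → Fin 3 → ℤ) (f : J → ℤ[X])
    (h2 : ∀ j, ∃ i, cls i j ≠ none)
    (hK : ∀ U : Finset (IJ cls), (∀ b ∈ U, Even (NJ cls (exh cls f D) b)) →
      (∀ b ∈ U, ∀ b' ∈ U, LJ cls b b' = LJ cls b' b) →
      ∑ b ∈ U, wJ cls b ≤ ((Fintype.card J : ℕ) : ℝ))
    (ha : ∀ i k, a i k ≠ 0) (hf : ∀ j, Irreducible (f j))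
    (hd : ∀ j, 0 < (f j).natDegree) (hnd : ∀ j l, j ≠ l → ¬ f j ∣ f l)
    (hD : ∀ i k, ∑ l ∈ fsJ (cls i) k, (f l).natDegree = D i)
    (hF : ∀ i (u w : ℤ), FV (cls i) (a i) (vh f u w) 0 - FV (cls i) (a i) (vh f u w) 1 =
      FV (cls i) (a i) (vh f u w) 2) :
    ∃ (X0 : ℕ) (B : ℝ), 0 ≤ B ∧ ∀ X : ℕ, X0 ≤ X →
      ∑ q ∈ (Icc 1 X ×ˢ Icc 1 X).filter (fun q : ℕ × ℕ => q.1.Coprime q.2 ∧
        ∀ j, vh f q.1 q.2 j ≠ 0), RRh cls a f q.1 q.2 ≤ B * (X : ℝ) ^ 2 := by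
  classical
  set κ : ι → J → Fin 3 → ℤ[X] := fun i j => kapP (cls i) (a i) f j with hκdef
  have hκ0 : ∀ i j k, ¬ f j ∣ κ i j k := fun i j k => kapP_nd hf hd hnd (ha i) j k
  set ex : ι → J → ℕ := exh cls f D with hex
  set N := Fintype.card J with hN
  set M := Fintype.card ι with hM
  set c : ℕ := 1 + ∑ j, (f j).natDegree with hc
  obtain ⟨z0, hz0⟩ := majh hp.ep hp.bw cls ex h2 N hK κ f hf hd hκ0 c
  choose Bκ hBκ using fun (i : ι) (j : J) (k : Fin 3) => large_nd (hf j) (hd j) (hκ0 i j k)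
  choose Br hBr using fun j : J => Pool.Agent.H474R2.PG.rho_le (f j) (hf j).ne_zero
  choose Bd hBd using fun j : J => large_nd (hf j) (hd j) (nd_derivative (hd j))
  have hco : ∀ j l, ∃ B : ℕ, j ≠ l → ∀ p : ℕ, B < p → ∀ t : ℤ, (p : ℤ) ∣ (f j).eval t →
      ¬ (p : ℤ) ∣ (f l).eval t := by
    intro j l
    by_cases h : j = l
    · exact ⟨0, fun h' => absurd h h'⟩
    · obtain ⟨B, hB⟩ := large_nd (hf j) (hd j) (hnd j l h)
      exact ⟨B, fun _ => hB⟩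
  choose Bc hBc using hco
  set z : ℕ := z0 + (2 * c + 2) + ∑ i, ∑ k, (a i k).natAbs + ∑ j, Br j + ∑ j, Bd j +
    ∑ j, ∑ l, Bc j l + ∑ i, ∑ j, ∑ k, Bκ i j k + ∑ j, (f j).leadingCoeff.natAbs with hz
  have hz2 : 2 ≤ z := by omega
  have hcz : 2 * c + 2 ≤ z := by omega
  have hdc : ∀ j, (f j).natDegree + 1 ≤ c := fun j => by
    have := le_sum_nat (fun j => (f j).natDegree) j
    have h' : (f j).natDegree ≤ ∑ j, (f j).natDegree := this
    omega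
  have hc1 : 1 ≤ c := by omega
  have hrho : ∀ p : ℕ, p.Prime → z < p → ∀ j, rho (f j) p ≤ c := fun p hp hzp j => by
    have e1 := le_sum_nat Br j
    have e2 := hBr j p hp (by omega)
    have e3 := hdc j
    omega
  have hap : ∀ i, ∀ p : ℕ, p.Prime → z < p → ∀ k, ¬ (p : ℤ) ∣ a i k := fun i p hp hzp k h => by
    have e1 := Nat.le_of_dvd (Int.natAbs_pos.2 (ha i k)) (Int.natCast_dvd.1 h)
    have e2 : (a i k).natAbs ≤ ∑ k, (a i k).natAbs := le_sum_nat (fun k => (a i k).natAbs) k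
    have e3 : ∑ k, (a i k).natAbs ≤ ∑ i, ∑ k, (a i k).natAbs :=
      le_sum_nat (fun i => ∑ k, (a i k).natAbs) i
    omega
  have hBB : BgH f c z := by
    refine ⟨hcz, hf, hd, fun p hp hzp j h => ?_, fun p hp hzp => ?_, fun p hp hzp j t hj => ?_,
      fun p hp hzp j l hjl t hj => ?_⟩
    · have e0 : (f j).leadingCoeff ≠ 0 := leadingCoeff_ne_zero.2 (hf j).ne_zero
      have e1 := Nat.le_of_dvd (Int.natAbs_pos.2 e0) (Int.natCast_dvd.1 h)
      have e2 : (f j).leadingCoeff.natAbs ≤ ∑ j, (f j).leadingCoeff.natAbs :=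
        le_sum_nat (fun j => (f j).leadingCoeff.natAbs) j
      omega
    · have e1 : ∑ j, rho (f j) p ≤ ∑ j, (f j).natDegree := sum_le_sum fun j _ => by
        have e1 := le_sum_nat Br j
        exact hBr j p hp (by omega)
      omega
    · have e1 := le_sum_nat Bd j
      exact hBd j p (by omega) t hj
    · have e2 : Bc j l ≤ ∑ l, Bc j l := le_sum_nat (fun l => Bc j l) l
      have e3 : ∑ l, Bc j l ≤ ∑ j, ∑ l, Bc j l := le_sum_nat (fun j => ∑ l, Bc j l) j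
      exact hBc j l hjl p (by omega) t hj
  have hκz : ∀ p : ℕ, p.Prime → z < p → ∀ j (t : ℤ), (p : ℤ) ∣ (f j).eval t →
      ∀ i k, ¬ (p : ℤ) ∣ (κ i j k).eval t := by
    intro p hp hzp j t hj i k
    have e1 : Bκ i j k ≤ ∑ k, Bκ i j k := le_sum_nat (fun k => Bκ i j k) k
    have e2 : ∑ k, Bκ i j k ≤ ∑ j, ∑ k, Bκ i j k := le_sum_nat (fun j => ∑ k, Bκ i j k) j
    have e3 : ∑ j, ∑ k, Bκ i j k ≤ ∑ i, ∑ j, ∑ k, Bκ i j k :=
      le_sum_nat (fun i => ∑ j, ∑ k, Bκ i j k) i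
    exact hBκ i j k p (by omega) t hj
  -- primes dividing the values
  have hcopz : ∀ q : ℕ × ℕ, q.1.Coprime q.2 → ∀ p : ℕ, p.Prime → z < p → ∀ j,
      (p : ℤ) ∣ hv (f j) q.1 q.2 → ¬ p ∣ q.2 := by
    intro q hq p hp hzp j hj h
    refine hv_ndvd hp (hBB.lead p hp hzp j) (fun h' => ?_) hj (by exact_mod_cast h)
    have h1 : p ∣ q.1 := by exact_mod_cast h'.1
    exact hp.one_lt.ne' (Nat.dvd_one.1 (hq ▸ Nat.dvd_gcd h1 h))
  have hroot : ∀ q : ℕ × ℕ, q.1.Coprime q.2 → ∀ p : ℕ, p.Prime → z < p → ∀ j,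
      (p : ℤ) ∣ hv (f j) q.1 q.2 → (p : ℤ) ∣ (f j).eval (nuf p q.1 q.2 : ℤ) := by
    intro q hq p hp hzp j hj
    have h1 := hcopz q hq p hp hzp j hj
    have h2 := nuf_mul hp.ne_zero q.1 ((Nat.Prime.coprime_iff_not_dvd hp).2 h1).symm
    have h3 := (hv_mod (f j) (w := (q.2 : ℤ)) h2).dvd_iff.2 hj
    rw [hv_mul] at h3
    rcases (Nat.prime_iff_prime_int.1 hp).dvd_or_dvd h3 with h4 | h4
    · exact absurd (by exact_mod_cast (Nat.prime_iff_prime_int.1 hp).dvd_of_dvd_pow h4) h1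
    · exact h4
  have hGd : ∀ q : ℕ × ℕ, q.1.Coprime q.2 → (∀ j, vh f q.1 q.2 j ≠ 0) →
      Gd z (vh f q.1 q.2) := fun q hq h0 =>
    ⟨h0, fun p hp hzp j l hjl h => hBB.cop p hp hzp j l hjl _ (hroot q hq p hp hzp j h.1)
      (hroot q hq p hp hzp l h.2)⟩
  obtain ⟨C', hC'⟩ := hz0 z (by omega)
  obtain ⟨C, K, y0, hC0, hK1, hcn⟩ := hCnt J (tw cls) f c z hBB
  set y1 : ℕ := y0 + ∑ j, cS (f j) + 3 with hy1
  set b : ℝ := 4 ^ M * c with hb
  have hcr : (1 : ℝ) ≤ c := by exact_mod_cast hc1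
  have hb1 : 1 ≤ b := one_le_mul_of_one_le_of_one_le (one_le_pow₀ (by norm_num)) hcr
  set D' : ℝ := (4 ^ (c * N)) ^ M * c with hD'
  have hD1 : 1 ≤ D' := one_le_mul_of_one_le_of_one_le
    (one_le_pow₀ (one_le_pow₀ (by norm_num))) hcr
  obtain ⟨X0, B, hB0, hmain⟩ := ant_u Pool.Agent.W591.RK2.ru Pool.Agent.W358.RK2.gr hb1 J z
    (NBh cls κ ex f) (C * (4 ^ (z + 2)) ^ M) C' D' (K + 4) y1 c hcz
    (fun s => NBh_nonneg _ _ _ _ s) (by positivity) hD1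
    (fun y hy s e hse => subh cls κ ex f z c hz2 hrho hκz y s e hse) hC'
  refine ⟨X0 + 1, B, hB0, fun X hX0 => ?_⟩
  have hX : 1 ≤ X := by omega
  have hXr : (1 : ℝ) ≤ X := by exact_mod_cast hX
  set TX : Finset (ℕ × ℕ) := (Icc 1 X ×ˢ Icc 1 X).filter (fun q : ℕ × ℕ => q.1.Coprime q.2 ∧
        ∀ j, vh f q.1 q.2 j ≠ 0) with hTX
  have hmem : ∀ q ∈ TX, ((1 ≤ q.1 ∧ q.1 ≤ X) ∧ (1 ≤ q.2 ∧ q.2 ≤ X)) ∧ q.1.Coprime q.2 ∧
        (∀ j, vh f q.1 q.2 j ≠ 0) := fun q hq => by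
    rw [hTX, mem_filter, mem_product, mem_Icc, mem_Icc] at hq
    exact hq
  refine hmain (ℕ × ℕ) X TX ((X : ℝ) ^ 2) (fun q : ℕ × ℕ => vh f (q.1 : ℤ) (q.2 : ℤ))
    (fun q : ℕ × ℕ => RRh cls a f q.1 q.2) (by omega) (by positivity)
    (fun q hq => hGd q (hmem q hq).2.1 (hmem q hq).2.2)
    (fun q => RRh_nonneg _ _ _ _ _) ?_
  -- the bound for the classes
  intro y Y k hy0 hzy hyK hk s hs v hv' u hu h8 T' hT'X hT'
  have hy00 : y0 ≤ y := by omega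
  have hy3 : 3 ≤ y := by omega
  have hyK' : y ^ K ≤ X := le_trans (Nat.pow_le_pow_right (by omega) (by omega)) hyK
  have hyX : y ≤ X := le_trans (Nat.le_self_pow (by omega) y) hyK
  have hcSy : ∀ j, cS (f j) ≤ y := fun j => by
    have e1 : cS (f j) ≤ ∑ j, cS (f j) := le_sum_nat (fun j => cS (f j)) j
    omega
  have hyr : (3 : ℝ) ≤ y := by exact_mod_cast hy3
  have hlogy : 0 < Real.log y := Real.log_pos (by linarith)
  have hsqf := sqf_prod hs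
  set m : ℕ := ∏ j, s j with hm
  have hm0 : m ≠ 0 := prod_ne_zero_iff.2 fun j _ => (Tup_pos hs j).ne'
  have hsm : ∀ j, s j ∣ m := fun j => dvd_prod_of_mem _ (mem_univ j)
  have hpm : ∀ p : ℕ, p.Prime → p ∣ m → ∃ j, p ∣ s j ∧ z < p := by
    intro p hp h
    obtain ⟨j, _, hj⟩ := (hp.prime.dvd_finsetProd_iff _).1 h
    exact ⟨j, hj, (dv_prime (Nat.mem_divisors.2 ⟨(mem_Tup'.1 hs).1 j, PP_ne_zero z y⟩) hp hj).1⟩
  set g : ℕ → ℕ → Finset ℕ → ℝ := fun ν w E =>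
    ∏ i, (NL m (LLso (cls i) (κ2 κ ex (ν : ℤ) (w : ℤ) i) s E) : ℝ) with hg
  have hg0 : ∀ ν w E, 0 ≤ g ν w E := fun ν w E => prod_nonneg fun i _ => Nat.cast_nonneg _
  set W : ℝ := (4 ^ (z + 2)) ^ M * ((4 ^ (c * N)) ^ M) ^ k *
    (4 ^ M) ^ (∑ j, (v j).primeFactors.card) with hW
  have hW0 : 0 ≤ W := by positivity
  set E : ℕ × ℕ → Finset ℕ := fun q => negH (tw cls) f (q.1 : ℤ) (q.2 : ℤ) s with hE
  -- facts on the pairs
  have hsv : ∀ q ∈ T', ∀ j, (s j : ℤ) ∣ hv (f j) q.1 q.2 := by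
    intro q hq j
    obtain ⟨_, hqc, hq0⟩ := hmem q (hT'X hq)
    have hPP := (mem_Tup'.1 (Pool.Agent.W45.RT.S1_mem (hGd q hqc hq0) :
      S1 z y (vh f q.1 q.2) ∈ Tup J z y)).1 j
    rw [← (hT' q hq).1]
    have hsq : Squarefree (S1 z y (vh f q.1 q.2) j) :=
      dv_squarefree (Nat.mem_divisors.2 ⟨hPP, PP_ne_zero z y⟩)
    show ((S1 z y (vh f q.1 q.2) j : ℕ) : ℤ) ∣ vh f q.1 q.2 j
    unfold S1
    push_cast
    refine Finset.prod_dvd_of_coprime ?_ ?_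
    · intro p hp q hq hpq
      have hp' := (mem_PS.1 (mem_filter.1 hp).1).2
      have hq' := (mem_PS.1 (mem_filter.1 hq).1).2
      exact Nat.isCoprime_iff_coprime.2 ((Nat.coprime_primes hp' hq').2 hpq)
    · intro p hp
      exact (mem_filter.1 hp).2.1
  have hw : ∀ q ∈ T', ∀ p ∈ m.primeFactors, ¬ p ∣ q.2 := by
    intro q hq p hp
    obtain ⟨_, hqc, hq0⟩ := hmem q (hT'X hq)
    have hpp := Nat.prime_of_mem_primeFactors hp
    obtain ⟨j, hj, hzp⟩ := hpm p hpp (Nat.dvd_of_mem_primeFactors hp)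
    exact hcopz q hqc p hpp hzp j ((Int.natCast_dvd_natCast.2 hj).trans (hsv q hq j))
  have hwc : ∀ q ∈ T', q.2.Coprime m := by
    intro q hq
    rw [Nat.Coprime, Nat.coprime_iff_gcd_eq_one.symm]
    by_contra h
    obtain ⟨p, hp, hpd⟩ := Nat.exists_prime_and_dvd h
    exact hw q hq p (Nat.mem_primeFactors.2 ⟨hp, hpd.trans (Nat.gcd_dvd_right _ _), hm0⟩)
      (hpd.trans (Nat.gcd_dvd_left _ _))
  have hnu : ∀ q ∈ T', (nuf m q.1 q.2 : ℤ) * q.2 ≡ q.1 [ZMOD m] := fun q hq =>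
    nuf_mul hm0 q.1 (hwc q hq)
  have hb1' : ∀ q ∈ T', RRh cls a f q.1 q.2 ≤ W * g (nuf m q.1 q.2) (q.2 % m) (E q) := by
    intro q hq
    obtain ⟨⟨hq1, hq2⟩, hqc, hq0⟩ := hmem q (hT'X hq)
    obtain ⟨hts, htv, _⟩ := hT' q hq
    have hr : ∀ i, (2 : ℝ) ^ Module.finrank ℤ
        (EAB (FV (cls i) (a i) (vh f q.1 q.2) 0) (FV (cls i) (a i) (vh f q.1 q.2) 1)).toAffine.Point ≤
        (4 ^ (z + 2) * (4 ^ (c * N)) ^ k * 4 ^ (∑ j, (v j).primeFactors.card)) *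
          (NL m (LLso (cls i) (κ2 κ ex (nuf m q.1 q.2 : ℤ) ((q.2 % m : ℕ) : ℤ) i) s (E q)) : ℝ) := by
      intro i
      have hr := hp.rank J (cls i) (a i) (vh f q.1 q.2) z y X k c hz2 (hGd q hqc hq0) (ha i) (hap i)
        (hF i q.1 q.2) (fun j => by
          have e1 := hv_le (f j) (u := (q.1 : ℤ)) (w := (q.2 : ℤ)) (X := X) (by simpa using hq1.2)
            (by simpa using hq2.2) (by have := hcSy j; omega)
          exact e1.trans (Nat.pow_le_pow_right hX (hdc j))) hX (by omega) hk (E q)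
        (fun j p hc hp hj => by
          rw [hts] at hj
          exact negH_iff cls f hs hc hp hj)
      rw [hts, htv] at hr
      have hmm : NL m (LLso (cls i) (kapV (cls i) (a i) (vh f q.1 q.2)) s (E q)) =
          NL m (LLso (cls i) (κ2 κ ex (nuf m q.1 q.2 : ℤ) ((q.2 % m : ℕ) : ℤ) i) s (E q)) := by
        refine (hp.mod ι J cls (fun i j k => kapV (cls i) (a i) (vh f q.1 q.2) j k)
          (κ2 κ ex (nuf m q.1 q.2 : ℤ) ((q.2 % m : ℕ) : ℤ)) s (fun j => (Tup_pos hs j).ne') ?_).2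
          i (E q)
        intro j p hpp hpj i k
        have hpm' : (p : ℤ) ∣ (m : ℤ) := by exact_mod_cast hpj.trans (hsm j)
        have e1 : kapV (cls i) (a i) (vh f (nuf m q.1 q.2 * q.2) q.2) j k =
            κ2 κ ex (nuf m q.1 q.2 : ℤ) (q.2 : ℤ) i j k :=
          kapV_vh cls a f D hD (nuf m q.1 q.2 : ℤ) (q.2 : ℤ) i j k
        have e2 : kapV (cls i) (a i) (vh f q.1 q.2) j k ≡
            kapV (cls i) (a i) (vh f (nuf m q.1 q.2 * q.2) q.2) j k [ZMOD p] :=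
          kapV_mod (cls i) (a i) (fun j => hv_mod (f j) ((hnu q hq).symm.of_dvd hpm')) j k
        have e3 : κ2 κ ex (nuf m q.1 q.2 : ℤ) (q.2 : ℤ) i j k ≡
            κ2 κ ex (nuf m q.1 q.2 : ℤ) ((q.2 % m : ℕ) : ℤ) i j k [ZMOD p] :=
          κ2_mod κ ex (Int.ModEq.refl _) ((mod_self q.2 m).symm.of_dvd hpm') i j k
        rw [e1] at e2
        exact e2.trans e3
      rw [hmm] at hr
      exact_mod_cast hr
    have h5 : RRh cls a f q.1 q.2 ≤ ∏ i : ι,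
        ((4 ^ (z + 2) * (4 ^ (c * N)) ^ k * 4 ^ (∑ j, (v j).primeFactors.card)) *
          (NL m (LLso (cls i) (κ2 κ ex (nuf m q.1 q.2 : ℤ) ((q.2 % m : ℕ) : ℤ) i) s (E q)) : ℝ)) :=
      prod_le_prod (fun i _ => by positivity) (fun i _ => hr i)
    refine h5.trans (le_of_eq ?_)
    rw [prod_mul_distrib, prod_const, card_univ, hW, hg]
    dsimp only
    congr 1
    rw [mul_pow, mul_pow, ← pow_mul (4 : ℝ) (∑ j, (v j).primeFactors.card),
      ← pow_mul (4 : ℝ) M, mul_comm M, pow_right_comm (4 ^ (c * N) : ℝ)]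
  set φ : ℕ × ℕ → ℕ × ℕ × Finset ℕ := fun q => (nuf m q.1 q.2, q.2 % m, E q) with hφ
  set A : Finset (ℕ × ℕ × Finset ℕ) := Rs f s ×ˢ (Un m ×ˢ (P3 (tw cls) s).powerset) with hA
  have hmaps : ∀ q ∈ T', φ q ∈ A := by
    intro q hq
    rw [hA, mem_product, mem_product]
    refine ⟨?_, ?_, negH_sub _ _ _ _ _⟩
    · unfold Rs
      rw [mem_filter, mem_range]
      refine ⟨nuf_lt hm0 _ _, fun j => ?_⟩
      have e1 := hsv q hq j
      have e2 : hv (f j) (nuf m q.1 q.2 * q.2) q.2 ≡ hv (f j) q.1 q.2 [ZMOD (s j)] :=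
        hv_mod (f j) ((hnu q hq).of_dvd (by exact_mod_cast hsm j))
      have e3 := e2.dvd_iff.2 e1
      rw [hv_mul] at e3
      have e4 : IsCoprime (s j : ℤ) ((q.2 : ℤ) ^ (f j).natDegree) := by
        refine IsCoprime.pow_right ?_
        exact Nat.isCoprime_iff_coprime.2 ((hwc q hq).symm.coprime_dvd_left (hsm j))
      exact e4.dvd_of_dvd_mul_left e3
    · rw [mem_Un]
      refine ⟨Nat.mod_lt _ (Nat.pos_of_ne_zero hm0), fun p hp h => hw q hq p hp ?_⟩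
      exact (Nat.dvd_mod_iff (Nat.dvd_of_mem_primeFactors hp)).1 h
  have h2' : ∑ q ∈ T', g (nuf m q.1 q.2) (q.2 % m) (E q) =
      ∑ x ∈ A, ((T'.filter (fun q => φ q = x)).card : ℝ) * g x.1 x.2.1 x.2.2 := by
    rw [← sum_fiberwise_of_maps_to hmaps]
    refine sum_congr rfl fun x _ => ?_
    rw [← nsmul_eq_mul, ← sum_const]
    refine sum_congr rfl fun t ht => ?_
    rw [← (mem_filter.1 ht).2]
  have hguw : (∏ j, (gw 1 c (s j) * ∏ p ∈ (s j).primeFactors, 1 / ((p : ℝ) - 1))) =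
      (∏ j, gw 1 c (s j)) * uw m := by
    rw [prod_mul_distrib]
    congr 1
    unfold uw
    have h1 : m.primeFactors = univ.biUnion (fun j => (s j).primeFactors) := by
      ext p
      rw [mem_biUnion]
      constructor
      · intro hp'
        have hpp := Nat.prime_of_mem_primeFactors hp'
        obtain ⟨j, hj, _⟩ := hpm p hpp (Nat.dvd_of_mem_primeFactors hp')
        exact ⟨j, mem_univ _, Nat.mem_primeFactors.2 ⟨hpp, hj, (Tup_pos hs j).ne'⟩⟩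
      · rintro ⟨j, _, hp'⟩
        exact Nat.mem_primeFactors.2 ⟨Nat.prime_of_mem_primeFactors hp',
          (Nat.dvd_of_mem_primeFactors hp').trans (hsm j), hm0⟩
    rw [h1, prod_biUnion]
    intro i _ j _ hij
    exact ((mem_Tup'.1 hs).2 i j hij).disjoint_primeFactors
  set Q : ℝ := C * (X : ℝ) ^ 2 * (1 / 2) ^ (P3 (tw cls) s).card *
        (∏ j, (gw 1 c (s j) * ∏ p ∈ (s j).primeFactors, 1 / ((p : ℝ) - 1))) *
        (∏ j, gr (f j) c (v j) / v j) * (∏ j, ru (f j) (u j)) / (Real.log y) ^ N with hQ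
  have h3' : ∀ x ∈ A, ((T'.filter (fun q => φ q = x)).card : ℝ) * g x.1 x.2.1 x.2.2 ≤
      Q * g x.1 x.2.1 x.2.2 := by
    intro x hx
    rw [hA, mem_product, mem_product] at hx
    refine mul_le_mul_of_nonneg_right ?_ (hg0 _ _ _)
    have hrs : ∀ j, (s j : ℤ) ∣ (f j).eval (x.1 : ℤ) := by
      have := hx.1
      unfold Rs at this
      exact (mem_filter.1 this).2
    have hxw := (mem_Un.1 hx.2.1).2
    refine le_trans ?_ (hcn X y Y hy00 hzy hyK' s hs v hv' u hu h8 ((x.1 : ℤ) * x.2.1) x.2.1 x.2.2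
      (fun j => by rw [hv_mul]; exact (hrs j).mul_left _)
      (fun p hp hpd h => hxw p (Nat.mem_primeFactors.2 ⟨hp, hpd, hm0⟩) (by exact_mod_cast h)))
    have h4 : T'.filter (fun q => φ q = x) ⊆
        (Icc 1 X ×ˢ Icc 1 X).filter (fun q : ℕ × ℕ => q.1.Coprime q.2 ∧
      (q.1 : ℤ) ≡ ((x.1 : ℤ) * x.2.1) [ZMOD ((∏ j, s j : ℕ) : ℤ)] ∧
      (q.2 : ℤ) ≡ x.2.1 [ZMOD ((∏ j, s j : ℕ) : ℤ)] ∧
      S1 z y (fun j => hv (f j) q.1 q.2) = s ∧ S2 z y (fun j => hv (f j) q.1 q.2) = v ∧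
      (∀ j, (u j : ℤ) ∣ hv (f j) q.1 q.2) ∧ negH (tw cls) f q.1 q.2 s = x.2.2) := by
      intro q hq
      rw [mem_filter] at hq
      obtain ⟨⟨hq1, hq2⟩, hqc, hq0⟩ := hmem q (hT'X hq.1)
      obtain ⟨hts, htv, htu⟩ := hT' q hq.1
      rw [mem_filter, mem_product, mem_Icc, mem_Icc]
      have e1 := hnu q hq.1
      have e2 := mod_self q.2 m
      rw [← hq.2]
      refine ⟨⟨hq1, hq2⟩, hqc, ?_, e2.symm, hts, htv, htu, rfl⟩
      exact (e1.symm.trans ((Int.ModEq.refl _).mul e2.symm))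
    exact_mod_cast card_le_card h4
  have hvb : ∏ j, gr (f j) c (v j) / (v j : ℝ) ≤
      (c : ℝ) ^ (∑ j, (v j).primeFactors.card) * ∏ j, (gw 1 c (v j) / (v j : ℝ)) := by
    have e1 : ∏ j, gr (f j) c (v j) / (v j : ℝ) ≤
        ∏ j, ((c : ℝ) ^ (v j).primeFactors.card * (gw 1 c (v j) / (v j : ℝ))) := by
      refine prod_le_prod (fun j _ => div_nonneg (gr_le hcz (fun p hp hzp => hrho p hp hzp j)
        ((mem_Tup'.1 hv').1 j)).1 (Nat.cast_nonneg _)) fun j _ => ?_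
      rw [← mul_div_assoc]
      exact div_le_div_of_nonneg_right (gr_le hcz (fun p hp hzp => hrho p hp hzp j)
        ((mem_Tup'.1 hv').1 j)).2 (Nat.cast_nonneg _)
    refine e1.trans (le_of_eq ?_)
    rw [prod_mul_distrib, prod_pow_eq_pow_sum]
  have hub : ∏ j, ru (f j) (u j) ≤ (c : ℝ) ^ k * ∏ j, 1 / (u j : ℝ) := by
    have e1 : ∏ j, ru (f j) (u j) ≤
        ∏ j, ((c : ℝ) ^ (u j).primeFactors.card * (1 / (u j : ℝ))) := by
      refine prod_le_prod (fun j _ => (ru_le hzy.le (fun p hp hzp => hrho p hp hzp j)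
        ((mem_Tup'.1 hu).1 j)).1) fun j _ => ?_
      exact (ru_le hzy.le (fun p hp hzp => hrho p hp hzp j) ((mem_Tup'.1 hu).1 j)).2
    refine e1.trans ?_
    rw [prod_mul_distrib, prod_pow_eq_pow_sum]
    refine mul_le_mul_of_nonneg_right ?_ (prod_nonneg fun j _ => by positivity)
    refine pow_le_pow_right₀ hcr (card_u hu (X := X) ?_ hk)
    have e3 : ∏ j, u j ≤ ∏ j, s j * v j * u j := by
      refine prod_le_prod' fun j _ => ?_
      have e4 := Tup_pos hs j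
      have e5 := Tup_pos hv' j
      exact Nat.le_mul_of_pos_left _ (Nat.mul_pos e4 e5)
    refine e3.trans (le_trans ?_ h8)
    exact Nat.le_self_pow (by norm_num) _
  set G : ℝ := ∑ x ∈ A, g x.1 x.2.1 x.2.2 with hG
  have hG0 : 0 ≤ G := sum_nonneg fun q _ => hg0 _ _ _
  have hNB : NBh cls κ ex f s = uw m * ((1 / 2) ^ (P3 (tw cls) s).card * G) := by
    unfold NBh NBj
    rw [hG, hA, sum_product, mul_sum, mul_sum]
    refine sum_congr rfl fun ν _ => ?_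
    rw [sum_product, mul_sum, mul_sum]
  set Q' : ℝ := C * (X : ℝ) ^ 2 * (1 / 2) ^ (P3 (tw cls) s).card *
        ((∏ j, gw 1 c (s j)) * uw m) *
        ((c : ℝ) ^ (∑ j, (v j).primeFactors.card) * ∏ j, (gw 1 c (v j) / (v j : ℝ))) *
        ((c : ℝ) ^ k * ∏ j, 1 / (u j : ℝ)) / (Real.log y) ^ N with hQ'
  have hcz' : c ≤ z := by omega
  have hgs : 0 ≤ ∏ j, gw 1 c (s j) := prod_nonneg fun j _ => gw_nn hcz' hs j
  have hgr0 : 0 ≤ ∏ j, gr (f j) c (v j) / (v j : ℝ) :=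
    prod_nonneg fun j _ => div_nonneg (gr_le hcz (fun p hp hzp => hrho p hp hzp j)
        ((mem_Tup'.1 hv').1 j)).1 (Nat.cast_nonneg _)
  have hru0 : 0 ≤ ∏ j, ru (f j) (u j) :=
    prod_nonneg fun j _ => (ru_le hzy.le (fun p hp hzp => hrho p hp hzp j)
        ((mem_Tup'.1 hu).1 j)).1
  have huw0 : 0 ≤ uw m := uw_nonneg m
  have hQQ : Q ≤ Q' := by
    rw [hQ, hQ', hguw]
    refine div_le_div_of_nonneg_right ?_ (by positivity)
    refine mul_le_mul (mul_le_mul_of_nonneg_left hvb (by positivity)) hub hru0 ?_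
    refine mul_nonneg (by positivity) (hgr0.trans hvb)
  have hkey : ∑ q ∈ T', RRh cls a f q.1 q.2 ≤ W * (Q' * G) := by
    calc ∑ q ∈ T', RRh cls a f q.1 q.2 ≤
        ∑ q ∈ T', W * g (nuf m q.1 q.2) (q.2 % m) (E q) := sum_le_sum hb1'
      _ = W * ∑ x ∈ A, ((T'.filter (fun q => φ q = x)).card : ℝ) * g x.1 x.2.1 x.2.2 := by
          rw [← mul_sum, h2']
      _ ≤ W * ∑ x ∈ A, Q * g x.1 x.2.1 x.2.2 :=
          mul_le_mul_of_nonneg_left (sum_le_sum h3') hW0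
      _ = W * (Q * G) := by rw [← mul_sum]
      _ ≤ _ := mul_le_mul_of_nonneg_left (mul_le_mul_of_nonneg_right hQQ hG0) hW0
  refine hkey.trans (le_of_eq ?_)
  have e2 : (∏ j, b ^ (v j).primeFactors.card * (gw 1 c (v j) / (v j : ℝ))) =
      b ^ (∑ j, (v j).primeFactors.card) * ∏ j, (gw 1 c (v j) / (v j : ℝ)) := by
    rw [prod_mul_distrib, prod_pow_eq_pow_sum]
  rw [hNB, e2, hQ', hW, hD', hb, mul_pow (4 ^ M : ℝ) (c : ℝ), mul_pow]
  ring

end Pool.Agent.L7h19.RP
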