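import Mathlib
import Pool.Agent.L7h19.RP.GMaj
import Pool.Agent.L7h19.RP.HMain
import Pool.Agent.L7h19.RP.SMain
import Pool.Agent.L7h19.RP.Stm5

/-!
# Project RP, rational values of the parameter: the main theorem in short boxes
-/

set_option autoImplicit false

namespace Pool.Agent.L7h19.RP

open Finset Polynomial Pool.Agent.W262.RK Pool.Agent.W307.RT Pool.Agent.L7h19.RJ
open Pool.Agent.H474R2.PG (rho)

variable {ι : Type} [Fintype ι] [DecidableEq ι] {J : Type} [Fintype J] [DecidableEq J]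

/-- a prime value has no small prime factors -/
lemma no_small_h {x : ℤ} {z y X : ℕ} (hy : 3 ≤ y) (hyX : y ^ 4 ≤ X)
    (ht : Nat.sqrt X < x.natAbs) (hp : x.natAbs.Prime) : ∀ p ∈ PS z y, ¬ (p : ℤ) ∣ x := by
  intro p hpS hdv
  have hpS := mem_PS.1 hpS
  have h1 : p ∣ x.natAbs := Int.natCast_dvd.1 hdv
  have h2 : p = x.natAbs := (Nat.prime_dvd_prime_iff_eq hpS.2 hp).1 h1
  have h3 : y ^ 2 ≤ Nat.sqrt X := Nat.le_sqrt.2 (by nlinarith)
  have h7 : p ≤ y := hpS.1.2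
  nlinarith

theorem mainG (hMod : StMod) (hRank : StRank) (hCnt : StCnt3)
    (cls : ι → J → Option (Fin 4)) (P : Finset J) (D : ι → ℕ)
    (a : ι → Fin 3 → ℤ) (f : J → ℤ[X])
    (ha : ∀ i k, a i k ≠ 0) (hf : ∀ j, Irreducible (f j))
    (hd : ∀ j, 0 < (f j).natDegree) (hnd : ∀ j l, j ≠ l → ¬ f j ∣ f l)
    (hD : ∀ i k, ∑ l ∈ fsJ (cls i) k, (f l).natDegree = D i)
    (hF : ∀ i (u w : ℤ), FV (cls i) (a i) (vh f u w) 0 - FV (cls i) (a i) (vh f u w) 1 =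
      FV (cls i) (a i) (vh f u w) 2) (hMaj : MajH cls P D a f) (μ : ℕ) (hμ : 1 ≤ μ) :
    ∃ (X0 : ℕ) (B : ℝ), 0 ≤ B ∧ ∀ (X : ℕ) (U0 : ℤ) (W0 : ℕ), X0 ≤ X → U0.natAbs ≤ X ^ μ →
      W0 ≤ X ^ μ → (Real.log X) ^ P.card *
      ∑ q ∈ (Icc 1 X ×ˢ Icc 1 X).filter (fun q : ℕ × ℕ =>
        IsCoprime (U0 + (q.1 : ℤ)) ((W0 : ℤ) + (q.2 : ℤ)) ∧
        (∀ j, vh f (U0 + (q.1 : ℤ)) ((W0 : ℤ) + (q.2 : ℤ)) j ≠ 0) ∧
        ∀ j ∈ P, Nat.sqrt X < (vh f (U0 + (q.1 : ℤ)) ((W0 : ℤ) + (q.2 : ℤ)) j).natAbs ∧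
          (vh f (U0 + (q.1 : ℤ)) ((W0 : ℤ) + (q.2 : ℤ)) j).natAbs.Prime),
        RRh cls a f (U0 + (q.1 : ℤ)) ((W0 : ℤ) + (q.2 : ℤ)) ≤ B * (X : ℝ) ^ 2 := by
  classical
  set κ : ι → J → Fin 3 → ℤ[X] := fun i j => kapP (cls i) (a i) f j with hκdef
  have hκ0 : ∀ i j k, ¬ f j ∣ κ i j k := fun i j k => kapP_nd hf hd hnd (ha i) j k
  set ex : ι → J → ℕ := exh cls f D with hex
  set cls' : ι → Jp P → Option (Fin 4) := fun i j => cls i j.1 with hcls'
  set κ' : ι → Jp P → Fin 3 → ℤ[X] := fun i j => κ i j.1 with hκ'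
  set ex' : ι → Jp P → ℕ := fun i j => ex i j.1 with hex'
  set f' : Jp P → ℤ[X] := fun j => f j.1 with hf'
  set N := Fintype.card J with hN
  set N' := Fintype.card (Jp P) with hN'
  set M := Fintype.card ι with hM
  set c : ℕ := 1 + ∑ j, (f j).natDegree with hc
  have hNN : N' + P.card = N := card_Jp P
  obtain ⟨z0, hz0⟩ := hMaj c
  choose Bκ hBκ using fun (i : ι) (j : J) (k : Fin 3) => large_nd (hf j) (hd j) (hκ0 i j k)
  choose Br hBr using fun j : J => Pool.Agent.H474R2.PG.rho_le (f j) (hf j).ne_zero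
  choose Bd hBd using fun j : J => large_nd (hf j) (hd j) (nd_derivative (hd j))
  have hco : ∀ j l, ∃ B : ℕ, j ≠ l → ∀ p : ℕ, B < p → ∀ t : ℤ, (p : ℤ) ∣ (f j).eval t →
      ¬ (p : ℤ) ∣ (f l).eval t := by
    intro j l
    by_cases h : j = l
    · exact ⟨0, fun h' => absurd h h'⟩
    · obtain ⟨B, hB⟩ := large_nd (hf j) (hd j) (hnd j l h)
      exact ⟨B, fun _ => hB⟩
  choose Bc hBc using hco
  set z : ℕ := z0 + (2 * c + 2) + ∑ i, ∑ k, (a i k).natAbs + ∑ j, Br j + ∑ j, Bd j +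
    ∑ j, ∑ l, Bc j l + ∑ i, ∑ j, ∑ k, Bκ i j k + ∑ j, (f j).leadingCoeff.natAbs with hz
  have hz2 : 2 ≤ z := by omega
  have hcz : 2 * c + 2 ≤ z := by omega
  have hdc : ∀ j, (f j).natDegree + 1 ≤ c := fun j => by
    have := le_sum_nat (fun j => (f j).natDegree) j
    have h' : (f j).natDegree ≤ ∑ j, (f j).natDegree := this
    omega
  have hc1 : 1 ≤ c := by omega
  have hrho : ∀ p : ℕ, p.Prime → z < p → ∀ j, rho (f j) p ≤ c := fun p hp hzp j => by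
    have e1 := le_sum_nat Br j
    have e2 := hBr j p hp (by omega)
    have e3 := hdc j
    omega
  have hap : ∀ i, ∀ p : ℕ, p.Prime → z < p → ∀ k, ¬ (p : ℤ) ∣ a i k := fun i p hp hzp k h => by
    have e1 := Nat.le_of_dvd (Int.natAbs_pos.2 (ha i k)) (Int.natCast_dvd.1 h)
    have e2 : (a i k).natAbs ≤ ∑ k, (a i k).natAbs := le_sum_nat (fun k => (a i k).natAbs) k
    have e3 : ∑ k, (a i k).natAbs ≤ ∑ i, ∑ k, (a i k).natAbs :=
      le_sum_nat (fun i => ∑ k, (a i k).natAbs) i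
    omega
  have hBB : BgH f c z := by
    refine ⟨hcz, hf, hd, fun p hp hzp j h => ?_, fun p hp hzp => ?_, fun p hp hzp j t hj => ?_,
      fun p hp hzp j l hjl t hj => ?_⟩
    · have e0 : (f j).leadingCoeff ≠ 0 := leadingCoeff_ne_zero.2 (hf j).ne_zero
      have e1 := Nat.le_of_dvd (Int.natAbs_pos.2 e0) (Int.natCast_dvd.1 h)
      have e2 : (f j).leadingCoeff.natAbs ≤ ∑ j, (f j).leadingCoeff.natAbs :=
        le_sum_nat (fun j => (f j).leadingCoeff.natAbs) j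
      omega
    · have e1 : ∑ j, rho (f j) p ≤ ∑ j, (f j).natDegree := sum_le_sum fun j _ => by
        have e1 := le_sum_nat Br j
        exact hBr j p hp (by omega)
      omega
    · have e1 := le_sum_nat Bd j
      exact hBd j p (by omega) t hj
    · have e2 : Bc j l ≤ ∑ l, Bc j l := le_sum_nat (fun l => Bc j l) l
      have e3 : ∑ l, Bc j l ≤ ∑ j, ∑ l, Bc j l := le_sum_nat (fun j => ∑ l, Bc j l) j
      exact hBc j l hjl p (by omega) t hj
  have hκz : ∀ p : ℕ, p.Prime → z < p → ∀ j (t : ℤ), (p : ℤ) ∣ (f j).eval t →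
      ∀ i k, ¬ (p : ℤ) ∣ (κ i j k).eval t := by
    intro p hp hzp j t hj i k
    have e1 : Bκ i j k ≤ ∑ k, Bκ i j k := le_sum_nat (fun k => Bκ i j k) k
    have e2 : ∑ k, Bκ i j k ≤ ∑ j, ∑ k, Bκ i j k := le_sum_nat (fun j => ∑ k, Bκ i j k) j
    have e3 : ∑ j, ∑ k, Bκ i j k ≤ ∑ i, ∑ j, ∑ k, Bκ i j k :=
      le_sum_nat (fun i => ∑ j, ∑ k, Bκ i j k) i
    exact hBκ i j k p (by omega) t hj
  -- the values at coprime pairs
  have hcopz : ∀ u w : ℤ, IsCoprime u w → ∀ p : ℕ, p.Prime → z < p → ∀ j,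
      (p : ℤ) ∣ hv (f j) u w → ¬ (p : ℤ) ∣ w := by
    intro u w hq p hp hzp j hj
    refine hv_ndvd hp (hBB.lead p hp hzp j) (fun h' => ?_) hj
    have h1 : IsUnit (p : ℤ) := hq.isUnit_of_dvd' h'.1 h'.2
    rw [Int.isUnit_iff_natAbs_eq, Int.natAbs_natCast] at h1
    exact hp.one_lt.ne' h1
  have hroot2 : ∀ u w : ℤ, IsCoprime u w → ∀ p : ℕ, p.Prime → z < p → ∀ j l, j ≠ l →
      (p : ℤ) ∣ hv (f j) u w → ¬ (p : ℤ) ∣ hv (f l) u w := by
    intro u w hq p hp hzp j l hjl hj hl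
    have h1 := hcopz u w hq p hp hzp j hj
    have hpi := Nat.prime_iff_prime_int.1 hp
    set w' : ℕ := (w % (p : ℤ)).toNat with hw'
    set u' : ℕ := (u % (p : ℤ)).toNat with hu'
    have hp0 : (p : ℤ) ≠ 0 := by exact_mod_cast hp.ne_zero
    have ew : ((w' : ℕ) : ℤ) ≡ w [ZMOD p] := by
      rw [hw', Int.toNat_of_nonneg (Int.emod_nonneg _ hp0)]
      exact Int.mod_modEq _ _
    have eu : ((u' : ℕ) : ℤ) ≡ u [ZMOD p] := by
      rw [hu', Int.toNat_of_nonneg (Int.emod_nonneg _ hp0)]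
      exact Int.mod_modEq _ _
    have hcw : w'.Coprime p := by
      rw [Nat.coprime_comm, Nat.Prime.coprime_iff_not_dvd hp]
      intro h
      exact h1 (ew.dvd_iff.1 (by exact_mod_cast h))
    have h2 := nuf_mul hp.ne_zero u' hcw
    have h3 : ((nuf p u' w' : ℕ) : ℤ) * w ≡ u [ZMOD p] :=
      ((Int.ModEq.refl _).mul ew.symm).trans (h2.trans eu)
    have key : ∀ j, (p : ℤ) ∣ hv (f j) u w → (p : ℤ) ∣ (f j).eval ((nuf p u' w' : ℕ) : ℤ) := by
      intro j hj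
      have h4 := (hv_mod (f j) (w := w) h3).dvd_iff.2 hj
      rw [hv_mul] at h4
      rcases hpi.dvd_or_dvd h4 with h5 | h5
      · exact absurd (hpi.dvd_of_dvd_pow h5) h1
      · exact h5
    exact hBB.cop p hp hzp j l hjl _ (key j hj) (key l hl)
  have hGd : ∀ u w : ℤ, IsCoprime u w → (∀ j, vh f u w j ≠ 0) → Gd z (vh f u w) :=
    fun u w hq h0 => ⟨h0, fun p hp hzp j l hjl h => hroot2 u w hq p hp hzp j l hjl h.1 h.2⟩
  obtain ⟨C', hC'⟩ := hz0 z (by omega)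
  obtain ⟨C, K, y0, hC0, hK1, hcn⟩ := hCnt J (tw cls) f c z μ hBB hμ
  set c' : ℕ := (μ + 1) * c with hc'
  set y1 : ℕ := y0 + ∑ j, cS (f j) + 3 with hy1
  set b : ℝ := 4 ^ M * c with hb
  have hcr : (1 : ℝ) ≤ c := by exact_mod_cast hc1
  have hb1 : 1 ≤ b := one_le_mul_of_one_le_of_one_le (one_le_pow₀ (by norm_num)) hcr
  set D' : ℝ := (4 ^ (c' * N)) ^ M * 2 ^ P.card * c with hD'
  have hD1 : 1 ≤ D' := one_le_mul_of_one_le_of_one_le (one_le_mul_of_one_le_of_one_le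
    (one_le_pow₀ (one_le_pow₀ (by norm_num))) (one_le_pow₀ (by norm_num))) hcr
  obtain ⟨X0, B, hB0, hmain⟩ := ant_u Pool.Agent.W591.RK2.ru Pool.Agent.W358.RK2.gr hb1 (Jp P) z
    (NBh cls' κ' ex' f') (C * (4 ^ (z + 2)) ^ M * 2 ^ P.card) C' D' (K + 4) y1 c hcz
    (fun s => NBh_nonneg _ _ _ _ s) (by positivity) hD1
    (fun y hy s e hse => subh cls' κ' ex' f' z c hz2 (fun p hp hzp j => hrho p hp hzp j.1)
      (fun p hp hzp j t ht i k => hκz p hp hzp j.1 t ht i k) y s e hse) hC'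
  refine ⟨X0 + 1, B, hB0, fun X U0 W0 hX0 hU0 hW0 => ?_⟩
  have hX : 1 ≤ X := by omega
  have hXr : (1 : ℝ) ≤ X := by exact_mod_cast hX
  have hlogX : 0 ≤ Real.log X := Real.log_nonneg hXr
  set uu : ℕ × ℕ → ℤ := fun q => U0 + (q.1 : ℤ) with huu
  set ww : ℕ × ℕ → ℤ := fun q => (W0 : ℤ) + (q.2 : ℤ) with hww
  set TX : Finset (ℕ × ℕ) := (Icc 1 X ×ˢ Icc 1 X).filter (fun q : ℕ × ℕ =>
        IsCoprime (uu q) (ww q) ∧ (∀ j, vh f (uu q) (ww q) j ≠ 0) ∧
        ∀ j ∈ P, Nat.sqrt X < (vh f (uu q) (ww q) j).natAbs ∧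
          (vh f (uu q) (ww q) j).natAbs.Prime) with hTX
  have hmem : ∀ q ∈ TX, ((1 ≤ q.1 ∧ q.1 ≤ X) ∧ (1 ≤ q.2 ∧ q.2 ≤ X)) ∧
        IsCoprime (uu q) (ww q) ∧ (∀ j, vh f (uu q) (ww q) j ≠ 0) ∧
        ∀ j ∈ P, Nat.sqrt X < (vh f (uu q) (ww q) j).natAbs ∧
          (vh f (uu q) (ww q) j).natAbs.Prime := fun q hq => by
    rw [hTX, mem_filter, mem_product, mem_Icc, mem_Icc] at hq
    exact hq
  have hres := hmain (ℕ × ℕ) X TX ((X : ℝ) ^ 2) (fun q : ℕ × ℕ => vh f' (uu q) (ww q))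
    (fun q : ℕ × ℕ => (Real.log X) ^ P.card * RRh cls a f (uu q) (ww q)) (by omega)
    (by positivity)
    (fun q hq => ⟨fun j => (hmem q hq).2.2.1 j.1, fun p hp hzp j l hjl h =>
      hroot2 _ _ (hmem q hq).2.1 p hp hzp j.1 l.1 (fun h => hjl (Subtype.ext h)) h.1 h.2⟩)
    (fun q => mul_nonneg (pow_nonneg hlogX _) (RRh_nonneg _ _ _ _ _)) ?_
  · rw [← mul_sum] at hres
    exact hres
  -- the bound for the classes
  intro y Y k hy0 hzy hyK hk s hs v hv' u hu h8 T' hT'X hT'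
  have hy00 : y0 ≤ y := by omega
  have hy3 : 3 ≤ y := by omega
  have hyK' : y ^ K ≤ X := le_trans (Nat.pow_le_pow_right (by omega) (by omega)) hyK
  have hy4 : y ^ 4 ≤ X := le_trans (Nat.pow_le_pow_right (by omega) (by omega)) hyK
  have hyX : y ≤ X := le_trans (Nat.le_self_pow (by omega) y) hyK
  have hcSy : ∀ j, cS (f j) ≤ y := fun j => by
    have e1 : cS (f j) ≤ ∑ j, cS (f j) := le_sum_nat (fun j => cS (f j)) j
    omega
  set sx := ext1 P s with hsx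
  set vx := ext1 P v with hvx
  set ux := ext1 P u with hux
  have hsxm : sx ∈ Tup J z y := ext1_Tup hs
  have hvxm : vx ∈ Tup J z y := ext1_Tup hv'
  have huxm : ux ∈ Tup J y Y := ext1_Tup hu
  have hyr : (3 : ℝ) ≤ y := by exact_mod_cast hy3
  have hlogy : 0 < Real.log y := Real.log_pos (by linarith)
  have hfacts : ∀ q ∈ T', ((1 ≤ q.1 ∧ q.1 ≤ X) ∧ (1 ≤ q.2 ∧ q.2 ≤ X)) ∧
      IsCoprime (uu q) (ww q) ∧ (∀ j, vh f (uu q) (ww q) j ≠ 0) ∧
      S1 z y (vh f (uu q) (ww q)) = sx ∧ S2 z y (vh f (uu q) (ww q)) = vx ∧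
      ∀ j, (ux j : ℤ) ∣ vh f (uu q) (ww q) j := by
    intro q hq
    obtain ⟨hq1, hqc, hq0, hqP⟩ := hmem q (hT'X hq)
    obtain ⟨hts, htv, htu⟩ := hT' q hq
    have hno : ∀ j ∈ P, ∀ p ∈ PS z y, ¬ (p : ℤ) ∣ vh f (uu q) (ww q) j := fun j hj =>
      no_small_h hy3 hy4 (hqP j hj).1 (hqP j hj).2
    refine ⟨hq1, hqc, hq0, ?_, ?_, fun j => ?_⟩
    · rw [S1_ext1 hno]
      exact congrArg (ext1 P) hts
    · rw [S2_ext1 hno]
      exact congrArg (ext1 P) htv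
    · by_cases hj : j ∈ P
      · rw [hux, ext1_mem P u hj]
        simp
      · have h4 := ext1_val P u ⟨j, hj⟩
        have h5 : ux j = u ⟨j, hj⟩ := h4
        rw [h5]
        exact htu ⟨j, hj⟩
  have hsqf := sqf_prod hsxm
  set m : ℕ := ∏ j, sx j with hm
  have hm0 : m ≠ 0 := prod_ne_zero_iff.2 fun j _ => (Tup_pos hsxm j).ne'
  have hsm : ∀ j, sx j ∣ m := fun j => dvd_prod_of_mem _ (mem_univ j)
  have hpm : ∀ p : ℕ, p.Prime → p ∣ m → ∃ j, p ∣ sx j ∧ z < p := by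
    intro p hp h
    obtain ⟨j, _, hj⟩ := (hp.prime.dvd_finsetProd_iff _).1 h
    exact ⟨j, hj, (dv_prime (Nat.mem_divisors.2 ⟨(mem_Tup'.1 hsxm).1 j, PP_ne_zero z y⟩) hp hj).1⟩
  set g : ℕ → ℕ → Finset ℕ → ℝ := fun ν w E =>
    ∏ i, (NL m (LLso (cls i) (κ2 κ ex (ν : ℤ) (w : ℤ) i) sx E) : ℝ) with hg
  have hg0 : ∀ ν w E, 0 ≤ g ν w E := fun ν w E => prod_nonneg fun i _ => Nat.cast_nonneg _
  set W : ℝ := (4 ^ (z + 2)) ^ M * ((4 ^ (c' * N)) ^ M) ^ k *
    (4 ^ M) ^ (∑ j, (v j).primeFactors.card) with hW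
  have hW0' : 0 ≤ W := by positivity
  have hvsum : ∑ j, (vx j).primeFactors.card = ∑ j, (v j).primeFactors.card := by
    have h4 := prod_ext1 (M := Multiplicative ℕ) P
      (fun _ m => Multiplicative.ofAdd m.primeFactors.card) (fun _ => by simp) v
    have h5 : Multiplicative.ofAdd (∑ j, (vx j).primeFactors.card) =
        Multiplicative.ofAdd (∑ j, (v j).primeFactors.card) := by
      rw [ofAdd_sum, ofAdd_sum]
      exact h4
    exact Multiplicative.ofAdd.injective h5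
  set E : ℕ × ℕ → Finset ℕ := fun q => negH (tw cls) f (uu q) (ww q) sx with hE
  -- facts on the pairs
  have hsv : ∀ q ∈ T', ∀ j, (sx j : ℤ) ∣ hv (f j) (uu q) (ww q) := by
    intro q hq j
    obtain ⟨_, hqc, hq0, hts, _⟩ := hfacts q hq
    have hPP := (mem_Tup'.1 (Pool.Agent.W45.RT.S1_mem (hGd _ _ hqc hq0) :
      S1 z y (vh f (uu q) (ww q)) ∈ Tup J z y)).1 j
    rw [← hts]
    have hsq : Squarefree (S1 z y (vh f (uu q) (ww q)) j) :=
      dv_squarefree (Nat.mem_divisors.2 ⟨hPP, PP_ne_zero z y⟩)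
    show ((S1 z y (vh f (uu q) (ww q)) j : ℕ) : ℤ) ∣ vh f (uu q) (ww q) j
    unfold S1
    push_cast
    refine Finset.prod_dvd_of_coprime ?_ ?_
    · intro p hp q hq hpq
      have hp' := (mem_PS.1 (mem_filter.1 hp).1).2
      have hq' := (mem_PS.1 (mem_filter.1 hq).1).2
      exact Nat.isCoprime_iff_coprime.2 ((Nat.coprime_primes hp' hq').2 hpq)
    · intro p hp
      exact (mem_filter.1 hp).2.1
  have hm00 : (m : ℤ) ≠ 0 := by exact_mod_cast hm0
  have hmpos : (0 : ℤ) < (m : ℤ) := by exact_mod_cast Nat.pos_of_ne_zero hm0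
  set um : ℕ × ℕ → ℕ := fun q => (uu q % (m : ℤ)).toNat with hum
  set wm : ℕ × ℕ → ℕ := fun q => (ww q % (m : ℤ)).toNat with hwm
  have eum : ∀ q, ((um q : ℕ) : ℤ) ≡ uu q [ZMOD m] := by
    intro q
    have h0 := Int.emod_nonneg (uu q) hm00
    rw [hum]
    dsimp only
    rw [Int.toNat_of_nonneg h0]
    exact Int.mod_modEq _ _
  have ewm : ∀ q, ((wm q : ℕ) : ℤ) ≡ ww q [ZMOD m] := by
    intro q
    have h0 := Int.emod_nonneg (ww q) hm00
    rw [hwm]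
    dsimp only
    rw [Int.toNat_of_nonneg h0]
    exact Int.mod_modEq _ _
  have hwml : ∀ q, wm q < m := by
    intro q
    have h0 := Int.emod_nonneg (ww q) hm00
    have h1 := Int.emod_lt_of_pos (ww q) hmpos
    rw [hwm]
    dsimp only
    omega
  have hw : ∀ q ∈ T', ∀ p ∈ m.primeFactors, ¬ p ∣ wm q := by
    intro q hq p hp h
    obtain ⟨_, hqc, _⟩ := hfacts q hq
    have hpp := Nat.prime_of_mem_primeFactors hp
    obtain ⟨j, hj, hzp⟩ := hpm p hpp (Nat.dvd_of_mem_primeFactors hp)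
    refine hcopz _ _ hqc p hpp hzp j ((Int.natCast_dvd_natCast.2 hj).trans (hsv q hq j)) ?_
    refine (((ewm q).of_dvd ?_).dvd_iff).1 (by exact_mod_cast h)
    exact_mod_cast Nat.dvd_of_mem_primeFactors hp
  have hwc : ∀ q ∈ T', (wm q).Coprime m := by
    intro q hq
    rw [Nat.Coprime, Nat.coprime_iff_gcd_eq_one.symm]
    by_contra h
    obtain ⟨p, hp, hpd⟩ := Nat.exists_prime_and_dvd h
    exact hw q hq p (Nat.mem_primeFactors.2 ⟨hp, hpd.trans (Nat.gcd_dvd_right _ _), hm0⟩)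
      (hpd.trans (Nat.gcd_dvd_left _ _))
  set nu : ℕ × ℕ → ℕ := fun q => nuf m (um q) (wm q) with hnud
  have hnu0 : ∀ q ∈ T', (nu q : ℤ) * wm q ≡ uu q [ZMOD m] := fun q hq =>
    (nuf_mul hm0 (um q) (hwc q hq)).trans (eum q)
  have hnu : ∀ q ∈ T', (nu q : ℤ) * ww q ≡ uu q [ZMOD m] := fun q hq =>
    ((Int.ModEq.refl _).mul (ewm q).symm).trans (hnu0 q hq)
  have hU1 : ∀ q ∈ T', (uu q).natAbs ≤ X ^ (μ + 1) ∧ (ww q).natAbs ≤ X ^ (μ + 1) := by
    intro q hq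
    obtain ⟨⟨⟨h1, h2⟩, h3, h4⟩, _⟩ := hfacts q hq
    have e1 : X ^ (μ + 1) = X ^ μ * X := pow_succ _ _
    have e2 : X ≤ X ^ μ := Nat.le_self_pow (by omega) X
    have e4 : 2 ≤ X := by omega
    have e3 : X ^ μ + X ≤ X ^ μ * X := by
      calc X ^ μ + X ≤ X ^ μ + X ^ μ := by omega
        _ = X ^ μ * 2 := by ring
        _ ≤ X ^ μ * X := Nat.mul_le_mul_left _ e4
    rw [e1]
    refine ⟨?_, ?_⟩
    · have : (uu q).natAbs ≤ U0.natAbs + q.1 := by
        rw [huu]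
        dsimp only
        omega
      omega
    · have : (ww q).natAbs ≤ W0 + q.2 := by
        rw [hww]
        dsimp only
        omega
      omega
  have hb1' : ∀ q ∈ T', RRh cls a f (uu q) (ww q) ≤ W * g (nu q) (wm q) (E q) := by
    intro q hq
    obtain ⟨⟨hq1, hq2⟩, hqc, hq0, hts, htv, _⟩ := hfacts q hq
    have hr : ∀ i, (2 : ℝ) ^ Module.finrank ℤ
        (EAB (FV (cls i) (a i) (vh f (uu q) (ww q)) 0)
          (FV (cls i) (a i) (vh f (uu q) (ww q)) 1)).toAffine.Point ≤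
        (4 ^ (z + 2) * (4 ^ (c' * N)) ^ k * 4 ^ (∑ j, (v j).primeFactors.card)) *
          (NL m (LLso (cls i) (κ2 κ ex (nu q : ℤ) (wm q : ℤ) i) sx (E q)) : ℝ) := by
      intro i
      have hr := hRank J (cls i) (a i) (vh f (uu q) (ww q)) z y X k c' hz2 (hGd _ _ hqc hq0)
        (ha i) (hap i) (hF i _ _) (fun j => by
          have e1 := hv_le (f j) (u := uu q) (w := ww q) (X := X ^ (μ + 1)) (hU1 q hq).1
            (hU1 q hq).2 (le_trans (by have := hcSy j; omega) (Nat.le_self_pow (by omega) X))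
          rw [← pow_mul] at e1
          exact e1.trans (Nat.pow_le_pow_right hX (Nat.mul_le_mul_left _ (hdc j)))) hX
        (by omega) hk (E q)
        (fun j p hc hp hj => by
          rw [hts] at hj
          exact negH_iff cls f hsxm hc hp hj)
      rw [hts, htv, hvsum] at hr
      have hmm : NL m (LLso (cls i) (kapV (cls i) (a i) (vh f (uu q) (ww q))) sx (E q)) =
          NL m (LLso (cls i) (κ2 κ ex (nu q : ℤ) (wm q : ℤ) i) sx (E q)) := by
        refine (hMod ι J cls (fun i j k => kapV (cls i) (a i) (vh f (uu q) (ww q)) j k)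
          (κ2 κ ex (nu q : ℤ) (wm q : ℤ)) sx (fun j => (Tup_pos hsxm j).ne') ?_).2
          i (E q)
        intro j p hpp hpj i k
        have hpm' : (p : ℤ) ∣ (m : ℤ) := by exact_mod_cast hpj.trans (hsm j)
        have e1 : kapV (cls i) (a i) (vh f (nu q * ww q) (ww q)) j k =
            κ2 κ ex (nu q : ℤ) (ww q) i j k :=
          kapV_vh cls a f D hD (nu q : ℤ) (ww q) i j k
        have e2 : kapV (cls i) (a i) (vh f (uu q) (ww q)) j k ≡
            kapV (cls i) (a i) (vh f (nu q * ww q) (ww q)) j k [ZMOD p] :=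
          kapV_mod (cls i) (a i) (fun j => hv_mod (f j) ((hnu q hq).symm.of_dvd hpm')) j k
        have e3 : κ2 κ ex (nu q : ℤ) (ww q) i j k ≡
            κ2 κ ex (nu q : ℤ) (wm q : ℤ) i j k [ZMOD p] :=
          κ2_mod κ ex (Int.ModEq.refl _) ((ewm q).symm.of_dvd hpm') i j k
        rw [e1] at e2
        exact e2.trans e3
      rw [hmm] at hr
      exact_mod_cast hr
    have h5 : RRh cls a f (uu q) (ww q) ≤ ∏ i : ι,
        ((4 ^ (z + 2) * (4 ^ (c' * N)) ^ k * 4 ^ (∑ j, (v j).primeFactors.card)) *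
          (NL m (LLso (cls i) (κ2 κ ex (nu q : ℤ) (wm q : ℤ) i) sx (E q)) : ℝ)) :=
      prod_le_prod (fun i _ => by positivity) (fun i _ => hr i)
    refine h5.trans (le_of_eq ?_)
    rw [prod_mul_distrib, prod_const, card_univ, hW, hg]
    dsimp only
    congr 1
    rw [mul_pow, mul_pow, ← pow_mul (4 : ℝ) (∑ j, (v j).primeFactors.card),
      ← pow_mul (4 : ℝ) M, mul_comm M, pow_right_comm (4 ^ (c' * N) : ℝ)]
  set φ : ℕ × ℕ → ℕ × ℕ × Finset ℕ := fun q => (nu q, wm q, E q) with hφ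
  set A : Finset (ℕ × ℕ × Finset ℕ) := Rs f sx ×ˢ (Un m ×ˢ (P3 (tw cls) sx).powerset) with hA
  have hmaps : ∀ q ∈ T', φ q ∈ A := by
    intro q hq
    rw [hA, mem_product, mem_product]
    refine ⟨?_, ?_, negH_sub _ _ _ _ _⟩
    · unfold Rs
      rw [mem_filter, mem_range]
      refine ⟨nuf_lt hm0 _ _, fun j => ?_⟩
      have e1 := hsv q hq j
      have e2 : hv (f j) (nu q * ww q) (ww q) ≡ hv (f j) (uu q) (ww q) [ZMOD (sx j)] :=
        hv_mod (f j) ((hnu q hq).of_dvd (by exact_mod_cast hsm j))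
      have e3 := e2.dvd_iff.2 e1
      rw [hv_mul] at e3
      have e4 : IsCoprime (sx j : ℤ) ((ww q) ^ (f j).natDegree) := by
        refine IsCoprime.pow_right ?_
        have e5 : IsCoprime (m : ℤ) (wm q : ℤ) := Nat.isCoprime_iff_coprime.2 (hwc q hq).symm
        have e6 : IsCoprime (m : ℤ) (ww q) := by
          obtain ⟨t, ht⟩ := (ewm q).symm.dvd
          have : ww q = (wm q : ℤ) + (m : ℤ) * (-t) := by linarith
          rw [this]
          exact e5.add_mul_left_right (-t)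
        exact e6.of_isCoprime_of_dvd_left (by exact_mod_cast hsm j)
      exact e4.dvd_of_dvd_mul_left e3
    · rw [mem_Un]
      exact ⟨hwml q, hw q hq⟩
  have h2' : ∑ q ∈ T', g (nu q) (wm q) (E q) =
      ∑ x ∈ A, ((T'.filter (fun q => φ q = x)).card : ℝ) * g x.1 x.2.1 x.2.2 := by
    rw [← sum_fiberwise_of_maps_to hmaps]
    refine sum_congr rfl fun x _ => ?_
    rw [← nsmul_eq_mul, ← sum_const]
    refine sum_congr rfl fun t ht => ?_
    rw [← (mem_filter.1 ht).2]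
  have hguw : (∏ j, (gw 1 c (sx j) * ∏ p ∈ (sx j).primeFactors, 1 / ((p : ℝ) - 1))) =
      (∏ j, gw 1 c (sx j)) * uw m := by
    rw [prod_mul_distrib]
    congr 1
    unfold uw
    have h1 : m.primeFactors = univ.biUnion (fun j => (sx j).primeFactors) := by
      ext p
      rw [mem_biUnion]
      constructor
      · intro hp'
        have hpp := Nat.prime_of_mem_primeFactors hp'
        obtain ⟨j, hj, _⟩ := hpm p hpp (Nat.dvd_of_mem_primeFactors hp')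
        exact ⟨j, mem_univ _, Nat.mem_primeFactors.2 ⟨hpp, hj, (Tup_pos hsxm j).ne'⟩⟩
      · rintro ⟨j, _, hp'⟩
        exact Nat.mem_primeFactors.2 ⟨Nat.prime_of_mem_primeFactors hp',
          (Nat.dvd_of_mem_primeFactors hp').trans (hsm j), hm0⟩
    rw [h1, prod_biUnion]
    intro i _ j _ hij
    exact ((mem_Tup'.1 hsxm).2 i j hij).disjoint_primeFactors
  set Q : ℝ := C * (X : ℝ) ^ 2 * (1 / 2) ^ (P3 (tw cls) sx).card *
        (∏ j, (gw 1 c (sx j) * ∏ p ∈ (sx j).primeFactors, 1 / ((p : ℝ) - 1))) *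
        (∏ j, gr (f j) c (vx j) / vx j) * (∏ j, ru (f j) (ux j)) / (Real.log y) ^ N with hQ
  have hpu : ∏ j, ux j = ∏ j, u j := prod_ext1 P (fun _ n => n) (fun _ => rfl) u
  have hps : ∏ j, sx j = ∏ j, s j := prod_ext1 P (fun _ n => n) (fun _ => rfl) s
  have hpv : ∏ j, vx j = ∏ j, v j := prod_ext1 P (fun _ n => n) (fun _ => rfl) v
  have h8x : (∏ j, sx j * vx j * ux j) ^ 8 ≤ X := by
    rw [prod_mul_distrib, prod_mul_distrib, hps, hpv, hpu, ← prod_mul_distrib,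
      ← prod_mul_distrib]
    exact h8
  have h3' : ∀ x ∈ A, ((T'.filter (fun q => φ q = x)).card : ℝ) * g x.1 x.2.1 x.2.2 ≤
      Q * g x.1 x.2.1 x.2.2 := by
    intro x hx
    rw [hA, mem_product, mem_product] at hx
    refine mul_le_mul_of_nonneg_right ?_ (hg0 _ _ _)
    have hrs : ∀ j, (sx j : ℤ) ∣ (f j).eval (x.1 : ℤ) := by
      have := hx.1
      unfold Rs at this
      exact (mem_filter.1 this).2
    have hxw := (mem_Un.1 hx.2.1).2
    refine le_trans ?_ (hcn X y Y U0 W0 hy00 hzy hyK' hU0 hW0 sx hsxm vx hvxm ux huxm h8x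
      ((x.1 : ℤ) * x.2.1) x.2.1 x.2.2
      (fun j => by rw [hv_mul]; exact (hrs j).mul_left _)
      (fun p hp hpd h => hxw p (Nat.mem_primeFactors.2 ⟨hp, hpd, hm0⟩) (by exact_mod_cast h)))
    have h4 : T'.filter (fun q => φ q = x) ⊆
        (Icc 1 X ×ˢ Icc 1 X).filter (fun q : ℕ × ℕ =>
      IsCoprime (U0 + (q.1 : ℤ)) ((W0 : ℤ) + (q.2 : ℤ)) ∧
      U0 + (q.1 : ℤ) ≡ ((x.1 : ℤ) * x.2.1) [ZMOD ((∏ j, sx j : ℕ) : ℤ)] ∧
      (W0 : ℤ) + (q.2 : ℤ) ≡ x.2.1 [ZMOD ((∏ j, sx j : ℕ) : ℤ)] ∧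
      S1 z y (fun j => hv (f j) (U0 + (q.1 : ℤ)) ((W0 : ℤ) + (q.2 : ℤ))) = sx ∧
      S2 z y (fun j => hv (f j) (U0 + (q.1 : ℤ)) ((W0 : ℤ) + (q.2 : ℤ))) = vx ∧
      (∀ j, (ux j : ℤ) ∣ hv (f j) (U0 + (q.1 : ℤ)) ((W0 : ℤ) + (q.2 : ℤ))) ∧
      negH (tw cls) f (U0 + (q.1 : ℤ)) ((W0 : ℤ) + (q.2 : ℤ)) sx = x.2.2) := by
      intro q hq
      rw [mem_filter] at hq
      obtain ⟨⟨hq1, hq2⟩, hqc, hq0, hts, htv, htu⟩ := hfacts q hq.1
      rw [mem_filter, mem_product, mem_Icc, mem_Icc]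
      have e1 := hnu0 q hq.1
      have e2 := ewm q
      rw [← hq.2]
      exact ⟨⟨hq1, hq2⟩, hqc, e1.symm, e2.symm, hts, htv, htu, rfl⟩
    exact_mod_cast card_le_card h4
  have hvb : ∏ j, gr (f j) c (vx j) / (vx j : ℝ) ≤
      (c : ℝ) ^ (∑ j, (v j).primeFactors.card) * ∏ j, (gw 1 c (v j) / (v j : ℝ)) := by
    have e1 : ∏ j, gr (f j) c (vx j) / (vx j : ℝ) ≤
        ∏ j, ((c : ℝ) ^ (vx j).primeFactors.card * (gw 1 c (vx j) / (vx j : ℝ))) := by
      refine prod_le_prod (fun j _ => div_nonneg (gr_le hcz (fun p hp hzp => hrho p hp hzp j)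
        ((mem_Tup'.1 hvxm).1 j)).1 (Nat.cast_nonneg _)) fun j _ => ?_
      rw [← mul_div_assoc]
      exact div_le_div_of_nonneg_right (gr_le hcz (fun p hp hzp => hrho p hp hzp j)
        ((mem_Tup'.1 hvxm).1 j)).2 (Nat.cast_nonneg _)
    refine e1.trans (le_of_eq ?_)
    rw [prod_mul_distrib, prod_pow_eq_pow_sum, hvsum]
    congr 1
    exact prod_ext1 P (fun _ m => gw 1 c m / (m : ℝ)) (fun _ => by rw [gw_one]; norm_num) v
  have hub : ∏ j, ru (f j) (ux j) ≤ (c : ℝ) ^ k * ∏ j, 1 / (u j : ℝ) := by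
    have e1 : ∏ j, ru (f j) (ux j) ≤
        ∏ j, ((c : ℝ) ^ (ux j).primeFactors.card * (1 / (ux j : ℝ))) := by
      refine prod_le_prod (fun j _ => (ru_le hzy.le (fun p hp hzp => hrho p hp hzp j)
        ((mem_Tup'.1 huxm).1 j)).1) fun j _ => ?_
      exact (ru_le hzy.le (fun p hp hzp => hrho p hp hzp j) ((mem_Tup'.1 huxm).1 j)).2
    refine e1.trans ?_
    rw [prod_mul_distrib, prod_pow_eq_pow_sum]
    have e2 : ∏ j, 1 / (ux j : ℝ) = ∏ j, 1 / (u j : ℝ) :=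
      prod_ext1 P (fun _ m => 1 / (m : ℝ)) (fun _ => by norm_num) u
    rw [e2]
    refine mul_le_mul_of_nonneg_right ?_ (prod_nonneg fun j _ => by positivity)
    refine pow_le_pow_right₀ hcr (card_u huxm (X := X) ?_ hk)
    have e3 : ∏ j, ux j ≤ ∏ j, sx j * vx j * ux j := by
      refine prod_le_prod' fun j _ => ?_
      have e4 := Tup_pos hsxm j
      have e5 := Tup_pos hvxm j
      exact Nat.le_mul_of_pos_left _ (Nat.mul_pos e4 e5)
    refine e3.trans (le_trans ?_ h8x)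
    exact Nat.le_self_pow (by norm_num) _
  set G : ℝ := ∑ x ∈ A, g x.1 x.2.1 x.2.2 with hG
  have hG0 : 0 ≤ G := sum_nonneg fun q _ => hg0 _ _ _
  have hNB : NBh cls' κ' ex' f' s = uw m * ((1 / 2) ^ (P3 (tw cls) sx).card * G) := by
    have e1 := NBh_ext1 P cls κ ex f s
    rw [show NBh cls' κ' ex' f' s = NBh cls κ ex f sx from e1.symm]
    unfold NBh NBj
    rw [hG, hA, sum_product, mul_sum, mul_sum]
    refine sum_congr rfl fun ν _ => ?_
    rw [sum_product, mul_sum, mul_sum]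
  set Q' : ℝ := C * (X : ℝ) ^ 2 * (1 / 2) ^ (P3 (tw cls) sx).card *
        ((∏ j, gw 1 c (s j)) * uw m) *
        ((c : ℝ) ^ (∑ j, (v j).primeFactors.card) * ∏ j, (gw 1 c (v j) / (v j : ℝ))) *
        ((c : ℝ) ^ k * ∏ j, 1 / (u j : ℝ)) / (Real.log y) ^ N with hQ'
  have e3 : ∏ j, gw 1 c (sx j) = ∏ j, gw 1 c (s j) :=
    prod_ext1 P (fun _ m => gw 1 c m) (fun _ => gw_one 1 c) s
  have hcz' : c ≤ z := by omega
  have hgs : 0 ≤ ∏ j, gw 1 c (s j) := prod_nonneg fun j _ => gw_nn hcz' hs j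
  have hgr0 : 0 ≤ ∏ j, gr (f j) c (vx j) / (vx j : ℝ) :=
    prod_nonneg fun j _ => div_nonneg (gr_le hcz (fun p hp hzp => hrho p hp hzp j)
        ((mem_Tup'.1 hvxm).1 j)).1 (Nat.cast_nonneg _)
  have hru0 : 0 ≤ ∏ j, ru (f j) (ux j) :=
    prod_nonneg fun j _ => (ru_le hzy.le (fun p hp hzp => hrho p hp hzp j)
        ((mem_Tup'.1 huxm).1 j)).1
  have huw0 : 0 ≤ uw m := uw_nonneg m
  have hQQ : Q ≤ Q' := by
    rw [hQ, hQ', hguw, e3]
    refine div_le_div_of_nonneg_right ?_ (by positivity)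
    refine mul_le_mul (mul_le_mul_of_nonneg_left hvb (by positivity)) hub hru0 ?_
    refine mul_nonneg (by positivity) (hgr0.trans hvb)
  have hkey : ∑ q ∈ T', RRh cls a f (uu q) (ww q) ≤ W * (Q' * G) := by
    calc ∑ q ∈ T', RRh cls a f (uu q) (ww q) ≤
        ∑ q ∈ T', W * g (nu q) (wm q) (E q) := sum_le_sum hb1'
      _ = W * ∑ x ∈ A, ((T'.filter (fun q => φ q = x)).card : ℝ) * g x.1 x.2.1 x.2.2 := by
          rw [← mul_sum, h2']
      _ ≤ W * ∑ x ∈ A, Q * g x.1 x.2.1 x.2.2 :=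
          mul_le_mul_of_nonneg_left (sum_le_sum h3') hW0'
      _ = W * (Q * G) := by rw [← mul_sum]
      _ ≤ _ := mul_le_mul_of_nonneg_left (mul_le_mul_of_nonneg_right hQQ hG0) hW0'
  have hlog : (Real.log X) ^ P.card ≤ 2 ^ P.card * (2 ^ P.card) ^ k * (Real.log y) ^ P.card := by
    have h4 : Real.log X ≤ 2 * 2 ^ k * Real.log y := by
      have h5 : Real.log X ≤ k * Real.log ((y : ℝ) + 1) := by
        rw [← Real.log_pow]
        exact Real.log_le_log (by linarith) (by exact_mod_cast hk.le)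
      have h6 : Real.log ((y : ℝ) + 1) ≤ 2 * Real.log y := by
        rw [← Nat.cast_ofNat (R := ℝ), ← Real.log_pow]
        exact Real.log_le_log (by linarith) (by nlinarith)
      have h7 : (k : ℝ) ≤ 2 ^ k := by exact_mod_cast (Nat.lt_two_pow_self (n := k)).le
      have h8 : (k : ℝ) * Real.log ((y : ℝ) + 1) ≤ 2 ^ k * (2 * Real.log y) :=
        mul_le_mul h7 h6 (Real.log_nonneg (by linarith)) (by positivity)
      linarith
    calc (Real.log X) ^ P.card ≤ (2 * 2 ^ k * Real.log y) ^ P.card :=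
          pow_le_pow_left₀ hlogX h4 _
      _ = _ := by
        rw [mul_pow, mul_pow, ← pow_mul (2 : ℝ) k, mul_comm k, pow_mul (2 : ℝ) P.card]
  have hfin : (Real.log X) ^ P.card * ∑ q ∈ T', RRh cls a f (uu q) (ww q) ≤
      (2 ^ P.card * (2 ^ P.card) ^ k * (Real.log y) ^ P.card) * (W * (Q' * G)) :=
    mul_le_mul hlog hkey (sum_nonneg fun t _ => RRh_nonneg _ _ _ _ _) (by positivity)
  rw [← mul_sum]
  refine hfin.trans (le_of_eq ?_)
  have hL : (Real.log y) ^ P.card ≠ 0 := by positivity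
  have hL' : (Real.log y) ^ N' ≠ 0 := by positivity
  have e6 : (Real.log y) ^ N = (Real.log y) ^ N' * (Real.log y) ^ P.card := by
    rw [← pow_add, hNN]
  have e2 : (∏ j, b ^ (v j).primeFactors.card * (gw 1 c (v j) / (v j : ℝ))) =
      b ^ (∑ j, (v j).primeFactors.card) * ∏ j, (gw 1 c (v j) / (v j : ℝ)) := by
    rw [prod_mul_distrib, prod_pow_eq_pow_sum]
  rw [hNB, e2, hQ', hW, e6, hD', hb, mul_pow (4 ^ M : ℝ) (c : ℝ), mul_pow, mul_pow]
  rw [show Fintype.card (Jp P) = N' from rfl]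
  field_simp

end Pool.Agent.L7h19.RP
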