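import Mathlib
import Pool.Agent.L7h19.RP.Defs
import Pool.Agent.L7h19.RP.Stm4

/-!
# Project RP (helper19, MP_157626_nt): two small statements for prime values of binary forms
-/

set_option autoImplicit false

namespace Pool.Agent.L7h19.RP

open Finset Polynomial Pool.Agent.W262.RK Pool.Agent.W307.RT Pool.Agent.L7h19.RJ

/-- **StCrude**: the trivial bound `2 ^ rank ≪ X ^ ε`. From `StRank` (`Pool.Agent.L7h89.RP.stRank`,
`Pool/Agent/L7h89/RP/StRank.lean`) with `z ≥ z1` large in terms of `ε`, `y = X ^ D + 1`, `k = 1`: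
the primes `> z` which divide `∏ x_j ≤ X ^ (D * |J|)` are at most `D * |J| * log X / log z` in number,
and `NL m _ ≤ 4 * 4 ^ ω(m)` (the number of pairs of signed divisors of `m`). Any fixed power of
`4 ^ ω` is `≪ X ^ ε` in this way. -/
def StCrude : Prop := ∀ (J : Type) [Fintype J] [DecidableEq J] (c : J → Option (Fin 4))
  (a : Fin 3 → ℤ) (z1 D : ℕ) (ε : ℝ), (∀ k, a k ≠ 0) → 0 < ε → ∃ C : ℝ, ∀ (x : J → ℤ) (X : ℕ),
  1 ≤ X → Gd z1 x → FV c a x 0 - FV c a x 1 = FV c a x 2 → (∀ j, (x j).natAbs ≤ X ^ D) →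
  (2 : ℝ) ^ Module.finrank ℤ (EAB (FV c a x 0) (FV c a x 1)).toAffine.Point ≤ C * (X : ℝ) ^ ε

/-- **StFew**: few small values. For fixed `w` the polynomial `u ↦ hv f u w` is `f.scaleRoots w`, of
degree `f.natDegree > 0`, so it takes each value at most `f.natDegree` times. -/
def StFew : Prop := ∀ f : ℤ[X], 0 < f.natDegree → ∀ (X B : ℕ) (U0 W0 : ℤ),
  ((Icc 1 X ×ˢ Icc 1 X).filter (fun q : ℕ × ℕ =>
    (hv f (U0 + (q.1 : ℤ)) (W0 + (q.2 : ℤ))).natAbs ≤ B)).card ≤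
    X * (f.natDegree * (2 * B + 1))

end Pool.Agent.L7h19.RP
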