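import Mathlib
import Pool.Agent.L7h19.RP.GMain
import Pool.Agent.L7h19.RP.Stm7

/-!
# Project RP, rational values of the parameter: small values of the forms with index in `P`
-/

set_option autoImplicit false

namespace Pool.Agent.L7h19.RP

open Finset Polynomial Pool.Agent.W262.RK Pool.Agent.W307.RT Pool.Agent.L7h19.RJ

variable {ι : Type} [Fintype ι] [DecidableEq ι] {J : Type} [Fintype J] [DecidableEq J]

/-- the values at coprime pairs have no common large prime factors -/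
lemma gd_h (f : J → ℤ[X]) (hf : ∀ j, Irreducible (f j)) (hd : ∀ j, 0 < (f j).natDegree)
    (hnd : ∀ j l, j ≠ l → ¬ f j ∣ f l) : ∃ z : ℕ, ∀ u w : ℤ, IsCoprime u w →
    (∀ j, vh f u w j ≠ 0) → Gd z (vh f u w) := by
  classical
  have hco : ∀ j l, ∃ B : ℕ, j ≠ l → ∀ p : ℕ, B < p → ∀ t : ℤ, (p : ℤ) ∣ (f j).eval t →
      ¬ (p : ℤ) ∣ (f l).eval t := by
    intro j l
    by_cases h : j = l
    · exact ⟨0, fun h' => absurd h h'⟩
    · obtain ⟨B, hB⟩ := large_nd (hf j) (hd j) (hnd j l h)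
      exact ⟨B, fun _ => hB⟩
  choose Bc hBc using hco
  set z : ℕ := ∑ j, ∑ l, Bc j l + ∑ j, (f j).leadingCoeff.natAbs with hz
  have hlead : ∀ p : ℕ, z < p → ∀ j, ¬ (p : ℤ) ∣ (f j).leadingCoeff := by
    intro p hzp j h
    have e0 : (f j).leadingCoeff ≠ 0 := leadingCoeff_ne_zero.2 (hf j).ne_zero
    have e1 := Nat.le_of_dvd (Int.natAbs_pos.2 e0) (Int.natCast_dvd.1 h)
    have e2 : (f j).leadingCoeff.natAbs ≤ ∑ j, (f j).leadingCoeff.natAbs :=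
      le_sum_nat (fun j => (f j).leadingCoeff.natAbs) j
    omega
  have hcop : ∀ p : ℕ, z < p → ∀ j l, j ≠ l → ∀ t : ℤ, (p : ℤ) ∣ (f j).eval t →
      ¬ (p : ℤ) ∣ (f l).eval t := by
    intro p hzp j l hjl t hj
    have e2 : Bc j l ≤ ∑ l, Bc j l := le_sum_nat (fun l => Bc j l) l
    have e3 : ∑ l, Bc j l ≤ ∑ j, ∑ l, Bc j l := le_sum_nat (fun j => ∑ l, Bc j l) j
    exact hBc j l hjl p (by omega) t hj
  have hcopz : ∀ u w : ℤ, IsCoprime u w → ∀ p : ℕ, p.Prime → z < p → ∀ j,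
      (p : ℤ) ∣ hv (f j) u w → ¬ (p : ℤ) ∣ w := by
    intro u w hq p hp hzp j hj
    refine hv_ndvd hp (hlead p hzp j) (fun h' => ?_) hj
    have h1 : IsUnit (p : ℤ) := hq.isUnit_of_dvd' h'.1 h'.2
    rw [Int.isUnit_iff_natAbs_eq, Int.natAbs_natCast] at h1
    exact hp.one_lt.ne' h1
  refine ⟨z, fun u w hq h0 => ⟨h0, fun p hp hzp j l hjl h => ?_⟩⟩
  obtain ⟨hj, hl⟩ := h
  have h1 := hcopz u w hq p hp hzp j hj
  have hpi := Nat.prime_iff_prime_int.1 hp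
  set w' : ℕ := (w % (p : ℤ)).toNat with hw'
  set u' : ℕ := (u % (p : ℤ)).toNat with hu'
  have hp0 : (p : ℤ) ≠ 0 := by exact_mod_cast hp.ne_zero
  have ew : ((w' : ℕ) : ℤ) ≡ w [ZMOD p] := by
    rw [hw', Int.toNat_of_nonneg (Int.emod_nonneg _ hp0)]
    exact Int.mod_modEq _ _
  have eu : ((u' : ℕ) : ℤ) ≡ u [ZMOD p] := by
    rw [hu', Int.toNat_of_nonneg (Int.emod_nonneg _ hp0)]
    exact Int.mod_modEq _ _
  have hcw : w'.Coprime p := by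
    rw [Nat.coprime_comm, Nat.Prime.coprime_iff_not_dvd hp]
    intro h
    exact h1 (ew.dvd_iff.1 (by exact_mod_cast h))
  have h2 := nuf_mul hp.ne_zero u' hcw
  have h3 : ((nuf p u' w' : ℕ) : ℤ) * w ≡ u [ZMOD p] :=
    ((Int.ModEq.refl _).mul ew.symm).trans (h2.trans eu)
  have key : ∀ j, (p : ℤ) ∣ hv (f j) u w → (p : ℤ) ∣ (f j).eval ((nuf p u' w' : ℕ) : ℤ) := by
    intro j hj
    have h4 := (hv_mod (f j) (w := w) h3).dvd_iff.2 hj
    rw [hv_mul] at h4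
    rcases hpi.dvd_or_dvd h4 with h5 | h5
    · exact absurd (hpi.dvd_of_dvd_pow h5) h1
    · exact h5
  exact hcop p hzp j l hjl _ (key j hj) (key l hl)

/-- the crude bound for the product of the `2 ^ rank` -/
theorem crude_h (hCr : StCrude) (cls : ι → J → Option (Fin 4))
    (a : ι → Fin 3 → ℤ) (f : J → ℤ[X])
    (ha : ∀ i k, a i k ≠ 0) (hf : ∀ j, Irreducible (f j))
    (hd : ∀ j, 0 < (f j).natDegree) (hnd : ∀ j l, j ≠ l → ¬ f j ∣ f l)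
    (hF : ∀ i (u w : ℤ), FV (cls i) (a i) (vh f u w) 0 - FV (cls i) (a i) (vh f u w) 1 =
      FV (cls i) (a i) (vh f u w) 2) (η : ℝ) (hη : 0 < η) :
    ∃ C : ℝ, 0 ≤ C ∧ ∀ (Y : ℕ) (u w : ℤ), 1 ≤ Y → IsCoprime u w → (∀ j, vh f u w j ≠ 0) →
      u.natAbs ≤ Y → w.natAbs ≤ Y → RRh cls a f u w ≤ C * (Y : ℝ) ^ η := by
  classical
  obtain ⟨z, hz⟩ := gd_h f hf hd hnd
  set M := Fintype.card ι with hM
  set S : ℕ := 1 + ∑ j, cS (f j) with hS
  set d : ℕ := ∑ j, (f j).natDegree + 1 with hd'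
  have hη' : 0 < η / (M + 1) := by positivity
  choose Ci hCi using fun i : ι => hCr J (cls i) (a i) z d (η / (M + 1)) (ha i) hη'
  set C1 : ℝ := 1 + ∑ i, |Ci i| with hC1
  have hs : 0 ≤ ∑ i, |Ci i| := sum_nonneg fun _ _ => abs_nonneg _
  have hC11 : 1 ≤ C1 := by linarith
  have hCC : ∀ i, Ci i ≤ C1 := fun i => by have := le_sum_abs Ci i; linarith
  have hSr : (1 : ℝ) ≤ S := by
    have : 1 ≤ S := by omega
    exact_mod_cast this
  refine ⟨C1 ^ M * (S : ℝ) ^ η, by positivity, fun Y u w hY hc h0 hu hw => ?_⟩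
  set Y' : ℕ := S * Y with hY'
  have hYY : Y ≤ Y' := Nat.le_mul_of_pos_left Y (by omega)
  have hSY : S ≤ Y' := Nat.le_mul_of_pos_right S (by omega)
  have hY1 : 1 ≤ Y' := hY.trans hYY
  have hYr : (1 : ℝ) ≤ Y' := by exact_mod_cast hY1
  have hbd : ∀ j, (vh f u w j).natAbs ≤ Y' ^ d := by
    intro j
    have e1 := hv_le (f j) (u := u) (w := w) (X := Y') (hu.trans hYY) (hw.trans hYY) (by
      have e1 : cS (f j) ≤ ∑ j, cS (f j) := le_sum_nat (fun j => cS (f j)) j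
      omega)
    refine e1.trans (Nat.pow_le_pow_right hY1 ?_)
    have e1 : (f j).natDegree ≤ ∑ j, (f j).natDegree := le_sum_nat (fun j => (f j).natDegree) j
    omega
  have h1 : ∀ i, (2 : ℝ) ^ Module.finrank ℤ
      (EAB (FV (cls i) (a i) (vh f u w) 0) (FV (cls i) (a i) (vh f u w) 1)).toAffine.Point ≤
      C1 * (Y' : ℝ) ^ (η / (M + 1)) := by
    intro i
    refine (hCi i (vh f u w) Y' hY1 (hz u w hc h0) (hF i u w) hbd).trans ?_
    exact mul_le_mul_of_nonneg_right (hCC i) (Real.rpow_nonneg (by linarith) _)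
  have h2 : RRh cls a f u w ≤ ∏ _i : ι, (C1 * (Y' : ℝ) ^ (η / (M + 1))) :=
    prod_le_prod (fun i _ => by positivity) fun i _ => h1 i
  rw [prod_const, card_univ, mul_pow, ← Real.rpow_mul_natCast (by linarith)] at h2
  have h3 : (Y' : ℝ) ^ (η / (M + 1) * ((Fintype.card ι : ℕ) : ℝ)) ≤ (Y' : ℝ) ^ η := by
    refine Real.rpow_le_rpow_of_exponent_le hYr ?_
    have : ((Fintype.card ι : ℕ) : ℝ) = (M : ℝ) := rfl
    rw [this]
    have hMp : (0 : ℝ) < (M : ℝ) + 1 := by positivity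
    rw [div_mul_eq_mul_div, div_le_iff₀ hMp]
    nlinarith
  refine h2.trans ((mul_le_mul_of_nonneg_left h3 (by positivity)).trans (le_of_eq ?_))
  rw [hY']
  push_cast
  rw [Real.mul_rpow (by positivity) (by positivity)]
  ring

/-- powers of the logarithm -/
lemma log_pow_le (N : ℕ) (η : ℝ) (hη : 0 < η) : ∃ C : ℝ, 0 ≤ C ∧ ∀ X : ℕ, 1 ≤ X →
    (Real.log X) ^ N ≤ C * (X : ℝ) ^ η := by
  have hη' : 0 < η / (N + 1) := by positivity
  refine ⟨(1 / (η / (N + 1))) ^ N, by positivity, fun X hX => ?_⟩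
  have hXr : (1 : ℝ) ≤ X := by exact_mod_cast hX
  have h1 := Real.log_natCast_le_rpow_div X hη'
  have h2 : (Real.log X) ^ N ≤ ((X : ℝ) ^ (η / (N + 1)) / (η / (N + 1))) ^ N :=
    pow_le_pow_left₀ (Real.log_nonneg hXr) h1 N
  refine h2.trans ?_
  rw [div_eq_mul_one_div, mul_pow, mul_comm]
  refine mul_le_mul_of_nonneg_left ?_ (by positivity)
  rw [← Real.rpow_mul_natCast (by linarith)]
  refine Real.rpow_le_rpow_of_exponent_le hXr ?_
  have hMp : (0 : ℝ) < (N : ℝ) + 1 := by positivity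
  rw [div_mul_eq_mul_div, div_le_iff₀ hMp]
  nlinarith

/-- the main theorem in short boxes, without the condition that the prime values are large -/
theorem mainG2 (hMod : StMod) (hRank : StRank) (hCnt : StCnt3) (hCr : StCrude) (hFew : StFew)
    (cls : ι → J → Option (Fin 4)) (P : Finset J) (D : ι → ℕ)
    (a : ι → Fin 3 → ℤ) (f : J → ℤ[X])
    (ha : ∀ i k, a i k ≠ 0) (hf : ∀ j, Irreducible (f j))
    (hd : ∀ j, 0 < (f j).natDegree) (hnd : ∀ j l, j ≠ l → ¬ f j ∣ f l)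
    (hD : ∀ i k, ∑ l ∈ fsJ (cls i) k, (f l).natDegree = D i)
    (hF : ∀ i (u w : ℤ), FV (cls i) (a i) (vh f u w) 0 - FV (cls i) (a i) (vh f u w) 1 =
      FV (cls i) (a i) (vh f u w) 2) (hMaj : MajH cls P D a f) (μ : ℕ) (hμ : 1 ≤ μ) :
    ∃ (X0 : ℕ) (B : ℝ), 0 ≤ B ∧ ∀ (X : ℕ) (U0 : ℤ) (W0 : ℕ), X0 ≤ X → U0.natAbs ≤ X ^ μ →
      W0 ≤ X ^ μ → (Real.log X) ^ P.card *
      ∑ q ∈ (Icc 1 X ×ˢ Icc 1 X).filter (fun q : ℕ × ℕ =>
        IsCoprime (U0 + (q.1 : ℤ)) ((W0 : ℤ) + (q.2 : ℤ)) ∧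
        (∀ j, vh f (U0 + (q.1 : ℤ)) ((W0 : ℤ) + (q.2 : ℤ)) j ≠ 0) ∧
        ∀ j ∈ P, (vh f (U0 + (q.1 : ℤ)) ((W0 : ℤ) + (q.2 : ℤ)) j).natAbs.Prime),
        RRh cls a f (U0 + (q.1 : ℤ)) ((W0 : ℤ) + (q.2 : ℤ)) ≤ B * (X : ℝ) ^ 2 := by
  classical
  obtain ⟨X0, B, hB0, hm⟩ := mainG hMod hRank hCnt cls P D a f ha hf hd hnd hD hF hMaj μ hμ
  have hη : (0 : ℝ) < 1 / (4 * (μ + 1)) := by positivity
  obtain ⟨C, hC0, hC⟩ := crude_h hCr cls a f ha hf hd hnd hF (1 / (4 * (μ + 1))) hη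
  obtain ⟨C2, hC20, hC2⟩ := log_pow_le P.card (1 / 4) (by norm_num)
  set dg : ℕ := ∑ j ∈ P, (f j).natDegree with hdg
  refine ⟨X0 + 2, B + C2 * (3 * dg * C), by positivity, fun X U0 W0 hX0 hU0 hW0 => ?_⟩
  have hX : 1 ≤ X := by omega
  have hXr : (1 : ℝ) ≤ X := by exact_mod_cast hX
  have hXp : (0 : ℝ) < X := by linarith
  have hlog : 0 ≤ (Real.log X) ^ P.card := pow_nonneg (Real.log_nonneg hXr) _
  set uu : ℕ × ℕ → ℤ := fun q => U0 + (q.1 : ℤ) with huu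
  set ww : ℕ × ℕ → ℤ := fun q => (W0 : ℤ) + (q.2 : ℤ) with hww
  set A := (Icc 1 X ×ˢ Icc 1 X).filter (fun q : ℕ × ℕ =>
        IsCoprime (uu q) (ww q) ∧ (∀ j, vh f (uu q) (ww q) j ≠ 0) ∧
        ∀ j ∈ P, (vh f (uu q) (ww q) j).natAbs.Prime) with hA
  set A1 := (Icc 1 X ×ˢ Icc 1 X).filter (fun q : ℕ × ℕ =>
        IsCoprime (uu q) (ww q) ∧ (∀ j, vh f (uu q) (ww q) j ≠ 0) ∧
        ∀ j ∈ P, Nat.sqrt X < (vh f (uu q) (ww q) j).natAbs ∧
          (vh f (uu q) (ww q) j).natAbs.Prime) with hA1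
  set A2 : Finset (ℕ × ℕ) := P.biUnion (fun j => (Icc 1 X ×ˢ Icc 1 X).filter (fun q : ℕ × ℕ =>
        (vh f (uu q) (ww q) j).natAbs ≤ Nat.sqrt X)) with hA2
  have hsub : A ⊆ A1 ∪ (A2 ∩ A) := by
    intro q hq
    have hq' := mem_filter.1 hq
    by_cases h : ∀ j ∈ P, Nat.sqrt X < (vh f (uu q) (ww q) j).natAbs
    · exact mem_union_left _ (mem_filter.2 ⟨hq'.1, hq'.2.1, hq'.2.2.1, fun j hj =>
        ⟨h j hj, hq'.2.2.2 j hj⟩⟩)
    · push Not at h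
      obtain ⟨j, hj, hj'⟩ := h
      exact mem_union_right _ (mem_inter.2 ⟨mem_biUnion.2 ⟨j, hj, mem_filter.2 ⟨hq'.1, hj'⟩⟩, hq⟩)
  have h1 : ∑ q ∈ A, RRh cls a f (uu q) (ww q) ≤ ∑ q ∈ A1, RRh cls a f (uu q) (ww q) +
      ∑ q ∈ A2 ∩ A, RRh cls a f (uu q) (ww q) := by
    refine (sum_le_sum_of_subset_of_nonneg hsub fun q _ _ => RRh_nonneg _ _ _ _ _).trans ?_
    rw [← sum_union_inter]
    exact le_add_of_nonneg_right (sum_nonneg fun q _ => RRh_nonneg _ _ _ _ _)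
  have h2 := hm X U0 W0 (by omega) hU0 hW0
  have hcardA2 : ((A2.card : ℕ) : ℝ) ≤ 3 * dg * (X * Real.sqrt X) := by
    have e1 : A2.card ≤ ∑ j ∈ P, X * ((f j).natDegree * (2 * Nat.sqrt X + 1)) := by
      refine card_biUnion_le.trans (sum_le_sum fun j _ => ?_)
      exact hFew (f j) (hd j) X (Nat.sqrt X) U0 W0
    have e2 : ∑ j ∈ P, X * ((f j).natDegree * (2 * Nat.sqrt X + 1)) =
        X * (dg * (2 * Nat.sqrt X + 1)) := by
      rw [hdg, sum_mul, mul_sum]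
    rw [e2] at e1
    have e3 : ((Nat.sqrt X : ℕ) : ℝ) ≤ Real.sqrt X := Real.nat_sqrt_le_real_sqrt
    have e4 : (1 : ℝ) ≤ Real.sqrt X := Real.one_le_sqrt.2 hXr
    have e5 : ((A2.card : ℕ) : ℝ) ≤ ((X * (dg * (2 * Nat.sqrt X + 1)) : ℕ) : ℝ) := by
      exact_mod_cast e1
    refine e5.trans ?_
    push_cast
    have e6 : (2 * ((Nat.sqrt X : ℕ) : ℝ) + 1) ≤ 3 * Real.sqrt X := by linarith
    have e7 : (X : ℝ) * (dg * (2 * ((Nat.sqrt X : ℕ) : ℝ) + 1)) ≤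
        (X : ℝ) * (dg * (3 * Real.sqrt X)) :=
      mul_le_mul_of_nonneg_left (mul_le_mul_of_nonneg_left e6 (Nat.cast_nonneg _)) hXp.le
    refine e7.trans (le_of_eq (by ring))
  have h3 : ∀ q ∈ A2 ∩ A, RRh cls a f (uu q) (ww q) ≤ C * (X : ℝ) ^ (1 / 4 : ℝ) := by
    intro q hq
    have hq' := mem_filter.1 (mem_inter.1 hq).2
    obtain ⟨hq1, hqc, hq0, _⟩ := hq'
    rw [mem_product, mem_Icc, mem_Icc] at hq1
    have hU1 : (uu q).natAbs ≤ X ^ (μ + 1) ∧ (ww q).natAbs ≤ X ^ (μ + 1) := by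
      have e1 : X ^ (μ + 1) = X ^ μ * X := pow_succ _ _
      have e2 : X ≤ X ^ μ := Nat.le_self_pow (by omega) X
      have e4 : 2 ≤ X := by omega
      have e3 : X ^ μ + X ≤ X ^ μ * X := by
        calc X ^ μ + X ≤ X ^ μ + X ^ μ := by omega
          _ = X ^ μ * 2 := by ring
          _ ≤ X ^ μ * X := Nat.mul_le_mul_left _ e4
      rw [e1]
      refine ⟨?_, ?_⟩
      · have : (uu q).natAbs ≤ U0.natAbs + q.1 := by
          rw [huu]
          dsimp only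
          omega
        omega
      · have : (ww q).natAbs ≤ W0 + q.2 := by
          rw [hww]
          dsimp only
          omega
        omega
    refine (hC (X ^ (μ + 1)) (uu q) (ww q) (Nat.one_le_pow _ _ hX) hqc hq0 hU1.1 hU1.2).trans ?_
    refine le_of_eq ?_
    congr 1
    push_cast
    rw [← Real.rpow_natCast, ← Real.rpow_mul hXp.le]
    congr 1
    push_cast
    field_simp
  have h4 : ∑ q ∈ A2 ∩ A, RRh cls a f (uu q) (ww q) ≤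
      (3 * dg * (X * Real.sqrt X)) * (C * (X : ℝ) ^ (1 / 4 : ℝ)) := by
    refine (sum_le_sum h3).trans ?_
    rw [sum_const, nsmul_eq_mul]
    refine mul_le_mul_of_nonneg_right ?_ (by positivity)
    refine le_trans ?_ hcardA2
    exact_mod_cast card_le_card inter_subset_left
  have h5 : (Real.log X) ^ P.card * ∑ q ∈ A, RRh cls a f (uu q) (ww q) ≤
      B * (X : ℝ) ^ 2 + (C2 * (X : ℝ) ^ (1 / 4 : ℝ)) * ((3 * dg * (X * Real.sqrt X)) *
        (C * (X : ℝ) ^ (1 / 4 : ℝ))) := by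
    calc (Real.log X) ^ P.card * ∑ q ∈ A, RRh cls a f (uu q) (ww q) ≤
        (Real.log X) ^ P.card * (∑ q ∈ A1, RRh cls a f (uu q) (ww q) +
          ∑ q ∈ A2 ∩ A, RRh cls a f (uu q) (ww q)) := mul_le_mul_of_nonneg_left h1 hlog
      _ = (Real.log X) ^ P.card * ∑ q ∈ A1, RRh cls a f (uu q) (ww q) +
          (Real.log X) ^ P.card * ∑ q ∈ A2 ∩ A, RRh cls a f (uu q) (ww q) := by ring
      _ ≤ _ := add_le_add h2 (mul_le_mul (hC2 X hX) h4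
          (sum_nonneg fun q _ => RRh_nonneg _ _ _ _ _) (by positivity))
  refine h5.trans (le_of_eq ?_)
  have h6 : Real.sqrt X = (X : ℝ) ^ (1 / 4 : ℝ) * (X : ℝ) ^ (1 / 4 : ℝ) := by
    rw [← Real.rpow_add hXp, Real.sqrt_eq_rpow]
    norm_num
  have h7 : (X : ℝ) = (X : ℝ) ^ (1 / 4 : ℝ) * (X : ℝ) ^ (1 / 4 : ℝ) *
      ((X : ℝ) ^ (1 / 4 : ℝ) * (X : ℝ) ^ (1 / 4 : ℝ)) := by
    rw [← h6, Real.mul_self_sqrt hXp.le]
  have h8 : (X : ℝ) * Real.sqrt X * ((X : ℝ) ^ (1 / 4 : ℝ) * (X : ℝ) ^ (1 / 4 : ℝ)) =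
      (X : ℝ) ^ 2 := by
    rw [← h6, mul_assoc, Real.mul_self_sqrt hXp.le, sq]
  calc B * (X : ℝ) ^ 2 + (C2 * (X : ℝ) ^ (1 / 4 : ℝ)) * ((3 * dg * (X * Real.sqrt X)) *
        (C * (X : ℝ) ^ (1 / 4 : ℝ))) =
      B * (X : ℝ) ^ 2 + C2 * (3 * dg * C) *
        ((X : ℝ) * Real.sqrt X * ((X : ℝ) ^ (1 / 4 : ℝ) * (X : ℝ) ^ (1 / 4 : ℝ))) := by ring
    _ = _ := by rw [h8]; ring

end Pool.Agent.L7h19.RP
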