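import Mathlib
import Pool.Agent.L7h19.RP.HMain

/-!
# Project RP, rational values of the parameter: summation over all the coprime pairs
-/

set_option autoImplicit false

namespace Pool.Agent.L7h19.RP

open Finset Polynomial Pool.Agent.W262.RK Pool.Agent.W307.RT Pool.Agent.L7h19.RJ

section sign

lemma coeff_comp_neg (f : ℤ[X]) (i : ℕ) : (f.comp (-X)).coeff i = (-1) ^ i * f.coeff i := by
  have h : (-X : ℤ[X]) = C (-1) * X := by simp
  rw [h, comp_C_mul_X_coeff, mul_comm]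

lemma natDegree_comp_neg (f : ℤ[X]) : (f.comp (-X)).natDegree = f.natDegree := by
  rw [natDegree_comp, natDegree_neg, natDegree_X, mul_one]

lemma hv_comp_neg (f : ℤ[X]) (u w : ℤ) : hv (f.comp (-X)) u w = hv f (-u) w := by
  rw [hv_sum, hv_sum, natDegree_comp_neg]
  refine sum_congr rfl fun i _ => ?_
  rw [coeff_comp_neg, neg_pow u]
  ring

lemma hv_neg (f : ℤ[X]) (u w : ℤ) : hv f (-u) (-w) = (-1) ^ f.natDegree * hv f u w := by
  rw [hv_sum, hv_sum, mul_sum]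
  refine sum_congr rfl fun i hi => ?_
  have hi' := mem_range.1 hi
  have h : (-1 : ℤ) ^ f.natDegree = (-1) ^ (f.natDegree - i) * (-1) ^ i := by
    rw [← pow_add]
    congr 1
    omega
  rw [neg_pow w, neg_pow u, h]
  ring

end sign

variable {ι : Type} [Fintype ι] [DecidableEq ι] {J : Type} [Fintype J] [DecidableEq J]

lemma vh_comp_neg (f : J → ℤ[X]) (u w : ℤ) :
    vh (fun j => (f j).comp (-X)) u w = vh f (-u) w := by
  funext j
  exact hv_comp_neg _ _ _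

lemma FV_vh_neg (cls : ι → J → Option (Fin 4)) (a : ι → Fin 3 → ℤ) (f : J → ℤ[X]) (D : ι → ℕ)
    (hD : ∀ i k, ∑ l ∈ fsJ (cls i) k, (f l).natDegree = D i) (u w : ℤ) (i : ι) (k : Fin 3) :
    FV (cls i) (a i) (vh f (-u) (-w)) k =
      FV (cls i) (fun k => (-1) ^ D i * a i k) (vh f u w) k := by
  unfold FV vh
  rw [prod_congr rfl fun l _ => hv_neg (f l) u w, prod_mul_distrib, prod_pow_eq_pow_sum, hD]
  ring

/-- the sum over the positive coprime pairs -/
theorem fin_pos_h (hp : Parts) (hCnt : StCnt2) (cls : ι → J → Option (Fin 4)) (D : ι → ℕ)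
    (a : ι → Fin 3 → ℤ) (f : J → ℤ[X])
    (h2 : ∀ j, ∃ i, cls i j ≠ none)
    (hK : ∀ U : Finset (IJ cls), (∀ b ∈ U, Even (NJ cls (exh cls f D) b)) →
      (∀ b ∈ U, ∀ b' ∈ U, LJ cls b b' = LJ cls b' b) →
      ∑ b ∈ U, wJ cls b ≤ ((Fintype.card J : ℕ) : ℝ))
    (ha : ∀ i k, a i k ≠ 0) (hf : ∀ j, Irreducible (f j))
    (hd : ∀ j, 0 < (f j).natDegree) (hnd : ∀ j l, j ≠ l → ¬ f j ∣ f l)
    (hD : ∀ i k, ∑ l ∈ fsJ (cls i) k, (f l).natDegree = D i)
    (hF : ∀ i (u w : ℤ), FV (cls i) (a i) (vh f u w) 0 - FV (cls i) (a i) (vh f u w) 1 =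
      FV (cls i) (a i) (vh f u w) 2) :
    ∃ C : ℝ, 0 ≤ C ∧ ∀ X : ℕ, 1 ≤ X →
      ∑ q ∈ (Icc 1 X ×ˢ Icc 1 X).filter (fun q : ℕ × ℕ => q.1.Coprime q.2 ∧
        ∀ j, vh f q.1 q.2 j ≠ 0), RRh cls a f q.1 q.2 ≤ C * (X : ℝ) ^ 2 := by
  classical
  obtain ⟨X0, B, hB0, h⟩ := mainh hp hCnt cls D a f h2 hK ha hf hd hnd hD hF
  set A : ℝ := ∑ q ∈ (Icc 1 X0 ×ˢ Icc 1 X0).filter (fun q : ℕ × ℕ => q.1.Coprime q.2 ∧
        ∀ j, vh f q.1 q.2 j ≠ 0), RRh cls a f q.1 q.2 with hA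
  have hA0 : 0 ≤ A := sum_nonneg fun q _ => RRh_nonneg _ _ _ _ _
  refine ⟨A + B, add_nonneg hA0 hB0, fun X hX => ?_⟩
  have hXr : (1 : ℝ) ≤ X := by exact_mod_cast hX
  have hX2 : (1 : ℝ) ≤ (X : ℝ) ^ 2 := one_le_pow₀ hXr
  rcases Nat.lt_or_ge X X0 with hlt | hge
  · have e1 : ∑ q ∈ (Icc 1 X ×ˢ Icc 1 X).filter (fun q : ℕ × ℕ => q.1.Coprime q.2 ∧
        ∀ j, vh f q.1 q.2 j ≠ 0), RRh cls a f q.1 q.2 ≤ A := by
      refine sum_le_sum_of_subset_of_nonneg (filter_subset_filter _ ?_)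
        fun q _ _ => RRh_nonneg _ _ _ _ _
      exact product_subset_product (Icc_subset_Icc le_rfl hlt.le) (Icc_subset_Icc le_rfl hlt.le)
    nlinarith
  · have e1 := h X hge
    nlinarith

/-- the sum over all the coprime pairs -/
theorem fin_all_h (hp : Parts) (hCnt : StCnt2) (cls : ι → J → Option (Fin 4)) (D : ι → ℕ)
    (a : ι → Fin 3 → ℤ) (f : J → ℤ[X])
    (h2 : ∀ j, ∃ i, cls i j ≠ none)
    (hK : ∀ U : Finset (IJ cls), (∀ b ∈ U, Even (NJ cls (exh cls f D) b)) →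
      (∀ b ∈ U, ∀ b' ∈ U, LJ cls b b' = LJ cls b' b) →
      ∑ b ∈ U, wJ cls b ≤ ((Fintype.card J : ℕ) : ℝ))
    (ha : ∀ i k, a i k ≠ 0) (hf : ∀ j, Irreducible (f j))
    (hd : ∀ j, 0 < (f j).natDegree) (hnd : ∀ j l, j ≠ l → ¬ f j ∣ f l)
    (hD : ∀ i k, ∑ l ∈ fsJ (cls i) k, (f l).natDegree = D i)
    (hF : ∀ i (u w : ℤ), FV (cls i) (a i) (vh f u w) 0 - FV (cls i) (a i) (vh f u w) 1 =
      FV (cls i) (a i) (vh f u w) 2) :
    ∃ C : ℝ, 0 ≤ C ∧ ∀ X : ℕ, 1 ≤ X →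
      ∑ q ∈ (Icc (-(X : ℤ)) X ×ˢ Icc (-(X : ℤ)) X).filter (fun q : ℤ × ℤ => IsCoprime q.1 q.2 ∧
        ∀ j, vh f q.1 q.2 j ≠ 0), RRh cls a f q.1 q.2 ≤ C * (X : ℝ) ^ 2 := by
  classical
  set f' : J → ℤ[X] := fun j => (f j).comp (-X) with hf'
  set a' : ι → Fin 3 → ℤ := fun i k => (-1) ^ D i * a i k with ha'
  have hdeg : ∀ j, (f' j).natDegree = (f j).natDegree := fun j => natDegree_comp_neg _
  have hexh : exh cls f' D = exh cls f D := by
    funext i j
    unfold exh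
    rw [hdeg]
  have hK' : ∀ U : Finset (IJ cls), (∀ b ∈ U, Even (NJ cls (exh cls f' D) b)) →
      (∀ b ∈ U, ∀ b' ∈ U, LJ cls b b' = LJ cls b' b) →
      ∑ b ∈ U, wJ cls b ≤ ((Fintype.card J : ℕ) : ℝ) := by
    rw [hexh]
    exact hK
  have ha0' : ∀ i k, a' i k ≠ 0 := fun i k => mul_ne_zero (pow_ne_zero _ (by norm_num)) (ha i k)
  have hff' : ∀ j, Irreducible (f' j) := fun j => irr_comp_neg (hf j)
  have hd' : ∀ j, 0 < (f' j).natDegree := fun j => by rw [hdeg]; exact hd j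
  have hnd' : ∀ j l, j ≠ l → ¬ f' j ∣ f' l := fun j l hjl h => hnd j l hjl (by
      have := dvd_comp_neg h
      rwa [comp_neg_comp, comp_neg_comp] at this)
  have hD' : ∀ i k, ∑ l ∈ fsJ (cls i) k, (f' l).natDegree = D i := fun i k => by
    rw [← hD i k]
    exact sum_congr rfl fun l _ => hdeg l
  have hF1 : ∀ i (u w : ℤ), FV (cls i) (a i) (vh f' u w) 0 - FV (cls i) (a i) (vh f' u w) 1 =
      FV (cls i) (a i) (vh f' u w) 2 := fun i u w => by
    rw [vh_comp_neg]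
    exact hF i _ _
  have hF2 : ∀ i (u w : ℤ), FV (cls i) (a' i) (vh f u w) 0 - FV (cls i) (a' i) (vh f u w) 1 =
      FV (cls i) (a' i) (vh f u w) 2 := fun i u w => by
    have h := hF i (-u) (-w)
    rw [FV_vh_neg cls a f D hD, FV_vh_neg cls a f D hD, FV_vh_neg cls a f D hD] at h
    exact h
  have hF3 : ∀ i (u w : ℤ), FV (cls i) (a' i) (vh f' u w) 0 - FV (cls i) (a' i) (vh f' u w) 1 =
      FV (cls i) (a' i) (vh f' u w) 2 := fun i u w => by
    rw [vh_comp_neg]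
    exact hF2 i _ _
  obtain ⟨C1, hC10, hC1⟩ := fin_pos_h hp hCnt cls D a f h2 hK ha hf hd hnd hD hF
  obtain ⟨C2, hC20, hC2⟩ := fin_pos_h hp hCnt cls D a f' h2 hK' ha hff' hd' hnd' hD' hF1
  obtain ⟨C3, hC30, hC3⟩ := fin_pos_h hp hCnt cls D a' f h2 hK ha0' hf hd hnd hD hF2
  obtain ⟨C4, hC40, hC4⟩ := fin_pos_h hp hCnt cls D a' f' h2 hK' ha0' hff' hd' hnd' hD' hF3
  have hR2 : ∀ u w : ℤ, RRh cls a f (-u) w = RRh cls a f' u w := by
    intro u w
    unfold RRh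
    rw [vh_comp_neg]
  have hR3 : ∀ u w : ℤ, RRh cls a f (-u) (-w) = RRh cls a' f u w := by
    intro u w
    unfold RRh
    refine prod_congr rfl fun i _ => ?_
    rw [FV_vh_neg cls a f D hD, FV_vh_neg cls a f D hD]
  have hR4 : ∀ u w : ℤ, RRh cls a f u (-w) = RRh cls a' f' u w := by
    intro u w
    have h := hR3 (-u) w
    rw [neg_neg] at h
    rw [h]
    unfold RRh
    rw [vh_comp_neg]
  set Ax : Finset (ℤ × ℤ) := {(1, 0), (-1, 0), (0, 1), (0, -1)} with hAx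
  set A0 : ℝ := ∑ q ∈ Ax, RRh cls a f q.1 q.2 with hA0d
  have hA0 : 0 ≤ A0 := sum_nonneg fun q _ => RRh_nonneg _ _ _ _ _
  refine ⟨C1 + C2 + C3 + C4 + A0, by positivity, fun X hX => ?_⟩
  have hXr : (1 : ℝ) ≤ X := by exact_mod_cast hX
  have hX2 : (1 : ℝ) ≤ (X : ℝ) ^ 2 := one_le_pow₀ hXr
  set S : (J → ℤ[X]) → Finset (ℕ × ℕ) := fun f => (Icc 1 X ×ˢ Icc 1 X).filter
    (fun q : ℕ × ℕ => q.1.Coprime q.2 ∧ ∀ j, vh f q.1 q.2 j ≠ 0) with hS
  have hz : ∀ (q : ℤ × ℤ), (∀ j, vh f (-q.1) (-q.2) j ≠ 0) ↔ ∀ j, vh f q.1 q.2 j ≠ 0 := by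
    intro q
    refine forall_congr' fun j => not_congr ?_
    unfold vh
    rw [hv_neg]
    constructor
    · intro h
      exact (mul_eq_zero.1 h).resolve_left (pow_ne_zero _ (by norm_num))
    · intro h
      rw [h, mul_zero]
  have hcover : (Icc (-(X : ℤ)) X ×ˢ Icc (-(X : ℤ)) X).filter
      (fun q : ℤ × ℤ => IsCoprime q.1 q.2 ∧ ∀ j, vh f q.1 q.2 j ≠ 0) ⊆
      ((((S f).image (fun q => ((q.1 : ℤ), (q.2 : ℤ)))) ∪
        ((S f').image (fun q => (-(q.1 : ℤ), (q.2 : ℤ))))) ∪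
        (((S f).image (fun q => (-(q.1 : ℤ), -(q.2 : ℤ)))) ∪
        ((S f').image (fun q => ((q.1 : ℤ), -(q.2 : ℤ)))))) ∪ Ax := by
    rintro ⟨u, w⟩ hq
    rw [mem_filter, mem_product, mem_Icc, mem_Icc] at hq
    obtain ⟨⟨⟨hu1, hu2⟩, hw1, hw2⟩, hc, hq0⟩ := hq
    dsimp only at hu1 hu2 hw1 hw2 hc hq0
    have hcn : u.natAbs.Coprime w.natAbs := by
      exact Int.isCoprime_iff_gcd_eq_one.1 hc
    have hv0 := hz (u, w)
    dsimp only at hv0
    rcases lt_trichotomy u 0 with hu | hu | hu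
    · rcases lt_trichotomy w 0 with hw | hw | hw
      · refine mem_union_left _ (mem_union_right _ (mem_union_left _ (mem_image.2
          ⟨(u.natAbs, w.natAbs), ?_, ?_⟩)))
        · rw [hS, mem_filter, mem_product, mem_Icc, mem_Icc]
          refine ⟨⟨by omega, by omega⟩, hcn, ?_⟩
          have e1 : ((u.natAbs : ℕ) : ℤ) = -u := by omega
          have e2 : ((w.natAbs : ℕ) : ℤ) = -w := by omega
          rw [e1, e2]
          exact hv0.2 hq0
        · rw [Prod.mk.injEq]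
          omega
      · subst hw
        refine mem_union_right _ ?_
        have e1 : u.natAbs = 1 := by simpa using hcn
        have : u = -1 := by omega
        rw [this, hAx]
        simp
      · refine mem_union_left _ (mem_union_left _ (mem_union_right _ (mem_image.2
          ⟨(u.natAbs, w.natAbs), ?_, ?_⟩)))
        · rw [hS, mem_filter, mem_product, mem_Icc, mem_Icc]
          refine ⟨⟨by omega, by omega⟩, hcn, ?_⟩
          have e1 : ((u.natAbs : ℕ) : ℤ) = -u := by omega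
          have e2 : ((w.natAbs : ℕ) : ℤ) = w := by omega
          rw [e1, e2, vh_comp_neg, neg_neg]
          exact hq0
        · rw [Prod.mk.injEq]
          omega
    · subst hu
      refine mem_union_right _ ?_
      have e1 : w.natAbs = 1 := by simpa using hcn
      have : w = -1 ∨ w = 1 := by omega
      rw [hAx]
      rcases this with h | h <;> rw [h] <;> simp
    · rcases lt_trichotomy w 0 with hw | hw | hw
      · refine mem_union_left _ (mem_union_right _ (mem_union_right _ (mem_image.2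
          ⟨(u.natAbs, w.natAbs), ?_, ?_⟩)))
        · rw [hS, mem_filter, mem_product, mem_Icc, mem_Icc]
          refine ⟨⟨by omega, by omega⟩, hcn, ?_⟩
          have e1 : ((u.natAbs : ℕ) : ℤ) = u := by omega
          have e2 : ((w.natAbs : ℕ) : ℤ) = -w := by omega
          rw [e1, e2, vh_comp_neg]
          exact hv0.2 hq0
        · rw [Prod.mk.injEq]
          omega
      · subst hw
        refine mem_union_right _ ?_
        have e1 : u.natAbs = 1 := by simpa using hcn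
        have : u = 1 := by omega
        rw [this, hAx]
        simp
      · refine mem_union_left _ (mem_union_left _ (mem_union_left _ (mem_image.2
          ⟨(u.natAbs, w.natAbs), ?_, ?_⟩)))
        · rw [hS, mem_filter, mem_product, mem_Icc, mem_Icc]
          refine ⟨⟨by omega, by omega⟩, hcn, ?_⟩
          have e1 : ((u.natAbs : ℕ) : ℤ) = u := by omega
          have e2 : ((w.natAbs : ℕ) : ℤ) = w := by omega
          rw [e1, e2]
          exact hq0
        · rw [Prod.mk.injEq]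
          omega
  have hun : ∀ S T : Finset (ℤ × ℤ), ∑ q ∈ S ∪ T, RRh cls a f q.1 q.2 ≤
      ∑ q ∈ S, RRh cls a f q.1 q.2 + ∑ q ∈ T, RRh cls a f q.1 q.2 := by
    intro S T
    rw [← sum_union_inter]
    exact le_add_of_nonneg_right (sum_nonneg fun q _ => RRh_nonneg _ _ _ _ _)
  have e1 : ∑ q ∈ (S f).image (fun q => ((q.1 : ℤ), (q.2 : ℤ))), RRh cls a f q.1 q.2 ≤
      C1 * (X : ℝ) ^ 2 := by
    rw [sum_image (fun p _ q _ h => by
      simp only [Prod.mk.injEq] at h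
      exact Prod.ext (by omega) (by omega))]
    exact hC1 X hX
  have e2 : ∑ q ∈ (S f').image (fun q => (-(q.1 : ℤ), (q.2 : ℤ))), RRh cls a f q.1 q.2 ≤
      C2 * (X : ℝ) ^ 2 := by
    rw [sum_image (fun p _ q _ h => by
      simp only [Prod.mk.injEq] at h
      exact Prod.ext (by omega) (by omega))]
    simp only [hR2]
    exact hC2 X hX
  have e3 : ∑ q ∈ (S f).image (fun q => (-(q.1 : ℤ), -(q.2 : ℤ))), RRh cls a f q.1 q.2 ≤
      C3 * (X : ℝ) ^ 2 := by
    rw [sum_image (fun p _ q _ h => by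
      simp only [Prod.mk.injEq] at h
      exact Prod.ext (by omega) (by omega))]
    simp only [hR3]
    exact hC3 X hX
  have e4 : ∑ q ∈ (S f').image (fun q => ((q.1 : ℤ), -(q.2 : ℤ))), RRh cls a f q.1 q.2 ≤
      C4 * (X : ℝ) ^ 2 := by
    rw [sum_image (fun p _ q _ h => by
      simp only [Prod.mk.injEq] at h
      exact Prod.ext (by omega) (by omega))]
    simp only [hR4]
    exact hC4 X hX
  have h5 := (sum_le_sum_of_subset_of_nonneg hcover
    (fun q _ _ => RRh_nonneg cls a f q.1 q.2)).trans ((hun _ _).trans (add_le_add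
      ((hun _ _).trans (add_le_add (hun _ _) (hun _ _))) le_rfl))
  refine h5.trans ?_
  have h6 : A0 ≤ A0 * (X : ℝ) ^ 2 := le_mul_of_one_le_right hA0 hX2
  linarith

end Pool.Agent.L7h19.RP
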