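import Mathlib
import Pool.Agent.L7h19.RP.GCr
import Pool.Agent.L7h19.RP.HFin

/-!
# Project RP, rational values of the parameter: all short squares
-/

set_option autoImplicit false

namespace Pool.Agent.L7h19.RP

open Finset Polynomial Pool.Agent.W262.RK Pool.Agent.W307.RT Pool.Agent.L7h19.RJ

variable {ι : Type} [Fintype ι] [DecidableEq ι] {J : Type} [Fintype J] [DecidableEq J]

/-- the condition on the pairs -/
def OkP (P : Finset J) (f : J → ℤ[X]) (u w : ℤ) : Prop :=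
  IsCoprime u w ∧ (∀ j, vh f u w j ≠ 0) ∧ ∀ j ∈ P, (vh f u w j).natAbs.Prime

lemma vh_neg (f : J → ℤ[X]) (u w : ℤ) (j : J) :
    (vh f (-u) (-w) j).natAbs = (vh f u w j).natAbs := by
  unfold vh
  rw [hv_neg, Int.natAbs_mul, Int.natAbs_pow]
  simp

lemma OkP_neg (P : Finset J) (f : J → ℤ[X]) (u w : ℤ) (h : OkP P f u w) : OkP P f (-u) (-w) := by
  refine ⟨h.1.neg_neg, fun j => ?_, fun j hj => ?_⟩
  · rw [← Int.natAbs_ne_zero, vh_neg, Int.natAbs_ne_zero]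
    exact h.2.1 j
  · rw [vh_neg]
    exact h.2.2 j hj

open Classical in
/-- the sum over the squares -/
theorem finG (hMod : StMod) (hRank : StRank) (hCnt : StCnt3) (hCr : StCrude) (hFew : StFew)
    (cls : ι → J → Option (Fin 4)) (P : Finset J) (D : ι → ℕ)
    (a : ι → Fin 3 → ℤ) (f : J → ℤ[X])
    (ha : ∀ i k, a i k ≠ 0) (hf : ∀ j, Irreducible (f j))
    (hd : ∀ j, 0 < (f j).natDegree) (hnd : ∀ j l, j ≠ l → ¬ f j ∣ f l)
    (hD : ∀ i k, ∑ l ∈ fsJ (cls i) k, (f l).natDegree = D i)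
    (hF : ∀ i (u w : ℤ), FV (cls i) (a i) (vh f u w) 0 - FV (cls i) (a i) (vh f u w) 1 =
      FV (cls i) (a i) (vh f u w) 2) (hMaj : MajH cls P D a f)
    (hMaj' : MajH cls P D (fun i k => (-1) ^ D i * a i k) f) (ε : ℝ) (hε : 0 < ε) (K0 : ℕ) :
    ∃ C : ℝ, 0 ≤ C ∧ ∀ (X H : ℕ) (U W : ℤ), 1 ≤ X → (X : ℝ) ^ ε ≤ H → U.natAbs ≤ K0 * X →
      W.natAbs ≤ K0 * X → H ≤ K0 * X → (Real.log X) ^ P.card *
      ∑ q ∈ (Ioc U (U + H) ×ˢ Ioc W (W + H)).filter (fun q : ℤ × ℤ => OkP P f q.1 q.2),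
        RRh cls a f q.1 q.2 ≤ C * (H : ℝ) ^ 2 := by
  set a' : ι → Fin 3 → ℤ := fun i k => (-1) ^ D i * a i k with ha'
  have ha0' : ∀ i k, a' i k ≠ 0 := fun i k => mul_ne_zero (pow_ne_zero _ (by norm_num)) (ha i k)
  have hF2 : ∀ i (u w : ℤ), FV (cls i) (a' i) (vh f u w) 0 - FV (cls i) (a' i) (vh f u w) 1 =
      FV (cls i) (a' i) (vh f u w) 2 := fun i u w => by
    have h := hF i (-u) (-w)
    rw [FV_vh_neg cls a f D hD, FV_vh_neg cls a f D hD, FV_vh_neg cls a f D hD] at h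
    exact h
  have hR3 : ∀ u w : ℤ, RRh cls a f (-u) (-w) = RRh cls a' f u w := by
    intro u w
    unfold RRh
    refine prod_congr rfl fun i _ => ?_
    rw [FV_vh_neg cls a f D hD, FV_vh_neg cls a f D hD]
  set μ0 : ℕ := ⌈1 / ε⌉₊ + 1 with hμ0
  set μ : ℕ := μ0 + 1 with hμ
  obtain ⟨X1, B1, hB1, h1⟩ := mainG2 hMod hRank hCnt hCr hFew cls P D a f ha hf hd hnd hD hF hMaj μ
    (by omega)
  obtain ⟨X2, B2, hB2, h2⟩ := mainG2 hMod hRank hCnt hCr hFew cls P D a' f ha0' hf hd hnd hD hF2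
    hMaj' μ (by omega)
  obtain ⟨C3, hC30, hC3⟩ := log_pow_le P.card 1 one_pos
  set H0 : ℕ := X1 + X2 + 3 * K0 + 3 with hH0
  set Z : ℕ := 3 * K0 * H0 ^ μ0 + H0 with hZ
  set A0 : ℝ := ∑ q ∈ (Icc (-(Z : ℤ)) Z ×ˢ Icc (-(Z : ℤ)) Z), RRh cls a f q.1 q.2 with hA0
  have hA00 : 0 ≤ A0 := sum_nonneg fun q _ => RRh_nonneg _ _ _ _ _
  set Ax : Finset (ℤ × ℤ) := {(1, 0), (-1, 0)} with hAx
  set A1 : ℝ := ∑ q ∈ Ax, RRh cls a f q.1 q.2 with hA1d
  have hA10 : 0 ≤ A1 := sum_nonneg fun q _ => RRh_nonneg _ _ _ _ _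
  -- X ≤ H ^ μ0
  have hXH : ∀ X H : ℕ, 1 ≤ X → (X : ℝ) ^ ε ≤ H → 1 ≤ H ∧ X ≤ H ^ μ0 := by
    intro X H hX hH
    have hXr : (1 : ℝ) ≤ X := by exact_mod_cast hX
    have e1 : (1 : ℝ) ≤ H := (Real.one_le_rpow hXr hε.le).trans hH
    refine ⟨by exact_mod_cast e1, ?_⟩
    have e2 : (X : ℝ) ≤ (H : ℝ) ^ (1 / ε) := by
      calc (X : ℝ) = ((X : ℝ) ^ ε) ^ (1 / ε) := by
            rw [← Real.rpow_mul (by linarith), mul_one_div_cancel hε.ne', Real.rpow_one]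
        _ ≤ _ := Real.rpow_le_rpow (by positivity) hH (by positivity)
    have e3 : (H : ℝ) ^ (1 / ε) ≤ (H : ℝ) ^ (μ0 : ℝ) := by
      refine Real.rpow_le_rpow_of_exponent_le e1 ?_
      have := Nat.le_ceil (1 / ε)
      rw [hμ0]
      push_cast
      linarith
    rw [Real.rpow_natCast] at e3
    exact_mod_cast e2.trans e3
  have hC3' : 0 ≤ C3 * (μ0 : ℝ) ^ P.card := by positivity
  refine ⟨(μ0 : ℝ) ^ P.card * (B1 + B2 + C3 * A1) + C3 * (H0 ^ μ0 : ℕ) * A0, by positivity,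
    fun X H U W hX hH hU hW hHK => ?_⟩
  obtain ⟨hH1, hXHμ⟩ := hXH X H hX hH
  have hXr : (1 : ℝ) ≤ X := by exact_mod_cast hX
  have hHr : (1 : ℝ) ≤ H := by exact_mod_cast hH1
  have hH2 : (1 : ℝ) ≤ (H : ℝ) ^ 2 := one_le_pow₀ hHr
  have hlogX : 0 ≤ Real.log X := Real.log_nonneg hXr
  have hlogH : 0 ≤ Real.log H := Real.log_nonneg hHr
  set Q := (Ioc U (U + H) ×ˢ Ioc W (W + H)).filter (fun q : ℤ × ℤ => OkP P f q.1 q.2) with hQ
  have hSQ : 0 ≤ ∑ q ∈ Q, RRh cls a f q.1 q.2 := sum_nonneg fun q _ => RRh_nonneg _ _ _ _ _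
  have hpos1 : 0 ≤ (μ0 : ℝ) ^ P.card * (B1 + B2 + C3 * A1) := by positivity
  have hpos2 : 0 ≤ C3 * (H0 ^ μ0 : ℕ) * A0 := by positivity
  rcases Nat.lt_or_ge H H0 with hlt | hge
  · -- small squares
    have e0 : X ≤ H0 ^ μ0 := hXHμ.trans (Nat.pow_le_pow_left hlt.le _)
    have e1 : ∑ q ∈ Q, RRh cls a f q.1 q.2 ≤ A0 := by
      refine sum_le_sum_of_subset_of_nonneg ?_ fun q _ _ => RRh_nonneg _ _ _ _ _
      intro q hq
      rw [hQ, mem_filter, mem_product, mem_Ioc, mem_Ioc] at hq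
      rw [mem_product, mem_Icc, mem_Icc]
      have e2 : K0 * X ≤ K0 * H0 ^ μ0 := Nat.mul_le_mul_left _ e0
      have e3 : 3 * K0 * H0 ^ μ0 = 3 * (K0 * H0 ^ μ0) := by ring
      rw [hZ, e3]
      generalize K0 * H0 ^ μ0 = t at *
      push_cast
      omega
    have e2 : (Real.log X) ^ P.card ≤ C3 * (H0 ^ μ0 : ℕ) := by
      refine (hC3 X hX).trans ?_
      rw [Real.rpow_one]
      exact mul_le_mul_of_nonneg_left (by exact_mod_cast e0) hC30
    have e3 : (Real.log X) ^ P.card * ∑ q ∈ Q, RRh cls a f q.1 q.2 ≤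
        C3 * (H0 ^ μ0 : ℕ) * A0 := mul_le_mul e2 e1 hSQ (by positivity)
    nlinarith [mul_nonneg hpos1 (sub_nonneg.2 hH2), mul_nonneg hpos2 (sub_nonneg.2 hH2)]
  · -- large squares
    have hXμ : 3 * K0 * X + 3 * H ≤ H ^ μ := by
      have e1 : H ^ μ = H ^ μ0 * H := by rw [hμ, pow_succ]
      have e2 : 3 * K0 + 3 ≤ H := by omega
      have e3 : H ≤ H ^ μ0 := Nat.le_self_pow (by omega) H
      rw [e1]
      calc 3 * K0 * X + 3 * H ≤ 3 * K0 * H ^ μ0 + 3 * H ^ μ0 :=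
            Nat.add_le_add (Nat.mul_le_mul_left _ hXHμ) (Nat.mul_le_mul_left _ e3)
        _ = H ^ μ0 * (3 * K0 + 3) := by ring
        _ ≤ _ := Nat.mul_le_mul_left _ e2
    set Wp : ℕ := W.toNat with hWp
    set Wn : ℕ := (-W - H - 1).toNat with hWn
    set Un : ℤ := -U - H - 1 with hUn
    set S1 := (Icc 1 H ×ˢ Icc 1 H).filter (fun q : ℕ × ℕ =>
      IsCoprime (U + (q.1 : ℤ)) ((Wp : ℤ) + (q.2 : ℤ)) ∧
        (∀ j, vh f (U + (q.1 : ℤ)) ((Wp : ℤ) + (q.2 : ℤ)) j ≠ 0) ∧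
        ∀ j ∈ P, (vh f (U + (q.1 : ℤ)) ((Wp : ℤ) + (q.2 : ℤ)) j).natAbs.Prime) with hS1
    set S2 := (Icc 1 H ×ˢ Icc 1 H).filter (fun q : ℕ × ℕ =>
      IsCoprime (Un + (q.1 : ℤ)) ((Wn : ℤ) + (q.2 : ℤ)) ∧
        (∀ j, vh f (Un + (q.1 : ℤ)) ((Wn : ℤ) + (q.2 : ℤ)) j ≠ 0) ∧
        ∀ j ∈ P, (vh f (Un + (q.1 : ℤ)) ((Wn : ℤ) + (q.2 : ℤ)) j).natAbs.Prime) with hS2
    have hcover : Q ⊆ (S1.image (fun q : ℕ × ℕ => (U + (q.1 : ℤ), (Wp : ℤ) + (q.2 : ℤ))) ∪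
        S2.image (fun q : ℕ × ℕ => (-(Un + (q.1 : ℤ)), -((Wn : ℤ) + (q.2 : ℤ))))) ∪ Ax := by
      rintro ⟨u, w⟩ hq
      rw [hQ, mem_filter, mem_product, mem_Ioc, mem_Ioc] at hq
      obtain ⟨⟨⟨hu1, hu2⟩, hw1, hw2⟩, hok⟩ := hq
      dsimp only at hu1 hu2 hw1 hw2 hok
      rcases lt_trichotomy w 0 with hw | hw | hw
      · refine mem_union_left _ (mem_union_right _ (mem_image.2
          ⟨((-u - Un).toNat, (-w - Wn).toNat), ?_, ?_⟩))
        · rw [hS2, mem_filter, mem_product, mem_Icc, mem_Icc]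
          have e1 : Un + (((-u - Un).toNat : ℕ) : ℤ) = -u := by omega
          have e2 : (Wn : ℤ) + (((-w - Wn).toNat : ℕ) : ℤ) = -w := by omega
          dsimp only
          rw [e1, e2]
          exact ⟨⟨by omega, by omega⟩, OkP_neg P f u w hok⟩
        · rw [Prod.mk.injEq]
          dsimp only
          omega
      · subst hw
        refine mem_union_right _ ?_
        have e1 : IsUnit u := isCoprime_zero_right.1 hok.1
        rw [hAx]
        rcases Int.isUnit_iff.1 e1 with h | h <;> rw [h] <;> simp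
      · refine mem_union_left _ (mem_union_left _ (mem_image.2
          ⟨((u - U).toNat, (w - Wp).toNat), ?_, ?_⟩))
        · rw [hS1, mem_filter, mem_product, mem_Icc, mem_Icc]
          have e1 : U + (((u - U).toNat : ℕ) : ℤ) = u := by omega
          have e2 : (Wp : ℤ) + (((w - Wp).toNat : ℕ) : ℤ) = w := by omega
          dsimp only
          rw [e1, e2]
          exact ⟨⟨by omega, by omega⟩, hok⟩
        · rw [Prod.mk.injEq]
          dsimp only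
          omega
    have hun : ∀ S T : Finset (ℤ × ℤ), ∑ q ∈ S ∪ T, RRh cls a f q.1 q.2 ≤
        ∑ q ∈ S, RRh cls a f q.1 q.2 + ∑ q ∈ T, RRh cls a f q.1 q.2 := by
      intro S T
      rw [← sum_union_inter]
      exact le_add_of_nonneg_right (sum_nonneg fun q _ => RRh_nonneg _ _ _ _ _)
    have hXle : X ≤ 3 * K0 * X + X := by omega
    have e1 : (Real.log H) ^ P.card *
        ∑ q ∈ S1.image (fun q : ℕ × ℕ => (U + (q.1 : ℤ), (Wp : ℤ) + (q.2 : ℤ))),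
        RRh cls a f q.1 q.2 ≤ B1 * (H : ℝ) ^ 2 := by
      rw [sum_image (fun p _ q _ h => by
        simp only [Prod.mk.injEq] at h
        exact Prod.ext (by omega) (by omega))]
      refine h1 H U Wp (by omega) ?_ ?_
      · nlinarith
      · have : Wp ≤ W.natAbs := by omega
        nlinarith
    have e2 : (Real.log H) ^ P.card *
        ∑ q ∈ S2.image (fun q : ℕ × ℕ => (-(Un + (q.1 : ℤ)), -((Wn : ℤ) + (q.2 : ℤ)))),
        RRh cls a f q.1 q.2 ≤ B2 * (H : ℝ) ^ 2 := by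
      rw [sum_image (fun p _ q _ h => by
        simp only [Prod.mk.injEq] at h
        exact Prod.ext (by omega) (by omega))]
      simp only [hR3]
      refine h2 H Un Wn (by omega) ?_ ?_
      · have : Un.natAbs ≤ U.natAbs + H + 1 := by omega
        nlinarith
      · have : Wn ≤ W.natAbs + H + 1 := by omega
        nlinarith
    have e3 : (Real.log H) ^ P.card * ∑ q ∈ Ax, RRh cls a f q.1 q.2 ≤ C3 * A1 * (H : ℝ) ^ 2 := by
      have e4 := hC3 H hH1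
      rw [Real.rpow_one] at e4
      have e5 : (H : ℝ) ≤ (H : ℝ) ^ 2 := by nlinarith
      calc (Real.log H) ^ P.card * ∑ q ∈ Ax, RRh cls a f q.1 q.2 ≤ (C3 * H) * A1 :=
            mul_le_mul_of_nonneg_right e4 hA10
        _ = C3 * A1 * H := by ring
        _ ≤ _ := mul_le_mul_of_nonneg_left e5 (by positivity)
    have hlog : (Real.log X) ^ P.card ≤ (μ0 : ℝ) ^ P.card * (Real.log H) ^ P.card := by
      rw [← mul_pow]
      refine pow_le_pow_left₀ hlogX ?_ _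
      rw [← Real.log_pow]
      exact Real.log_le_log (by linarith) (by exact_mod_cast hXHμ)
    have h5 : ∑ q ∈ Q, RRh cls a f q.1 q.2 ≤
        (∑ q ∈ S1.image (fun q : ℕ × ℕ => (U + (q.1 : ℤ), (Wp : ℤ) + (q.2 : ℤ))),
          RRh cls a f q.1 q.2 +
        ∑ q ∈ S2.image (fun q : ℕ × ℕ => (-(Un + (q.1 : ℤ)), -((Wn : ℤ) + (q.2 : ℤ)))),
          RRh cls a f q.1 q.2) + ∑ q ∈ Ax, RRh cls a f q.1 q.2 :=
      (sum_le_sum_of_subset_of_nonneg hcover (fun q _ _ => RRh_nonneg cls a f q.1 q.2)).trans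
        ((hun _ _).trans (add_le_add (hun _ _) le_rfl))
    have hlogp : 0 ≤ (Real.log H) ^ P.card := pow_nonneg hlogH _
    have h6 : (Real.log H) ^ P.card * ∑ q ∈ Q, RRh cls a f q.1 q.2 ≤
        (B1 + B2 + C3 * A1) * (H : ℝ) ^ 2 := by
      refine (mul_le_mul_of_nonneg_left h5 hlogp).trans ?_
      rw [mul_add, mul_add]
      linarith
    have h7 : (Real.log X) ^ P.card * ∑ q ∈ Q, RRh cls a f q.1 q.2 ≤
        (μ0 : ℝ) ^ P.card * ((Real.log H) ^ P.card * ∑ q ∈ Q, RRh cls a f q.1 q.2) := by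
      rw [← mul_assoc]
      exact mul_le_mul_of_nonneg_right hlog hSQ
    have h8 := mul_le_mul_of_nonneg_left h6 (by positivity : (0 : ℝ) ≤ (μ0 : ℝ) ^ P.card)
    nlinarith [mul_nonneg hpos2 (by positivity : (0 : ℝ) ≤ (H : ℝ) ^ 2)]

end Pool.Agent.L7h19.RP
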