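import Mathlib
import Pool.Agent.L7h19.RP.HFin
import Pool.Agent.L7h19.RJ.Cls

/-!
# Project RP, rational values of the parameter: families given by sets of forms
-/

set_option autoImplicit false

namespace Pool.Agent.L7h19.RP

open Finset Polynomial Pool.Agent.W262.RK Pool.Agent.W307.RT Pool.Agent.L7h19.RJ

variable {ι : Type} [Fintype ι] [DecidableEq ι] {J : Type} [Fintype J] [DecidableEq J]

/-- the sum over the coprime pairs, first (joint) moment; the forms need not all occur -/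
theorem fin_hA (hp : Parts) (hCnt : StCnt2) (cls : ι → J → Option (Fin 4)) (n : ι → ℕ)
    (h1 : ∀ i j, cls i j ≠ none → cls i j ≠ some 3 → ∀ i', i' ≠ i → cls i' j = none)
    (h3 : ∀ i (c : Fin 4), c ≠ 3 → (univ.filter (fun j => cls i j = some c)).card = n i)
    (D : ι → ℕ) (a : ι → Fin 3 → ℤ) (f : J → ℤ[X])
    (ha : ∀ i k, a i k ≠ 0) (hf : ∀ j, Irreducible (f j))
    (hd : ∀ j, 0 < (f j).natDegree) (hnd : ∀ j l, j ≠ l → ¬ f j ∣ f l)
    (hD : ∀ i k, ∑ l ∈ fsJ (cls i) k, (f l).natDegree = D i)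
    (hF : ∀ i (u w : ℤ), FV (cls i) (a i) (vh f u w) 0 - FV (cls i) (a i) (vh f u w) 1 =
      FV (cls i) (a i) (vh f u w) 2) :
    ∃ C : ℝ, 0 ≤ C ∧ ∀ X : ℕ, 1 ≤ X →
      ∑ q ∈ (Icc (-(X : ℤ)) X ×ˢ Icc (-(X : ℤ)) X).filter (fun q : ℤ × ℤ => IsCoprime q.1 q.2 ∧
        ∀ i k, FV (cls i) (a i) (vh f q.1 q.2) k ≠ 0), RRh cls a f q.1 q.2 ≤ C * (X : ℝ) ^ 2 := by
  classical
  set U : J → Prop := fun j => ∃ i, cls i j ≠ none with hU
  set cls' : ι → {j // U j} → Option (Fin 4) := fun i j => cls i j.1 with hcls'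
  set f' : {j // U j} → ℤ[X] := fun j => f j.1 with hf'
  have hsum : ∀ {M : Type} [AddCommMonoid M] (i : ι) (k : Fin 3) (g : J → M),
      ∑ l ∈ fsJ (cls' i) k, g l.1 = ∑ l ∈ fsJ (cls i) k, g l := by
    intro M _ i k g
    refine sum_bij (fun l _ => l.1) (fun l hl => ?_) (fun l _ l' _ h => Subtype.ext h)
      (fun l hl => ?_) (fun l _ => rfl)
    · unfold fsJ at hl ⊢
      rw [mem_filter] at hl ⊢
      exact ⟨mem_univ _, hl.2⟩
    · unfold fsJ at hl
      rw [mem_filter] at hl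
      have hne : cls i l ≠ none := by
        rcases hl.2 with h | h <;> rw [h] <;> simp
      refine ⟨⟨l, ⟨i, hne⟩⟩, ?_, rfl⟩
      unfold fsJ
      rw [mem_filter]
      exact ⟨mem_univ _, hl.2⟩
  have hprod : ∀ (i : ι) (k : Fin 3) (g : J → ℤ),
      ∏ l ∈ fsJ (cls' i) k, g l.1 = ∏ l ∈ fsJ (cls i) k, g l := by
    intro i k g
    refine prod_bij (fun l _ => l.1) (fun l hl => ?_) (fun l _ l' _ h => Subtype.ext h)
      (fun l hl => ?_) (fun l _ => rfl)
    · unfold fsJ at hl ⊢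
      rw [mem_filter] at hl ⊢
      exact ⟨mem_univ _, hl.2⟩
    · unfold fsJ at hl
      rw [mem_filter] at hl
      have hne : cls i l ≠ none := by
        rcases hl.2 with h | h <;> rw [h] <;> simp
      refine ⟨⟨l, ⟨i, hne⟩⟩, ?_, rfl⟩
      unfold fsJ
      rw [mem_filter]
      exact ⟨mem_univ _, hl.2⟩
  have hFJ : ∀ i (u w : ℤ) k, FV (cls' i) (a i) (vh f' u w) k =
      FV (cls i) (a i) (vh f u w) k := by
    intro i u w k
    unfold FV
    rw [← hprod i k (vh f u w)]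
    rfl
  have h1' : ∀ i j, cls' i j ≠ none → cls' i j ≠ some 3 → ∀ i', i' ≠ i → cls' i' j = none :=
    fun i j => h1 i j.1
  have h3' : ∀ i (c : Fin 4), c ≠ 3 →
      (univ.filter (fun j => cls' i j = some c)).card = n i := by
    intro i c hc
    rw [← h3 i c hc]
    refine card_bij (fun j _ => j.1) (fun j hj => ?_) (fun j _ j' _ h => Subtype.ext h)
      (fun j hj => ?_)
    · rw [mem_filter] at hj ⊢
      exact ⟨mem_univ _, hj.2⟩
    · rw [mem_filter] at hj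
      exact ⟨⟨j, ⟨i, by rw [hj.2]; simp⟩⟩, mem_filter.2 ⟨mem_univ _, hj.2⟩, rfl⟩
  obtain ⟨C, hC0, hC⟩ := fin_all_h hp hCnt cls' D a f' (fun j => j.2)
    (fun U _ hU => combj cls' n h1' h3' U hU) ha (fun j => hf j.1) (fun j => hd j.1)
    (fun j l hjl => hnd j.1 l.1 (fun h => hjl (Subtype.ext h)))
    (fun i k => by rw [← hD i k]; exact hsum i k (fun l => (f l).natDegree))
    (fun i u w => by rw [hFJ, hFJ, hFJ]; exact hF i u w)
  refine ⟨C, hC0, fun X hX => ?_⟩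
  have e1 : ∀ q : ℤ × ℤ, RRh cls a f q.1 q.2 = RRh cls' a f' q.1 q.2 := by
    intro q
    unfold RRh
    refine prod_congr rfl fun i _ => ?_
    rw [hFJ, hFJ]
  rw [sum_congr rfl fun q _ => e1 q]
  refine (sum_le_sum_of_subset_of_nonneg ?_ fun q _ _ => RRh_nonneg cls' a f' q.1 q.2).trans
    (hC X hX)
  · intro q hq
    rw [mem_filter] at hq ⊢
    refine ⟨hq.1, hq.2.1, fun j h0 => ?_⟩
    obtain ⟨i, hi⟩ := j.2
    have hk : ∃ k : Fin 3, j.1 ∈ fsJ (cls i) k := by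
      rcases he : cls i j.1 with _ | e
      · exact absurd he hi
      · by_cases h3 : e = 3
        · refine ⟨0, ?_⟩
          unfold fsJ
          rw [mem_filter, he, h3]
          exact ⟨mem_univ _, Or.inr rfl⟩
        · have hgen : ∀ e : Fin 4, e ≠ 3 → ∃ k : Fin 3, e = k.castSucc := by decide
          obtain ⟨k, rfl⟩ := hgen e h3
          refine ⟨k, ?_⟩
          unfold fsJ
          rw [mem_filter, he]
          exact ⟨mem_univ _, Or.inl rfl⟩
    obtain ⟨k, hk⟩ := hk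
    refine hq.2.2 i k ?_
    unfold FV
    rw [prod_eq_zero hk (show vh f q.1 q.2 j.1 = 0 from h0), mul_zero]

lemma fsJ_clsS {T : Finset J} {S : Fin 3 → Finset J} (hST : ∀ k, Disjoint (S k) T)
    (hSS : ∀ k k', k ≠ k' → Disjoint (S k) (S k')) (k : Fin 3) :
    fsJ (clsS T S) k = T ∪ S k := by
  ext j
  unfold fsJ
  rw [mem_filter, clsS_S hST hSS, clsS_T, mem_union]
  exact ⟨fun h => h.2.symm, fun h => ⟨mem_univ _, h.symm⟩⟩

/-- the theorem for families given by sets of forms; `G_j(u, w)` are the forms after the linear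
change of variables -/
theorem fin_sets_h (hp : Parts) (hCnt : StCnt2) (T : ι → Finset J) (S : ι → Fin 3 → Finset J)
    (n : ι → ℕ) (hST : ∀ i k i', Disjoint (S i k) (T i'))
    (hSS : ∀ i k i' k', (i, k) ≠ (i', k') → Disjoint (S i k) (S i' k'))
    (hn : ∀ i k, (S i k).card = n i)
    (a : ι → Fin 3 → ℤ) (f : J → ℤ[X]) (D : ι → ℕ) (ha : ∀ i k, a i k ≠ 0)
    (hf : ∀ j, Irreducible (f j))
    (hd : ∀ j, 0 < (f j).natDegree) (hnd : ∀ j l, j ≠ l → ¬ Associated (f j) (f l))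
    (hD : ∀ i k, ∑ j ∈ T i, (f j).natDegree + ∑ j ∈ S i k, (f j).natDegree = D i)
    (hF : ∀ i (u w : ℤ), a i 0 * (∏ j ∈ T i, hv (f j) u w) * ∏ j ∈ S i 0, hv (f j) u w -
      a i 1 * (∏ j ∈ T i, hv (f j) u w) * ∏ j ∈ S i 1, hv (f j) u w =
      a i 2 * (∏ j ∈ T i, hv (f j) u w) * ∏ j ∈ S i 2, hv (f j) u w) :
    ∃ C : ℝ, 0 ≤ C ∧ ∀ X : ℕ, 1 ≤ X →
      ∑ q ∈ (Icc (-(X : ℤ)) X ×ˢ Icc (-(X : ℤ)) X).filter (fun q : ℤ × ℤ => IsCoprime q.1 q.2 ∧
        ∀ i k, a i k * (∏ j ∈ T i, hv (f j) q.1 q.2) * ∏ j ∈ S i k, hv (f j) q.1 q.2 ≠ 0),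
      ∏ i, (2 : ℝ) ^ Module.finrank ℤ (EAB
        (a i 0 * (∏ j ∈ T i, hv (f j) q.1 q.2) * ∏ j ∈ S i 0, hv (f j) q.1 q.2)
        (a i 1 * (∏ j ∈ T i, hv (f j) q.1 q.2) * ∏ j ∈ S i 1, hv (f j) q.1 q.2)).toAffine.Point ≤
        C * (X : ℝ) ^ 2 := by
  have hST' : ∀ i k, Disjoint (S i k) (T i) := fun i k => hST i k i
  have hSS' : ∀ i k k', k ≠ k' → Disjoint (S i k) (S i k') := fun i k k' h =>
    hSS i k i k' (fun h' => h (Prod.mk.inj h').2)
  have hFV : ∀ i (u w : ℤ) k, FV (clsS (T i) (S i)) (a i) (vh f u w) k =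
      a i k * (∏ j ∈ T i, hv (f j) u w) * ∏ j ∈ S i k, hv (f j) u w := by
    intro i u w k
    unfold FV
    rw [fsJ_clsS (hST' i) (hSS' i), prod_union (hST' i k).symm, mul_assoc]
    rfl
  obtain ⟨C, hC0, hC⟩ := fin_hA hp hCnt (fun i => clsS (T i) (S i)) n
    (fun i j h h3 i' hi' => by
      obtain ⟨k, hk⟩ := clsS_ne h h3
      exact clsS_none (disjoint_left.1 (hST i k i') hk)
        fun k' => disjoint_left.1 (hSS i k i' k' (fun h' => hi' (Prod.mk.inj h').1.symm)) hk)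
    (fun i c hc => by
      have hc' : ∃ k : Fin 3, c = k.castSucc := by
        revert c
        decide
      obtain ⟨k, rfl⟩ := hc'
      rw [← hn i k]
      congr 1
      ext j
      rw [mem_filter, clsS_S (hST' i) (hSS' i)]
      exact ⟨fun h => h.2, fun h => ⟨mem_univ _, h⟩⟩)
    D a f ha hf hd (fun j l hjl h => hnd j l hjl ((hf j).associated_of_dvd (hf l) h))
    (fun i k => by
      rw [fsJ_clsS (hST' i) (hSS' i), sum_union (hST' i k).symm]
      exact hD i k)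
    (fun i u w => by rw [hFV, hFV, hFV]; exact hF i u w)
  refine ⟨C, hC0, fun X hX => ?_⟩
  have h4 := hC X hX
  simp only [hFV] at h4
  refine le_trans (le_of_eq ?_) h4
  refine sum_congr rfl fun q _ => ?_
  unfold RRh
  refine prod_congr rfl fun i _ => ?_
  rw [hFV, hFV]

end Pool.Agent.L7h19.RP
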