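import Mathlib
import Pool.Agent.L7h19.RP.GFin
import Pool.Agent.L7h19.RP.NCls
import Pool.Agent.L7h19.RP.HCls

/-!
# Project RP, rational values of the parameter: unbalanced families given by sets of forms
-/

set_option autoImplicit false

namespace Pool.Agent.L7h19.RP

open Finset Polynomial Pool.Agent.W262.RK Pool.Agent.W307.RT Pool.Agent.L7h19.RJ

variable {ι : Type} [Fintype ι] [DecidableEq ι] {J : Type} [Fintype J] [DecidableEq J]

/-- the majorant of the unbalanced families, rational values of the parameter -/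
theorem maj_g (hp : PartsN) (cls : ι → J → Option (Fin 4)) (P Q : Finset J) (D : ι → ℕ)
    (h1 : ∀ i, ∀ j ∉ P, cls i j ≠ none → cls i j ≠ some 3 → ∀ i', i' ≠ i → cls i' j = none)
    (h2 : ∀ j ∉ P, ∃ i, cls i j ≠ none)
    (h3 : ∀ i (c : Fin 4), c ≠ 3 →
      (univ.filter (fun j => j ∉ P ∧ cls i j = some c)).card +
      (univ.filter (fun j => j ∉ P ∧ (j ∈ Q ∧ Even (D i)) ∧ cls i j = some c)).card ≤
      (univ.filter (fun j => j ∉ P ∧ ∃ c' : Fin 4, c' ≠ 3 ∧ c' ≠ c ∧ cls i j = some c')).card)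
    (a : ι → Fin 3 → ℤ) (f : J → ℤ[X]) (ha : ∀ i k, a i k ≠ 0) (hf : ∀ j, Irreducible (f j))
    (hd : ∀ j, 0 < (f j).natDegree) (hnd : ∀ j l, j ≠ l → ¬ f j ∣ f l)
    (hsq : ∀ i, ∀ j ∉ P, j ∉ Q → ∀ e : Fin 4, cls i j = some e → e ≠ 3 →
      ¬ SqAt (f j) (FP (cls i) (a i) f (cp4 e)) ∧
      ¬ SqAt (f j) (-(FP (cls i) (a i) f (cp4 e)))) :
    MajH cls P D a f := by
  classical
  intro c
  set cls' : ι → Jp P → Option (Fin 4) := fun i (j : Jp P) => cls i j.1 with hcls'
  set Q' : Finset (Jp P) := univ.filter (fun j : Jp P => j.1 ∈ Q) with hQ'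
  set Q'' : Finset (Jp P) := univ.filter (fun j : Jp P => j.1 ∈ Q ∧
    ∃ i, cls i j.1 ≠ none ∧ cls i j.1 ≠ some 3 ∧ Even (D i)) with hQ''
  have hcard : ∀ (U : J → Prop) [DecidablePred U],
      (univ.filter (fun j : Jp P => U j.1)).card = (univ.filter (fun j : J => j ∉ P ∧ U j)).card := by
    intro U _
    refine card_bij (fun j _ => j.1) (fun j hj => ?_) (fun j _ j' _ h => Subtype.ext h)
      (fun j hj => ?_)
    · rw [mem_filter] at hj ⊢
      exact ⟨mem_univ _, j.2, hj.2⟩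
    · rw [mem_filter] at hj
      exact ⟨⟨j, hj.2.1⟩, mem_filter.2 ⟨mem_univ _, hj.2.2⟩, rfl⟩
  have h1' : ∀ i (j : Jp P), cls' i j ≠ none → cls' i j ≠ some 3 → ∀ i', i' ≠ i →
      cls' i' j = none := fun i j => h1 i j.1 j.2
  have hcomb := hp.comb ι (Jp P) cls' Q'' h1' (fun i e he => by
    have h4 := h3 i e he
    have e1 : Q''.filter (fun j => cls' i j = some e) =
        univ.filter (fun j : Jp P => (j.1 ∈ Q ∧ Even (D i)) ∧ cls i j.1 = some e) := by
      ext j
      constructor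
      · intro hj
        rw [mem_filter, hQ'', mem_filter] at hj
        obtain ⟨⟨-, hjQ, i', hi1, hi2, hi3⟩, hj⟩ := hj
        rw [mem_filter]
        have : i' = i := by
          by_contra hne
          have := h1' i' j hi1 hi2 i (Ne.symm hne)
          rw [hj] at this
          exact absurd this (by simp)
        subst this
        exact ⟨mem_univ _, ⟨hjQ, hi3⟩, hj⟩
      · intro hj
        rw [mem_filter] at hj
        obtain ⟨-, ⟨hjQ, hD⟩, hj⟩ := hj
        rw [mem_filter, hQ'', mem_filter]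
        exact ⟨⟨mem_univ _, hjQ, i, by rw [hj]; simp, by
          rw [hj]
          intro h
          exact he (Option.some.inj h), hD⟩, hj⟩
    rw [e1, hcard (fun j => cls i j = some e),
      hcard (fun j => (j ∈ Q ∧ Even (D i)) ∧ cls i j = some e),
      hcard (fun j => ∃ c' : Fin 4, c' ≠ 3 ∧ c' ≠ e ∧ cls i j = some c')]
    exact h4)
  have hcomb' := hp.comb ι (Jp P) cls' Q'' h1'
  refine majhn hp.up hp.up0 hp.bw hp.free cls' (fun i (j : Jp P) => exh cls f D i j.1)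
    (fun j => h2 j.1 j.2) (Fintype.card (Jp P)) (NIJ cls' Q') (fun b b' hb hb' => ?_)
    (fun U hU1 hU2 hU3 => hcomb.2 U (fun b hb hN => ?_) hU3)
    (fun i (j : Jp P) => kapP (cls i) (a i) f j.1) (fun j : Jp P => f j.1)
    (fun j => hf j.1) (fun j => hd j.1) (fun i j k => kapP_nd hf hd hnd (ha i) j.1 k)
    (fun b hb => ?_) c
  · -- mutually unlinked
    refine hcomb.1 b b' ⟨fun h => hb.1 ?_, hb.2⟩ ⟨fun h => hb'.1 ?_, hb'.2⟩
    · rw [hQ'', mem_filter] at h
      exact mem_filter.2 ⟨mem_univ _, h.2.1⟩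
    · rw [hQ'', mem_filter] at h
      exact mem_filter.2 ⟨mem_univ _, h.2.1⟩
  · -- the types killed by the parity
    obtain ⟨hbQ, i, hi1, hi2, hi3, hi4⟩ := hN
    by_cases hQb : b.1.1 ∈ Q'
    · have hDi : ¬ Even (D i) := fun hE => hbQ (mem_filter.2 ⟨mem_univ _,
        (mem_filter.1 hQb).2, i, hi1, hi2, hE⟩)
      apply hDi
      have h5 := hU1 b hb
      have h6 : NJ cls' (fun i (j : Jp P) => exh cls f D i j.1) b = D i := by
        unfold NJ
        rw [sum_eq_single i]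
        · have hno : no (cls' i b.1.1) (b.1.2.1 i) (b.1.2.2 i) = 1 := by
            obtain ⟨e, he⟩ := Option.ne_none_iff_exists'.1 hi1
            have he3 : e ≠ 3 := fun h => hi2 (by rw [he, h])
            rw [he]
            show (if e = 3 then _ else if _ ∨ _ then 0 else 1 : ℕ) = 1
            rw [if_neg he3, if_neg]
            push Not
            exact ⟨hi3, hi4⟩
          have hex : exh cls f D i b.1.1.1 = D i := by
            obtain ⟨e, he⟩ := Option.ne_none_iff_exists'.1 hi1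
            have he' : cls i b.1.1.1 = some e := he
            have he3 : e ≠ 3 := fun h => hi2 (by rw [he, h])
            unfold exh
            rw [he']
            show (if e = 3 then _ else _ : ℕ) = _
            rw [if_neg he3]
          rw [hno, mul_one]
          exact hex
        · intro i' _ hi'
          have : cls' i' b.1.1 = none := h1' i b.1.1 hi1 hi2 i' hi'
          rw [this]
          show _ * 0 = 0
          rw [mul_zero]
        · exact fun h => absurd (mem_univ _) h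
      rwa [h6] at h5
    · exact hU2 b hb ⟨hQb, i, hi1, hi2, hi3, hi4⟩
  · -- the inactive types
    obtain ⟨hjQ, i, hj1, hj2, hκ⟩ := κJP_N h1'
      (fun i (j : Jp P) => kapP (cls i) (a i) f j.1) hb
    rw [hκ]
    obtain ⟨e, he⟩ := Option.ne_none_iff_exists'.1 hj1
    have he3 : e ≠ 3 := fun h => hj2 (by rw [he, h])
    have he' : cls i b.1.1.1 = some e := he
    have h7 := hsq i b.1.1.1 b.1.1.2 (fun h => hjQ (mem_filter.2 ⟨mem_univ _, h⟩)) e he' he3
    have h8 := sq_kapP (c := cls i) (a := a i) (f := f) (j := b.1.1.1) (e := e) he' he3 0 h7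
    exact h8

/-- the unit sign does not matter -/
lemma sqAt_sign {c : J → Option (Fin 4)} {a : Fin 3 → ℤ} {f g : ℤ[X]} {h : J → ℤ[X]} {k : Fin 3}
    (n : ℕ) (hg : g = FP c a h k) (hs : ¬ SqAt f g ∧ ¬ SqAt f (-g)) :
    ¬ SqAt f (FP c (fun k => (-1) ^ n * a k) h k) ∧
      ¬ SqAt f (-(FP c (fun k => (-1) ^ n * a k) h k)) := by
  rcases neg_one_pow_eq_or ℤ n with h2 | h2
  · have h1 : FP c (fun k => (-1) ^ n * a k) h k = g := by
      rw [hg]
      unfold FP
      simp only [h2, one_mul]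
    rw [h1]
    exact hs
  · have h1 : FP c (fun k => (-1) ^ n * a k) h k = -g := by
      rw [hg]
      unfold FP
      simp only [h2, neg_mul, one_mul, C_neg]
    rw [h1, neg_neg]
    exact ⟨hs.2, hs.1⟩

open Classical in
/-- the sum over short squares, for unbalanced families; the forms need not all occur -/
theorem short_g (hp : PartsN) (hCnt : StCnt3) (hCr : StCrude) (hFew : StFew)
    (cls : ι → J → Option (Fin 4)) (P Q : Finset J) (D : ι → ℕ)
    (h1 : ∀ i, ∀ j ∉ P, cls i j ≠ none → cls i j ≠ some 3 → ∀ i', i' ≠ i → cls i' j = none)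
    (h3 : ∀ i (c : Fin 4), c ≠ 3 →
      (univ.filter (fun j => j ∉ P ∧ cls i j = some c)).card +
      (univ.filter (fun j => j ∉ P ∧ (j ∈ Q ∧ Even (D i)) ∧ cls i j = some c)).card ≤
      (univ.filter (fun j => j ∉ P ∧ ∃ c' : Fin 4, c' ≠ 3 ∧ c' ≠ c ∧ cls i j = some c')).card)
    (a : ι → Fin 3 → ℤ) (f : J → ℤ[X]) (ha : ∀ i k, a i k ≠ 0) (hf : ∀ j, Irreducible (f j))
    (hd : ∀ j, 0 < (f j).natDegree) (hnd : ∀ j l, j ≠ l → ¬ f j ∣ f l)
    (hD : ∀ i k, ∑ l ∈ fsJ (cls i) k, (f l).natDegree = D i)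
    (hsq : ∀ i, ∀ j ∉ P, j ∉ Q → ∀ e : Fin 4, cls i j = some e → e ≠ 3 →
      ¬ SqAt (f j) (FP (cls i) (a i) f (cp4 e)) ∧
      ¬ SqAt (f j) (-(FP (cls i) (a i) f (cp4 e))))
    (hF : ∀ i (u w : ℤ), FV (cls i) (a i) (vh f u w) 0 - FV (cls i) (a i) (vh f u w) 1 =
      FV (cls i) (a i) (vh f u w) 2) (ε : ℝ) (hε : 0 < ε) (K0 : ℕ) :
    ∃ C : ℝ, 0 ≤ C ∧ ∀ (X H : ℕ) (U W : ℤ), 1 ≤ X → (X : ℝ) ^ ε ≤ H → U.natAbs ≤ K0 * X →
      W.natAbs ≤ K0 * X → H ≤ K0 * X → (Real.log X) ^ P.card *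
      ∑ q ∈ (Ioc U (U + H) ×ˢ Ioc W (W + H)).filter (fun q : ℤ × ℤ => IsCoprime q.1 q.2 ∧
        (∀ i k, FV (cls i) (a i) (vh f q.1 q.2) k ≠ 0) ∧
        ∀ j ∈ P, (vh f q.1 q.2 j).natAbs.Prime),
        RRh cls a f q.1 q.2 ≤ C * (H : ℝ) ^ 2 := by
  set U : J → Prop := fun j => j ∈ P ∨ ∃ i, cls i j ≠ none with hU
  set cls' : ι → {j // U j} → Option (Fin 4) := fun i j => cls i j.1 with hcls'
  set f' : {j // U j} → ℤ[X] := fun j => f j.1 with hf'
  set P' : Finset {j // U j} := univ.filter (fun j => j.1 ∈ P) with hP'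
  set Q' : Finset {j // U j} := univ.filter (fun j => j.1 ∈ Q) with hQ'
  have hmP : ∀ j : {j // U j}, j ∈ P' ↔ j.1 ∈ P := fun j => by
    rw [hP', mem_filter]; exact ⟨fun h => h.2, fun h => ⟨mem_univ _, h⟩⟩
  have hmQ : ∀ j : {j // U j}, j ∈ Q' ↔ j.1 ∈ Q := fun j => by
    rw [hQ', mem_filter]; exact ⟨fun h => h.2, fun h => ⟨mem_univ _, h⟩⟩
  have hcard : P'.card = P.card := by
    refine card_bij (fun j _ => j.1) (fun j hj => (hmP j).1 hj) (fun j _ j' _ h => Subtype.ext h)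
      (fun j hj => ⟨⟨j, Or.inl hj⟩, (hmP _).2 hj, rfl⟩)
  have hprod : ∀ {R : Type} [CommRing R] (g : J → R) (i : ι) (k : Fin 3),
      ∏ l ∈ fsJ (cls' i) k, g l.1 = ∏ l ∈ fsJ (cls i) k, g l := by
    intro R _ g i k
    refine prod_bij (fun l _ => l.1) (fun l hl => ?_) (fun l _ l' _ h => Subtype.ext h)
      (fun l hl => ?_) (fun l _ => rfl)
    · unfold fsJ at hl ⊢
      rw [mem_filter] at hl ⊢
      exact ⟨mem_univ _, hl.2⟩
    · unfold fsJ at hl
      rw [mem_filter] at hl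
      have hne : cls i l ≠ none := by
        rcases hl.2 with h | h <;> rw [h] <;> simp
      refine ⟨⟨l, Or.inr ⟨i, hne⟩⟩, ?_, rfl⟩
      unfold fsJ
      rw [mem_filter]
      exact ⟨mem_univ _, hl.2⟩
  have hsum : ∀ (g : J → ℕ) (i : ι) (k : Fin 3),
      ∑ l ∈ fsJ (cls' i) k, g l.1 = ∑ l ∈ fsJ (cls i) k, g l := by
    intro g i k
    refine sum_bij (fun l _ => l.1) (fun l hl => ?_) (fun l _ l' _ h => Subtype.ext h)
      (fun l hl => ?_) (fun l _ => rfl)
    · unfold fsJ at hl ⊢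
      rw [mem_filter] at hl ⊢
      exact ⟨mem_univ _, hl.2⟩
    · unfold fsJ at hl
      rw [mem_filter] at hl
      have hne : cls i l ≠ none := by
        rcases hl.2 with h | h <;> rw [h] <;> simp
      refine ⟨⟨l, Or.inr ⟨i, hne⟩⟩, ?_, rfl⟩
      unfold fsJ
      rw [mem_filter]
      exact ⟨mem_univ _, hl.2⟩
  have hFJ : ∀ i (u w : ℤ) k, FV (cls' i) (a i) (vh f' u w) k =
      FV (cls i) (a i) (vh f u w) k := by
    intro i u w k
    unfold FV
    rw [← hprod (vh f u w) i k]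
    rfl
  have hFPJ : ∀ i k (b : Fin 3 → ℤ), FP (cls' i) b f' k = FP (cls i) b f k := by
    intro i k b
    unfold FP
    rw [← hprod f i k]
  have hnd' : ∀ j l : {j // U j}, j ≠ l → ¬ f' j ∣ f' l := fun j l hjl =>
    hnd j.1 l.1 (fun h => hjl (Subtype.ext h))
  have hcard2 : ∀ (V : J → Prop) [DecidablePred V], (∀ j, V j → ∃ i, cls i j ≠ none) →
      (univ.filter (fun j : {j // U j} => j ∉ P' ∧ V j.1)).card =
      (univ.filter (fun j : J => j ∉ P ∧ V j)).card := by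
    intro V _ hV
    refine card_bij (fun j _ => j.1) (fun j hj => ?_) (fun j _ j' _ h => Subtype.ext h)
      (fun j hj => ?_)
    · rw [mem_filter] at hj ⊢
      exact ⟨mem_univ _, fun h => hj.2.1 ((hmP j).2 h), hj.2.2⟩
    · rw [mem_filter] at hj
      refine ⟨⟨j, Or.inr (hV j hj.2.2)⟩, ?_, rfl⟩
      rw [mem_filter]
      exact ⟨mem_univ _, fun h => hj.2.1 ((hmP _).1 h), hj.2.2⟩
  have hMaj : ∀ b : ι → Fin 3 → ℤ, (∀ i k, b i k ≠ 0) →
      (∀ i, ∀ j ∉ P, j ∉ Q → ∀ e : Fin 4, cls i j = some e → e ≠ 3 →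
      ¬ SqAt (f j) (FP (cls i) (b i) f (cp4 e)) ∧
      ¬ SqAt (f j) (-(FP (cls i) (b i) f (cp4 e)))) → MajH cls' P' D b f' := by
    intro b hb hsqb
    exact maj_g hp cls' P' Q' D (fun i j hj => h1 i j.1 (fun h => hj ((hmP j).2 h)))
      (fun j hj => by
        rcases j.2 with h | h
        · exact absurd ((hmP j).2 h) hj
        · exact h)
      (fun i c hc => by
        have h4 := h3 i c hc
        have e1 := hcard2 (fun j => cls i j = some c) (fun j hj => ⟨i, by rw [hj]; simp⟩)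
        have e2 := hcard2 (fun j => (j ∈ Q ∧ Even (D i)) ∧ cls i j = some c)
          (fun j hj => ⟨i, by rw [hj.2]; simp⟩)
        have e3 := hcard2 (fun j => ∃ c' : Fin 4, c' ≠ 3 ∧ c' ≠ c ∧ cls i j = some c')
          (fun j ⟨c', _, _, hj⟩ => ⟨i, by rw [hj]; simp⟩)
        have e2' : (univ.filter (fun j : {j // U j} => j ∉ P' ∧ (j ∈ Q' ∧ Even (D i)) ∧
            cls' i j = some c)).card = (univ.filter (fun j : {j // U j} => j ∉ P' ∧
            (j.1 ∈ Q ∧ Even (D i)) ∧ cls i j.1 = some c)).card := by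
          simp only [hmQ]
          rfl
        rw [e2', e2]
        exact (add_le_add_left e1.le _).trans (h4.trans e3.symm.le)) b f' hb (fun j => hf j.1)
      (fun j => hd j.1) hnd'
      (fun i j hjP hjQ e he he3 => by
        rw [hFPJ]
        exact hsqb i j.1 (fun h => hjP ((hmP j).2 h)) (fun h => hjQ ((hmQ j).2 h)) e he he3)
  obtain ⟨C, hC0, hC⟩ := finG hp.mod hp.rank hCnt hCr hFew cls' P' D a f' ha (fun j => hf j.1)
    (fun j => hd j.1) hnd' (fun i k => by rw [← hD i k]; exact hsum (fun l => (f l).natDegree) i k)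
    (fun i u w => by rw [hFJ, hFJ, hFJ]; exact hF i u w) (hMaj a ha hsq)
    (hMaj _ (fun i k => mul_ne_zero (pow_ne_zero _ (by norm_num)) (ha i k))
      (fun i j hjP hjQ e he he3 => sqAt_sign (D i) rfl (hsq i j hjP hjQ e he he3))) ε hε K0
  refine ⟨C, hC0, fun X H V W hX hH hU hW hHK => ?_⟩
  have h4 := hC X H V W hX hH hU hW hHK
  rw [hcard] at h4
  refine le_trans ?_ h4
  have hlog : 0 ≤ (Real.log X) ^ P.card :=
    pow_nonneg (Real.log_nonneg (by exact_mod_cast hX)) _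
  refine mul_le_mul_of_nonneg_left ?_ hlog
  have e1 : ∀ q : ℤ × ℤ, RRh cls a f q.1 q.2 = RRh cls' a f' q.1 q.2 := by
    intro q
    unfold RRh
    refine prod_congr rfl fun i _ => ?_
    rw [hFJ, hFJ]
  rw [sum_congr rfl fun q _ => e1 q]
  refine sum_le_sum_of_subset_of_nonneg ?_ fun q _ _ => RRh_nonneg cls' a f' q.1 q.2
  intro q hq
  rw [mem_filter] at hq ⊢
  refine ⟨hq.1, hq.2.1, fun j h0 => ?_, fun j hj => hq.2.2.2 j.1 ((hmP j).1 hj)⟩
  rcases j.2 with hjP | ⟨i, hi⟩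
  · have h5 := hq.2.2.2 j.1 hjP
    have h6 : vh f q.1 q.2 j.1 = 0 := h0
    rw [h6] at h5
    exact Nat.not_prime_zero h5
  · have hk : ∃ k : Fin 3, j.1 ∈ fsJ (cls i) k := by
      rcases he : cls i j.1 with _ | e
      · exact absurd he hi
      · by_cases h3 : e = 3
        · refine ⟨0, ?_⟩
          unfold fsJ
          rw [mem_filter, he, h3]
          exact ⟨mem_univ _, Or.inr rfl⟩
        · have hgen : ∀ e : Fin 4, e ≠ 3 → ∃ k : Fin 3, e = k.castSucc := by decide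
          obtain ⟨k, rfl⟩ := hgen e h3
          refine ⟨k, ?_⟩
          unfold fsJ
          rw [mem_filter, he]
          exact ⟨mem_univ _, Or.inl rfl⟩
    obtain ⟨k, hk⟩ := hk
    refine hq.2.2.1 i k ?_
    unfold FV
    rw [prod_eq_zero hk (show vh f q.1 q.2 j.1 = 0 from h0), mul_zero]

open Classical in
/-- short squares, unbalanced families given by sets of forms -/
theorem sets_g (hp : PartsN) (hCnt : StCnt3) (hCr : StCrude) (hFew : StFew)
    (P : Finset J) (T : ι → Finset J) (S : ι → Fin 3 → Finset J)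
    (a : ι → Fin 3 → ℤ) (f : J → ℤ[X]) (D : ι → ℕ)
    (hST : ∀ i k, Disjoint (S i k) (T i))
    (hSS : ∀ i k k', k ≠ k' → Disjoint (S i k) (S i k'))
    (hex : ∀ i i', i ≠ i' → ∀ k, ∀ j ∈ S i k, j ∉ P → j ∉ T i' ∧ ∀ k', j ∉ S i' k')
    (hn : ∀ i k, (S i k \ P).card +
      (if Even (D i) then (Qk f P (T i) (a i) (S i) k).card else 0) ≤
      ∑ k' ∈ univ.erase k, (S i k' \ P).card)
    (ha : ∀ i k, a i k ≠ 0) (hf : ∀ j, Irreducible (f j))
    (hd : ∀ j, 0 < (f j).natDegree) (hnd : ∀ j l, j ≠ l → ¬ Associated (f j) (f l))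
    (hD : ∀ i k, ∑ j ∈ T i, (f j).natDegree + ∑ j ∈ S i k, (f j).natDegree = D i)
    (hF : ∀ i (u w : ℤ), a i 0 * (∏ j ∈ T i, hv (f j) u w) * ∏ j ∈ S i 0, hv (f j) u w -
      a i 1 * (∏ j ∈ T i, hv (f j) u w) * ∏ j ∈ S i 1, hv (f j) u w =
      a i 2 * (∏ j ∈ T i, hv (f j) u w) * ∏ j ∈ S i 2, hv (f j) u w)
    (ε : ℝ) (hε : 0 < ε) (K0 : ℕ) :
    ∃ C : ℝ, 0 ≤ C ∧ ∀ (X H : ℕ) (U W : ℤ), 1 ≤ X → (X : ℝ) ^ ε ≤ H → U.natAbs ≤ K0 * X →
      W.natAbs ≤ K0 * X → H ≤ K0 * X → (Real.log X) ^ P.card *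
      ∑ q ∈ (Ioc U (U + H) ×ˢ Ioc W (W + H)).filter (fun q : ℤ × ℤ => IsCoprime q.1 q.2 ∧
        (∀ i k, a i k * (∏ j ∈ T i, hv (f j) q.1 q.2) * ∏ j ∈ S i k, hv (f j) q.1 q.2 ≠ 0) ∧
        ∀ j ∈ P, (hv (f j) q.1 q.2).natAbs.Prime),
      ∏ i, (2 : ℝ) ^ Module.finrank ℤ (EAB
        (a i 0 * (∏ j ∈ T i, hv (f j) q.1 q.2) * ∏ j ∈ S i 0, hv (f j) q.1 q.2)
        (a i 1 * (∏ j ∈ T i, hv (f j) q.1 q.2) * ∏ j ∈ S i 1, hv (f j) q.1 q.2)).toAffine.Point ≤
        C * (H : ℝ) ^ 2 := by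
  have hFV : ∀ i (u w : ℤ) k, FV (clsS (T i) (S i)) (a i) (vh f u w) k =
      a i k * (∏ j ∈ T i, hv (f j) u w) * ∏ j ∈ S i k, hv (f j) u w := by
    intro i u w k
    unfold FV
    rw [fsJ_clsS (hST i) (hSS i), prod_union (hST i k).symm, mul_assoc]
    rfl
  have hFPS : ∀ i k, FP (clsS (T i) (S i)) (a i) f k = FS f (a i k) (T i) (S i k) :=
    fun i k => FP_clsS (hST i) (hSS i) (a i) f k
  set Q : Finset J := univ.filter (fun j => ∃ i k, j ∈ Qk f P (T i) (a i) (S i) k) with hQ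
  have hcast : ∀ c : Fin 4, c ≠ 3 → ∃ k : Fin 3, c = k.castSucc := by decide
  have hcast3 : ∀ k : Fin 3, k.castSucc ≠ (3 : Fin 4) := by decide
  have hcp : ∀ k : Fin 3, cp4 k.castSucc ≠ k := by decide
  have hcastinj : ∀ k k' : Fin 3, k.castSucc = k'.castSucc → k = k' := fun k k' h =>
    Fin.castSucc_injective _ h
  obtain ⟨C', hC0, hC⟩ := short_g hp hCnt hCr hFew (fun i => clsS (T i) (S i)) P Q D
    (fun i j hj h h3 i' hi' => by
      obtain ⟨k, hk⟩ := clsS_ne h h3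
      have := hex i i' (Ne.symm hi') k j hk hj
      exact clsS_none this.1 this.2)
    (fun i c hc => by
      obtain ⟨k, rfl⟩ := hcast c hc
      have e1 : univ.filter (fun j => j ∉ P ∧ clsS (T i) (S i) j = some k.castSucc) = S i k \ P := by
        ext j
        rw [mem_filter, mem_sdiff, clsS_S (hST i) (hSS i)]
        exact ⟨fun h => ⟨h.2.2, h.2.1⟩, fun h => ⟨mem_univ _, h.2, h.1⟩⟩
      have e2 : (univ.filter (fun j => j ∉ P ∧ (j ∈ Q ∧ Even (D i)) ∧
          clsS (T i) (S i) j = some k.castSucc)).card ≤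
          (if Even (D i) then (Qk f P (T i) (a i) (S i) k).card else 0) := by
        by_cases hE : Even (D i)
        · rw [if_pos hE]
          refine card_le_card fun j => ?_
          rw [mem_filter, clsS_S (hST i) (hSS i)]
          rintro ⟨-, hjP, ⟨hjQ, -⟩, hjS⟩
          rw [hQ, mem_filter] at hjQ
          obtain ⟨-, i', k', h'⟩ := hjQ
          have hj' := mem_sdiff.1 (mem_filter.1 h').1
          by_cases hi : i' = i
          · subst hi
            by_cases hk : k' = k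
            · rw [← hk]; exact h'
            · exact absurd hjS (disjoint_left.1 (hSS i' k' k hk) hj'.1)
          · exact absurd hjS ((hex i' i hi k' j hj'.1 hjP).2 k)
        · rw [if_neg hE, Nat.le_zero, card_eq_zero, filter_eq_empty_iff]
          rintro j - ⟨-, ⟨-, h⟩, -⟩
          exact hE h
      have e3 : (univ.filter (fun j => j ∉ P ∧ ∃ c' : Fin 4, c' ≠ 3 ∧ c' ≠ k.castSucc ∧
          clsS (T i) (S i) j = some c')).card = ∑ k' ∈ univ.erase k, (S i k' \ P).card := by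
        rw [← card_biUnion]
        · congr 1
          ext j
          rw [mem_filter, mem_biUnion]
          constructor
          · rintro ⟨-, hjP, c', hc', hne, hj⟩
            obtain ⟨k', rfl⟩ := hcast c' hc'
            rw [clsS_S (hST i) (hSS i)] at hj
            exact ⟨k', mem_erase.2 ⟨fun h => hne (by rw [h]), mem_univ _⟩, mem_sdiff.2 ⟨hj, hjP⟩⟩
          · rintro ⟨k', hk', hj⟩
            rw [mem_sdiff] at hj
            refine ⟨mem_univ _, hj.2, k'.castSucc, hcast3 k', fun h => ?_, ?_⟩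
            · exact (mem_erase.1 hk').1 (hcastinj _ _ h)
            · rw [clsS_S (hST i) (hSS i)]
              exact hj.1
        · intro k1 _ k2 _ h12
          exact (hSS i k1 k2 h12).mono sdiff_subset sdiff_subset
      rw [e1, e3]
      exact (Nat.add_le_add_left e2 _).trans (hn i k))
    a f ha hf hd (fun j l hjl h => hnd j l hjl ((hf j).associated_of_dvd (hf l) h))
    (fun i k => by
      rw [fsJ_clsS (hST i) (hSS i), sum_union (hST i k).symm]
      exact hD i k)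
    (fun i j hjP hjQ e he he3 => by
      obtain ⟨k, rfl⟩ := hcast e he3
      have hjS : j ∈ S i k := (clsS_S (hST i) (hSS i) k).1 he
      have hk : cp4 k.castSucc ≠ k := hcp k
      rw [hFPS]
      have h5 : j ∉ Qk f P (T i) (a i) (S i) k := fun h => hjQ (mem_filter.2 ⟨mem_univ _, i, k, h⟩)
      unfold Qk at h5
      rw [mem_filter, not_and] at h5
      have h6 := h5 (mem_sdiff.2 ⟨hjS, hjP⟩)
      push Not at h6
      exact h6 _ hk)
    (fun i u w => by rw [hFV, hFV, hFV]; exact hF i u w) ε hε K0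
  refine ⟨C', hC0, fun X H U W hX hH hU hW hHK => ?_⟩
  have h4 := hC X H U W hX hH hU hW hHK
  simp only [hFV] at h4
  refine le_trans (le_of_eq ?_) h4
  congr 1
  refine sum_congr rfl fun q _ => ?_
  unfold RRh
  refine prod_congr rfl fun i _ => ?_
  rw [hFV, hFV]

end Pool.Agent.L7h19.RP
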