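import Mathlib
import Pool.Agent.L7h19.RP.HCls

/-!
# Project RP, rational values of the parameter: irreducible binary forms
-/

set_option autoImplicit false

namespace Pool.Agent.L7h19.RP

open Finset Polynomial Pool.Agent.W262.RK Pool.Agent.W307.RT Pool.Agent.L7h19.RJ

section change

/-- the change of variables `(u, w) ↦ (m u - w, u)` -/
noncomputable def sb1 (m : ℤ) : MvPolynomial (Fin 2) ℤ →ₐ[ℤ] MvPolynomial (Fin 2) ℤ :=
  MvPolynomial.aeval ![MvPolynomial.C m * MvPolynomial.X 0 - MvPolynomial.X 1, MvPolynomial.X 0]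

/-- the inverse change of variables -/
noncomputable def sb2 (m : ℤ) : MvPolynomial (Fin 2) ℤ →ₐ[ℤ] MvPolynomial (Fin 2) ℤ :=
  MvPolynomial.aeval ![MvPolynomial.X 1, MvPolynomial.C m * MvPolynomial.X 1 - MvPolynomial.X 0]

lemma sb_comp1 (m : ℤ) : (sb1 m).comp (sb2 m) = AlgHom.id ℤ _ := by
  refine MvPolynomial.algHom_ext fun i => ?_
  fin_cases i
  · simp [sb1, sb2]
  · simp [sb1, sb2]

lemma sb_comp2 (m : ℤ) : (sb2 m).comp (sb1 m) = AlgHom.id ℤ _ := by
  refine MvPolynomial.algHom_ext fun i => ?_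
  fin_cases i
  · simp [sb1, sb2]
  · simp [sb1, sb2]

/-- the change of variables as an automorphism -/
noncomputable def sbE (m : ℤ) : MvPolynomial (Fin 2) ℤ ≃ₐ[ℤ] MvPolynomial (Fin 2) ℤ :=
  AlgEquiv.ofAlgHom (sb1 m) (sb2 m) (sb_comp1 m) (sb_comp2 m)

lemma sbE_apply (m : ℤ) (g : MvPolynomial (Fin 2) ℤ) : sbE m g = sb1 m g := rfl

lemma eval_sb1 (m u w : ℤ) (g : MvPolynomial (Fin 2) ℤ) :
    MvPolynomial.eval ![u, w] (sb1 m g) = MvPolynomial.eval ![m * u - w, u] g := by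
  have h : (MvPolynomial.eval ![u, w]).comp (sb1 m : MvPolynomial (Fin 2) ℤ →+* _) =
      MvPolynomial.eval ![m * u - w, u] := by
    refine MvPolynomial.ringHom_ext (fun r => ?_) fun i => ?_
    · simp
    · fin_cases i
      · simp [sb1]
      · simp [sb1]
  exact congrArg (fun φ : MvPolynomial (Fin 2) ℤ →+* ℤ => φ g) h

lemma hom_sb1 (m : ℤ) {g : MvPolynomial (Fin 2) ℤ} {d : ℕ} (hg : g.IsHomogeneous d) :
    (sb1 m g).IsHomogeneous d := by
  have h := hg.aeval (n := 1) (![MvPolynomial.C m * MvPolynomial.X 0 - MvPolynomial.X 1,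
    MvPolynomial.X 0] : Fin 2 → MvPolynomial (Fin 2) ℤ) (fun i => by
      fin_cases i
      · exact (MvPolynomial.isHomogeneous_C_mul_X m 0).sub (MvPolynomial.isHomogeneous_X ℤ 1)
      · exact MvPolynomial.isHomogeneous_X ℤ 0)
  rw [one_mul] at h
  exact h

/-- the dehomogenization after the change of variables -/
noncomputable def dh (m : ℤ) (g : MvPolynomial (Fin 2) ℤ) : ℤ[X] :=
  MvPolynomial.aeval ![X, 1] (sb1 m g)

lemma eval_homog (p : ℤ[X]) (n : ℕ) (u w : ℤ) :
    MvPolynomial.eval ![u, w] (p.homogenize n) =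
      ∑ i ∈ range (n + 1), p.coeff i * w ^ (n - i) * u ^ i := by
  have h := Finset.Nat.sum_antidiagonal_eq_sum_range_succ_mk
    (fun kl : ℕ × ℕ => p.coeff kl.1 * w ^ kl.2 * u ^ kl.1) n
  rw [← h]
  unfold homogenize
  rw [map_sum]
  refine sum_congr rfl fun kl _ => ?_
  rw [MvPolynomial.eval_monomial, Finsupp.prod_fintype _ _ (fun i => pow_zero _),
    Fin.prod_univ_two]
  simp
  ring

lemma homog_dh (m : ℤ) {g : MvPolynomial (Fin 2) ℤ} {d : ℕ} (hg : g.IsHomogeneous d) :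
    (dh m g).homogenize d = sb1 m g :=
  homogenize_eq_of_isHomogeneous (hom_sb1 m hg) rfl

lemma natDegree_dh_le (m : ℤ) {g : MvPolynomial (Fin 2) ℤ} {d : ℕ} (hg : g.IsHomogeneous d) :
    (dh m g).natDegree ≤ d := by
  have h := MvPolynomial.aeval_natDegree_le (m := d) (n := 1) (sb1 m g)
    (hom_sb1 m hg).totalDegree_le ![X, 1] (fun i => by
      fin_cases i
      · simp
      · simp)
  rwa [mul_one] at h

lemma coeff_dh (m : ℤ) {g : MvPolynomial (Fin 2) ℤ} {d : ℕ} (hg : g.IsHomogeneous d) :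
    (dh m g).coeff d = MvPolynomial.eval ![m, 1] g := by
  have h1 := eval_homog (dh m g) d 1 0
  rw [homog_dh m hg, eval_sb1, sum_range_succ, sum_eq_zero, zero_add, Nat.sub_self, pow_zero,
    mul_one, one_pow, mul_one, mul_one, sub_zero] at h1
  · exact h1.symm
  · intro i hi
    rw [zero_pow (by have := mem_range.1 hi; omega), mul_zero, zero_mul]

lemma natDegree_dh {m : ℤ} {g : MvPolynomial (Fin 2) ℤ} {d : ℕ} (hg : g.IsHomogeneous d)
    (hm : MvPolynomial.eval ![m, 1] g ≠ 0) : (dh m g).natDegree = d :=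
  le_antisymm (natDegree_dh_le m hg) (le_natDegree_of_ne_zero (by rw [coeff_dh m hg]; exact hm))

lemma hv_dh {m : ℤ} {g : MvPolynomial (Fin 2) ℤ} {d : ℕ} (hg : g.IsHomogeneous d)
    (hm : MvPolynomial.eval ![m, 1] g ≠ 0) (u w : ℤ) :
    hv (dh m g) u w = MvPolynomial.eval ![m * u - w, u] g := by
  rw [hv_sum, natDegree_dh hg hm, ← eval_homog, homog_dh m hg, eval_sb1]

lemma irr_dh {m : ℤ} {g : MvPolynomial (Fin 2) ℤ} {d : ℕ} (hg : g.IsHomogeneous d)
    (hm : MvPolynomial.eval ![m, 1] g ≠ 0) (hd : 0 < d) (hi : Irreducible g) :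
    Irreducible (dh m g) := by
  have hi' : Irreducible (sb1 m g) := by
    rw [← sbE_apply]
    exact (MulEquiv.irreducible_iff (sbE m)).2 hi
  have hnd := natDegree_dh hg hm
  refine ⟨fun hu => ?_, fun {a b} hab => ?_⟩
  · have := natDegree_eq_zero_of_isUnit hu
    omega
  · have hne : a * b ≠ 0 := by
      rw [← hab]
      intro h
      rw [h, natDegree_zero] at hnd
      omega
    have hdeg : a.natDegree + b.natDegree = d := by
      rw [← natDegree_mul (left_ne_zero_of_mul hne) (right_ne_zero_of_mul hne), ← hab, hnd]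
    have h1 : sb1 m g = a.homogenize a.natDegree * b.homogenize b.natDegree := by
      rw [← homog_dh m hg, ← hdeg, hab, homogenize_mul _ _ le_rfl le_rfl]
    have hun : ∀ p : ℤ[X], IsUnit (p.homogenize p.natDegree) → IsUnit p := by
      intro p hp
      have := hp.map (MvPolynomial.aeval ![(X : ℤ[X]), 1])
      rwa [aeval_homogenize_X_one _ le_rfl] at this
    rcases hi'.isUnit_or_isUnit h1 with h | h
    · exact Or.inl (hun a h)
    · exact Or.inr (hun b h)

lemma nassoc_dh {m : ℤ} {g g' : MvPolynomial (Fin 2) ℤ} {d d' : ℕ} (hg : g.IsHomogeneous d)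
    (hg' : g'.IsHomogeneous d') (hm : MvPolynomial.eval ![m, 1] g ≠ 0)
    (hm' : MvPolynomial.eval ![m, 1] g' ≠ 0) (hi : Irreducible g) (hi' : Irreducible g')
    (hn : ¬ Associated g g') : ¬ Associated (dh m g) (dh m g') := by
  intro h
  have h1 := homogenize_dvd h.dvd
  rw [natDegree_dh hg hm, natDegree_dh hg' hm', homog_dh m hg, homog_dh m hg', ← sbE_apply,
    ← sbE_apply] at h1
  have h2 : g ∣ g' := (map_dvd_iff (sbE m)).1 h1
  exact hn (hi.associated_of_dvd hi' h2)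

lemma eval_aeval_X (g : MvPolynomial (Fin 2) ℤ) (m : ℤ) :
    (MvPolynomial.aeval ![(X : ℤ[X]), 1] g).eval m = MvPolynomial.eval ![m, 1] g := by
  have h : (Polynomial.evalRingHom m).comp
      (MvPolynomial.aeval ![(X : ℤ[X]), 1] : MvPolynomial (Fin 2) ℤ →ₐ[ℤ] ℤ[X]).toRingHom =
      MvPolynomial.eval ![m, 1] := by
    refine MvPolynomial.ringHom_ext (fun r => ?_) fun i => ?_
    · simp
    · fin_cases i
      · simp
      · simp
  exact congrArg (fun φ : MvPolynomial (Fin 2) ℤ →+* ℤ => φ g) h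

/-- a value of `m` with `g_j(m, 1) ≠ 0` -/
lemma exists_m {J : Type} [Fintype J] (g : J → MvPolynomial (Fin 2) ℤ) (d : J → ℕ)
    (hg : ∀ j, (g j).IsHomogeneous (d j)) (h0 : ∀ j, g j ≠ 0) :
    ∃ m : ℤ, ∀ j, MvPolynomial.eval ![m, 1] (g j) ≠ 0 := by
  classical
  by_contra hcon
  push Not at hcon
  have h1 : ∏ j, (MvPolynomial.aeval ![(X : ℤ[X]), 1] (g j) : ℤ[X]) = 0 := by
    refine Polynomial.funext fun m => ?_
    obtain ⟨j, hj⟩ := hcon m
    rw [eval_prod, eval_zero]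
    exact prod_eq_zero (mem_univ j) (by rw [eval_aeval_X]; exact hj)
  obtain ⟨j, _, hj⟩ := prod_eq_zero_iff.1 h1
  apply h0 j
  rw [← homogenize_eq_of_isHomogeneous (hg j) hj, homogenize_zero]

end change

end Pool.Agent.L7h19.RP
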