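import Mathlib
import Pool.Agent.L7h19.RP.HForm

/-!
# Project RP, rational values of the parameter: the theorem for irreducible binary forms
-/

set_option autoImplicit false

namespace Pool.Agent.L7h19.RP

open Finset Polynomial Pool.Agent.W262.RK Pool.Agent.W307.RT Pool.Agent.L7h19.RJ

section degrees

lemma deg_eq {F0 F1 F2 : MvPolynomial (Fin 2) ℤ} {D0 D1 D2 : ℕ} (h0 : F0.IsHomogeneous D0)
    (h1 : F1.IsHomogeneous D1) (h2 : F2.IsHomogeneous D2) (n0 : F0 ≠ 0) (n1 : F1 ≠ 0)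
    (n2 : F2 ≠ 0) (h : F0 - F1 = F2) : D1 = D0 ∧ D2 = D0 := by
  by_cases he : D1 = D0
  · refine ⟨he, ?_⟩
    subst he
    exact h2.inj_right (h ▸ h0.sub h1) n2
  · exfalso
    have e0 : MvPolynomial.homogeneousComponent D0 F2 = F0 := by
      rw [← h, map_sub, MvPolynomial.homogeneousComponent_of_mem h0,
        MvPolynomial.homogeneousComponent_of_mem h1, if_pos rfl, if_neg (Ne.symm he), sub_zero]
    have e1 : MvPolynomial.homogeneousComponent D1 F2 = -F1 := by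
      rw [← h, map_sub, MvPolynomial.homogeneousComponent_of_mem h0,
        MvPolynomial.homogeneousComponent_of_mem h1, if_pos rfl, if_neg he, zero_sub]
    rw [MvPolynomial.homogeneousComponent_of_mem h2] at e0 e1
    by_cases h3 : D0 = D2
    · rw [if_neg (fun h => he (h.trans h3.symm))] at e1
      exact n1 (neg_eq_zero.1 e1.symm)
    · rw [if_neg h3] at e0
      exact n0 e0.symm

end degrees

variable {ι : Type} [Fintype ι] [DecidableEq ι] {J : Type} [Fintype J] [DecidableEq J]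

/-- the form `c ∏_T g_j ∏_S g_j` -/
noncomputable def FM2 (g : J → MvPolynomial (Fin 2) ℤ) (c : ℤ) (T S : Finset J) :
    MvPolynomial (Fin 2) ℤ := MvPolynomial.C c * (∏ j ∈ T, g j) * ∏ j ∈ S, g j

lemma FM2_hom {g : J → MvPolynomial (Fin 2) ℤ} {d : J → ℕ} (hg : ∀ j, (g j).IsHomogeneous (d j))
    (c : ℤ) (T S : Finset J) :
    (FM2 g c T S).IsHomogeneous (∑ j ∈ T, d j + ∑ j ∈ S, d j) := by
  unfold FM2
  have h1 : (∏ j ∈ T, g j).IsHomogeneous (∑ j ∈ T, d j) :=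
    MvPolynomial.IsHomogeneous.prod _ _ _ fun j _ => hg j
  have h2 : (∏ j ∈ S, g j).IsHomogeneous (∑ j ∈ S, d j) :=
    MvPolynomial.IsHomogeneous.prod _ _ _ fun j _ => hg j
  exact (h1.C_mul c).mul h2

lemma FM2_ne {g : J → MvPolynomial (Fin 2) ℤ} (hg : ∀ j, g j ≠ 0) {c : ℤ} (hc : c ≠ 0)
    (T S : Finset J) : FM2 g c T S ≠ 0 := by
  unfold FM2
  exact mul_ne_zero (mul_ne_zero (MvPolynomial.C_ne_zero.2 hc)
    (prod_ne_zero_iff.2 fun j _ => hg j)) (prod_ne_zero_iff.2 fun j _ => hg j)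

lemma eval_FM2 (g : J → MvPolynomial (Fin 2) ℤ) (c : ℤ) (T S : Finset J) (x : Fin 2 → ℤ) :
    MvPolynomial.eval x (FM2 g c T S) = c * (∏ j ∈ T, MvPolynomial.eval x (g j)) *
      ∏ j ∈ S, MvPolynomial.eval x (g j) := by
  unfold FM2
  rw [map_mul, map_mul, MvPolynomial.eval_C, map_prod, map_prod]

/-- the theorem for irreducible binary forms -/
theorem forms_all (hp : Parts) (hCnt : StCnt2) (g : J → MvPolynomial (Fin 2) ℤ) (d : J → ℕ)
    (hg : ∀ j, Irreducible (g j)) (hh : ∀ j, (g j).IsHomogeneous (d j)) (hd : ∀ j, 0 < d j)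
    (hnd : ∀ j l, j ≠ l → ¬ Associated (g j) (g l)) (T : ι → Finset J) (S : ι → Fin 3 → Finset J)
    (n : ι → ℕ) (hST : ∀ i k i', Disjoint (S i k) (T i'))
    (hSS : ∀ i k i' k', (i, k) ≠ (i', k') → Disjoint (S i k) (S i' k'))
    (hn : ∀ i k, (S i k).card = n i) (a : ι → Fin 3 → ℤ) (ha : ∀ i k, a i k ≠ 0)
    (hF : ∀ i, FM2 g (a i 0) (T i) (S i 0) - FM2 g (a i 1) (T i) (S i 1) =
      FM2 g (a i 2) (T i) (S i 2)) :
    ∃ C : ℝ, 0 ≤ C ∧ ∀ X : ℕ, 1 ≤ X →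
      ∑ q ∈ (Icc (-(X : ℤ)) X ×ˢ Icc (-(X : ℤ)) X).filter (fun q : ℤ × ℤ => IsCoprime q.1 q.2 ∧
        ∀ i k, MvPolynomial.eval ![q.1, q.2] (FM2 g (a i k) (T i) (S i k)) ≠ 0),
      ∏ i, (2 : ℝ) ^ Module.finrank ℤ (EAB
        (MvPolynomial.eval ![q.1, q.2] (FM2 g (a i 0) (T i) (S i 0)))
        (MvPolynomial.eval ![q.1, q.2] (FM2 g (a i 1) (T i) (S i 1)))).toAffine.Point ≤
        C * (X : ℝ) ^ 2 := by
  classical
  have hg0 : ∀ j, g j ≠ 0 := fun j => (hg j).ne_zero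
  obtain ⟨m, hm⟩ := exists_m g d hh hg0
  set D : ι → ℕ := fun i => ∑ j ∈ T i, d j + ∑ j ∈ S i 0, d j with hD
  have hDk : ∀ i k, ∑ j ∈ T i, d j + ∑ j ∈ S i k, d j = D i := by
    intro i k
    have h := deg_eq (FM2_hom hh (a i 0) (T i) (S i 0)) (FM2_hom hh (a i 1) (T i) (S i 1))
      (FM2_hom hh (a i 2) (T i) (S i 2)) (FM2_ne hg0 (ha i 0) _ _) (FM2_ne hg0 (ha i 1) _ _)
      (FM2_ne hg0 (ha i 2) _ _) (hF i)
    have hk : k = 0 ∨ k = 1 ∨ k = 2 := by
      revert k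
      decide
    rcases hk with rfl | rfl | rfl
    · rfl
    · exact h.1
    · exact h.2
  set f : J → ℤ[X] := fun j => dh m (g j) with hf
  have hnat : ∀ j, (f j).natDegree = d j := fun j => natDegree_dh (hh j) (hm j)
  have hval : ∀ j (u w : ℤ), hv (f j) u w = MvPolynomial.eval ![m * u - w, u] (g j) :=
    fun j u w => hv_dh (hh j) (hm j) u w
  have hval2 : ∀ i k (u w : ℤ), a i k * (∏ j ∈ T i, hv (f j) u w) * ∏ j ∈ S i k, hv (f j) u w =
      MvPolynomial.eval ![m * u - w, u] (FM2 g (a i k) (T i) (S i k)) := by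
    intro i k u w
    rw [eval_FM2]
    simp only [hval]
  obtain ⟨C, hC0, hC⟩ := fin_sets_h hp hCnt T S n hST hSS hn a f D ha
    (fun j => irr_dh (hh j) (hm j) (hd j) (hg j)) (fun j => by rw [hnat]; exact hd j)
    (fun j l hjl => nassoc_dh (hh j) (hh l) (hm j) (hm l) (hg j) (hg l) (hnd j l hjl))
    (fun i k => by simp only [hnat]; exact hDk i k)
    (fun i u w => by
      rw [hval2, hval2, hval2, ← map_sub, hF i])
  refine ⟨C * ((m.natAbs : ℝ) + 1) ^ 2, by positivity, fun X hX => ?_⟩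
  set Y : ℕ := (m.natAbs + 1) * X with hY
  set G : ℤ × ℤ → ℝ := fun q => ∏ i, (2 : ℝ) ^ Module.finrank ℤ (EAB
        (MvPolynomial.eval ![q.1, q.2] (FM2 g (a i 0) (T i) (S i 0)))
        (MvPolynomial.eval ![q.1, q.2] (FM2 g (a i 1) (T i) (S i 1)))).toAffine.Point with hG
  set ψ : ℤ × ℤ → ℤ × ℤ := fun q => (q.2, m * q.2 - q.1) with hψ
  have h4 : ∑ q ∈ (Icc (-(Y : ℤ)) Y ×ˢ Icc (-(Y : ℤ)) Y).filter (fun q : ℤ × ℤ =>
      IsCoprime q.1 q.2 ∧ ∀ i k,
        MvPolynomial.eval ![m * q.1 - q.2, q.1] (FM2 g (a i k) (T i) (S i k)) ≠ 0),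
      G (m * q.1 - q.2, q.1) ≤ C * (Y : ℝ) ^ 2 := by
    refine le_trans (le_of_eq ?_) (hC Y (by rw [hY]; exact Nat.mul_pos (by omega) (by omega)))
    refine sum_congr (filter_congr fun q _ => ?_) fun q _ => ?_
    · simp only [hval2]
    · rw [hG]
      refine prod_congr rfl fun i _ => ?_
      rw [hval2, hval2]
  have hG' : ∀ q, G q = G (m * (ψ q).1 - (ψ q).2, (ψ q).1) := by
    intro q
    congr 1
    rw [hψ]
    ext
    · show q.1 = m * q.2 - (m * q.2 - q.1)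
      ring
    · rfl
  have hinj : Function.Injective ψ := by
    intro q q' h
    rw [hψ] at h
    simp only [Prod.mk.injEq] at h
    obtain ⟨h1, h2⟩ := h
    rw [h1] at h2
    exact Prod.ext (by linarith) h1
  set A := (Icc (-(X : ℤ)) X ×ˢ Icc (-(X : ℤ)) X).filter (fun q : ℤ × ℤ => IsCoprime q.1 q.2 ∧
        ∀ i k, MvPolynomial.eval ![q.1, q.2] (FM2 g (a i k) (T i) (S i k)) ≠ 0) with hA
  have e1 : ∑ q ∈ A, G q = ∑ q ∈ A.image ψ, G (m * q.1 - q.2, q.1) := by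
    rw [sum_image (fun q _ q' _ h => hinj h)]
    exact sum_congr rfl fun q _ => hG' q
  have hsub : A.image ψ ⊆ (Icc (-(Y : ℤ)) Y ×ˢ Icc (-(Y : ℤ)) Y).filter (fun q : ℤ × ℤ =>
      IsCoprime q.1 q.2 ∧ ∀ i k,
        MvPolynomial.eval ![m * q.1 - q.2, q.1] (FM2 g (a i k) (T i) (S i k)) ≠ 0) := by
    intro q' hq'
    obtain ⟨q, hq, rfl⟩ := mem_image.1 hq'
    rw [hA, mem_filter, mem_product, mem_Icc, mem_Icc] at hq
    obtain ⟨⟨⟨hu1, hu2⟩, hw1, hw2⟩, hc, h0⟩ := hq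
    rw [mem_filter, mem_product, mem_Icc, mem_Icc]
    have hXY' : X ≤ Y := Nat.le_mul_of_pos_left X (Nat.succ_pos _)
    have hXY : (X : ℤ) ≤ Y := by exact_mod_cast hXY'
    have hb : |m * q.2 - q.1| ≤ Y := by
      have e1 : |m * q.2 - q.1| ≤ |m| * |q.2| + |q.1| := by
        calc |m * q.2 - q.1| ≤ |m * q.2| + |q.1| := abs_sub _ _
          _ = _ := by rw [abs_mul]
      have e2 : |q.2| ≤ X := abs_le.2 ⟨hw1, hw2⟩
      have e3 : |q.1| ≤ X := abs_le.2 ⟨hu1, hu2⟩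
      have e4 : |m| * |q.2| ≤ |m| * X := mul_le_mul_of_nonneg_left e2 (abs_nonneg m)
      have e5 : (Y : ℤ) = |m| * X + X := by
        rw [hY]
        push_cast
        ring
      omega
    have hb' := abs_le.1 hb
    refine ⟨⟨⟨by show -(Y : ℤ) ≤ q.2; omega, by show q.2 ≤ (Y : ℤ); omega⟩, hb'.1, hb'.2⟩, ?_, ?_⟩
    · show IsCoprime q.2 (m * q.2 - q.1)
      have h5 : IsCoprime q.2 (-q.1 + m * q.2) := by
        have := (IsCoprime.add_mul_right_right (hc.symm.neg_right) m)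
        exact this
      have h6 : m * q.2 - q.1 = -q.1 + m * q.2 := by ring
      rw [h6]
      exact h5
    · intro i k
      have h6 : m * (ψ q).1 - (ψ q).2 = q.1 := by
        show m * q.2 - (m * q.2 - q.1) = q.1
        ring
      rw [h6]
      exact h0 i k
  have hG0 : ∀ q, 0 ≤ G q := fun q => prod_nonneg fun i _ => by positivity
  show ∑ q ∈ A, G q ≤ _
  rw [e1]
  refine (sum_le_sum_of_subset_of_nonneg hsub fun q _ _ => hG0 _).trans (le_trans h4 (le_of_eq ?_))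
  rw [hY]
  push_cast
  ring

end Pool.Agent.L7h19.RP
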