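import Mathlib
import Pool.Agent.L7h19.RP.HForm
import Pool.Agent.L7h19.RP.MajN

/-!
# Project RP (helper19, MP_157626_nt): squares in the function field of the curve `g = 0`
-/

set_option autoImplicit false

namespace Pool.Agent.L7h19.RP

open Polynomial

/-- `F` is a square in the field of fractions of `ℤ[u, w] / (g)` -/
def SqM (g F : MvPolynomial (Fin 2) ℤ) : Prop :=
  ∃ A B : MvPolynomial (Fin 2) ℤ, ¬ g ∣ B ∧ g ∣ B ^ 2 * F - A ^ 2

/-- **StSq**: clear the denominators in `κ(θ) = (a(θ) / b(θ)) ^ 2` (`f := dh m g ∣ b ^ 2 κ - a ^ 2` in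
`ℤ[X]`, `¬ f ∣ b`: Gauss's lemma, as `f` is irreducible in `ℤ[X]` of positive degree) and homogenize
(`homog_dh`, `homogenize_mul`, `homogenize_dvd` of Mathlib, see `HForm.lean`; `F = F^h` of even degree
`D = 2 D'`, `b` to the degree `N`, `a` to the degree `N + D'`, `N` large); at the end apply the
inverse of the automorphism `sbE m`. -/
def StSq : Prop := ∀ (m : ℤ) (g F : MvPolynomial (Fin 2) ℤ) (d D : ℕ), g.IsHomogeneous d →
  F.IsHomogeneous D → 0 < d → Irreducible g → MvPolynomial.eval ![m, 1] g ≠ 0 → Even D →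
  SqAt (dh m g) (dh m F) → SqM g F

end Pool.Agent.L7h19.RP
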