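import Mathlib
import Pool.Agent.L7h19.RP.GCls
import Pool.Agent.L7h19.RP.HAll
import Pool.Agent.L7h19.RP.Stm8

/-!
# Project RP, rational values of the parameter: short rectangles, binary forms
-/

set_option autoImplicit false

namespace Pool.Agent.L7h19.RP

open Finset Polynomial Pool.Agent.W262.RK Pool.Agent.W307.RT Pool.Agent.L7h19.RJ

section cover

lemma sum_biUnion_le_nn {α β : Type*} [DecidableEq β] (s : Finset α) (t : α → Finset β)
    (G : β → ℝ) (hG : ∀ q, 0 ≤ G q) : ∑ q ∈ s.biUnion t, G q ≤ ∑ i ∈ s, ∑ q ∈ t i, G q := by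
  classical
  induction s using Finset.induction_on with
  | empty => simp
  | insert i s hi ih =>
    rw [biUnion_insert, sum_insert hi]
    have h1 : ∑ q ∈ t i ∪ s.biUnion t, G q ≤ ∑ q ∈ t i, G q + ∑ q ∈ s.biUnion t, G q := by
      rw [← sum_union_inter]
      exact le_add_of_nonneg_right (sum_nonneg fun q _ => hG q)
    linarith

lemma cover_sum (G : ℤ × ℤ → ℝ) (hG : ∀ q, 0 ≤ G q) (u1 u2 w1 w2 : ℤ) (H : ℕ) (hH : 1 ≤ H)
    (hu : (H : ℤ) ≤ u2 - u1) (hw : (H : ℤ) ≤ w2 - w1) (R : ℝ) (hR0 : 0 ≤ R)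
    (hR : ∀ x0 y0 : ℤ, u1 - 1 ≤ x0 → x0 ≤ u2 → w1 - 1 ≤ y0 → y0 ≤ w2 →
      ∑ q ∈ Ioc x0 (x0 + H) ×ˢ Ioc y0 (y0 + H), G q ≤ R * (H : ℝ) ^ 2) :
    ∑ q ∈ Icc u1 u2 ×ˢ Icc w1 w2, G q ≤ 4 * R * (((u2 : ℝ) - u1) * ((w2 : ℝ) - w1)) := by
  classical
  have hHp : (0 : ℤ) < H := by exact_mod_cast hH
  have hHr : (0 : ℝ) < H := by exact_mod_cast hH
  have key : ∀ s e : ℤ, (H : ℤ) ≤ e - s → ∃ n : ℕ, (n : ℝ) * H ≤ 2 * ((e : ℝ) - s) ∧
      (∀ t ∈ Icc s e, ∃ i ∈ range n, t ∈ Ioc (s - 1 + i * H) (s - 1 + i * H + H)) ∧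
      ∀ i ∈ range n, s - 1 ≤ s - 1 + (i : ℤ) * H ∧ s - 1 + (i : ℤ) * H ≤ e := by
    intro s e hse
    have h0 : 0 ≤ (e - s) / H := Int.ediv_nonneg (by omega) hHp.le
    refine ⟨((e - s) / H).toNat + 1, ?_, fun t ht => ?_, fun i hi => ?_⟩
    · have e1 : (((e - s) / H).toNat : ℤ) * H ≤ e - s := by
        rw [Int.toNat_of_nonneg h0]
        exact Int.ediv_mul_le _ hHp.ne'
      have e2 : ((((e - s) / H).toNat : ℕ) : ℝ) * H ≤ (e : ℝ) - s := by exact_mod_cast e1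
      have e3 : (H : ℝ) ≤ (e : ℝ) - s := by exact_mod_cast hse
      push_cast
      linarith
    · rw [mem_Icc] at ht
      have e0 : 0 ≤ (t - s) / H := Int.ediv_nonneg (by omega) hHp.le
      refine ⟨((t - s) / H).toNat, ?_, ?_⟩
      · rw [mem_range]
        have : (t - s) / H ≤ (e - s) / H := Int.ediv_le_ediv hHp (by omega)
        omega
      · rw [mem_Ioc, Int.toNat_of_nonneg e0]
        have e1 := Int.ediv_mul_le (t - s) hHp.ne'
        have e2 := Int.lt_ediv_add_one_mul_self (t - s) hHp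
        rw [add_mul, one_mul] at e2
        omega
    · rw [mem_range] at hi
      have e1 : (i : ℤ) ≤ (e - s) / H := by omega
      have e2 : (i : ℤ) * H ≤ (e - s) / H * H := mul_le_mul_of_nonneg_right e1 hHp.le
      have e3 := Int.ediv_mul_le (e - s) hHp.ne'
      have e4 : (0 : ℤ) ≤ (i : ℤ) * H := by positivity
      omega
  obtain ⟨n1, h11, h12, h13⟩ := key u1 u2 hu
  obtain ⟨n2, h21, h22, h23⟩ := key w1 w2 hw
  have hsub : Icc u1 u2 ×ˢ Icc w1 w2 ⊆ (range n1 ×ˢ range n2).biUnion (fun ij : ℕ × ℕ =>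
      Ioc (u1 - 1 + (ij.1 : ℤ) * H) (u1 - 1 + (ij.1 : ℤ) * H + H) ×ˢ
      Ioc (w1 - 1 + (ij.2 : ℤ) * H) (w1 - 1 + (ij.2 : ℤ) * H + H)) := by
    rintro ⟨x, y⟩ hq
    rw [mem_product] at hq
    obtain ⟨i, hi, hx⟩ := h12 x hq.1
    obtain ⟨j, hj, hy⟩ := h22 y hq.2
    exact mem_biUnion.2 ⟨(i, j), mem_product.2 ⟨hi, hj⟩, mem_product.2 ⟨hx, hy⟩⟩
  have h1 : ∑ q ∈ Icc u1 u2 ×ˢ Icc w1 w2, G q ≤ ∑ ij ∈ range n1 ×ˢ range n2,
      ∑ q ∈ Ioc (u1 - 1 + (ij.1 : ℤ) * H) (u1 - 1 + (ij.1 : ℤ) * H + H) ×ˢ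
      Ioc (w1 - 1 + (ij.2 : ℤ) * H) (w1 - 1 + (ij.2 : ℤ) * H + H), G q := by
    refine (sum_le_sum_of_subset_of_nonneg hsub fun q _ _ => hG q).trans ?_
    exact sum_biUnion_le_nn _ _ G hG
  have h2 : ∑ ij ∈ range n1 ×ˢ range n2,
      ∑ q ∈ Ioc (u1 - 1 + (ij.1 : ℤ) * H) (u1 - 1 + (ij.1 : ℤ) * H + H) ×ˢ
      Ioc (w1 - 1 + (ij.2 : ℤ) * H) (w1 - 1 + (ij.2 : ℤ) * H + H), G q ≤
      ∑ _ij ∈ range n1 ×ˢ range n2, R * (H : ℝ) ^ 2 := by
    refine sum_le_sum fun ij hij => ?_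
    rw [mem_product] at hij
    have e1 := h13 ij.1 hij.1
    have e2 := h23 ij.2 hij.2
    exact hR _ _ e1.1 e1.2 e2.1 e2.2
  refine h1.trans (h2.trans ?_)
  rw [sum_const, card_product, card_range, card_range, nsmul_eq_mul]
  push_cast
  have h3 : ((n1 : ℝ) * H) * ((n2 : ℝ) * H) ≤ (2 * ((u2 : ℝ) - u1)) * (2 * ((w2 : ℝ) - w1)) :=
    mul_le_mul h11 h21 (by positivity) (by
      have : (H : ℝ) ≤ (u2 : ℝ) - u1 := by exact_mod_cast hu
      linarith)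
  calc (n1 : ℝ) * n2 * (R * (H : ℝ) ^ 2) = R * (((n1 : ℝ) * H) * ((n2 : ℝ) * H)) := by ring
    _ ≤ R * ((2 * ((u2 : ℝ) - u1)) * (2 * ((w2 : ℝ) - w1))) := mul_le_mul_of_nonneg_left h3 hR0
    _ = _ := by ring

end cover

variable {ι : Type} [Fintype ι] [DecidableEq ι] {J : Type} [Fintype J] [DecidableEq J]

open Classical in
/-- the elements `j ∉ P` of `S k` such that `F_{k'}` or `-F_{k'}`, `k' ≠ k`, is a square in the
function field of the curve `g_j = 0` -/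
noncomputable def QM (g : J → MvPolynomial (Fin 2) ℤ) (P T : Finset J) (a : Fin 3 → ℤ)
    (S : Fin 3 → Finset J) (k : Fin 3) : Finset J :=
  (S k \ P).filter (fun j => ∃ k', k' ≠ k ∧
    (SqM (g j) (FM2 g (a k') T (S k')) ∨ SqM (g j) (-(FM2 g (a k') T (S k')))))

lemma dh_FM2 (m : ℤ) (g : J → MvPolynomial (Fin 2) ℤ) (c : ℤ) (T S : Finset J) :
    dh m (FM2 g c T S) = FS (fun j => dh m (g j)) c T S := by
  unfold dh FM2 FS
  rw [map_mul, map_mul, map_mul, map_mul, map_prod, map_prod, map_prod, map_prod]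
  congr 2
  rw [MvPolynomial.algHom_C, AlgHom.commutes]
  rfl

lemma dh_neg (m : ℤ) (F : MvPolynomial (Fin 2) ℤ) : dh m (-F) = -(dh m F) := by
  unfold dh
  rw [map_neg, map_neg]

open Classical in
/-- the theorem for irreducible binary forms, in short rectangles -/
theorem forms_g (hp : PartsN) (hCnt : StCnt3) (hCr : StCrude) (hFew : StFew) (hSq : StSq)
    (g : J → MvPolynomial (Fin 2) ℤ) (d : J → ℕ)
    (hg : ∀ j, Irreducible (g j)) (hh : ∀ j, (g j).IsHomogeneous (d j)) (hd : ∀ j, 0 < d j)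
    (hnd : ∀ j l, j ≠ l → ¬ Associated (g j) (g l)) (P : Finset J) (T : ι → Finset J)
    (S : ι → Fin 3 → Finset J) (a : ι → Fin 3 → ℤ) (ha : ∀ i k, a i k ≠ 0)
    (hST : ∀ i k, Disjoint (S i k) (T i))
    (hSS : ∀ i k k', k ≠ k' → Disjoint (S i k) (S i k'))
    (hex : ∀ i i', i ≠ i' → ∀ k, ∀ j ∈ S i k, j ∉ P → j ∉ T i' ∧ ∀ k', j ∉ S i' k')
    (hn : ∀ i k, (S i k \ P).card + (QM g P (T i) (a i) (S i) k).card ≤
      ∑ k' ∈ univ.erase k, (S i k' \ P).card)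
    (hF : ∀ i, FM2 g (a i 0) (T i) (S i 0) - FM2 g (a i 1) (T i) (S i 1) =
      FM2 g (a i 2) (T i) (S i 2)) (ε : ℝ) (hε : 0 < ε) :
    ∃ C : ℝ, ∀ (X : ℕ) (u1 u2 w1 w2 : ℤ), 1 ≤ X → -(X : ℤ) ≤ u1 → u2 ≤ X → -(X : ℤ) ≤ w1 →
      w2 ≤ X → (X : ℝ) ^ ε ≤ (u2 : ℝ) - u1 → (X : ℝ) ^ ε ≤ (w2 : ℝ) - w1 →
      (Real.log X) ^ P.card *
      ∑ q ∈ (Icc u1 u2 ×ˢ Icc w1 w2).filter (fun q : ℤ × ℤ => IsCoprime q.1 q.2 ∧
        (∀ i k, MvPolynomial.eval ![q.1, q.2] (FM2 g (a i k) (T i) (S i k)) ≠ 0) ∧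
        ∀ j ∈ P, (MvPolynomial.eval ![q.1, q.2] (g j)).natAbs.Prime),
      ∏ i, (2 : ℝ) ^ Module.finrank ℤ (EAB
        (MvPolynomial.eval ![q.1, q.2] (FM2 g (a i 0) (T i) (S i 0)))
        (MvPolynomial.eval ![q.1, q.2] (FM2 g (a i 1) (T i) (S i 1)))).toAffine.Point ≤
        C * (((u2 : ℝ) - u1) * ((w2 : ℝ) - w1)) := by
  have hg0 : ∀ j, g j ≠ 0 := fun j => (hg j).ne_zero
  obtain ⟨m, hm⟩ := exists_m g d hh hg0
  set D : ι → ℕ := fun i => ∑ j ∈ T i, d j + ∑ j ∈ S i 0, d j with hD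
  have hDk : ∀ i k, ∑ j ∈ T i, d j + ∑ j ∈ S i k, d j = D i := by
    intro i k
    have h := deg_eq (FM2_hom hh (a i 0) (T i) (S i 0)) (FM2_hom hh (a i 1) (T i) (S i 1))
      (FM2_hom hh (a i 2) (T i) (S i 2)) (FM2_ne hg0 (ha i 0) _ _) (FM2_ne hg0 (ha i 1) _ _)
      (FM2_ne hg0 (ha i 2) _ _) (hF i)
    have hk : k = 0 ∨ k = 1 ∨ k = 2 := by
      revert k
      decide
    rcases hk with rfl | rfl | rfl
    · rfl
    · exact h.1
    · exact h.2
  set f : J → ℤ[X] := fun j => dh m (g j) with hf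
  have hnat : ∀ j, (f j).natDegree = d j := fun j => natDegree_dh (hh j) (hm j)
  have hval : ∀ j (u w : ℤ), hv (f j) u w = MvPolynomial.eval ![m * u - w, u] (g j) :=
    fun j u w => hv_dh (hh j) (hm j) u w
  have hval2 : ∀ i k (u w : ℤ), a i k * (∏ j ∈ T i, hv (f j) u w) * ∏ j ∈ S i k, hv (f j) u w =
      MvPolynomial.eval ![m * u - w, u] (FM2 g (a i k) (T i) (S i k)) := by
    intro i k u w
    rw [eval_FM2]
    simp only [hval]
  have hhom : ∀ i k, (FM2 g (a i k) (T i) (S i k)).IsHomogeneous (D i) := fun i k => by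
    rw [← hDk i k]
    exact FM2_hom hh _ _ _
  have hQ : ∀ i k, Even (D i) → Qk f P (T i) (a i) (S i) k ⊆ QM g P (T i) (a i) (S i) k := by
    intro i k hE j hj
    unfold Qk at hj
    rw [mem_filter] at hj
    unfold QM
    rw [mem_filter]
    obtain ⟨hj1, k', hk', hj2⟩ := hj
    refine ⟨hj1, k', hk', ?_⟩
    rw [← dh_FM2, ← dh_neg] at hj2
    rcases hj2 with h | h
    · exact Or.inl (hSq m (g j) _ (d j) (D i) (hh j) (hhom i k') (hd j) (hg j) (hm j) hE h)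
    · exact Or.inr (hSq m (g j) _ (d j) (D i) (hh j) (hhom i k').neg (hd j) (hg j) (hm j) hE h)
  set K0 : ℕ := 10 * (m.natAbs + 1) with hK0
  set M : ℕ := 2 * m.natAbs + 1 with hM
  obtain ⟨C, hC0, hC⟩ := sets_g hp hCnt hCr hFew P T S a f D hST hSS hex
    (fun i k => by
      refine le_trans (Nat.add_le_add_left ?_ _) (hn i k)
      split_ifs with hE
      · exact card_le_card (hQ i k hE)
      · exact Nat.zero_le _) ha
    (fun j => irr_dh (hh j) (hm j) (hd j) (hg j)) (fun j => by rw [hnat]; exact hd j)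
    (fun j l hjl => nassoc_dh (hh j) (hh l) (hm j) (hm l) (hg j) (hg l) (hnd j l hjl))
    (fun i k => by simp only [hnat]; exact hDk i k)
    (fun i u w => by
      rw [hval2, hval2, hval2, ← map_sub, hF i]) ε hε K0
  refine ⟨4 * (C * (M : ℝ) ^ 2), fun X u1 u2 w1 w2 hX hu1 hu2 hw1 hw2 hu hw => ?_⟩
  have hXr : (1 : ℝ) ≤ X := by exact_mod_cast hX
  have hXe : (1 : ℝ) ≤ (X : ℝ) ^ ε := Real.one_le_rpow hXr hε.le
  have hlog : 0 ≤ (Real.log X) ^ P.card := pow_nonneg (Real.log_nonneg hXr) _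
  set ok : ℤ × ℤ → Prop := fun q => IsCoprime q.1 q.2 ∧
        (∀ i k, MvPolynomial.eval ![q.1, q.2] (FM2 g (a i k) (T i) (S i k)) ≠ 0) ∧
        ∀ j ∈ P, (MvPolynomial.eval ![q.1, q.2] (g j)).natAbs.Prime with hok
  set F0 : ℤ × ℤ → ℝ := fun q => ∏ i, (2 : ℝ) ^ Module.finrank ℤ (EAB
        (MvPolynomial.eval ![q.1, q.2] (FM2 g (a i 0) (T i) (S i 0)))
        (MvPolynomial.eval ![q.1, q.2] (FM2 g (a i 1) (T i) (S i 1)))).toAffine.Point with hF0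
  have hF00 : ∀ q, 0 ≤ F0 q := fun q => prod_nonneg fun i _ => by positivity
  set G : ℤ × ℤ → ℝ := fun q => (Real.log X) ^ P.card * (if ok q then F0 q else 0) with hG
  have hG0 : ∀ q, 0 ≤ G q := fun q => by
    rw [hG]
    dsimp only
    split_ifs
    · exact mul_nonneg hlog (hF00 q)
    · rw [mul_zero]
  have hGs : ∀ A : Finset (ℤ × ℤ), ∑ q ∈ A, G q =
      (Real.log X) ^ P.card * ∑ q ∈ A.filter ok, F0 q := by
    intro A
    rw [hG, ← mul_sum, sum_filter]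
  -- the side of the squares
  have h1u : (1 : ℤ) ≤ u2 - u1 := by
    have : (1 : ℝ) ≤ (u2 : ℝ) - u1 := hXe.trans hu
    exact_mod_cast this
  have h1w : (1 : ℤ) ≤ w2 - w1 := by
    have : (1 : ℝ) ≤ (w2 : ℝ) - w1 := hXe.trans hw
    exact_mod_cast this
  set H : ℕ := (min (u2 - u1) (w2 - w1)).toNat with hH
  have hHz : (H : ℤ) = min (u2 - u1) (w2 - w1) := by
    rw [hH, Int.toNat_of_nonneg]
    exact le_min (by omega) (by omega)
  have hHu : (H : ℤ) ≤ u2 - u1 := hHz ▸ min_le_left _ _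
  have hHw : (H : ℤ) ≤ w2 - w1 := hHz ▸ min_le_right _ _
  have hH1 : 1 ≤ H := by
    have : (1 : ℤ) ≤ H := by rw [hHz]; exact le_min h1u h1w
    exact_mod_cast this
  have hXH : (X : ℝ) ^ ε ≤ H := by
    have e1 : (H : ℝ) = min ((u2 : ℝ) - u1) ((w2 : ℝ) - w1) := by
      have : ((H : ℤ) : ℝ) = ((min (u2 - u1) (w2 - w1) : ℤ) : ℝ) := by rw [hHz]
      push_cast at this
      exact this
    rw [e1]
    exact le_min hu hw
  have hM1 : 1 ≤ M := by omega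
  have h9 := cover_sum G hG0 u1 u2 w1 w2 H hH1 hHu hHw (C * (M : ℝ) ^ 2) (by positivity)
    (fun x0 y0 hx1 hx2 hy1 hy2 => ?_)
  · rw [hGs] at h9
    exact h9
  -- the squares
  set W : ℤ := m * y0 - x0 - H - 1 - |m| * H with hW
  set ψ : ℤ × ℤ → ℤ × ℤ := fun q => (q.2, m * q.2 - q.1) with hψ
  have hinj : Function.Injective ψ := by
    intro q q' h
    rw [hψ] at h
    simp only [Prod.mk.injEq] at h
    obtain ⟨h1, h2⟩ := h
    rw [h1] at h2
    exact Prod.ext (by linarith) h1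
  have hcop : ∀ q : ℤ × ℤ, IsCoprime q.1 q.2 → IsCoprime q.2 (m * q.2 - q.1) := by
    intro q hc
    have h5 : IsCoprime q.2 (-q.1 + m * q.2) := IsCoprime.add_mul_right_right (hc.symm.neg_right) m
    have h6 : m * q.2 - q.1 = -q.1 + m * q.2 := by ring
    rw [h6]
    exact h5
  have hmH : (((M * H : ℕ) : ℤ)) = 2 * (|m| * H) + H := by
    rw [hM]
    push_cast
    ring
  have hmabs : |m * H| = |m| * H := by rw [abs_mul, Nat.abs_cast]
  have hHX : H ≤ 2 * X := by omega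
  have hMH : M * H ≤ K0 * X := by
    rw [hM, hK0]
    nlinarith
  have hy0 : y0.natAbs ≤ 3 * X := by omega
  have hx0 : x0.natAbs ≤ 3 * X := by omega
  have hy0' : y0.natAbs ≤ K0 * X := by
    rw [hK0]
    nlinarith
  have hW' : W.natAbs ≤ K0 * X := by
    have e1 : (W.natAbs : ℤ) ≤ |m| * |y0| + |x0| + H + 1 + |m| * H := by
      rw [Int.natCast_natAbs, hW]
      have e2 : |m * y0| = |m| * |y0| := abs_mul _ _
      have e3 : (0 : ℤ) ≤ |m| * H := by positivity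
      have e4 : (0 : ℤ) ≤ H := by positivity
      rw [← e2]
      refine abs_le.2 ⟨?_, ?_⟩
      · have := neg_abs_le (m * y0)
        have := le_abs_self x0
        linarith
      · have := le_abs_self (m * y0)
        have := neg_abs_le x0
        linarith
    have e4 : |y0| ≤ 3 * X := by
      rw [Int.abs_eq_natAbs]
      exact_mod_cast hy0
    have e5 : |x0| ≤ 3 * X := by
      rw [Int.abs_eq_natAbs]
      exact_mod_cast hx0
    have e6 : |m| * |y0| ≤ |m| * (3 * X) := mul_le_mul_of_nonneg_left e4 (abs_nonneg m)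
    have e7 : |m| * (H : ℤ) ≤ |m| * (2 * X) := mul_le_mul_of_nonneg_left (by omega) (abs_nonneg m)
    have e8 : ((K0 * X : ℕ) : ℤ) = 10 * (|m| * X) + 10 * X := by
      rw [hK0]
      push_cast
      ring
    have e9 : (0 : ℤ) ≤ |m| * X := by positivity
    have e10 : (W.natAbs : ℤ) ≤ ((K0 * X : ℕ) : ℤ) := by
      rw [e8]
      nlinarith
    exact_mod_cast e10
  have h4 := hC X (M * H) y0 W hX (hXH.trans (by
    have : H ≤ M * H := Nat.le_mul_of_pos_left H (by omega)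
    exact_mod_cast this)) hy0' hW' hMH
  set B := (Ioc y0 (y0 + ((M * H : ℕ) : ℤ)) ×ˢ Ioc W (W + ((M * H : ℕ) : ℤ))).filter
    (fun q : ℤ × ℤ => IsCoprime q.1 q.2 ∧
        (∀ i k, a i k * (∏ j ∈ T i, hv (f j) q.1 q.2) * ∏ j ∈ S i k, hv (f j) q.1 q.2 ≠ 0) ∧
        ∀ j ∈ P, (hv (f j) q.1 q.2).natAbs.Prime) with hB
  have hsub : ((Ioc x0 (x0 + H) ×ˢ Ioc y0 (y0 + H)).filter ok).image ψ ⊆ B := by
    intro q' hq'
    obtain ⟨q, hq, rfl⟩ := mem_image.1 hq'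
    rw [mem_filter, mem_product, mem_Ioc, mem_Ioc] at hq
    obtain ⟨⟨⟨hq1, hq2⟩, hq3, hq4⟩, hc, hq5, hq6⟩ := hq
    have h6 : m * (ψ q).1 - (ψ q).2 = q.1 := by
      show m * q.2 - (m * q.2 - q.1) = q.1
      ring
    rw [hB, mem_filter, mem_product, mem_Ioc, mem_Ioc]
    refine ⟨⟨⟨hq3, ?_⟩, ?_, ?_⟩, hcop q hc, fun i k => ?_, fun j hj => ?_⟩
    · show q.2 ≤ _
      have e3 : (0 : ℤ) ≤ |m| * H := by positivity
      rw [hmH]
      omega
    · show W < m * q.2 - q.1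
      have e1 : m * (q.2 - y0) ≥ -(|m| * H) := by
        have e2 : |m * (q.2 - y0)| ≤ |m| * H := by
          rw [abs_mul]
          refine mul_le_mul_of_nonneg_left ?_ (abs_nonneg m)
          rw [abs_of_nonneg (by omega)]
          omega
        exact neg_le_of_abs_le e2
      rw [hW]
      nlinarith
    · show m * q.2 - q.1 ≤ W + _
      have e1 : m * (q.2 - y0) ≤ |m| * H := by
        have e2 : |m * (q.2 - y0)| ≤ |m| * H := by
          rw [abs_mul]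
          refine mul_le_mul_of_nonneg_left ?_ (abs_nonneg m)
          rw [abs_of_nonneg (by omega)]
          omega
        exact le_of_abs_le e2
      rw [hmH, hW]
      nlinarith
    · rw [hval2, h6]
      exact hq5 i k
    · rw [hval, h6]
      exact hq6 j hj
  rw [hGs]
  have h7 : ∑ q ∈ (Ioc x0 (x0 + H) ×ˢ Ioc y0 (y0 + H)).filter ok, F0 q ≤ ∑ q ∈ B,
      ∏ i, (2 : ℝ) ^ Module.finrank ℤ (EAB
        (a i 0 * (∏ j ∈ T i, hv (f j) q.1 q.2) * ∏ j ∈ S i 0, hv (f j) q.1 q.2)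
        (a i 1 * (∏ j ∈ T i, hv (f j) q.1 q.2) *
          ∏ j ∈ S i 1, hv (f j) q.1 q.2)).toAffine.Point := by
    have e1 : ∑ q ∈ (Ioc x0 (x0 + H) ×ˢ Ioc y0 (y0 + H)).filter ok, F0 q =
        ∑ q ∈ ((Ioc x0 (x0 + H) ×ˢ Ioc y0 (y0 + H)).filter ok).image ψ,
        ∏ i, (2 : ℝ) ^ Module.finrank ℤ (EAB
        (a i 0 * (∏ j ∈ T i, hv (f j) q.1 q.2) * ∏ j ∈ S i 0, hv (f j) q.1 q.2)
        (a i 1 * (∏ j ∈ T i, hv (f j) q.1 q.2) *
          ∏ j ∈ S i 1, hv (f j) q.1 q.2)).toAffine.Point := by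
      rw [sum_image (fun q _ q' _ h => hinj h)]
      refine sum_congr rfl fun q _ => ?_
      rw [hF0]
      dsimp only
      refine prod_congr rfl fun i _ => ?_
      have h6 : m * (ψ q).1 - (ψ q).2 = q.1 := by
        show m * q.2 - (m * q.2 - q.1) = q.1
        ring
      rw [hval2, hval2, h6]
    rw [e1]
    exact sum_le_sum_of_subset_of_nonneg hsub fun q _ _ => prod_nonneg fun i _ => by positivity
  refine (mul_le_mul_of_nonneg_left h7 hlog).trans (h4.trans (le_of_eq ?_))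
  push_cast
  ring

end Pool.Agent.L7h19.RP
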